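import Mathlib

/-! # SSR, part R: ramification groups and exponents of the different: definitions (no sorry)

N ⊆ L number fields. Gp Q n s: the automorphism s acts trivially modulo Q^n (lower numbering: s in G_(n-1)). G2 N Q: the second ramification group of Q in
L/N is trivial (only the identity acts trivially modulo Q^3). ex Q I: the exponent of the prime Q in the ideal I. -/

open NumberField IsDedekindDomain

namespace SSR

section

variable {N : Type} [Field N] [NumberField N] {L : Type} [Field L] [NumberField L] [Algebra N L]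

/-- s acts trivially modulo Q^n. -/
def Gp (Q : Ideal (𝓞 L)) (n : ℕ) (s : L ≃ₐ[N] L) : Prop := ∀ x : 𝓞 L, s • x - x ∈ Q ^ n

variable (N) in
/-- The second ramification group of Q is trivial. -/
def G2 (Q : Ideal (𝓞 L)) : Prop := ∀ s : L ≃ₐ[N] L, Gp Q 3 s → s = 1

/-- The exponent of Q in I. -/
noncomputable def ex (Q : HeightOneSpectrum (𝓞 L)) (I : Ideal (𝓞 L)) : ℕ := multiplicity Q.asIdeal I

theorem ex_fin (Q : HeightOneSpectrum (𝓞 L)) {I : Ideal (𝓞 L)} (hI : I ≠ ⊥) : FiniteMultiplicity Q.asIdeal I :=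
  FiniteMultiplicity.of_prime_left Q.prime hI

theorem ex_mul (Q : HeightOneSpectrum (𝓞 L)) {I J : Ideal (𝓞 L)} (hI : I ≠ ⊥) (hJ : J ≠ ⊥) : ex Q (I * J) = ex Q I + ex Q J :=
  multiplicity_mul Q.prime (ex_fin Q (mul_ne_zero hI hJ))

theorem ex_pow (Q : HeightOneSpectrum (𝓞 L)) {I : Ideal (𝓞 L)} (hI : I ≠ ⊥) (n : ℕ) : ex Q (I ^ n) = n * ex Q I :=
  FiniteMultiplicity.multiplicity_pow Q.prime (ex_fin Q hI)

omit [NumberField L] in
theorem ex_zero (Q : HeightOneSpectrum (𝓞 L)) {I : Ideal (𝓞 L)} (hI : ¬ I ≤ Q.asIdeal) : ex Q I = 0 :=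
  multiplicity_eq_zero.2 fun h => hI (Ideal.le_of_dvd h)

theorem le_iff_ex (Q : HeightOneSpectrum (𝓞 L)) {I : Ideal (𝓞 L)} (hI : I ≠ ⊥) (n : ℕ) : I ≤ Q.asIdeal ^ n ↔ n ≤ ex Q I := by
  rw [← Ideal.dvd_iff_le]
  exact (ex_fin Q hI).pow_dvd_iff_le_multiplicity

theorem different_ne : differentIdeal (𝓞 N) (𝓞 L) ≠ ⊥ := differentIdeal_ne_bot

end

end SSR
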