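import Mathlib
import Pool.Agent.Lib.SSR.RD

/-! # SSR, part N: local norms in a totally ramified cyclic step of degree p: definitions (no sorry) -/

open NumberField IsDedekindDomain

namespace SSR

/-- The prime v of N above p is totally ramified in L (degree p), w above it, and the exponent of the different at w is (p - 1)(t + 1). -/
structure TRam (p : ℕ) {N : Type} [Field N] [NumberField N] {L : Type} [Field L] [NumberField L] [Algebra N L]
    (v : HeightOneSpectrum (𝓞 N)) (w : HeightOneSpectrum (𝓞 L)) (t : ℕ) : Prop where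
  mem : (p : 𝓞 N) ∈ v.asIdeal
  map : v.asIdeal.map (algebraMap (𝓞 N) (𝓞 L)) = w.asIdeal ^ p
  pos : 1 ≤ t
  dif : ex w (differentIdeal (𝓞 N) (𝓞 L)) = (p - 1) * (t + 1)

end SSR
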