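import Mathlib
import Pool.Agent.Lib.SSR.ND

open NumberField IsDedekindDomain

namespace SSR

variable {N : Type} [Field N] [NumberField N] {L : Type} [Field L] [NumberField L] [Algebra N L]

open FractionalIdeal nonZeroDivisors in
/-- The case of a principal ideal. -/
theorem n1_key (M : Ideal (𝓞 L)) (hM : M ≠ ⊥) (a : 𝓞 N) (ha : a ≠ 0) :
    M * differentIdeal (𝓞 N) (𝓞 L) ≤ Ideal.span {algebraMap (𝓞 N) (𝓞 L) a} ↔
      ∀ y ∈ M, Algebra.intTrace (𝓞 N) (𝓞 L) y ∈ Ideal.span {a} := by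
  have haL : algebraMap N L (algebraMap (𝓞 N) N a) ≠ 0 := by
    rw [Ne, map_eq_zero, FaithfulSMul.algebraMap_eq_zero_iff]
    exact ha
  have haeq : algebraMap (𝓞 L) L (algebraMap (𝓞 N) (𝓞 L) a) =
      algebraMap N L (algebraMap (𝓞 N) N a) := by
    rw [← IsScalarTower.algebraMap_apply, ← IsScalarTower.algebraMap_apply]
  have hM' : (M : FractionalIdeal (𝓞 L)⁰ L) ≠ 0 := coeIdeal_ne_zero.2 hM
  have hX : spanSingleton (𝓞 L)⁰ (algebraMap N L (algebraMap (𝓞 N) N a)) *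
      (M : FractionalIdeal (𝓞 L)⁰ L)⁻¹ ≠ 0 := by
    refine mul_ne_zero ?_ (inv_ne_zero hM')
    rw [Ne, spanSingleton_eq_zero_iff]
    exact haL
  have h1 : M * differentIdeal (𝓞 N) (𝓞 L) ≤ Ideal.span {algebraMap (𝓞 N) (𝓞 L) a} ↔
      ((differentIdeal (𝓞 N) (𝓞 L) : Ideal (𝓞 L)) : FractionalIdeal (𝓞 L)⁰ L) ≤
        spanSingleton (𝓞 L)⁰ (algebraMap N L (algebraMap (𝓞 N) N a)) *
          (M : FractionalIdeal (𝓞 L)⁰ L)⁻¹ := by
    rw [← coeIdeal_le_coeIdeal L, coeIdeal_mul, coeIdeal_span_singleton, haeq]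
    constructor
    · intro h
      have h2 := mul_le_mul_left h ((M : FractionalIdeal (𝓞 L)⁰ L)⁻¹)
      rw [mul_comm (M : FractionalIdeal (𝓞 L)⁰ L), mul_assoc, mul_inv_cancel₀ hM', mul_one] at h2
      exact h2
    · intro h
      have h2 := mul_le_mul_left h (M : FractionalIdeal (𝓞 L)⁰ L)
      rw [mul_assoc, inv_mul_cancel₀ hM', mul_one, mul_comm] at h2
      exact h2
  rw [h1, differentialIdeal_le_fractionalIdeal_iff (K := N) hX, mul_inv, inv_inv,
    spanSingleton_inv]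
  constructor
  · intro h y hy
    have hmem : (algebraMap N L (algebraMap (𝓞 N) N a))⁻¹ * algebraMap (𝓞 L) L y ∈
        spanSingleton (𝓞 L)⁰ (algebraMap N L (algebraMap (𝓞 N) N a))⁻¹ *
          (M : FractionalIdeal (𝓞 L)⁰ L) :=
      mul_mem_mul (mem_spanSingleton_self _ _) (mem_coeIdeal_of_mem _ hy)
    have h2 := h (Submodule.mem_map_of_mem (f := (Algebra.trace N L).restrictScalars (𝓞 N)) hmem)
    rw [Submodule.mem_one] at h2
    obtain ⟨c, hc⟩ := h2
    rw [LinearMap.restrictScalars_apply, ← map_inv₀, ← Algebra.smul_def, map_smul, smul_eq_mul,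
      ← Algebra.algebraMap_intTrace (A := 𝓞 N)] at hc
    rw [Ideal.mem_span_singleton]
    refine ⟨c, ?_⟩
    have haN : algebraMap (𝓞 N) N a ≠ 0 := by
      rw [Ne, FaithfulSMul.algebraMap_eq_zero_iff]
      exact ha
    apply FaithfulSMul.algebraMap_injective (𝓞 N) N
    rw [map_mul, hc, mul_inv_cancel_left₀ haN]
  · intro h
    rw [Submodule.map_le_iff_le_comap]
    intro x hx
    have hx' : x ∈ spanSingleton (𝓞 L)⁰ (algebraMap N L (algebraMap (𝓞 N) N a))⁻¹ *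
          (M : FractionalIdeal (𝓞 L)⁰ L) := hx
    rw [mem_singleton_mul] at hx'
    obtain ⟨z, hz, rfl⟩ := hx'
    rw [mem_coeIdeal] at hz
    obtain ⟨y, hy, rfl⟩ := hz
    obtain ⟨c, hc⟩ := Ideal.mem_span_singleton.1 (h y hy)
    rw [Submodule.mem_comap, Submodule.mem_one]
    refine ⟨c, ?_⟩
    have haN : algebraMap (𝓞 N) N a ≠ 0 := by
      rw [Ne, FaithfulSMul.algebraMap_eq_zero_iff]
      exact ha
    rw [LinearMap.restrictScalars_apply, ← map_inv₀, ← Algebra.smul_def, map_smul, smul_eq_mul,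
      ← Algebra.algebraMap_intTrace (A := 𝓞 N), hc, map_mul, inv_mul_cancel_left₀ haN]

/-! Chunk N1 (M). The trace and the different. PROOF of n1_trace. In the field L: Tr(I) <= J iff for all z in I, c in J⁻¹: Tr(c z) in 𝓞 N iff J⁻¹ I <= dual of 1 = different⁻¹ iff
I * different <= J 𝓞 L (J 𝓞 L invertible). Mathlib: differentialIdeal_le_fractionalIdeal_iff, FractionalIdeal.mem_dual, FractionalIdeal.dual, coeIdeal_differentIdeal (𝓞 N) N L (𝓞 L),
Submodule.mem_traceDual, Algebra.algebraMap_intTrace (the trace of N <= L restricted to integers). Possibly easier, elementary version: both sides can be checked after multiplying with an ideal: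
choose 0 ≠ c in J (or J J' = (c)): I * D <= J 𝓞 L iff J' I D <= (c) iff c⁻¹ J' I <= D⁻¹ iff Tr(c⁻¹ J' I) <= 𝓞 N iff Tr(J' I) <= (c) = J J' iff (J' Tr(I) <= J J') iff Tr(I) <= J. -/

theorem n1_trace (I : Ideal (𝓞 L)) (J : Ideal (𝓞 N)) (hJ : J ≠ ⊥) :
    (∀ z ∈ I, Algebra.intTrace (𝓞 N) (𝓞 L) z ∈ J) ↔ I * differentIdeal (𝓞 N) (𝓞 L) ≤ J.map (algebraMap (𝓞 N) (𝓞 L)) := by
  by_cases hI : I = ⊥
  · subst hI
    constructor
    · intro _
      rw [Ideal.bot_mul]
      exact bot_le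
    · intro _ z hz
      rw [Ideal.mem_bot] at hz
      rw [hz, map_zero]
      exact J.zero_mem
  obtain ⟨a, haJ, ha⟩ := Submodule.exists_mem_ne_zero_of_ne_bot hJ
  obtain ⟨J', hJ'⟩ : J ∣ Ideal.span {a} :=
    Ideal.dvd_iff_le.2 ((Ideal.span_singleton_le_iff_mem J).2 haJ)
  have hspan : Ideal.span {a} ≠ (⊥ : Ideal (𝓞 N)) := by
    rw [Ne, Ideal.span_singleton_eq_bot]
    exact ha
  have hJ'0 : J' ≠ ⊥ := by
    rintro rfl
    exact hspan (by rw [hJ', Ideal.mul_bot])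
  have hmap0 : J'.map (algebraMap (𝓞 N) (𝓞 L)) ≠ ⊥ := by
    intro h
    exact hJ'0 ((Ideal.map_eq_bot_iff_of_injective
      (FaithfulSMul.algebraMap_injective (𝓞 N) (𝓞 L))).1 h)
  have hM : J'.map (algebraMap (𝓞 N) (𝓞 L)) * I ≠ ⊥ := mul_ne_zero hmap0 hI
  have e1 : I * differentIdeal (𝓞 N) (𝓞 L) ≤ J.map (algebraMap (𝓞 N) (𝓞 L)) ↔
      J'.map (algebraMap (𝓞 N) (𝓞 L)) * I * differentIdeal (𝓞 N) (𝓞 L) ≤
        Ideal.span {algebraMap (𝓞 N) (𝓞 L) a} := by
    have h2 : Ideal.span {algebraMap (𝓞 N) (𝓞 L) a} =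
        J'.map (algebraMap (𝓞 N) (𝓞 L)) * J.map (algebraMap (𝓞 N) (𝓞 L)) := by
      rw [← Ideal.map_mul, mul_comm J' J, ← hJ', Ideal.map_span, Set.image_singleton]
    rw [h2, mul_assoc, ← Ideal.dvd_iff_le, ← Ideal.dvd_iff_le, mul_dvd_mul_iff_left hmap0]
  rw [e1, n1_key _ hM a ha, hJ']
  constructor
  · intro h y hy
    refine Submodule.mul_induction_on hy ?_ ?_
    · intro m hm
      refine Submodule.span_induction
        (p := fun m _ => ∀ z ∈ I, Algebra.intTrace (𝓞 N) (𝓞 L) (m * z) ∈ J * J') ?_ ?_ ?_ ?_ hm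
      · rintro _ ⟨c, hc, rfl⟩ z hz
        rw [← Algebra.smul_def, map_smul, smul_eq_mul, mul_comm c]
        exact Ideal.mul_mem_mul (h z hz) hc
      · intro z _
        rw [zero_mul, map_zero]
        exact Ideal.zero_mem _
      · intro x y _ _ hx hy z hz
        rw [add_mul, map_add]
        exact Ideal.add_mem _ (hx z hz) (hy z hz)
      · intro b x _ hx z hz
        rw [smul_eq_mul, mul_assoc, mul_left_comm]
        exact hx (b * z) (Ideal.mul_mem_left _ _ hz)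
    · intro x y hx hy
      rw [map_add]
      exact Ideal.add_mem _ hx hy
  · intro h z hz
    have h3 : J' * Ideal.span {Algebra.intTrace (𝓞 N) (𝓞 L) z} ≤ J' * J := by
      rw [Ideal.mul_le]
      intro c hc t ht
      obtain ⟨b, rfl⟩ := Ideal.mem_span_singleton'.1 ht
      have h4 := h (algebraMap (𝓞 N) (𝓞 L) c * z)
        (Ideal.mul_mem_mul (Ideal.mem_map_of_mem _ hc) hz)
      rw [← Algebra.smul_def, map_smul, smul_eq_mul, mul_comm J J'] at h4
      rw [mul_left_comm]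
      exact Ideal.mul_mem_left _ _ h4
    rw [← Ideal.dvd_iff_le, mul_dvd_mul_iff_left hJ'0, Ideal.dvd_iff_le,
      Ideal.span_singleton_le_iff_mem] at h3
    exact h3

end SSR
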