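import Mathlib
import Pool.Agent.Lib.SSR.N1

open NumberField IsDedekindDomain

namespace SSR

variable {N : Type} [Field N] [NumberField N] {L : Type} [Field L] [NumberField L] [Algebra N L]

theorem n2_map {p : ℕ} {v : HeightOneSpectrum (𝓞 N)} {w : HeightOneSpectrum (𝓞 L)} {t : ℕ}
    (h : TRam p v w t) (i : ℕ) :
    (v.asIdeal ^ i).map (algebraMap (𝓞 N) (𝓞 L)) = w.asIdeal ^ (p * i) := by
  rw [Ideal.map_pow, h.map, ← pow_mul]

theorem n2_iff {p : ℕ} {v : HeightOneSpectrum (𝓞 N)} {w : HeightOneSpectrum (𝓞 L)} {t : ℕ}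
    (h : TRam p v w t) (n i : ℕ) :
    (∀ z ∈ w.asIdeal ^ n, Algebra.intTrace (𝓞 N) (𝓞 L) z ∈ v.asIdeal ^ i) ↔
      p * i ≤ n + (p - 1) * (t + 1) := by
  have hw : w.asIdeal ≠ ⊥ := w.ne_bot
  have hwn : w.asIdeal ^ n ≠ ⊥ := pow_ne_zero n hw
  rw [n1_trace _ _ (pow_ne_zero i v.ne_bot), n2_map h,
    le_iff_ex w (mul_ne_zero hwn different_ne), ex_mul w hwn different_ne, h.dif, ex_pow w hw]
  have h1 : ex w w.asIdeal = 1 := by
    have h2 : FiniteMultiplicity w.asIdeal w.asIdeal := ex_fin w hw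
    exact multiplicity_self
  rw [h1, mul_one]

/-! Chunk N2 (S/M). PROOF. n2_le, n2_not: n1_trace with I = w^n, J = v^i: (v^i) 𝓞 L = w^(p i) (Ideal.map_pow, h.map), ex w (w^n * D) = n + (p - 1)(t + 1) (ex_mul, ex_pow, ex w w = 1), le_iff_ex.
n2_surj: T = {Tr z | z in w^n} + v^(i+1) is an ideal of 𝓞 N (Tr is 𝓞 N-linear: Algebra.intTrace is a linear map; T = Submodule.map (Algebra.intTrace ..) (w^n restricted to 𝓞 N) ⊔ v^(i+1)),
v^(i+1) < T <= v^i (n2_le, n2_not), so T = v^i: T divides v^(i+1), so T = v^j with j <= i + 1 ((Ideal.dvd_prime_pow / dvd_prime_pow) v.prime), i <= j (T <= v^i; Ideal.pow_le_pow... by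
multiplicity) and j ≠ i + 1. -/

theorem n2_le {p : ℕ} {v : HeightOneSpectrum (𝓞 N)} {w : HeightOneSpectrum (𝓞 L)} {t : ℕ} (h : TRam p v w t) {n i : ℕ}
    (hni : p * i ≤ n + (p - 1) * (t + 1)) {z : 𝓞 L} (hz : z ∈ w.asIdeal ^ n) : Algebra.intTrace (𝓞 N) (𝓞 L) z ∈ v.asIdeal ^ i :=
  (n2_iff h n i).2 hni z hz

theorem n2_not {p : ℕ} {v : HeightOneSpectrum (𝓞 N)} {w : HeightOneSpectrum (𝓞 L)} {t : ℕ} (h : TRam p v w t) {n i : ℕ}
    (hni : n + (p - 1) * (t + 1) < p * (i + 1)) : ∃ z ∈ w.asIdeal ^ n, Algebra.intTrace (𝓞 N) (𝓞 L) z ∉ v.asIdeal ^ (i + 1) := by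
  by_contra hc
  push Not at hc
  have h1 := (n2_iff h n (i + 1)).1 hc
  omega

theorem n2_surj {p : ℕ} {v : HeightOneSpectrum (𝓞 N)} {w : HeightOneSpectrum (𝓞 L)} {t : ℕ} (h : TRam p v w t) {n i : ℕ}
    (h1 : p * i ≤ n + (p - 1) * (t + 1)) (h2 : n + (p - 1) * (t + 1) < p * (i + 1)) (a : 𝓞 N) (ha : a ∈ v.asIdeal ^ i) :
    ∃ z ∈ w.asIdeal ^ n, Algebra.intTrace (𝓞 N) (𝓞 L) z - a ∈ v.asIdeal ^ (i + 1) := by
  let T : Ideal (𝓞 N) := Submodule.map (Algebra.intTrace (𝓞 N) (𝓞 L))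
    ((w.asIdeal ^ n).restrictScalars (𝓞 N)) ⊔ v.asIdeal ^ (i + 1)
  have hT1 : T ≤ v.asIdeal ^ i := by
    refine sup_le ?_ (Ideal.pow_le_pow_right (Nat.le_succ i))
    rintro _ ⟨z, hz, rfl⟩
    exact n2_le h h1 hz
  have hT2 : T ∣ v.asIdeal ^ (i + 1) := Ideal.dvd_iff_le.2 le_sup_right
  obtain ⟨j, hj, hTj⟩ := (dvd_prime_pow v.prime (i + 1)).1 hT2
  rw [associated_iff_eq] at hTj
  have hne : j ≠ i + 1 := by
    rintro rfl
    obtain ⟨z, hz, hz2⟩ := n2_not h h2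
    apply hz2
    rw [← hTj]
    exact Ideal.mem_sup_left ⟨z, hz, rfl⟩
  have hij : i ≤ j := by
    rw [hTj, ← Ideal.dvd_iff_le, pow_dvd_pow_iff v.ne_bot v.prime.not_isUnit] at hT1
    exact hT1
  have hji : j = i := by omega
  rw [hji] at hTj
  rw [← hTj] at ha
  obtain ⟨y, hy, b, hb, hab⟩ := Submodule.mem_sup.1 ha
  obtain ⟨z, hz, rfl⟩ := hy
  refine ⟨z, hz, ?_⟩
  have h3 : Algebra.intTrace (𝓞 N) (𝓞 L) z - a = -b := by
    rw [← hab]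
    ring
  rw [h3]
  exact neg_mem hb

end SSR
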