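import Mathlib
import Pool.Agent.Lib.SSR.N2

open NumberField IsDedekindDomain

namespace SSR

section algebra

variable {B : Type*} [CommRing B] {σ : Type*} [Fintype σ]

/-- The elementary symmetric functions. -/
noncomputable def n3_e (ζ : σ → B) (k : ℕ) : B :=
  ∑ t ∈ Finset.powersetCard k (Finset.univ : Finset σ), ∏ s ∈ t, ζ s

theorem n3_e_eq (ζ : σ → B) (k : ℕ) :
    MvPolynomial.aeval ζ (MvPolynomial.esymm σ ℤ k) = n3_e ζ k := by
  rw [MvPolynomial.esymm, map_sum, n3_e]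
  refine Finset.sum_congr rfl fun t _ => ?_
  rw [map_prod]
  exact Finset.prod_congr rfl fun s _ => MvPolynomial.aeval_X ζ s

theorem n3_psum (ζ : σ → B) (k : ℕ) :
    MvPolynomial.aeval ζ (MvPolynomial.psum σ ℤ k) = ∑ s, ζ s ^ k := by
  rw [MvPolynomial.psum, map_sum]
  refine Finset.sum_congr rfl fun s _ => ?_
  rw [map_pow, MvPolynomial.aeval_X]

theorem n3_mul (ζ : σ → B) (k : ℕ) :
    (k : B) * n3_e ζ k = (-1) ^ (k + 1) *
      ∑ a ∈ (Finset.HasAntidiagonal.antidiagonal k).filter (fun a => a.1 < k),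
        (-1) ^ a.1 * n3_e ζ a.1 * ∑ s, ζ s ^ a.2 := by
  have h := congrArg (MvPolynomial.aeval ζ) (MvPolynomial.mul_esymm_eq_sum σ ℤ k)
  rw [map_mul, map_natCast, n3_e_eq, map_mul, map_pow, map_neg, map_one, map_sum] at h
  rw [h]
  congr 1
  refine Finset.sum_congr rfl fun a _ => ?_
  rw [map_mul, map_mul, map_pow, map_neg, map_one, n3_e_eq, n3_psum]

theorem n3_e_zero (ζ : σ → B) : n3_e ζ 0 = 1 := by
  rw [n3_e, Finset.powersetCard_zero, Finset.sum_singleton, Finset.prod_empty]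

theorem n3_e_one (ζ : σ → B) : n3_e ζ 1 = ∑ s, ζ s := by
  rw [n3_e, Finset.powersetCard_one, Finset.sum_map]
  refine Finset.sum_congr rfl fun s _ => ?_
  exact Finset.prod_singleton _ _

theorem n3_prod (ζ : σ → B) :
    ∏ s, (1 + ζ s) = ∑ k ∈ Finset.range (Fintype.card σ + 1), n3_e ζ k := by
  classical
  rw [Finset.prod_one_add, Finset.sum_powerset]
  rfl

theorem n3_newton (ζ : σ → B) (K₁ K₂ : Ideal B) (h12 : K₂ ≤ K₁) (h11 : K₁ * K₁ ≤ K₂) (p : ℕ)
    (h1 : ∑ s, ζ s ∈ K₁) (hP : ∀ b, 2 ≤ b → ∑ s, ζ s ^ b ∈ K₂)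
    (hk : ∀ k : ℕ, 2 ≤ k → k < p → ∀ x : B, (k : B) * x ∈ K₂ → x ∈ K₂) :
    ∀ k, 2 ≤ k → k < p → n3_e ζ k ∈ K₂ := by
  intro k
  induction k using Nat.strong_induction_on with
  | _ k ih =>
    intro hk2 hkp
    apply hk k hk2 hkp
    rw [n3_mul]
    refine Ideal.mul_mem_left _ _ (Ideal.sum_mem _ fun a ha => ?_)
    rw [Finset.mem_filter, Finset.HasAntidiagonal.mem_antidiagonal] at ha
    obtain ⟨hak, hlt⟩ := ha
    rcases Nat.lt_or_ge a.1 2 with h2 | h2
    · rcases Nat.eq_zero_or_pos a.1 with h0 | h0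
      · have h3 : a.2 = k := by omega
        rw [h3]
        exact Ideal.mul_mem_left _ _ (hP k hk2)
      · have h3 : a.1 = 1 := by omega
        rw [h3, n3_e_one, mul_assoc]
        refine Ideal.mul_mem_left _ _ (h11 (Ideal.mul_mem_mul h1 ?_))
        rcases Nat.lt_or_ge a.2 2 with h4 | h4
        · have h5 : a.2 = 1 := by omega
          rw [h5]
          simpa only [pow_one] using h1
        · exact h12 (hP _ h4)
    · exact Ideal.mul_mem_right _ _ (Ideal.mul_mem_left _ _ (ih a.1 hlt h2 (by omega)))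

end algebra

variable {N : Type} [Field N] [NumberField N] {L : Type} [Field L] [NumberField L] [Algebra N L]

omit [NumberField N] [NumberField L] in
theorem n3_coe (x : 𝓞 N) : algebraMap (𝓞 L) L (algebraMap (𝓞 N) (𝓞 L) x) =
    algebraMap N L (algebraMap (𝓞 N) N x) := by
  rw [← IsScalarTower.algebraMap_apply, ← IsScalarTower.algebraMap_apply]

theorem n3_tr [IsGalois N L] (z : 𝓞 L) :
    algebraMap (𝓞 N) (𝓞 L) (Algebra.intTrace (𝓞 N) (𝓞 L) z) = ∑ s : L ≃ₐ[N] L, s • z := by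
  apply FaithfulSMul.algebraMap_injective (𝓞 L) L
  rw [n3_coe, Algebra.algebraMap_intTrace (L := L), trace_eq_sum_automorphisms, map_sum]
  rfl

theorem n3_nm [IsGalois N L] (z : 𝓞 L) :
    algebraMap (𝓞 N) (𝓞 L) (Algebra.intNorm (𝓞 N) (𝓞 L) z) = ∏ s : L ≃ₐ[N] L, s • z := by
  apply FaithfulSMul.algebraMap_injective (𝓞 L) L
  rw [n3_coe, Algebra.algebraMap_intNorm (L := L), Algebra.norm_eq_prod_automorphisms, map_prod]
  rfl

omit [NumberField N] [NumberField L] in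
theorem n3_fix (s : L ≃ₐ[N] L) (x : 𝓞 N) :
    s • algebraMap (𝓞 N) (𝓞 L) x = algebraMap (𝓞 N) (𝓞 L) x := by
  apply FaithfulSMul.algebraMap_injective (𝓞 L) L
  have h : algebraMap (𝓞 L) L (s • algebraMap (𝓞 N) (𝓞 L) x) =
      s (algebraMap (𝓞 L) L (algebraMap (𝓞 N) (𝓞 L) x)) := rfl
  rw [h, n3_coe, s.commutes]

theorem n3_prim (w : HeightOneSpectrum (𝓞 L)) (c x : 𝓞 L) (hc : c ∉ w.asIdeal) (m : ℕ)
    (h : c * x ∈ w.asIdeal ^ m) : x ∈ w.asIdeal ^ m := by
  have hco : IsCoprime (Ideal.span {c}) w.asIdeal := by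
    rw [Ideal.isCoprime_iff_sup_eq]
    have hle : w.asIdeal < Ideal.span {c} ⊔ w.asIdeal := by
      refine lt_of_le_of_ne le_sup_right fun he => hc ?_
      rw [he]
      exact Ideal.mem_sup_left (Ideal.mem_span_singleton_self c)
    exact w.isMaximal.1.2 _ hle
  obtain ⟨i, hi, j, hj, hij⟩ := Ideal.isCoprime_iff_exists.1 (hco.pow_right (n := m))
  obtain ⟨d, rfl⟩ := Ideal.mem_span_singleton'.1 hi
  have hx : x = d * (c * x) + j * x := by
    rw [← mul_assoc, ← add_mul, hij, one_mul]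
  rw [hx]
  exact Ideal.add_mem _ (Ideal.mul_mem_left _ _ h) (Ideal.mul_mem_right _ _ hj)

theorem n3_stab {p : ℕ} (hp : p.Prime) {v : HeightOneSpectrum (𝓞 N)}
    {w : HeightOneSpectrum (𝓞 L)} {t : ℕ} (h : TRam p v w t) (s : L ≃ₐ[N] L) (n : ℕ) (z : 𝓞 L)
    (hz : z ∈ w.asIdeal ^ n) : s • z ∈ w.asIdeal ^ n := by
  have hpr : (w.asIdeal.comap (MulSemiringAction.toRingHom (L ≃ₐ[N] L) (𝓞 L) s)).IsPrime :=
    Ideal.comap_isPrime _ _
  have h1 : w.asIdeal ^ p ≤ w.asIdeal.comap (MulSemiringAction.toRingHom (L ≃ₐ[N] L) (𝓞 L) s) := by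
    rw [← h.map, Ideal.map_le_iff_le_comap]
    intro x hx
    rw [Ideal.mem_comap, Ideal.mem_comap]
    have h2 : MulSemiringAction.toRingHom (L ≃ₐ[N] L) (𝓞 L) s (algebraMap (𝓞 N) (𝓞 L) x) =
      algebraMap (𝓞 N) (𝓞 L) x := n3_fix s x
    rw [h2]
    have h3 : algebraMap (𝓞 N) (𝓞 L) x ∈ w.asIdeal ^ p := by
      rw [← h.map]
      exact Ideal.mem_map_of_mem _ hx
    exact Ideal.pow_le_self hp.ne_zero h3
  have h2 : w.asIdeal ≤ w.asIdeal.comap (MulSemiringAction.toRingHom (L ≃ₐ[N] L) (𝓞 L) s) :=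
    hpr.le_of_pow_le h1
  have h3 : (w.asIdeal ^ n).map (MulSemiringAction.toRingHom (L ≃ₐ[N] L) (𝓞 L) s) ≤
      w.asIdeal ^ n := by
    rw [Ideal.map_pow]
    exact Ideal.pow_right_mono (Ideal.map_le_iff_le_comap.2 h2) n
  exact h3 (Ideal.mem_map_of_mem (MulSemiringAction.toRingHom (L ≃ₐ[N] L) (𝓞 L) s) hz)

/-! Chunk N3 (M). The norm of 1 + z. i ≥ t + 1, n = t + p (i - t), z in w^n. PROOF. Conjugates z_s = s • z, s in Gal(L/N) (p of them): norm(1 + z) = prod (1 + z_s) = sum over k = 0..p of e_k,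
e_k = the k-th elementary symmetric function of the z_s (Finset.prod_one_add / Multiset.esymm; Algebra.norm_eq_prod_automorphisms, Algebra.algebraMap_intNorm; trace_eq_sum_automorphisms; powers:
Tr(z^k) = sum of z_s^k). All e_k lie in 𝓞 N (for k = 1: Tr z, k = p: norm z); claim: e_k is in v^(i+1) for 2 <= k <= p. Newton's identities (MvPolynomial.mul_esymm_eq_sum, evaluated at the z_s):
k e_k = (-1)^(k+1) sum over (a, b), a + b = k, a < k of (-1)^a e_a P_b, P_b = Tr(z^b). Induction on k, 2 <= k < p: the term a = 0 is P_k = Tr(z^k), z^k in w^(2n), p (i+1) <= 2n + (p-1)(t+1)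
(2n + (p-1)(t+1) - p(i+1) = (p i - p t + t - 1) ≥ 0): in v^(i+1) by n2_le; for 1 <= a < k: e_a in v^i (a = 1: Tr z in v^i by n2_le; n + (p-1)(t+1) = p i + p - 1) and P_b in v^i, product in v^(2i),
2 i ≥ i + 1. So k e_k in v^(i+1), and k is a unit modulo v (k < p, p in v: k not in v; v^(i+1) is primary: e_k in v^(i+1)). e_p = norm z: norm z is in v^n: z in w^n, and the exponent of v in
(norm z) = relNorm (z) is that of relNorm w = v (f = 1, e = p: w^p = v 𝓞 L; or: (norm z) 𝓞 L = prod of (s • z) is in w^(p n) = v^n 𝓞 L (s w = w: the only prime above v) and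
v^n 𝓞 L ∩ 𝓞 N = v^n), n ≥ i + 1 ((p-1)(i-t) ≥ 1).
If the elements e_k are inconvenient in 𝓞 N, do everything in 𝓞 L with the ideals v^i 𝓞 L = w^(p i) and go back at the end (comap of (v^i 𝓞 L) to 𝓞 N is v^i). -/

theorem n3_norm [IsGalois N L] {p : ℕ} (hp : p.Prime) (hn : Module.finrank N L = p) {v : HeightOneSpectrum (𝓞 N)} {w : HeightOneSpectrum (𝓞 L)} {t : ℕ}
    (h : TRam p v w t) (i : ℕ) (hi : t + 1 ≤ i) (z : 𝓞 L) (hz : z ∈ w.asIdeal ^ (t + p * (i - t))) :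
    Algebra.intNorm (𝓞 N) (𝓞 L) (1 + z) - 1 - Algebra.intTrace (𝓞 N) (𝓞 L) z ∈ v.asIdeal ^ (i + 1) := by
  classical
  obtain ⟨j, rfl⟩ : ∃ j, i = t + 1 + j := ⟨i - (t + 1), by omega⟩
  have hsub : t + 1 + j - t = 1 + j := by omega
  rw [hsub] at hz
  obtain ⟨q, hq⟩ : ∃ q, p = q + 2 := ⟨p - 2, by have := hp.two_le; omega⟩
  have hcard : Fintype.card (L ≃ₐ[N] L) = p := by
    rw [← Nat.card_eq_fintype_card, IsGalois.card_aut_eq_finrank, hn]
  have hpw : (p : 𝓞 L) ∈ w.asIdeal := by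
    have h1 : algebraMap (𝓞 N) (𝓞 L) (p : 𝓞 N) ∈ w.asIdeal ^ p := by
      rw [← h.map]
      exact Ideal.mem_map_of_mem _ h.mem
    rw [map_natCast] at h1
    exact Ideal.pow_le_self hp.ne_zero h1
  have htrw : ∀ (y : 𝓞 L) (b c : ℕ), y ∈ w.asIdeal ^ b → p * c ≤ b + (p - 1) * (t + 1) →
      ∑ s : L ≃ₐ[N] L, s • y ∈ w.asIdeal ^ (p * c) := by
    intro y b c hy hc
    rw [← n3_tr, ← n2_map h]
    exact Ideal.mem_map_of_mem _ (n2_le h hc hy)
  have hN := n3_newton (fun s : L ≃ₐ[N] L => s • z) (w.asIdeal ^ (p * (t + 1 + j)))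
    (w.asIdeal ^ (p * (t + 1 + j + 1))) (Ideal.pow_le_pow_right (Nat.mul_le_mul_left p (by omega)))
    (by
      rw [← pow_add, ← mul_add]
      exact Ideal.pow_le_pow_right (Nat.mul_le_mul_left p (by omega))) p
    (htrw z _ _ hz (by
      rw [hq]
      have e1 : q + 2 - 1 = q + 1 := by omega
      rw [e1]
      nlinarith))
    (by
      intro b hb
      have h1 : ∑ s : L ≃ₐ[N] L, (s • z) ^ b = ∑ s : L ≃ₐ[N] L, s • z ^ b :=
        Finset.sum_congr rfl fun s _ => (smul_pow' s z b).symm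
      rw [h1]
      refine htrw (z ^ b) (2 * (t + p * (1 + j))) _ ?_ ?_
      · have h2 : z ^ b ∈ (w.asIdeal ^ (t + p * (1 + j))) ^ b := Ideal.pow_mem_pow hz b
        rw [← pow_mul] at h2
        refine Ideal.pow_le_pow_right ?_ h2
        rw [mul_comm 2]
        exact Nat.mul_le_mul_left _ hb
      · rw [hq]
        have e1 : q + 2 - 1 = q + 1 := by omega
        rw [e1]
        have ht := h.pos
        nlinarith [Nat.zero_le (q * j), Nat.zero_le j, Nat.zero_le q])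
    (by
      intro k hk2 hkp x hx
      refine n3_prim w (k : 𝓞 L) x (fun hkw => ?_) _ hx
      have hco : IsCoprime (k : ℤ) (p : ℤ) :=
        Nat.isCoprime_iff_coprime.2
          ((hp.coprime_iff_not_dvd.2 (Nat.not_dvd_of_pos_of_lt (by omega) hkp)).symm)
      obtain ⟨a, b, hab⟩ := hco
      apply w.isPrime.ne_top
      rw [Ideal.eq_top_iff_one]
      have h1 : (1 : 𝓞 L) = (a : 𝓞 L) * (k : 𝓞 L) + (b : 𝓞 L) * (p : 𝓞 L) := by
        exact_mod_cast hab.symm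
      rw [h1]
      exact Ideal.add_mem _ (Ideal.mul_mem_left _ _ hkw) (Ideal.mul_mem_left _ _ hpw))
  have hlast : n3_e (fun s : L ≃ₐ[N] L => s • z) p ∈ w.asIdeal ^ (p * (t + 1 + j + 1)) := by
    rw [n3_e]
    refine Ideal.sum_mem _ fun T hT => ?_
    rw [Finset.mem_powersetCard] at hT
    have h1 : ∏ s ∈ T, s • z ∈ ∏ s ∈ T, w.asIdeal ^ (t + p * (1 + j)) :=
      Ideal.prod_mem_prod fun s _ => n3_stab hp h s _ z hz
    rw [Finset.prod_const, hT.2, ← pow_mul] at h1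
    refine Ideal.pow_le_pow_right ?_ h1
    rw [mul_comm p]
    refine Nat.mul_le_mul_right p ?_
    rw [hq]
    nlinarith [Nat.zero_le (q * j), Nat.zero_le j, Nat.zero_le q]
  have hfin : algebraMap (𝓞 N) (𝓞 L) (Algebra.intNorm (𝓞 N) (𝓞 L) (1 + z) - 1 -
      Algebra.intTrace (𝓞 N) (𝓞 L) z) ∈ w.asIdeal ^ (p * (t + 1 + j + 1)) := by
    rw [map_sub, map_sub, map_one, n3_nm, n3_tr]
    have h1 : ∏ s : L ≃ₐ[N] L, s • (1 + z) = ∏ s : L ≃ₐ[N] L, (1 + s • z) :=
      Finset.prod_congr rfl fun s _ => by rw [smul_add, smul_one]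
    rw [h1, n3_prod, hcard, hq, Finset.sum_range_succ', Finset.sum_range_succ', n3_e_zero,
      n3_e_one]
    have h2 : ∀ k ∈ Finset.range (q + 1), n3_e (fun s : L ≃ₐ[N] L => s • z) (k + 1 + 1) ∈
        w.asIdeal ^ ((q + 2) * (t + 1 + j + 1)) := by
      intro k hk
      rw [Finset.mem_range] at hk
      rw [← hq]
      rcases Nat.lt_or_ge (k + 1 + 1) p with h3 | h3
      · exact hN _ (by omega) h3
      · have h4 : k + 1 + 1 = p := by omega
        rw [h4]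
        exact hlast
    have h3 := Ideal.sum_mem _ h2
    have h4 : (∑ k ∈ Finset.range (q + 1), n3_e (fun s : L ≃ₐ[N] L => s • z) (k + 1 + 1) +
        ∑ s : L ≃ₐ[N] L, s • z + 1 - 1 - ∑ s : L ≃ₐ[N] L, s • z) =
        ∑ k ∈ Finset.range (q + 1), n3_e (fun s : L ≃ₐ[N] L => s • z) (k + 1 + 1) := by ring
    rw [h4]
    exact h3
  rw [← n2_map h] at hfin
  have hc := Ideal.comap_map_eq_self_of_faithfullyFlat (B := 𝓞 L) (v.asIdeal ^ (t + 1 + j + 1))
  rw [← hc]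
  exact hfin

end SSR
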