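import Mathlib
import Pool.Agent.Lib.SSR.N3

open NumberField IsDedekindDomain

namespace SSR

variable {N : Type} [Field N] [NumberField N] {L : Type} [Field L] [NumberField L] [Algebra N L]

/-! Chunk N4 (S/M). Units which are 1 modulo v^(t+1) are norms modulo all powers of v. PROOF. Show by induction on n ≥ t + 1: there is y with y - 1 in w and norm y - x in v^n; n = t + 1: y = 1.
Step i = n → n + 1: norm y = x mod v^i; a := x - norm y in v^i; norm y - 1 is in v (norm y = x = 1 mod v, t + 1 ≥ 1). n2_surj with n' = t + p (i - t): n' + (p-1)(t+1) = p i + p - 1: z in w^n',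
Tr z = a mod v^(i+1). y' := y (1 + z): norm y' = norm y * norm (1 + z) = norm y (1 + a) mod v^(i+1) (n3_norm) = norm y + a (a (norm y - 1) in v^(i+1)) = x. y' - 1 in w. For n < t + 1 use
n = t + 1 (Ideal.pow_le_pow_right). -/

theorem n4_loc [IsGalois N L] {p : ℕ} (hp : p.Prime) (hn : Module.finrank N L = p) {v : HeightOneSpectrum (𝓞 N)} {w : HeightOneSpectrum (𝓞 L)} {t : ℕ}
    (h : TRam p v w t) (x : 𝓞 N) (hx : x - 1 ∈ v.asIdeal ^ (t + 1)) (n : ℕ) :
    ∃ y : 𝓞 L, y - 1 ∈ w.asIdeal ∧ Algebra.intNorm (𝓞 N) (𝓞 L) y - x ∈ v.asIdeal ^ n := by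
  have key : ∀ m : ℕ, ∃ y : 𝓞 L, y - 1 ∈ w.asIdeal ∧
      Algebra.intNorm (𝓞 N) (𝓞 L) y - x ∈ v.asIdeal ^ (t + 1 + m) := by
    intro m
    induction m with
    | zero =>
      refine ⟨1, by rw [sub_self]; exact zero_mem _, ?_⟩
      rw [map_one, ← neg_sub]
      exact neg_mem hx
    | succ m ih =>
      obtain ⟨y, hy1, hy2⟩ := ih
      obtain ⟨i, hi⟩ : ∃ i, i = t + 1 + m := ⟨_, rfl⟩
      rw [← hi] at hy2
      have hti : t + 1 ≤ i := by omega
      have hpos := h.pos
      have hp2 := hp.two_le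
      have ha : x - Algebra.intNorm (𝓞 N) (𝓞 L) y ∈ v.asIdeal ^ i := by
        rw [← neg_sub]
        exact neg_mem hy2
      have hnum : t + p * (i - t) + (p - 1) * (t + 1) = p * i + (p - 1) := by
        obtain ⟨j, rfl⟩ : ∃ j, i = t + j := ⟨i - t, by omega⟩
        obtain ⟨q, rfl⟩ : ∃ q, p = q + 1 := ⟨p - 1, by omega⟩
        rw [Nat.add_sub_cancel_left, Nat.add_sub_cancel]
        ring
      obtain ⟨z, hz, hz2⟩ := n2_surj h (n := t + p * (i - t)) (i := i) (by rw [hnum]; omega)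
        (by rw [hnum, Nat.mul_succ]; omega) _ ha
      have hz3 := n3_norm hp hn h i hti z hz
      refine ⟨y * (1 + z), ?_, ?_⟩
      · have hzw : z ∈ w.asIdeal := by
          have h1 : w.asIdeal ^ (t + p * (i - t)) ≤ w.asIdeal ^ 1 :=
            Ideal.pow_le_pow_right (by omega)
          rw [pow_one] at h1
          exact h1 hz
        have e : y * (1 + z) - 1 = (y - 1) + y * z := by ring
        rw [e]
        exact add_mem hy1 (Ideal.mul_mem_left _ _ hzw)
      · have hi2 : t + 1 + (m + 1) = i + 1 := by omega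
        rw [hi2, map_mul]
        obtain ⟨a, haa⟩ : ∃ a, a = x - Algebra.intNorm (𝓞 N) (𝓞 L) y := ⟨_, rfl⟩
        obtain ⟨ny, hny⟩ : ∃ ny, ny = Algebra.intNorm (𝓞 N) (𝓞 L) y := ⟨_, rfl⟩
        rw [← hny] at haa hy2 ⊢
        rw [← hny, ← haa] at ha
        rw [← hny, ← haa] at hz2
        have hv : ∀ k, 1 ≤ k → ∀ u ∈ v.asIdeal ^ k, u ∈ v.asIdeal := by
          intro k hk u hu
          have h1 : v.asIdeal ^ k ≤ v.asIdeal ^ 1 := Ideal.pow_le_pow_right hk
          rw [pow_one] at h1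
          exact h1 hu
        have hny1 : ny - 1 ∈ v.asIdeal := by
          have e : ny - 1 = (ny - x) + (x - 1) := by ring
          rw [e]
          exact add_mem (hv i (by omega) _ hy2) (hv (t + 1) (by omega) _ hx)
        have hprod : a * (ny - 1) ∈ v.asIdeal ^ (i + 1) := by
          rw [pow_succ]
          exact Ideal.mul_mem_mul ha hny1
        obtain ⟨T, hT⟩ : ∃ T, T = Algebra.intTrace (𝓞 N) (𝓞 L) z := ⟨_, rfl⟩
        obtain ⟨M, hM⟩ : ∃ M, M = Algebra.intNorm (𝓞 N) (𝓞 L) (1 + z) := ⟨_, rfl⟩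
        rw [← hT] at hz2 hz3
        rw [← hM] at hz3 ⊢
        have e : ny * M - x = ny * (M - 1 - T) + ny * (T - a) + a * (ny - 1) := by
          rw [haa]
          ring
        rw [e]
        exact add_mem (add_mem (Ideal.mul_mem_left _ _ hz3) (Ideal.mul_mem_left _ _ hz2)) hprod
  obtain ⟨y, h1, h2⟩ := key n
  exact ⟨y, h1, Ideal.pow_le_pow_right (by omega) h2⟩

end SSR
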