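import Mathlib
import Pool.Agent.Lib.SSR.ND

open NumberField IsDedekindDomain

namespace SSR

variable {N : Type} [Field N] [NumberField N]

/-! Chunk N5 (S). v does not contain p: elements which are 1 modulo v are p-th powers modulo all powers of v. PROOF. Induction on n ≥ 1: y with y - 1 in v and y^p - x in v^n (n = 1: y = 1; n = 0: the
same y). Step: a := x - y^p in v^n. p is invertible modulo v^(n+1): c p - 1 in v^(n+1) (v^(n+1) and (p) are coprime ideals). y' := y + c a: y'^p = y^p + p y^(p-1) c a mod v^(2n) (n ≥ 1),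
= y^p + a mod v^(n+1) (y^(p-1) - 1 in v, c p = 1). -/

theorem n5_tame {p : ℕ} (hp : p.Prime) (v : HeightOneSpectrum (𝓞 N)) (hpv : (p : 𝓞 N) ∉ v.asIdeal) (x : 𝓞 N) (hx : x - 1 ∈ v.asIdeal) (n : ℕ) :
    ∃ y : 𝓞 N, y - 1 ∈ v.asIdeal ∧ y ^ p - x ∈ v.asIdeal ^ n := by
  have hbase : ∃ y : 𝓞 N, y - 1 ∈ v.asIdeal ∧ y ^ p - x ∈ v.asIdeal ^ 1 := by
    refine ⟨1, by simp, ?_⟩
    rw [one_pow, pow_one, ← neg_sub]
    exact neg_mem hx
  rcases Nat.eq_zero_or_pos n with hn0 | hn0
  · subst hn0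
    obtain ⟨y, hy, _⟩ := hbase
    exact ⟨y, hy, by simp⟩
  · induction n, hn0 using Nat.le_induction with
    | base => exact hbase
    | succ n hn ih =>
      obtain ⟨y, hy, hyx⟩ := ih
      have hmax : v.asIdeal.IsMaximal := v.isMaximal
      have hcop : IsCoprime v.asIdeal (Ideal.span {(p : 𝓞 N)}) := by
        rw [Ideal.isCoprime_iff_exists]
        obtain ⟨c, i, hi, hci⟩ := hmax.exists_inv hpv
        exact ⟨i, hi, c * (p : 𝓞 N), Ideal.mul_mem_left _ _ (Ideal.mem_span_singleton_self _), by rw [add_comm]; exact hci⟩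
      have hcop2 : IsCoprime (v.asIdeal ^ (n + 1)) (Ideal.span {(p : 𝓞 N)}) := hcop.pow_left
      rw [Ideal.isCoprime_iff_exists] at hcop2
      obtain ⟨i, hi, j, hj, hij⟩ := hcop2
      rw [Ideal.mem_span_singleton'] at hj
      obtain ⟨c, hc⟩ := hj
      have hcp : (p : 𝓞 N) * c - 1 ∈ v.asIdeal ^ (n + 1) := by
        have : (p : 𝓞 N) * c - 1 = - i := by rw [← hij, ← hc]; ring
        rw [this]; exact neg_mem hi
      have ha : x - y ^ p ∈ v.asIdeal ^ n := by rw [← neg_sub]; exact neg_mem hyx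
      refine ⟨y + c * (x - y ^ p), ?_, ?_⟩
      · have h1 : c * (x - y ^ p) ∈ v.asIdeal := Ideal.mul_mem_left _ _ (Ideal.pow_le_self (by omega) ha)
        have : y + c * (x - y ^ p) - 1 = (y - 1) + c * (x - y ^ p) := by ring
        rw [this]; exact add_mem hy h1
      · obtain ⟨k, hk⟩ := Polynomial.powAddExpansion y (c * (x - y ^ p)) p
        have hyp : y ^ (p - 1) - 1 ∈ v.asIdeal := by
          have h := sub_dvd_pow_sub_pow y 1 (p - 1)
          rw [one_pow] at h
          exact Ideal.mem_of_dvd _ h hy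
        have e : (y + c * (x - y ^ p)) ^ p - x = (y ^ (p - 1) - 1) * (x - y ^ p) * ((p : 𝓞 N) * c) + ((p : 𝓞 N) * c - 1) * (x - y ^ p) + (k * c ^ 2) * (x - y ^ p) ^ 2 := by
          rw [hk]; ring
        rw [e]
        refine add_mem (add_mem ?_ ?_) ?_
        · refine Ideal.mul_mem_right _ _ ?_
          rw [pow_succ']
          exact Ideal.mul_mem_mul hyp ha
        · exact Ideal.mul_mem_right _ _ hcp
        · refine Ideal.mul_mem_left _ _ ?_
          have h2 : (x - y ^ p) ^ 2 ∈ v.asIdeal ^ (n * 2) := by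
            rw [pow_mul]; exact Ideal.pow_mem_pow ha 2
          exact Ideal.pow_le_pow_right (by omega) h2

end SSR
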