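import Mathlib
import Pool.Agent.Lib.SSR.N4
import Pool.Agent.Lib.SSR.N5

open NumberField IsDedekindDomain

namespace SSR

variable {N : Type} [Field N] [NumberField N] {L : Type} [Field L] [NumberField L] [Algebra N L]

/-! Chunk N6 (M). Simultaneous approximation. PROOF of n6_cong. If y - y' is in v^n 𝓞 L then norm y - norm y' is in v^n: in 𝓞 L (or L): norm = prod over s of (s • y), s (v^n 𝓞 L) = v^n 𝓞 L, so
the difference of the products is in v^n 𝓞 L (Finset.prod congruence mod an ideal: work in the quotient ring), and (v^n 𝓞 L) ∩ 𝓞 N = v^n (Ideal.comap_map_eq... for Dedekind extensions; see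
intNorm_cong in Lib/H55P, which proves exactly this congruence: grep intNorm_cong). PROOF of n6_all. For each v in S: y_v in 𝓞 L with norm y_v = x mod v^n: if p not in v: n5_tame gives
y in 𝓞 N, norm of its image = y^p (Algebra.intNorm_algebraMap? : norm of an element of the base = p-th power); if p in v: n4_loc. The ideals v^n 𝓞 L (v in S) are pairwise coprime (n ≥ 1; n = 0
trivial): y in 𝓞 L with y - y_v in v^n 𝓞 L for all v in S (Ideal.exists_forall_sub_mem_ideal). y ≠ 0: if S is not empty and n ≥ 1 then norm y = x mod v, and x is not in v (x - 1 in v);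
otherwise take y = 1. -/

theorem n6_prod [IsGalois N L] (y : 𝓞 L) :
    algebraMap (𝓞 N) (𝓞 L) (Algebra.intNorm (𝓞 N) (𝓞 L) y) = ∏ s : L ≃ₐ[N] L, s • y := by
  apply FaithfulSMul.algebraMap_injective (𝓞 L) L
  rw [← IsScalarTower.algebraMap_apply (𝓞 N) (𝓞 L) L, IsScalarTower.algebraMap_apply (𝓞 N) N L,
    Algebra.algebraMap_intNorm (K := N) (L := L), Algebra.norm_eq_prod_automorphisms, map_prod]
  rfl

theorem n6_base (y : 𝓞 N) : Algebra.intNorm (𝓞 N) (𝓞 L) (algebraMap (𝓞 N) (𝓞 L) y) = y ^ Module.finrank N L := by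
  apply FaithfulSMul.algebraMap_injective (𝓞 N) N
  rw [Algebra.algebraMap_intNorm (K := N) (L := L), ← IsScalarTower.algebraMap_apply (𝓞 N) (𝓞 L) L,
    IsScalarTower.algebraMap_apply (𝓞 N) N L, Algebra.norm_algebraMap, map_pow]

omit [NumberField N] [NumberField L] in
theorem n6_stab (I : Ideal (𝓞 N)) (s : L ≃ₐ[N] L) (z : 𝓞 L) (hz : z ∈ I.map (algebraMap (𝓞 N) (𝓞 L))) :
    s • z ∈ I.map (algebraMap (𝓞 N) (𝓞 L)) := by
  unfold Ideal.map at hz
  induction hz using Submodule.span_induction with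
  | mem x hx =>
    obtain ⟨a, ha, rfl⟩ := hx
    have h1 : s • algebraMap (𝓞 N) (𝓞 L) a = algebraMap (𝓞 N) (𝓞 L) a := by
      apply RingOfIntegers.ext
      exact s.commutes _
    rw [h1]
    exact Ideal.mem_map_of_mem _ ha
  | zero =>
    rw [smul_zero]
    exact Ideal.zero_mem _
  | add x y _ _ hx hy =>
    rw [smul_add]
    exact Ideal.add_mem _ hx hy
  | smul a x _ hx =>
    have h1 : s • (a • x) = (s • a) * (s • x) := by
      rw [smul_eq_mul, smul_mul']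
    rw [h1]
    exact Ideal.mul_mem_left _ _ hx

theorem n6_cong [IsGalois N L] (v : HeightOneSpectrum (𝓞 N)) (n : ℕ) (y y' : 𝓞 L) (h : y - y' ∈ (v.asIdeal ^ n).map (algebraMap (𝓞 N) (𝓞 L))) :
    Algebra.intNorm (𝓞 N) (𝓞 L) y - Algebra.intNorm (𝓞 N) (𝓞 L) y' ∈ v.asIdeal ^ n := by
  have h1 : algebraMap (𝓞 N) (𝓞 L) (Algebra.intNorm (𝓞 N) (𝓞 L) y - Algebra.intNorm (𝓞 N) (𝓞 L) y') ∈
      (v.asIdeal ^ n).map (algebraMap (𝓞 N) (𝓞 L)) := by
    rw [map_sub, n6_prod, n6_prod, ← Ideal.Quotient.eq, map_prod, map_prod]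
    refine Finset.prod_congr rfl (fun s _ => ?_)
    rw [Ideal.Quotient.eq, ← smul_sub]
    exact n6_stab _ s _ h
  have h2 := Ideal.comap_map_eq_self_of_faithfullyFlat (B := 𝓞 L) (v.asIdeal ^ n)
  rw [← h2]
  exact h1

theorem n6_all [IsGalois N L] {p : ℕ} (hp : p.Prime) (hn : Module.finrank N L = p) (S : Finset (HeightOneSpectrum (𝓞 N))) (t : HeightOneSpectrum (𝓞 N) → ℕ)
    (hS : ∀ v ∈ S, (p : 𝓞 N) ∈ v.asIdeal → ∃ w : HeightOneSpectrum (𝓞 L), TRam p v w (t v)) (x : 𝓞 N)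
    (hx : ∀ v ∈ S, ((p : 𝓞 N) ∉ v.asIdeal → x - 1 ∈ v.asIdeal) ∧ ((p : 𝓞 N) ∈ v.asIdeal → x - 1 ∈ v.asIdeal ^ (t v + 1))) (n : ℕ) :
    ∃ y : 𝓞 L, y ≠ 0 ∧ ∀ v ∈ S, Algebra.intNorm (𝓞 N) (𝓞 L) y - x ∈ v.asIdeal ^ n := by
  classical
  rcases Nat.eq_zero_or_pos n with h0 | h0
  · refine ⟨1, one_ne_zero, fun v _ => ?_⟩
    rw [h0, pow_zero, Ideal.one_eq_top]
    exact Submodule.mem_top
  rcases S.eq_empty_or_nonempty with hSe | ⟨v0, hv0⟩
  · refine ⟨1, one_ne_zero, fun v hv => ?_⟩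
    rw [hSe] at hv
    exact absurd hv (Finset.notMem_empty v)
  have hloc : ∀ v : {v // v ∈ S}, ∃ y : 𝓞 L, Algebra.intNorm (𝓞 N) (𝓞 L) y - x ∈ v.1.asIdeal ^ n := by
    rintro ⟨v, hv⟩
    by_cases hpv : (p : 𝓞 N) ∈ v.asIdeal
    · obtain ⟨w, hw⟩ := hS v hv hpv
      obtain ⟨y, -, hy⟩ := n4_loc hp hn hw x ((hx v hv).2 hpv) n
      exact ⟨y, hy⟩
    · obtain ⟨y, -, hy⟩ := n5_tame hp v hpv x ((hx v hv).1 hpv) n
      refine ⟨algebraMap (𝓞 N) (𝓞 L) y, ?_⟩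
      rw [n6_base, hn]
      exact hy
  choose g hg using hloc
  have hcop : Pairwise (Function.onFun IsCoprime (fun v : {v // v ∈ S} => (v.1.asIdeal ^ n).map (algebraMap (𝓞 N) (𝓞 L)))) := by
    intro v v' hvv
    have h1 : IsCoprime v.1.asIdeal v'.1.asIdeal := by
      have hm := v.1.isMaximal
      have hm' := v'.1.isMaximal
      exact Ideal.isCoprime_of_isMaximal (fun h => hvv (Subtype.ext (HeightOneSpectrum.ext h)))
    exact (h1.pow (m := n) (n := n)).map (Ideal.mapHom (algebraMap (𝓞 N) (𝓞 L)))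
  obtain ⟨y, hy⟩ := Ideal.exists_forall_sub_mem_ideal hcop g
  have hy' : ∀ v ∈ S, Algebra.intNorm (𝓞 N) (𝓞 L) y - x ∈ v.asIdeal ^ n := by
    intro v hv
    have h1 := n6_cong v n y (g ⟨v, hv⟩) (hy ⟨v, hv⟩)
    have h2 := Ideal.add_mem _ h1 (hg ⟨v, hv⟩)
    rwa [sub_add_sub_cancel] at h2
  refine ⟨y, ?_, hy'⟩
  rintro rfl
  have h1 := hy' v0 hv0
  have hz0 : Algebra.intNorm (𝓞 N) (𝓞 L) (0 : 𝓞 L) = 0 := by
    have h := n6_base (L := L) (0 : 𝓞 N)
    rwa [map_zero, hn, zero_pow hp.ne_zero] at h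
  rw [hz0, zero_sub, neg_mem_iff] at h1
  have h2 : x ∈ v0.asIdeal := Ideal.pow_le_self h0.ne' h1
  have h3 : x - 1 ∈ v0.asIdeal := by
    by_cases hpv : (p : 𝓞 N) ∈ v0.asIdeal
    · exact Ideal.pow_le_self (Nat.succ_ne_zero _) ((hx v0 hv0).2 hpv)
    · exact (hx v0 hv0).1 hpv
  have h4 : (1 : 𝓞 N) ∈ v0.asIdeal := by
    have h5 := Ideal.sub_mem _ h2 h3
    rwa [sub_sub_cancel] at h5
  exact v0.isPrime.ne_top ((Ideal.eq_top_iff_one _).2 h4)

end SSR
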