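import Mathlib
import Pool.Agent.Lib.SSR.N6
import Pool.Agent.Lib.CFT.Core
import Pool.Agent.Lib.CFT.B07

open NumberField IsDedekindDomain

namespace SSR

variable {N : Type} [Field N] [NumberField N] {L : Type} [Field L] [NumberField L] [Algebra N L]

/-! Chunk C1 (M). The Artin symbol of principal divisors near 1. PROOF. Gal(L/N) has prime order p, so it is cyclic and commutative. S' := S. CFT.artin_ker N L hcyc p 1 hp hn' S hS hab gives n with
(art S id).ker = Pray S n ⊔ (Nd N L).range. n6_all with n + 1 in place of n: y ≠ 0 in 𝓞 L with norm y - x in v^(n+1) for all v in S. z := x / norm y in N: z ≠ 0; Ray S n z: z - 1 = (x - norm y)/norm y,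
norm y is a unit at v in S (norm y = x = 1 mod v), v.valuation (z - 1) = v.valuation (x - norm y) <= exp(-(n+1)) < exp(-n) (HeightOneSpectrum.intValuation_le_pow_iff_mem,
valuation_of_algebraMap); no real embeddings (hre). dv x = dv z + dv (norm y) (CFT.dv_mul), dv (norm y) = Nd (dv y) (CFT.Nd_dv, Algebra.algebraMap_intNorm), dv z in Pray S n. So dv x is in the
kernel of art S id, and art S χ D = χ (art S id D) (both are additive homomorphisms, equal on Finsupp.single v 1: unfold CFT.art, liftAddHom_apply_single; AddMonoidHom.ext / Finsupp.addHom_ext). -/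

theorem c1_dv [IsGalois N L] {p : ℕ} (hp : p.Prime) (hn : Module.finrank N L = p) (S : Finset (HeightOneSpectrum (𝓞 N)))
    (hS : ∀ v : CFT.Pr N, ¬ CFT.Unr N L v → v ∈ S) (t : HeightOneSpectrum (𝓞 N) → ℕ)
    (hT : ∀ v ∈ S, (p : 𝓞 N) ∈ v.asIdeal → ∃ w : HeightOneSpectrum (𝓞 L), TRam p v w (t v)) (hre : IsEmpty (N →+* ℝ)) (χ : (L ≃ₐ[N] L) →* ℂˣ) (x : 𝓞 N)
    (hx0 : x ≠ 0)
    (hx : ∀ v ∈ S, ((p : 𝓞 N) ∉ v.asIdeal → x - 1 ∈ v.asIdeal) ∧ ((p : 𝓞 N) ∈ v.asIdeal → x - 1 ∈ v.asIdeal ^ (t v + 1))) :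
    CFT.art S χ (CFT.dv (x : N)) = 0 := by
  haveI : Fact p.Prime := ⟨hp⟩
  have hcard : Nat.card (L ≃ₐ[N] L) = p := by rw [IsGalois.card_aut_eq_finrank, hn]
  have hcyc : IsCyclic (L ≃ₐ[N] L) := isCyclic_of_prime_card hcard
  have hab : ∀ a b : L ≃ₐ[N] L, a * b = b * a := fun a b => IsCyclic.commGroup.mul_comm a b
  obtain ⟨n, hker⟩ := CFT.artin_ker N L hcyc p 1 hp (by rw [hn, pow_one]) S hS hab
  obtain ⟨y, hy0, hy⟩ := n6_all hp hn S t hT x hx (n + 1)
  have hx1 : ∀ v ∈ S, x - 1 ∈ v.asIdeal := by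
    intro v hv
    by_cases hpv : (p : 𝓞 N) ∈ v.asIdeal
    · exact Ideal.pow_le_self (Nat.succ_ne_zero (t v)) ((hx v hv).2 hpv)
    · exact (hx v hv).1 hpv
  let cg : CommGroup (L ≃ₐ[N] L) := { (inferInstance : Group (L ≃ₐ[N] L)) with mul_comm := hab }
  have hyL : (y : L) ≠ 0 := fun h => hy0 (RingOfIntegers.coe_eq_zero_iff.1 h)
  have hu1 : algebraMap (𝓞 N) N (Algebra.intNorm (𝓞 N) (𝓞 L) y) = Algebra.norm N (y : L) :=
    Algebra.algebraMap_intNorm y
  generalize Algebra.intNorm (𝓞 N) (𝓞 L) y = u at hy hu1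
  have hn0 : Algebra.norm N (y : L) ≠ 0 := Algebra.norm_ne_zero_iff.2 hyL
  have huN : (u : N) ≠ 0 := by
    intro h
    exact hn0 (hu1.symm.trans h)
  have hxN : (x : N) ≠ 0 := fun h => hx0 (RingOfIntegers.coe_eq_zero_iff.1 h)
  have hray : CFT.Ray S n ((x : N) / (u : N)) := by
    refine ⟨div_ne_zero hxN huN, fun v hv => ?_, fun φ => hre.elim φ⟩
    have e1 : (x : N) / (u : N) - 1 = ((x : N) - (u : N)) / (u : N) := by
      rw [sub_div, div_self huN]
    have e2 : v.valuation N (u : N) = 1 := by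
      have h3 : u ∉ v.asIdeal := by
        intro h4
        have h5 : u - x ∈ v.asIdeal := Ideal.pow_le_self (Nat.succ_ne_zero n) (hy v hv)
        have h6 := hx1 v hv
        have h7 : (1 : 𝓞 N) = u - (u - x) - (x - 1) := by ring
        have h8 : (1 : 𝓞 N) ∈ v.asIdeal := by
          rw [h7]
          exact Ideal.sub_mem _ (Ideal.sub_mem _ h4 h5) h6
        exact v.isPrime.ne_top ((Ideal.eq_top_iff_one _).2 h8)
      have h4 : v.valuation N (algebraMap (𝓞 N) N u) ≤ 1 := v.valuation_le_one u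
      refine le_antisymm h4 ?_
      by_contra h5
      apply h3
      have h6 : v.valuation N (algebraMap (𝓞 N) N u) < 1 := not_le.1 h5
      rw [HeightOneSpectrum.valuation_lt_one_iff_dvd, Ideal.dvd_span_singleton] at h6
      exact h6
    have e3 : v.valuation N ((x : N) - (u : N)) ≤ WithZero.exp (-((n + 1 : ℕ) : ℤ)) := by
      have h3 : x - u ∈ v.asIdeal ^ (n + 1) := by
        have h4 := Ideal.neg_mem_iff _ |>.2 (hy v hv)
        rwa [neg_sub] at h4
      have h4 := (v.intValuation_le_pow_iff_mem (x - u) (n + 1)).2 h3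
      rw [← v.valuation_of_algebraMap (K := N) (x - u)] at h4
      have h5 : (x : N) - (u : N) = algebraMap (𝓞 N) N (x - u) := (map_sub (algebraMap (𝓞 N) N) x u).symm
      rw [h5]
      exact h4
    rw [e1, map_div₀, e2, div_one]
    refine lt_of_le_of_lt e3 ?_
    rw [WithZero.exp_lt_exp]
    push_cast
    omega
  have hmem : CFT.dv (x : N) ∈ CFT.Pray S n ⊔ (CFT.Nd N L).range := by
    have e1 : (x : N) = (x : N) / (u : N) * (u : N) := (div_mul_cancel₀ _ huN).symm
    rw [e1, CFT.dv_mul (div_ne_zero hxN huN) huN]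
    refine AddSubgroup.add_mem _ (AddSubgroup.mem_sup_left (CFT.dv_mem_Pray hray)) (AddSubgroup.mem_sup_right ?_)
    refine ⟨CFT.dv (y : L), ?_⟩
    rw [CFT.Nd_dv hyL, ← hu1]
  have h1 : CFT.art S (MonoidHom.id (L ≃ₐ[N] L)) (CFT.dv (x : N)) = 0 := by
    rw [← AddMonoidHom.mem_ker, hker]
    exact hmem
  have h2 := CFT.art_comp S χ (MonoidHom.id (L ≃ₐ[N] L)) (CFT.dv (x : N))
  rw [h1, map_zero] at h2
  exact h2

end SSR
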