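import Mathlib
import Pool.Agent.Lib.SSR.ND
import Pool.Agent.Lib.CFT.D0
import Pool.Agent.Lib.H55R.Fin
import Pool.Agent.Lib.H55P.TD

/-! # SSR, part C: ray class characters with a conductor divisible by squares of primes above p: definitions (no sorry) -/

open NumberField IsDedekindDomain

namespace SSR

open H55R (Pl es Spl)

/-- The character rho of the cyclic extension L/K of prime degree l with conductor (dividing) f. -/
structure IsRc (K L : Type) [Field K] [NumberField K] [Field L] [NumberField L] [Algebra K L]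
    (l : ℕ) (f : Ideal (𝓞 K)) (ρ : Ideal (𝓞 K) →*₀ ℂ) : Prop where
  ne : f ≠ ⊥
  ram : ∀ v : Pl K, f ≤ v.asIdeal ↔ es K L v ≠ 1
  val : ∀ a : Ideal (𝓞 K), a ≠ ⊥ → IsCoprime a f → ρ a ^ l = 1
  zero : ∀ a : Ideal (𝓞 K), ¬ IsCoprime a f → ρ a = 0
  per : ∀ x y : 𝓞 K, x ≠ 0 → y ≠ 0 → IsCoprime (Ideal.span {x}) f → x - y ∈ f →
    ρ (Ideal.span {x}) = ρ (Ideal.span {y})
  spl : ∀ v : Pl K, ¬ f ≤ v.asIdeal → (ρ v.asIdeal = 1 ↔ Spl K L v)

/-- Characters of order dividing p on ideals, with tame modulus f (prime to p) and modulus v^2 at the primes v in R (above p). -/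
structure PCh {K : Type} [Field K] [NumberField K] (p : ℕ) (f : Ideal (𝓞 K)) (R : Finset (HeightOneSpectrum (𝓞 K)))
    (χ : Ideal (𝓞 K) →*₀ ℂ) : Prop where
  ne : f ≠ ⊥
  cop : IsCoprime f (Ideal.span {(p : 𝓞 K)})
  abv : ∀ v ∈ R, (p : 𝓞 K) ∈ v.asIdeal
  val : ∀ a : Ideal (𝓞 K), a ≠ ⊥ → IsCoprime a (f * ∏ v ∈ R, v.asIdeal) → χ a ^ p = 1
  zero : ∀ a : Ideal (𝓞 K), ¬ IsCoprime a (f * ∏ v ∈ R, v.asIdeal) → χ a = 0
  per : ∀ x y : 𝓞 K, x ≠ 0 → y ≠ 0 → IsCoprime (Ideal.span {x}) (f * ∏ v ∈ R, v.asIdeal) → x - y ∈ f * ∏ v ∈ R, v.asIdeal ^ 2 →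
    χ (Ideal.span {x}) = χ (Ideal.span {y})

end SSR
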