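import Mathlib
import Pool.Agent.Lib.SSR.C1
import Pool.Agent.Lib.SSR.CD
import Pool.Agent.Lib.CFT.B18
import Pool.Agent.Lib.H55R.HC4

open NumberField IsDedekindDomain

namespace SSR

open H55R (Pl es Spl)

variable {N : Type} [Field N] [NumberField N] {L : Type} [Field L] [NumberField L] [Algebra N L]

/-! Chunk C2 (M/L). The character of a cyclic extension of degree p, wildly ramified primes allowed. PROOF. S = the finite set of ramified primes (es N L v ≠ 1, i.e. not CFT.Unr: N L v; es =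
ramificationIdxIn = the ramification index of every prime above, Galois; CFT.unr_fin in CFT/B19), R = the v in S with p in v, ft = product of the v in S with p not in v.
Gal(L/N) is cyclic of order p: an injective homomorphism θ : (L ≃ₐ[N] L) →* ℂˣ (a generator to a primitive p-th root of unity; e.g. IsCyclic: MulEquiv with rootsOfUnity / monoidHomOfForallMemZpowers).
φ v := θ (CFT.frob N L v). ρ := H55R.tI f φ with f = ft * prod over R of v^(t v + 1) (see Lib/H55R/Fin.lean: tI_apply, tI_zero, pv, pv_pow; tI f φ a = pv φ a for a coprime to f). Translate: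
for a principal ideal (x), x ≠ 0 coprime to f: pv φ (x) = (CFT.art S θ (dv x)).toMul (both are the product of φ v ^ (exponent of v in x) over the v not in S; the exponents at v in S are 0).
val: φ v ^ p = 1 (order of the group). per: for x, y coprime to f with x - y in f choose u in 𝓞 N with u x - 1 in f (coprime), u ≠ 0, u coprime to f; u x and u y are 1 modulo f: c1_dv gives
art (dv (u x)) = 0 = art (dv (u y)), so art (dv x) = art (dv y) (dv_mul). (x - 1 in f implies x - 1 in v resp. v^(t v + 1).) spl: v not dividing f is unramified; ρ v = θ (frob v) = 1 iff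
frob v = 1 iff v splits completely (fs = 1): Frobenius elements exist and generate the decomposition group: CFT library: grep frob_eq_one / splits in Lib/CFT (B*, X*, ZE), or directly: frob v = 1 iff
x^(Nm v) = x mod w for all x iff the residue degree is 1. ram: prod of primes. htR: TRam gives w with map v = w^p, es = p. -/

theorem c2_od (v : HeightOneSpectrum (𝓞 N)) (y : Nˣ) : CFT.od v (y : N) = H55R.ord v y := by
  unfold CFT.od H55R.ord
  rw [← HeightOneSpectrum.valuationOfNeZero_eq]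
  rfl

/-- the value at a principal ideal -/
theorem c2_pv (S : Finset (HeightOneSpectrum (𝓞 N))) (θ : (L ≃ₐ[N] L) →* ℂˣ) (x : 𝓞 N) (hx0 : x ≠ 0)
    (hxS : ∀ v ∈ S, x ∉ v.asIdeal) :
    H55R.pv (fun v => θ (CFT.frob N L v)) (Ideal.span {x}) = Additive.toMul (CFT.art S θ (CFT.dv (x : N))) := by
  classical
  have hxN : (x : N) ≠ 0 := by simpa using hx0
  let y : Nˣ := Units.mk0 (x : N) hxN
  have hfin : {v : Pl N | x ∈ v.asIdeal}.Finite := by
    have h1 := Ideal.finite_factors (I := Ideal.span {x}) (fun h2 => hx0 (Ideal.span_singleton_eq_bot.1 h2))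
    exact h1.subset fun v hv => Ideal.dvd_span_singleton.2 hv
  have hU : ∀ v : Pl N, v ∈ hfin.toFinset ↔ x ∈ v.asIdeal := fun v => by
    rw [Set.Finite.mem_toFinset]
    rfl
  rw [H55R.pv_elem _ x y rfl hfin.toFinset fun v hv => (hU v).2 hv]
  unfold CFT.art
  rw [Finsupp.liftAddHom_apply, Finsupp.sum_of_support_subset (s := hfin.toFinset)]
  · rw [toMul_sum]
    refine Finset.prod_congr rfl fun v hv => ?_
    have hvS : v ∉ S := fun h => hxS v h ((hU v).1 hv)
    rw [if_neg hvS, CFT.dv_apply]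
    show θ (CFT.frob N L v) ^ H55R.ord v y = Additive.toMul ((CFT.od v (x : N)) • Additive.ofMul (θ (CFT.frob N L v)))
    have h1 : CFT.od v (x : N) = H55R.ord v y := c2_od v y
    rw [h1]
    rfl
  · intro v hv
    by_contra h
    rw [Finsupp.mem_support_iff, CFT.dv_apply] at hv
    apply hv
    have h1 : CFT.od v (x : N) = H55R.ord v y := c2_od v y
    rw [h1]
    exact H55R.HC4_zero x y rfl v fun h2 => h ((hU v).2 h2)
  · intro v _
    rw [map_zero]

theorem c2_es [IsGalois N L] (v : HeightOneSpectrum (𝓞 N)) (w : CFT.Pr L) (hw : CFT.below N w = v) :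
    es N L v = w.asIdeal.ramificationIdx (𝓞 N) ∧ H55R.fs N L v = w.asIdeal.inertiaDeg (𝓞 N) := by
  subst hw
  haveI : w.asIdeal.LiesOver (CFT.below N w).asIdeal := ⟨rfl⟩
  haveI := w.isPrime
  haveI := w.isMaximal
  haveI : (CFT.below N w).asIdeal.IsMaximal := (CFT.below N w).isMaximal
  exact ⟨Ideal.ramificationIdxIn_eq_ramificationIdx (CFT.below N w).asIdeal w.asIdeal Gal(L/N),
    Ideal.inertiaDegIn_eq_inertiaDeg (CFT.below N w).asIdeal w.asIdeal Gal(L/N)⟩

theorem c2_unr [IsGalois N L] (v : HeightOneSpectrum (𝓞 N)) : CFT.Unr N L v ↔ es N L v = 1 := by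
  constructor
  · intro h
    obtain ⟨w, hw⟩ := CFT.below_surj (K := N) (L := L) v
    rw [(c2_es v w hw).1]
    exact h w hw
  · intro h w hw
    rw [← (c2_es v w hw).1]
    exact h

theorem c2_spl [IsGalois N L] (hab : ∀ a b : L ≃ₐ[N] L, a * b = b * a) (v : HeightOneSpectrum (𝓞 N)) (h : es N L v = 1) :
    CFT.frob N L v = 1 ↔ Spl N L v := by
  obtain ⟨w, hw⟩ := CFT.below_surj (K := N) (L := L) v
  have h1 := CFT.order_frob hab ((c2_unr v).2 h) w hw
  unfold Spl
  rw [(c2_es v w hw).2, ← h1, orderOf_eq_one_iff]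
  exact ⟨fun h2 => ⟨h, h2⟩, fun h2 => h2.2⟩

/-- a faithful character -/
theorem c2_theta {G : Type} [Group G] [Finite G] (p : ℕ) (hp : p.Prime) (hG : Nat.card G = p) : ∃ θ : G →* ℂˣ, Function.Injective θ := by
  haveI := Fact.mk hp
  have hcyc : IsCyclic G := isCyclic_of_prime_card hG
  obtain ⟨g, hg⟩ := hcyc.exists_generator
  have hog : orderOf g = p := by rw [orderOf_eq_card_of_forall_mem_zpowers hg, hG]
  have hz := Complex.isPrimitiveRoot_exp p hp.ne_zero
  let z : ℂˣ := hz.toRootsOfUnity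
  have hz1 : IsPrimitiveRoot z p := by
    rw [← IsPrimitiveRoot.coe_units_iff]
    exact hz
  have hoz : orderOf z = p := hz1.eq_orderOf.symm
  let θ : G →* ℂˣ := monoidHomOfForallMemZpowers hg (g' := z) (by rw [hoz, hog])
  have hθg : θ g = z := monoidHomOfForallMemZpowers_apply_gen hg _
  refine ⟨θ, (injective_iff_map_eq_one θ).2 fun a ha => ?_⟩
  obtain ⟨k, rfl⟩ := hg a
  simp only [map_zpow, hθg] at ha
  rw [← orderOf_dvd_iff_zpow_eq_one, hoz] at ha
  show g ^ k = 1
  rw [← orderOf_dvd_iff_zpow_eq_one, hog]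
  exact ha

theorem c2_rec [IsGalois N L] {p : ℕ} (hp : p.Prime) (hn : Module.finrank N L = p) (t : HeightOneSpectrum (𝓞 N) → ℕ)
    (hT : ∀ v : HeightOneSpectrum (𝓞 N), es N L v ≠ 1 → (p : 𝓞 N) ∈ v.asIdeal → ∃ w : HeightOneSpectrum (𝓞 L), TRam p v w (t v)) (hre : IsEmpty (N →+* ℝ)) :
    ∃ (f : Ideal (𝓞 N)) (R : Finset (HeightOneSpectrum (𝓞 N))) (ρ : Ideal (𝓞 N) →*₀ ℂ),
      IsCoprime f (Ideal.span {(p : 𝓞 N)}) ∧ (∀ v : Pl N, f ≤ v.asIdeal ↔ (p : 𝓞 N) ∉ v.asIdeal ∧ es N L v ≠ 1) ∧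
      (∀ v, v ∈ R ↔ (p : 𝓞 N) ∈ v.asIdeal ∧ es N L v ≠ 1) ∧ IsRc N L p (f * ∏ v ∈ R, v.asIdeal ^ (t v + 1)) ρ := by
  classical
  have hcard : Nat.card (L ≃ₐ[N] L) = p := by rw [IsGalois.card_aut_eq_finrank, hn]
  have hfinG : Finite (L ≃ₐ[N] L) := inferInstance
  obtain ⟨θ, hθ⟩ := c2_theta p hp hcard
  haveI := Fact.mk hp
  have hab : ∀ a b : L ≃ₐ[N] L, a * b = b * a := by
    intro a b
    apply hθ
    rw [map_mul, map_mul, mul_comm]
  have hfin := H55R.ram_fin N L
  have hS : ∀ v, v ∈ hfin.toFinset ↔ es N L v ≠ 1 := fun v => by rw [Set.Finite.mem_toFinset]; rfl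
  set S := hfin.toFinset with hSdef
  let ft : Ideal (𝓞 N) := ∏ v ∈ S.filter (fun v => (p : 𝓞 N) ∉ v.asIdeal), v.asIdeal
  let R : Finset (HeightOneSpectrum (𝓞 N)) := S.filter (fun v => (p : 𝓞 N) ∈ v.asIdeal)
  let fr : Ideal (𝓞 N) := ∏ v ∈ R, v.asIdeal ^ (t v + 1)
  have hmemR : ∀ v, v ∈ R ↔ (p : 𝓞 N) ∈ v.asIdeal ∧ es N L v ≠ 1 := fun v => by
    rw [Finset.mem_filter, hS]; exact and_comm
  have hft : ∀ v : Pl N, ft ≤ v.asIdeal ↔ (p : 𝓞 N) ∉ v.asIdeal ∧ es N L v ≠ 1 := by
    intro v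
    have hpv := v.isPrime
    show ∏ v ∈ S.filter (fun v => (p : 𝓞 N) ∉ v.asIdeal), v.asIdeal ≤ v.asIdeal ↔ _
    rw [hpv.prod_le]
    constructor
    · rintro ⟨w, hw, hle⟩
      rw [Finset.mem_filter, hS] at hw
      have hwm := w.isMaximal
      have h1 : w = v := HeightOneSpectrum.ext (hwm.eq_of_le hpv.ne_top hle)
      rw [← h1]
      exact ⟨hw.2, hw.1⟩
    · intro h
      exact ⟨v, by rw [Finset.mem_filter, hS]; exact ⟨h.2, h.1⟩, le_refl _⟩
  have hfr : ∀ v : Pl N, fr ≤ v.asIdeal ↔ (p : 𝓞 N) ∈ v.asIdeal ∧ es N L v ≠ 1 := by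
    intro v
    have hpv := v.isPrime
    show ∏ v ∈ R, v.asIdeal ^ (t v + 1) ≤ v.asIdeal ↔ _
    rw [hpv.prod_le]
    constructor
    · rintro ⟨w, hw, hle⟩
      have hwm := w.isMaximal
      have h1 : w = v := HeightOneSpectrum.ext (hwm.eq_of_le hpv.ne_top (hpv.le_of_pow_le hle))
      rw [← h1]
      exact (hmemR w).1 hw
    · intro h
      exact ⟨v, (hmemR v).2 h, Ideal.pow_le_self (by omega)⟩
  have hf : ∀ v : Pl N, ft * fr ≤ v.asIdeal ↔ es N L v ≠ 1 := by
    intro v
    rw [v.isPrime.mul_le, hft, hfr]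
    tauto
  have hcop : IsCoprime ft (Ideal.span {(p : 𝓞 N)}) := by
    refine IsCoprime.prod_left fun v hv => ?_
    refine H55R.cop_prime v _ ?_
    rw [Ideal.span_singleton_le_iff_mem]
    exact (Finset.mem_filter.1 hv).2
  have hft0 : ft ≠ ⊥ := Finset.prod_ne_zero_iff.2 fun v _ => v.ne_bot
  have hfr0 : fr ≠ ⊥ := Finset.prod_ne_zero_iff.2 fun v _ => pow_ne_zero _ v.ne_bot
  let φ : Pl N → ℂˣ := fun v => θ (CFT.frob N L v)
  refine ⟨ft, R, H55R.tI (ft * fr) φ, hcop, hft, hmemR, ?_⟩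
  refine ⟨mul_ne_zero hft0 hfr0, hf, ?_, ?_, ?_, ?_⟩
  · intro a ha hac
    have hφ : φ ^ p = 1 := by
      funext v
      show θ (CFT.frob N L v) ^ p = 1
      rw [← map_pow, ← hcard, pow_card_eq_one', map_one]
    rw [H55R.tI_apply _ φ ha hac, ← Units.val_pow_eq_pow_val, ← H55R.pv_pow, hφ, H55R.pv_one_fun, Units.val_one]
  · intro a ha
    exact H55R.tI_zero _ φ ha
  · intro x y hx hy hxc hxy
    have hyc : IsCoprime (Ideal.span {y}) (ft * fr) := by
      rw [Ideal.isCoprime_iff_sup_eq] at hxc ⊢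
      rw [eq_top_iff, ← hxc]
      refine sup_le ?_ le_sup_right
      rw [Ideal.span_singleton_le_iff_mem]
      have h1 : x = y + (x - y) := by ring
      rw [h1]
      exact add_mem (Ideal.mem_sup_left (Ideal.mem_span_singleton_self y)) (Ideal.mem_sup_right hxy)
    have hS' : ∀ v : CFT.Pr N, ¬ CFT.Unr N L v → v ∈ S := fun v hv => (hS v).2 (fun h => hv ((c2_unr v).2 h))
    have hnot : ∀ z : 𝓞 N, IsCoprime (Ideal.span {z}) (ft * fr) → ∀ v ∈ S, z ∉ v.asIdeal := by
      intro z hz v hv hzv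
      rw [Ideal.isCoprime_iff_sup_eq] at hz
      apply v.isPrime.ne_top
      rw [eq_top_iff, ← hz]
      exact sup_le ((Ideal.span_singleton_le_iff_mem _).2 hzv) ((hf v).2 ((hS v).1 hv))
    -- one over x modulo f
    obtain ⟨u, hu0, hu⟩ : ∃ u : 𝓞 N, u ≠ 0 ∧ u * x - 1 ∈ ft * fr := by
      obtain ⟨a, ha, b, hb, hab1⟩ := Ideal.isCoprime_iff_exists.1 hxc
      obtain ⟨u, rfl⟩ := Ideal.mem_span_singleton'.1 ha
      by_cases hu0 : u = 0
      · refine ⟨1, one_ne_zero, ?_⟩
        rw [hu0, zero_mul, zero_add] at hab1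
        rw [hab1] at hb
        rw [(Ideal.eq_top_iff_one _).2 hb]
        exact Submodule.mem_top
      · refine ⟨u, hu0, ?_⟩
        have h1 : u * x - 1 = -b := by rw [← hab1]; ring
        rw [h1]
        exact neg_mem hb
    have huy : u * y - 1 ∈ ft * fr := by
      have h1 : u * y - 1 = (u * x - 1) - u * (x - y) := by ring
      rw [h1]
      exact sub_mem hu (Ideal.mul_mem_left _ _ hxy)
    have hart : ∀ z : 𝓞 N, z ≠ 0 → z - 1 ∈ ft * fr → CFT.art S θ (CFT.dv (z : N)) = 0 := by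
      intro z hz0 hz
      refine c1_dv hp hn S hS' t (fun v hv hpv => hT v ((hS v).1 hv) hpv) hre θ z hz0 fun v hv => ⟨fun _ => ?_, fun hpv => ?_⟩
      · exact (hf v).2 ((hS v).1 hv) hz
      · have h1 : fr ≤ v.asIdeal ^ (t v + 1) :=
          Ideal.le_of_dvd (Finset.dvd_prod_of_mem (fun v : HeightOneSpectrum (𝓞 N) => v.asIdeal ^ (t v + 1))
            ((hmemR v).2 ⟨hpv, (hS v).1 hv⟩))
        exact (Ideal.mul_le_right.trans h1) hz
    have h1 := hart (u * x) (mul_ne_zero hu0 hx) hu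
    have h2 := hart (u * y) (mul_ne_zero hu0 hy) huy
    have huN : (u : N) ≠ 0 := by simpa using hu0
    have hxN : (x : N) ≠ 0 := by simpa using hx
    have hyN : (y : N) ≠ 0 := by simpa using hy
    have e1 : ((u * x : 𝓞 N) : N) = (u : N) * (x : N) := by simp
    have e2 : ((u * y : 𝓞 N) : N) = (u : N) * (y : N) := by simp
    rw [e1, CFT.dv_mul huN hxN, map_add] at h1
    rw [e2, CFT.dv_mul huN hyN, map_add] at h2
    have h3 : CFT.art S θ (CFT.dv (x : N)) = CFT.art S θ (CFT.dv (y : N)) := add_left_cancel (h1.trans h2.symm)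
    rw [H55R.tI_apply _ φ (by rwa [Ne, Ideal.span_singleton_eq_bot]) hxc,
      H55R.tI_apply _ φ (by rwa [Ne, Ideal.span_singleton_eq_bot]) hyc,
      c2_pv S θ x hx (hnot x hxc), c2_pv S θ y hy (hnot y hyc), h3]
  · intro v hv
    have hes : es N L v = 1 := by
      by_contra h
      exact hv ((hf v).2 h)
    rw [H55R.tI_apply _ φ v.ne_bot (H55R.cop_prime v _ hv), H55R.pv_prime, Units.val_eq_one, ← c2_spl hab v hes]
    exact ⟨fun h => hθ (by rw [map_one]; exact h), fun h => by show θ (CFT.frob N L v) = 1; rw [h, map_one]⟩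

end SSR
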