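import Mathlib
import Pool.Agent.Lib.SSR.RD

open NumberField IsDedekindDomain

namespace SSR

variable {N : Type} [Field N] [NumberField N] {L : Type} [Field L] [NumberField L] [Algebra N L]

/-! Chunk R1 (M). A local generator at Q. PROOF. v = the prime of N below Q. k = 𝓞 L / Q is a finite field with q elements, its unit group is cyclic: zeta generates it. By the Chinese
remainder theorem (finitely many maximal ideals above v: primesOver_finite) choose x0 in 𝓞 L with x0 = zeta mod Q and x0 in Q' for all the other primes Q' above v; q in Q (card of the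
quotient). If x0^(q-1) - 1 in Q^2 replace x0 by x0 + u, u in Q, not in Q^2, u in all Q': (x0+u)^(q-1) - 1 = x0^(q-1) - 1 + (q-1) x0^(q-2) u mod Q^2, not in Q^2 (q - 1 and x0 are units
mod Q). So there is x with x = zeta mod Q, x in all Q', c := x^(q-1) - 1 in Q, not in Q^2. R := Algebra.adjoin (𝓞 N) {x} (a subring over which 𝓞 L is finite), n := Q intersected with R.
(a) every y in 𝓞 L is in R + Q: y = 0 or y = zeta^i = x^i mod Q. (b) Q <= n 𝓞 L (the ideal of 𝓞 L generated by n): n contains c and the image of v; an ideal of 𝓞 L which contains v and c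
is a product of primes above v; a Q' with c in Q' would contain x^(q-1) and so 1; so this ideal is a power of Q, and it contains c not in Q^2: it is Q (or all). So 𝓞 L = R + n 𝓞 L as
R-modules; by Nakayama (Submodule.exists_sub_one_mem_and_smul_eq_zero_of_fg_of_le_smul for the R-module 𝓞 L / R, or Submodule.exists_mem_and_smul_..) there is s in R, s - 1 in n, s 𝓞 L <= R.
So s is in the conductor (conductor R x = {a | for all b, a b in adjoin}) and not in Q. -/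

theorem r1_lift (Q : HeightOneSpectrum (𝓞 L)) : ∃ (m : ℕ) (x1 : 𝓞 L), 0 < m ∧
    (∀ y : 𝓞 L, y ∉ Q.asIdeal → ∃ i : ℕ, x1 ^ i - y ∈ Q.asIdeal) ∧ x1 ^ m - 1 ∈ Q.asIdeal ∧
    x1 ^ m - 1 ∉ Q.asIdeal ^ 2 := by
  have hQp := Q.isPrime
  have hQm := Q.isMaximal
  let _ : Field (𝓞 L ⧸ Q.asIdeal) := Ideal.Quotient.field Q.asIdeal
  have hfin : Finite (𝓞 L ⧸ Q.asIdeal) := Ideal.finiteQuotientOfFreeOfNeBot Q.asIdeal Q.ne_bot
  obtain ⟨ζ, hζ⟩ := IsCyclic.exists_generator (α := (𝓞 L ⧸ Q.asIdeal)ˣ)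
  obtain ⟨m, hm⟩ : ∃ m, m = Nat.card (𝓞 L ⧸ Q.asIdeal)ˣ := ⟨_, rfl⟩
  have hm0 : 0 < m := by
    rw [hm]
    exact Nat.card_pos
  have hζm : ζ ^ m = 1 := by
    rw [hm]
    exact pow_card_eq_one'
  have hmk : (m : 𝓞 L ⧸ Q.asIdeal) ≠ 0 := by
    have h1 : Nat.card (𝓞 L ⧸ Q.asIdeal) = m + 1 := by
      rw [hm, Nat.card_units]
      have : 0 < Nat.card (𝓞 L ⧸ Q.asIdeal) := Nat.card_pos
      omega
    have h2 : ((Nat.card (𝓞 L ⧸ Q.asIdeal) : ℕ) : 𝓞 L ⧸ Q.asIdeal) = 0 := by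
      have := card_nsmul_eq_zero' (x := (1 : 𝓞 L ⧸ Q.asIdeal))
      rwa [nsmul_eq_mul, mul_one] at this
    intro h
    rw [h1] at h2
    push_cast at h2
    rw [h, zero_add] at h2
    exact one_ne_zero h2
  obtain ⟨z, hz⟩ := Ideal.Quotient.mk_surjective (ζ : 𝓞 L ⧸ Q.asIdeal)
  have gen : ∀ x1 : 𝓞 L, Ideal.Quotient.mk Q.asIdeal x1 = ζ →
      (∀ y : 𝓞 L, y ∉ Q.asIdeal → ∃ i : ℕ, x1 ^ i - y ∈ Q.asIdeal) ∧ x1 ^ m - 1 ∈ Q.asIdeal := by
    intro x1 hx1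
    constructor
    · intro y hy
      have hy0 : Ideal.Quotient.mk Q.asIdeal y ≠ 0 :=
        fun h => hy (Ideal.Quotient.eq_zero_iff_mem.1 h)
      obtain ⟨i, hi⟩ := (mem_powers_iff_mem_zpowers).2 (hζ (Units.mk0 _ hy0))
      refine ⟨i, ?_⟩
      rw [← Ideal.Quotient.eq, map_pow, hx1]
      have := congrArg Units.val hi
      simpa using this
    · rw [← Ideal.Quotient.eq, map_pow, hx1, map_one, ← Units.val_pow_eq_pow_val, hζm,
        Units.val_one]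
  by_cases h2 : z ^ m - 1 ∈ Q.asIdeal ^ 2
  · obtain ⟨u, hu1, hu2⟩ := Ideal.exists_mem_pow_notMem_pow_succ Q.asIdeal Q.ne_bot hQp.ne_top 1
    rw [pow_one] at hu1
    have hzu : Ideal.Quotient.mk Q.asIdeal (z + u) = ζ := by
      rw [map_add, Ideal.Quotient.eq_zero_iff_mem.2 hu1, add_zero, hz]
    obtain ⟨g1, g2⟩ := gen _ hzu
    refine ⟨m, z + u, hm0, g1, g2, fun h3 => hu2 ?_⟩
    obtain ⟨k, hk⟩ := Polynomial.powAddExpansion z u m
    have h4 : (m : 𝓞 L) * z ^ (m - 1) * u ∈ Q.asIdeal ^ 2 := by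
      have e : (m : 𝓞 L) * z ^ (m - 1) * u = ((z + u) ^ m - 1) - (z ^ m - 1) - k * u ^ 2 := by
        rw [hk]
        ring
      rw [e]
      exact sub_mem (sub_mem h3 h2) (Ideal.mul_mem_left _ _ (Ideal.pow_mem_pow hu1 2))
    have h5 : (m : 𝓞 L) * z ^ (m - 1) ∉ Q.asIdeal := by
      intro h
      have h6 := Ideal.Quotient.eq_zero_iff_mem.2 h
      rw [map_mul, map_pow, hz, map_natCast] at h6
      exact mul_ne_zero hmk (pow_ne_zero _ ζ.ne_zero) h6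
    have h7 : Q.asIdeal ^ 2 ∣ Ideal.span {(m : 𝓞 L) * z ^ (m - 1)} * Ideal.span {u} := by
      rw [Ideal.dvd_iff_le, Ideal.span_singleton_mul_span_singleton,
        Ideal.span_singleton_le_iff_mem]
      exact h4
    have h8 : ¬ Q.asIdeal ∣ Ideal.span {(m : 𝓞 L) * z ^ (m - 1)} := by
      rw [Ideal.dvd_iff_le, Ideal.span_singleton_le_iff_mem]
      exact h5
    have h9 := Q.prime.pow_dvd_of_dvd_mul_left 2 h8 h7
    rwa [Ideal.dvd_iff_le, Ideal.span_singleton_le_iff_mem] at h9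
  · obtain ⟨g1, g2⟩ := gen z hz
    exact ⟨m, z, hm0, g1, g2, h2⟩

theorem r1_gen (Q : HeightOneSpectrum (𝓞 L)) : ∃ x : 𝓞 L, ¬ conductor (𝓞 N) x ≤ Q.asIdeal := by
  have hQp := Q.isPrime
  have hQm := Q.isMaximal
  obtain ⟨m, x1, hm, hgen, hx1, hx2⟩ := r1_lift Q
  have hinj : Function.Injective (algebraMap (𝓞 N) (𝓞 L)) := FaithfulSMul.algebraMap_injective _ _
  obtain ⟨v, hv⟩ : ∃ v : Ideal (𝓞 N), v = Q.asIdeal.comap (algebraMap (𝓞 N) (𝓞 L)) := ⟨_, rfl⟩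
  have hv0 : v ≠ ⊥ := by
    rw [hv]
    exact fun h0 => Q.ne_bot (Ideal.eq_bot_of_comap_eq_bot (R := 𝓞 N) (I := Q.asIdeal) h0)
  obtain ⟨V, hV⟩ : ∃ V : Ideal (𝓞 L), V = v.map (algebraMap (𝓞 N) (𝓞 L)) := ⟨_, rfl⟩
  have hV0 : V ≠ ⊥ := fun h => hv0 ((Ideal.map_eq_bot_iff_of_injective hinj).1 (hV ▸ h))
  obtain ⟨J, hJ, hJQ⟩ := (ex_fin Q hV0).exists_eq_pow_mul_and_not_dvd
  obtain ⟨e, he⟩ : ∃ e, e = multiplicity Q.asIdeal V := ⟨_, rfl⟩
  rw [← he] at hJ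
  rw [Ideal.dvd_iff_le] at hJQ
  have hcop : IsCoprime (Q.asIdeal ^ 2) J := by
    apply IsCoprime.pow_left
    rw [Ideal.isCoprime_iff_sup_eq]
    exact hQm.out.2 _ (left_lt_sup.2 hJQ)
  obtain ⟨a, ha, j, hj, haj⟩ := Ideal.isCoprime_iff_exists.1 hcop
  obtain ⟨x, hx⟩ : ∃ x, x = x1 * j := ⟨_, rfl⟩
  have hxx1 : x - x1 ∈ Q.asIdeal ^ 2 := by
    have e1 : x - x1 = -(x1 * a) := by
      rw [hx]
      linear_combination x1 * haj
    rw [e1]
    exact neg_mem (Ideal.mul_mem_left _ _ ha)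
  have hxJ : x ∈ J := by
    rw [hx]
    exact Ideal.mul_mem_left _ _ hj
  have hpow : ∀ n : ℕ, x ^ n - x1 ^ n ∈ Q.asIdeal ^ 2 := fun n =>
    Ideal.mem_of_dvd _ (sub_dvd_pow_sub_pow x x1 n) hxx1
  have hsq : Q.asIdeal ^ 2 ≤ Q.asIdeal := Ideal.pow_le_self two_ne_zero
  obtain ⟨c, hc⟩ : ∃ c, c = x ^ m - 1 := ⟨_, rfl⟩
  have hcQ : c ∈ Q.asIdeal := by
    have e1 : c = (x ^ m - x1 ^ m) + (x1 ^ m - 1) := by
      rw [hc]
      ring
    rw [e1]
    exact add_mem (hsq (hpow m)) hx1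
  have hcQ2 : c ∉ Q.asIdeal ^ 2 := by
    intro h
    apply hx2
    have e1 : x1 ^ m - 1 = c - (x ^ m - x1 ^ m) := by
      rw [hc]
      ring
    rw [e1]
    exact sub_mem h (hpow m)
  have hJc : J ⊔ Ideal.span {c} = ⊤ := by
    rw [Ideal.eq_top_iff_one]
    have e1 : (1 : 𝓞 L) = x ^ m + (-1) * c := by
      rw [hc]
      ring
    rw [e1]
    exact Submodule.add_mem_sup (Ideal.pow_mem_of_mem J hxJ m hm)
      (Ideal.mul_mem_left _ _ (Ideal.mem_span_singleton_self c))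
  have hQe : Q.asIdeal ^ e ≤ V ⊔ Ideal.span {c} := by
    have e1 : Q.asIdeal ^ e = Q.asIdeal ^ e * J ⊔ Q.asIdeal ^ e * Ideal.span {c} := by
      rw [← Ideal.mul_sup, hJc, Ideal.mul_top]
    rw [e1]
    exact sup_le_sup (le_of_eq hJ.symm) Ideal.mul_le_right
  have hQle : Q.asIdeal ≤ V ⊔ Ideal.span {c} := by
    have hI : V ⊔ Ideal.span {c} ∣ Q.asIdeal ^ e := Ideal.dvd_iff_le.2 hQe
    obtain ⟨i, hi, hi2⟩ := (dvd_prime_pow Q.prime e).1 hI
    rw [associated_iff_eq] at hi2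
    have hi1 : i ≤ 1 := by
      by_contra h
      apply hcQ2
      have h3 : c ∈ V ⊔ Ideal.span {c} := Ideal.mem_sup_right (Ideal.mem_span_singleton_self c)
      rw [hi2] at h3
      exact Ideal.pow_le_pow_right (by omega) h3
    rw [hi2]
    have h9 : Q.asIdeal ^ 1 ≤ Q.asIdeal ^ i := Ideal.pow_le_pow_right hi1
    rwa [pow_one] at h9
  obtain ⟨R, hR⟩ : ∃ R : Subalgebra (𝓞 N) (𝓞 L), R = Algebra.adjoin (𝓞 N) {x} := ⟨_, rfl⟩
  have hxR : x ∈ R := by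
    rw [hR]
    exact Algebra.self_mem_adjoin_singleton _ _
  obtain ⟨n, hn⟩ : ∃ n : Ideal R, n = Q.asIdeal.comap (algebraMap R (𝓞 L)) := ⟨_, rfl⟩
  have hfin : (⊤ : Submodule R (𝓞 L)).FG := by
    have : Module.Finite R (𝓞 L) := Module.Finite.of_restrictScalars_finite (𝓞 N) R (𝓞 L)
    exact Module.finite_def.1 this
  have hsup : V ⊔ Ideal.span {c} ≤ n.map (algebraMap R (𝓞 L)) := by
    refine sup_le ?_ ?_
    · rw [hV, Ideal.map_le_iff_le_comap]
      intro b hb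
      rw [Ideal.mem_comap]
      have h1 : algebraMap (𝓞 N) (𝓞 L) b = algebraMap R (𝓞 L) (algebraMap (𝓞 N) R b) := rfl
      rw [h1]
      apply Ideal.mem_map_of_mem
      rw [hn, Ideal.mem_comap, ← h1]
      rw [hv] at hb
      exact hb
    · rw [Ideal.span_singleton_le_iff_mem]
      have h1 : c = algebraMap R (𝓞 L) ((⟨x, hxR⟩ : R) ^ m - 1) := by
        rw [hc]
        rfl
      rw [h1]
      apply Ideal.mem_map_of_mem
      rw [hn, Ideal.mem_comap, ← h1]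
      exact hcQ
  have hQn : ∀ y ∈ Q.asIdeal, y ∈ (n • (⊤ : Submodule R (𝓞 L))) := by
    intro y hy
    rw [Ideal.smul_top_eq_map, Submodule.restrictScalars_mem]
    exact hsup (hQle hy)
  have hle : (⊤ : Submodule R (𝓞 L)) ≤ (1 : Submodule R (𝓞 L)) ⊔ n • ⊤ := by
    intro y _
    by_cases hy : y ∈ Q.asIdeal
    · exact Submodule.mem_sup_right (hQn y hy)
    · obtain ⟨i, hi⟩ := hgen y hy
      have h1 : y - x ^ i ∈ Q.asIdeal := by
        have e1 : y - x ^ i = -((x ^ i - x1 ^ i) + (x1 ^ i - y)) := by ring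
        rw [e1]
        exact neg_mem (add_mem (hsq (hpow i)) hi)
      have e2 : y = x ^ i + (y - x ^ i) := by ring
      rw [e2]
      refine Submodule.add_mem_sup ?_ (hQn _ h1)
      rw [Submodule.mem_one]
      exact ⟨(⟨x, hxR⟩ : R) ^ i, rfl⟩
  obtain ⟨r, hr1, hr2⟩ := Submodule.exists_sub_one_mem_and_smul_le_of_fg_of_le_sup hfin le_top hle
  refine ⟨x, fun hcond => ?_⟩
  have hrc : (r : 𝓞 L) ∈ conductor (𝓞 N) x := by
    intro b
    have h2 := hr2 (Submodule.smul_mem_pointwise_smul b r ⊤ Submodule.mem_top)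
    rw [Submodule.mem_one] at h2
    obtain ⟨s, hs⟩ := h2
    have h3 : (r : 𝓞 L) * b = s := hs.symm
    rw [h3, ← hR]
    exact s.2
  have h4 : (r : 𝓞 L) ∈ Q.asIdeal := hcond hrc
  have h5 : (r : 𝓞 L) - 1 ∈ Q.asIdeal := by
    rw [hn, Ideal.mem_comap] at hr1
    exact hr1
  have h6 : (1 : 𝓞 L) ∈ Q.asIdeal := by
    have := sub_mem h4 h5
    simpa using this
  exact hQp.ne_top ((Ideal.eq_top_iff_one _).2 h6)

end SSR
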