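import Mathlib
import Pool.Agent.Lib.SSR.RD

open NumberField IsDedekindDomain

namespace SSR

variable {N : Type} [Field N] [NumberField N] {L : Type} [Field L] [NumberField L] [Algebra N L]

/-! Chunk R2 (S/M). PROOF of r2_iff. <- is the definition. ->: let s0 be in the conductor, not in Q. For y in 𝓞 L: s0 y and s0 are in Algebra.adjoin (𝓞 N) {x}, so = aeval x g, aeval x h
(Algebra.adjoin_singleton_eq_range_aeval / mem_adjoin_iff). s • aeval x g = aeval (s • x) g (s acts as an 𝓞 N-algebra automorphism of 𝓞 L: check on the images in L), and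
(s • x - x) | aeval (s • x) g - aeval x g (Polynomial.sub_dvd_eval_sub after mapping to 𝓞 L[X]). So s • x - x divides s • (s0 y) - s0 y and s • s0 - s0, hence
s0 (s • y - y) = (s • (s0 y) - s0 y) - (s • s0 - s0) (s • y) is in Q^n. s0 is not in Q: s • y - y in Q^n (Ideal.IsPrime ... mem_or_mem for powers of a prime: e.g. use ex / multiplicity:
Q^n | span {s0 z}, Q does not divide span {s0}: Prime.pow_dvd_of_dvd_mul_left).
PROOF of r2_top. K(x) = L: the conductor is not 0 (it is not contained in Q): 0 ≠ s0 with s0 𝓞 L in 𝓞 N[x]; every element of L is y/z with y in 𝓞 L, z in 𝓞 N nonzero (or ℤ); y = (s0 y)/s0 is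
in N(x) = Algebra.adjoin N {x} (x algebraic). -/

omit [NumberField N] [NumberField L] in
theorem r2_fix (s : L ≃ₐ[N] L) (a : 𝓞 N) : s • (algebraMap (𝓞 N) (𝓞 L) a) = algebraMap (𝓞 N) (𝓞 L) a := by
  apply RingOfIntegers.ext
  change s (algebraMap N L (a : N)) = algebraMap N L (a : N)
  exact s.commutes _

theorem r2_iff (Q : HeightOneSpectrum (𝓞 L)) (x : 𝓞 L) (hx : ¬ conductor (𝓞 N) x ≤ Q.asIdeal) (s : L ≃ₐ[N] L) (n : ℕ) :
    s • x - x ∈ Q.asIdeal ^ n ↔ Gp Q.asIdeal n s := by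
  refine ⟨fun h y => ?_, fun h => h x⟩
  obtain ⟨s0, hs0, hs0Q⟩ := Set.not_subset.1 hx
  have key : ∀ z ∈ Algebra.adjoin (𝓞 N) {x}, s • z - z ∈ Q.asIdeal ^ n := by
    intro z hz
    rw [Algebra.adjoin_singleton_eq_range_aeval] at hz
    obtain ⟨g, rfl⟩ := hz
    have e : s • (Polynomial.aeval x g) = Polynomial.aeval (s • x) g := by
      rw [Polynomial.aeval_eq_sum_range, Polynomial.aeval_eq_sum_range, Finset.smul_sum]
      refine Finset.sum_congr rfl fun i _ => ?_
      rw [Algebra.smul_def, Algebra.smul_def, smul_mul', smul_pow', r2_fix]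
    change s • (Polynomial.aeval x g) - Polynomial.aeval x g ∈ _
    rw [e]
    have e2 : (s • x - x) ∣ (Polynomial.aeval (s • x) g - Polynomial.aeval x g) := by
      have h3 := Polynomial.sub_dvd_eval_sub (s • x) x (g.map (algebraMap (𝓞 N) (𝓞 L)))
      rwa [Polynomial.eval_map_algebraMap, Polynomial.eval_map_algebraMap] at h3
    exact Ideal.mem_of_dvd _ e2 h
  have h1 := key _ (mem_conductor_iff.1 hs0 y)
  have h2 := key _ (mem_conductor_iff.1 hs0 1)
  rw [mul_one] at h2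
  have h3 : s0 * (s • y - y) ∈ Q.asIdeal ^ n := by
    have : s0 * (s • y - y) = (s • (s0 * y) - s0 * y) - (s • s0 - s0) * (s • y) := by
      rw [smul_mul']; ring
    rw [this]
    exact sub_mem h1 (Ideal.mul_mem_right _ _ h2)
  rw [← Ideal.span_singleton_le_iff_mem, ← Ideal.dvd_iff_le, ← Ideal.span_singleton_mul_span_singleton] at h3
  have h4 := Q.prime.pow_dvd_of_dvd_mul_left n (a := Ideal.span {s0}) (by
    rw [Ideal.dvd_iff_le, Ideal.span_singleton_le_iff_mem]; exact hs0Q) h3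
  rwa [Ideal.dvd_iff_le, Ideal.span_singleton_le_iff_mem] at h4

theorem r2_top (Q : HeightOneSpectrum (𝓞 L)) (x : 𝓞 L) (hx : ¬ conductor (𝓞 N) x ≤ Q.asIdeal) :
    Algebra.adjoin N {algebraMap (𝓞 L) L x} = ⊤ := by
  have hne : conductor (𝓞 N) x ≠ ⊥ := fun h => hx (h ▸ bot_le)
  obtain ⟨s0, hs0, hs00⟩ := Submodule.exists_mem_ne_zero_of_ne_bot hne
  have key : ∀ z ∈ Algebra.adjoin (𝓞 N) {x}, algebraMap (𝓞 L) L z ∈ Algebra.adjoin N {algebraMap (𝓞 L) L x} := by
    intro z hz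
    rw [Algebra.adjoin_singleton_eq_range_aeval] at hz
    obtain ⟨g, rfl⟩ := hz
    change algebraMap (𝓞 L) L (Polynomial.aeval x g) ∈ _
    rw [← Polynomial.aeval_algebraMap_apply, Polynomial.aeval_eq_sum_range]
    refine sum_mem fun i _ => ?_
    have : (g.coeff i) • (algebraMap (𝓞 L) L x) ^ i = (algebraMap (𝓞 N) N (g.coeff i)) • (algebraMap (𝓞 L) L x) ^ i := by
      rw [algebraMap_smul]
    rw [this]
    exact Subalgebra.smul_mem _ (pow_mem (Algebra.subset_adjoin (Set.mem_singleton _)) _) _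
  rw [eq_top_iff]
  intro y _
  obtain ⟨u, w, hw, rfl⟩ := IsFractionRing.div_surjective (A := 𝓞 L) y
  have hs0L : algebraMap (𝓞 L) L s0 ≠ 0 := by
    intro h
    exact hs00 ((map_eq_zero_iff _ (IsFractionRing.injective (𝓞 L) L)).1 h)
  have h1 := key _ (mem_conductor_iff.1 hs0 u)
  have h2 := key _ (mem_conductor_iff.1 hs0 w)
  have h3 : (algebraMap (𝓞 L) L (s0 * w))⁻¹ ∈ Algebra.adjoin N {algebraMap (𝓞 L) L x} :=
    (Algebra.IsIntegral.isIntegral (R := N) (algebraMap (𝓞 L) L (s0 * w))).inv_mem h2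
  have h4 : algebraMap (𝓞 L) L u / algebraMap (𝓞 L) L w = algebraMap (𝓞 L) L (s0 * u) * (algebraMap (𝓞 L) L (s0 * w))⁻¹ := by
    rw [map_mul, map_mul, ← div_eq_mul_inv, mul_div_mul_left _ _ hs0L]
  rw [h4]
  exact mul_mem h1 h3

end SSR
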