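import Mathlib
import Pool.Agent.Lib.SSR.RD

open NumberField IsDedekindDomain

namespace SSR

variable {N : Type} [Field N] [NumberField N] {L : Type} [Field L] [NumberField L] [Algebra N L]

/-! Chunk R3 (S/M). PROOF. conductor_mul_differentIdeal (𝓞 N) N L x htop: conductor * different = span {aeval x (derivative (minpoly (𝓞 N) x))}. L/N is Galois and N(x) = L: the map s ↦ s x is
injective on Gal(L/N) and minpoly N x = product over s of (X - C (s x)) (monic of degree [L : N] with these distinct roots; minpoly.isIntegrallyClosed_eq_field_fractions' for minpoly (𝓞 N) x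
mapped to N; splits: IsGalois.splits; Polynomial.aeval_root_derivative_of_splits or the derivative of a product at a root: derivative_prod / eval: only the term s = 1 survives). So the value
of the derivative at x is the product over s ≠ 1 of (x - s x); go back to 𝓞 L by injectivity of 𝓞 L → L. -/

theorem r3_prod [IsGalois N L] (x : L) (htop : Algebra.adjoin N {x} = ⊤) :
    (minpoly N x).map (algebraMap N L) = ∏ s : L ≃ₐ[N] L, (Polynomial.X - Polynomial.C (s x)) := by
  have hinj : Function.Injective (fun s : L ≃ₐ[N] L => s x) := by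
    intro s t h
    have h1 : (s : L →ₐ[N] L) = (t : L →ₐ[N] L) := by
      refine AlgHom.ext_of_adjoin_eq_top htop ?_
      intro y hy
      rw [Set.mem_singleton_iff] at hy
      rw [hy]
      exact h
    exact AlgEquiv.ext fun y => DFunLike.congr_fun h1 y
  have hx : IsIntegral N x := Algebra.IsIntegral.isIntegral x
  have hm : ((minpoly N x).map (algebraMap N L)).Monic := (minpoly.monic hx).map _
  have hP : (∏ s : L ≃ₐ[N] L, (Polynomial.X - Polynomial.C (s x))).Monic :=
    Polynomial.monic_prod_of_monic _ _ fun s _ => Polynomial.monic_X_sub_C _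
  refine Polynomial.eq_of_monic_of_dvd_of_natDegree_le hP hm ?_ ?_
  · refine Finset.prod_dvd_of_coprime ?_ ?_
    · intro s _ t _ hst
      exact Polynomial.pairwise_coprime_X_sub_C hinj hst
    · intro s _
      rw [Polynomial.dvd_iff_isRoot, Polynomial.IsRoot, Polynomial.eval_map_algebraMap]
      have h1 := Polynomial.aeval_algHom_apply (s : L →ₐ[N] L) x (minpoly N x)
      rw [minpoly.aeval, map_zero] at h1
      exact h1
  · rw [Polynomial.natDegree_map, Polynomial.natDegree_prod_of_monic _ _ fun s _ =>
      Polynomial.monic_X_sub_C _]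
    simp only [Polynomial.natDegree_X_sub_C, Finset.sum_const, smul_eq_mul, mul_one]
    rw [Finset.card_univ, ← Nat.card_eq_fintype_card, IsGalois.card_aut_eq_finrank]
    exact minpoly.natDegree_le x

theorem r3_der [IsGalois N L] [DecidableEq (L ≃ₐ[N] L)] (x : L) (htop : Algebra.adjoin N {x} = ⊤) :
    Polynomial.aeval x (Polynomial.derivative (minpoly N x)) =
      ∏ s ∈ Finset.univ.erase (1 : L ≃ₐ[N] L), (x - s x) := by
  rw [← Polynomial.eval_map_algebraMap, ← Polynomial.derivative_map, r3_prod x htop,
    Polynomial.derivative_prod_finset, Polynomial.eval_finsetSum, Finset.sum_eq_single (1 : L ≃ₐ[N] L)]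
  · rw [Polynomial.eval_mul, Polynomial.eval_prod]
    simp
  · intro s _ hs
    rw [Polynomial.eval_mul, Polynomial.eval_prod]
    refine mul_eq_zero_of_left (Finset.prod_eq_zero (i := (1 : L ≃ₐ[N] L)) ?_ ?_) _
    · exact Finset.mem_erase.2 ⟨fun h => hs h.symm, Finset.mem_univ _⟩
    · simp
  · intro h
    exact absurd (Finset.mem_univ _) h

theorem r3_diff [IsGalois N L] (x : 𝓞 L) (htop : Algebra.adjoin N {algebraMap (𝓞 L) L x} = ⊤) [DecidableEq (L ≃ₐ[N] L)] :
    conductor (𝓞 N) x * differentIdeal (𝓞 N) (𝓞 L) = Ideal.span {∏ s ∈ Finset.univ.erase (1 : L ≃ₐ[N] L), (x - s • x)} := by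
  rw [conductor_mul_differentIdeal (𝓞 N) N L x htop]
  congr 2
  apply FaithfulSMul.algebraMap_injective (𝓞 L) L
  have h1 : minpoly N (algebraMap (𝓞 L) L x) = (minpoly (𝓞 N) x).map (algebraMap (𝓞 N) N) := by
    have hi : IsIntegral (𝓞 N) (algebraMap (𝓞 L) L x) :=
      (Algebra.IsIntegral.isIntegral (R := 𝓞 N) x).map (IsScalarTower.toAlgHom (𝓞 N) (𝓞 L) L)
    rw [minpoly.isIntegrallyClosed_eq_field_fractions' N (R := 𝓞 N) hi,
      minpoly.algebraMap_eq (FaithfulSMul.algebraMap_injective (𝓞 L) L)]
  have h2 := r3_der (algebraMap (𝓞 L) L x) htop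
  rw [h1, Polynomial.derivative_map, Polynomial.aeval_map_algebraMap,
    Polynomial.aeval_algebraMap_apply] at h2
  rw [h2, map_prod]
  refine Finset.prod_congr rfl fun s _ => ?_
  rw [map_sub]
  rfl

end SSR
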