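import Mathlib
import Pool.Agent.Lib.SSR.R1
import Pool.Agent.Lib.SSR.R2
import Pool.Agent.Lib.SSR.R3

open NumberField IsDedekindDomain

namespace SSR

variable {N : Type} [Field N] [NumberField N] {L : Type} [Field L] [NumberField L] [Algebra N L]

/-! Chunk R4 (S/M). HILBERT'S FORMULA for the different. PROOF of r4_ex: s ≠ 1 moves some y in 𝓞 L (L is the field of fractions); s • y - y ≠ 0 is in only finitely many powers of Q (ex_fin,
le_iff_ex for span {s • y - y}); Nat.find the least n with not Gp Q n s; n ≠ 0 because Q^0 = ⊤ (Gp is decreasing in n: Ideal.pow_le_pow_right). PROOF of r4_hilb: x from r1_gen, r2_top, r3_diff;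
take ex Q of both sides: ex_mul (conductor ≠ ⊥, different ≠ ⊥), ex Q conductor = 0 (ex_zero), ex Q (span {prod}) = sum of ex Q (span {x - s • x}) (Ideal.span_singleton_mul_span_singleton,
Finset induction; the factors are ≠ 0 because Gp Q (i s + 1) s is false, r2_iff), and ex Q (span {x - s • x}) = i s: le_iff_ex with Ideal.span_singleton_le_iff_mem and r2_iff (x - s x =
-(s x - x)). -/

theorem r4_ex (Q : HeightOneSpectrum (𝓞 L)) (s : L ≃ₐ[N] L) (hs : s ≠ 1) : ∃ n : ℕ, Gp Q.asIdeal n s ∧ ¬ Gp Q.asIdeal (n + 1) s := by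
  classical
  have h1 : ∃ y : 𝓞 L, s • y ≠ y := by
    by_contra h
    push Not at h
    apply hs
    refine AlgEquiv.ext fun l => ?_
    obtain ⟨a, b, -, hab⟩ := IsFractionRing.div_surjective (A := 𝓞 L) l
    have ha : s (algebraMap (𝓞 L) L a) = algebraMap (𝓞 L) L a := by
      have := congrArg (algebraMap (𝓞 L) L) (h a)
      exact this
    have hb : s (algebraMap (𝓞 L) L b) = algebraMap (𝓞 L) L b := by
      have := congrArg (algebraMap (𝓞 L) L) (h b)
      exact this
    rw [← hab, map_div₀, ha, hb]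
    rfl
  obtain ⟨y, hy⟩ := h1
  have hI : Ideal.span {s • y - y} ≠ ⊥ := by
    rw [Ne, Ideal.span_singleton_eq_bot, sub_eq_zero]
    exact hy
  have h2 : ∃ m, ¬ Gp Q.asIdeal m s := by
    refine ⟨ex Q (Ideal.span {s • y - y}) + 1, fun h => ?_⟩
    have h3 := h y
    rw [← Ideal.span_singleton_le_iff_mem, le_iff_ex Q hI] at h3
    omega
  obtain ⟨n0, hn0⟩ : ∃ n0, n0 = Nat.find h2 := ⟨_, rfl⟩
  have h4 := Nat.find_spec h2
  rw [← hn0] at h4
  rcases n0 with _ | n
  · exfalso
    apply h4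
    intro z
    rw [pow_zero, Ideal.one_eq_top]
    exact Submodule.mem_top
  · refine ⟨n, ?_, h4⟩
    have := Nat.find_min h2 (m := n) (by omega)
    exact not_not.1 this

/-- Hilbert's formula. -/
theorem r4_hilb [IsGalois N L] [DecidableEq (L ≃ₐ[N] L)] (Q : HeightOneSpectrum (𝓞 L)) (i : (L ≃ₐ[N] L) → ℕ)
    (hi : ∀ s, s ≠ 1 → Gp Q.asIdeal (i s) s ∧ ¬ Gp Q.asIdeal (i s + 1) s) :
    ex Q (differentIdeal (𝓞 N) (𝓞 L)) = ∑ s ∈ Finset.univ.erase (1 : L ≃ₐ[N] L), i s := by
  obtain ⟨x, hx⟩ := r1_gen (N := N) Q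
  have hc : conductor (𝓞 N) x ≠ ⊥ := fun h => hx (h ▸ bot_le)
  have h1 := congrArg (ex Q) (r3_diff x (r2_top Q x hx))
  rw [ex_mul Q hc different_ne, ex_zero Q hx, zero_add] at h1
  rw [h1]
  have h2 : ∀ s : L ≃ₐ[N] L, s ≠ 1 → Ideal.span {x - s • x} ≠ ⊥ ∧
      ex Q (Ideal.span {x - s • x}) = i s := by
    intro s hs
    obtain ⟨h3, h4⟩ := hi s hs
    have key : ∀ n, Ideal.span {x - s • x} ≤ Q.asIdeal ^ n ↔ Gp Q.asIdeal n s := by
      intro n
      rw [Ideal.span_singleton_le_iff_mem, ← r2_iff Q x hx s n]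
      constructor
      · intro h
        rw [← neg_sub]
        exact neg_mem h
      · intro h
        rw [← neg_sub]
        exact neg_mem h
    have h0 : Ideal.span {x - s • x} ≠ ⊥ := by
      intro h
      exact h4 ((key _).1 (h ▸ bot_le))
    refine ⟨h0, le_antisymm ?_ ?_⟩
    · by_contra h
      push Not at h
      exact h4 ((key _).1 ((le_iff_ex Q h0 _).2 h))
    · exact (le_iff_ex Q h0 _).1 ((key _).2 h3)
  have h5 : ∀ t : Finset (L ≃ₐ[N] L), (∀ s ∈ t, s ≠ 1) →
      Ideal.span {∏ s ∈ t, (x - s • x)} ≠ ⊥ ∧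
      ex Q (Ideal.span {∏ s ∈ t, (x - s • x)}) = ∑ s ∈ t, i s := by
    intro t
    induction t using Finset.induction_on with
    | empty =>
      intro _
      rw [Finset.prod_empty, Finset.sum_empty, Ideal.span_singleton_one]
      refine ⟨top_ne_bot, ex_zero Q fun h => ?_⟩
      exact Q.isPrime.ne_top (top_le_iff.1 h)
    | insert a t ha ih =>
      intro ht
      obtain ⟨h6, h7⟩ := ih fun s hs => ht s (Finset.mem_insert_of_mem hs)
      obtain ⟨h8, h9⟩ := h2 a (ht a (Finset.mem_insert_self _ _))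
      rw [Finset.prod_insert ha, Finset.sum_insert ha, ← Ideal.span_singleton_mul_span_singleton]
      exact ⟨mul_ne_zero h8 h6, by rw [ex_mul Q h8 h6, h7, h9]⟩
  exact (h5 _ fun s hs => Finset.ne_of_mem_erase hs).2

end SSR
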