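import Mathlib
import Pool.Agent.Lib.SSR.RD

open NumberField IsDedekindDomain

namespace SSR

variable {N : Type} [Field N] [NumberField N] {L : Type} [Field L] [NumberField L] [Algebra N L]

/-! Chunk R5 (M). The first ramification group of a p-group is the inertia group. PROOF. Let s be with Gp Q 1 s (s • y = y mod Q for all y), so s Q = Q, s Q^2 = Q^2. Choose u in Q, not in Q^2.
Q = (u) + Q^2 (Q^2 < (u) + Q^2 <= Q; Q/Q^2 has no ideals between; e.g. Ideal: an ideal J with Q^2 < J <= Q contains ... J | Q^2 so J is Q^i, i <= 1; i = 0 excluded), so s • u = c u + (element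
of Q^2) with c in 𝓞 L. By induction s^n • u = c^n u mod Q^2 (s • c = c mod Q and u in Q). For n = p^k: s^n = 1, so (c^n - 1) u in Q^2, c^n - 1 in Q (u not in Q^2), and x^(p^k) = 1 in the
field 𝓞 L / Q of characteristic p gives c = 1 mod Q ((c - 1)^(p^k) = c^(p^k) - 1; sub_pow_char_pow or iterate frobenius injectivity). So s • u - u in Q^2 (*).
D(y) := s • y - y in Q satisfies D(y z) = D(y) z + (s • y) D(z), so D(y z) = D(y) z + y D(z) mod Q^2. By (*) D(u a) = u D(a) + a D(u) in Q^2 for all a, and D(Q^2) in Q^2, so D(Q) in Q^2.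
Let q = card of 𝓞 L / Q: y^q - y in Q, so D(y^q) = D(y) mod Q^2, and D(y^q) = q y^(q-1) D(y) mod Q^2 (induction), q in Q: D(y^q) in Q^2. So D(y) in Q^2. -/

theorem r5_map (Q : Ideal (𝓞 L)) (s : L ≃ₐ[N] L) (hs : Gp Q 1 s) {y : 𝓞 L} (hy : y ∈ Q) : s • y ∈ Q := by
  have h := hs y
  rw [pow_one] at h
  have h2 := Q.add_mem h hy
  rwa [sub_add_cancel] at h2

theorem r5_map2 (Q : Ideal (𝓞 L)) (s : L ≃ₐ[N] L) (hs : Gp Q 1 s) {y : 𝓞 L} (hy : y ∈ Q ^ 2) : s • y ∈ Q ^ 2 := by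
  rw [pow_two] at hy ⊢
  refine Submodule.mul_induction_on hy ?_ ?_
  · intro a ha b hb
    rw [smul_mul']
    exact Ideal.mul_mem_mul (r5_map Q s hs ha) (r5_map Q s hs hb)
  · intro a b ha hb
    rw [smul_add]
    exact (Q * Q).add_mem ha hb

theorem r5_root (p : ℕ) (hp : p.Prime) (Q : Ideal (𝓞 L)) (hQ : Q.IsPrime) (hpQ : (p : 𝓞 L) ∈ Q) (k : ℕ) (c : 𝓞 L)
    (h : c ^ p ^ k - 1 ∈ Q) : c - 1 ∈ Q := by
  haveI := hQ
  haveI : Fact p.Prime := ⟨hp⟩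
  have h0 : ((p : ℕ) : 𝓞 L ⧸ Q) = 0 := by
    rw [← map_natCast (Ideal.Quotient.mk Q) p]
    exact Ideal.Quotient.eq_zero_iff_mem.2 hpQ
  haveI : CharP (𝓞 L ⧸ Q) p := (CharP.charP_iff_prime_eq_zero hp).2 h0
  rw [← Ideal.Quotient.eq_zero_iff_mem] at h ⊢
  rw [map_sub, map_pow, map_one] at h
  rw [map_sub, map_one]
  have h1 : (Ideal.Quotient.mk Q c - 1) ^ p ^ k = 0 := by
    rw [sub_pow_char_pow, one_pow]
    exact h
  exact pow_eq_zero_iff (pow_ne_zero k hp.ne_zero) |>.1 h1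

theorem r5_iter (Q : Ideal (𝓞 L)) (s : L ≃ₐ[N] L) (hs : Gp Q 1 s) {u c : 𝓞 L} (hu : u ∈ Q) (hc : s • u - c * u ∈ Q ^ 2) (n : ℕ) :
    s ^ n • u - c ^ n * u ∈ Q ^ 2 := by
  induction n with
  | zero =>
    rw [pow_zero, pow_zero, one_smul, one_mul, sub_self]
    exact (Q ^ 2).zero_mem
  | succ n ih =>
    have h1 : s • (s ^ n • u - c ^ n * u) ∈ Q ^ 2 := r5_map2 Q s hs ih
    rw [smul_sub, smul_mul', smul_pow', ← mul_smul, ← pow_succ'] at h1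
    have h2 : (s • c) ^ n * (s • u - c * u) ∈ Q ^ 2 := (Q ^ 2).mul_mem_left _ hc
    have h3 : (s • c) ^ n - c ^ n ∈ Q := by
      have h4 := hs c
      rw [pow_one] at h4
      exact Ideal.mem_of_dvd Q (sub_dvd_pow_sub_pow (s • c) c n) h4
    have h5 : ((s • c) ^ n - c ^ n) * (c * u) ∈ Q ^ 2 := by
      rw [pow_two]
      exact Ideal.mul_mem_mul h3 (Q.mul_mem_left _ hu)
    have h6 := (Q ^ 2).add_mem ((Q ^ 2).add_mem h1 h2) h5
    have h7 : s ^ (n + 1) • u - (s • c) ^ n * (s • u) + (s • c) ^ n * (s • u - c * u) + ((s • c) ^ n - c ^ n) * (c * u)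
        = s ^ (n + 1) • u - c ^ (n + 1) * u := by
      ring
    rwa [h7] at h6

theorem r5_unif (p : ℕ) (hp : p.Prime) (Q : HeightOneSpectrum (𝓞 L)) (hpQ : (p : 𝓞 L) ∈ Q.asIdeal) (s : L ≃ₐ[N] L) (k : ℕ)
    (hk : s ^ p ^ k = 1) (hs : Gp Q.asIdeal 1 s) {y : 𝓞 L} (hy : y ∈ Q.asIdeal) : s • y - y ∈ Q.asIdeal ^ 2 := by
  obtain ⟨u, hu1, hu2⟩ := Q.asIdeal.exists_mem_pow_notMem_pow_succ Q.ne_bot Q.isPrime.ne_top 1
  rw [pow_one] at hu1
  have key : ∀ c : 𝓞 L, c ∈ Q.asIdeal → ∃ d : 𝓞 L, ∃ e ∈ Q.asIdeal ^ 2, u * d + e = c := by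
    intro c hc
    haveI := Q.isPrime
    exact Ideal.exists_mul_add_mem_pow_succ Q.ne_bot u c (by rwa [pow_one]) hu2 (by rwa [pow_one])
  obtain ⟨c, e, he, hce⟩ := key _ (r5_map Q.asIdeal s hs hu1)
  have h1 : s • u - c * u ∈ Q.asIdeal ^ 2 := by
    rw [← hce, mul_comm u c, add_sub_cancel_left]
    exact he
  have h2 := r5_iter Q.asIdeal s hs hu1 h1 (p ^ k)
  rw [hk, one_smul] at h2
  have h3 : (c ^ p ^ k - 1) * u ∈ Q.asIdeal ^ 2 := by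
    have h4 := (Q.asIdeal ^ 2).neg_mem h2
    have h5 : -(u - c ^ p ^ k * u) = (c ^ p ^ k - 1) * u := by ring
    rwa [h5] at h4
  haveI := Q.isPrime
  have h4 : c ^ p ^ k - 1 ∈ Q.asIdeal := (Ideal.IsPrime.mul_mem_pow Q.asIdeal h3).resolve_right hu2
  have h5 := r5_root p hp Q.asIdeal Q.isPrime hpQ k c h4
  have h6 : s • u - u ∈ Q.asIdeal ^ 2 := by
    have h7 : (c - 1) * u ∈ Q.asIdeal ^ 2 := by
      rw [pow_two]
      exact Ideal.mul_mem_mul h5 hu1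
    have h8 := (Q.asIdeal ^ 2).add_mem h1 h7
    have h9 : s • u - c * u + (c - 1) * u = s • u - u := by ring
    rwa [h9] at h8
  obtain ⟨d, f, hf, hdf⟩ := key y hy
  have h7 : s • y - y = (s • u - u) * (s • d) + u * (s • d - d) + (s • f - f) := by
    rw [← hdf, smul_add, smul_mul']
    ring
  rw [h7]
  refine (Q.asIdeal ^ 2).add_mem ((Q.asIdeal ^ 2).add_mem ((Q.asIdeal ^ 2).mul_mem_right _ h6) ?_)
    ((Q.asIdeal ^ 2).sub_mem (r5_map2 _ s hs hf) hf)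
  have h8 := hs d
  rw [pow_one] at h8
  rw [pow_two]
  exact Ideal.mul_mem_mul hu1 h8

theorem r5_card (Q : HeightOneSpectrum (𝓞 L)) : ∃ q : ℕ, (q : 𝓞 L) ∈ Q.asIdeal ∧ ∀ y : 𝓞 L, y ^ q - y ∈ Q.asIdeal := by
  haveI : Finite (𝓞 L ⧸ Q.asIdeal) := Ideal.finiteQuotientOfFreeOfNeBot _ Q.ne_bot
  haveI := Fintype.ofFinite (𝓞 L ⧸ Q.asIdeal)
  haveI := Q.isMaximal
  letI := Ideal.Quotient.field Q.asIdeal
  refine ⟨Fintype.card (𝓞 L ⧸ Q.asIdeal), ?_, ?_⟩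
  · rw [← Ideal.Quotient.eq_zero_iff_mem, map_natCast]
    exact Nat.cast_card_eq_zero (𝓞 L ⧸ Q.asIdeal)
  · intro y
    rw [← Ideal.Quotient.eq_zero_iff_mem, map_sub, map_pow, FiniteField.pow_card, sub_self]

theorem r5_wild (p : ℕ) (hp : p.Prime) (Q : HeightOneSpectrum (𝓞 L)) (hpQ : (p : 𝓞 L) ∈ Q.asIdeal) (s : L ≃ₐ[N] L) (k : ℕ)
    (hk : s ^ p ^ k = 1) (hs : Gp Q.asIdeal 1 s) : Gp Q.asIdeal 2 s := by
  intro y
  obtain ⟨q, hq1, hq2⟩ := r5_card Q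
  have h0 := hs y
  rw [pow_one] at h0
  have h1 := r5_unif p hp Q hpQ s k hk hs (hq2 y)
  rw [smul_sub, smul_pow'] at h1
  obtain ⟨r, hr⟩ := Polynomial.powAddExpansion y (s • y - y) q
  rw [add_sub_cancel] at hr
  rw [hr] at h1
  have h2 : (q : 𝓞 L) * y ^ (q - 1) * (s • y - y) ∈ Q.asIdeal ^ 2 := by
    rw [pow_two]
    exact Ideal.mul_mem_mul (Q.asIdeal.mul_mem_right _ hq1) h0
  have h3 : r * (s • y - y) ^ 2 ∈ Q.asIdeal ^ 2 := (Q.asIdeal ^ 2).mul_mem_left _ (Ideal.pow_mem_pow h0 2)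
  have h4 := (Q.asIdeal ^ 2).sub_mem ((Q.asIdeal ^ 2).add_mem h2 h3) h1
  have h5 : (q : 𝓞 L) * y ^ (q - 1) * (s • y - y) + r * (s • y - y) ^ 2
      - (y ^ q + (q : 𝓞 L) * y ^ (q - 1) * (s • y - y) + r * (s • y - y) ^ 2 - s • y - (y ^ q - y)) = s • y - y := by
    ring
  rwa [h5] at h4

end SSR
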