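import Mathlib
import Pool.Agent.Lib.SSR.RD

open NumberField IsDedekindDomain

namespace SSR

variable {N : Type} [Field N] [NumberField N] {L : Type} [Field L] [NumberField L] [Algebra N L]

/-! Chunk R6 (S). PROOF. {s | Gp Q 1 s} = Q.inertia (L ≃ₐ[N] L) (definition of Ideal.inertia / AddSubgroup.inertia: s • x - x in Q). Ideal.card_inertia_eq_ramificationIdxIn for the prime
v = Q.under (𝓞 N) and the group Gal(L/N) acting on 𝓞 L (IsGaloisGroup instance for rings of integers; look for existing uses in Lib: grep card_inertia), and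
ramificationIdxIn = ramificationIdx (Ideal.ramificationIdxIn_eq_ramificationIdx). e1: Q unramified: e = 1. -/

theorem r6_card [IsGalois N L] (Q : HeightOneSpectrum (𝓞 L)) :
    Nat.card {s : L ≃ₐ[N] L // Gp Q.asIdeal 1 s} = Q.asIdeal.ramificationIdx (𝓞 N) := by
  have hwm := Q.isMaximal
  have hwp := Q.isPrime
  have hp : (Q.asIdeal.under (𝓞 N)).IsPrime := inferInstance
  have hne : Q.asIdeal.under (𝓞 N) ≠ ⊥ := by
    intro h
    exact Q.ne_bot (Ideal.eq_bot_of_comap_eq_bot (R := 𝓞 N) (I := Q.asIdeal) h)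
  let v : HeightOneSpectrum (𝓞 N) := ⟨Q.asIdeal.under (𝓞 N), hp, hne⟩
  have hvm := v.isMaximal
  have hl : Q.asIdeal.LiesOver v.asIdeal := ⟨rfl⟩
  have h1 : Nat.card (Q.asIdeal.inertia (L ≃ₐ[N] L)) = Q.asIdeal.ramificationIdx (𝓞 N) := by
    rw [Ideal.card_inertia_eq_ramificationIdxIn (G := L ≃ₐ[N] L) v.asIdeal Q.asIdeal,
      Ideal.ramificationIdxIn_eq_ramificationIdx v.asIdeal Q.asIdeal (L ≃ₐ[N] L)]
  rw [← h1]
  refine Nat.card_congr (Equiv.subtypeEquivRight (fun s => ?_))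
  unfold Gp
  rw [pow_one]
  exact Iff.rfl

end SSR
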