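import Mathlib
import Pool.Agent.Lib.SSR.R4
import Pool.Agent.Lib.SSR.R5
import Pool.Agent.Lib.SSR.R6

open NumberField IsDedekindDomain

namespace SSR

variable {N : Type} [Field N] [NumberField N] {L : Type} [Field L] [NumberField L] [Algebra N L]

/-! Chunk R7 (S/M). PROOF. i s := 2 if Gp Q 1 s, and 0 otherwise. If Gp Q 1 s: s^(p^k) = 1 (order of the group; IsGalois.card_aut_eq_finrank, pow_card_eq_one), so Gp Q 2 s (r5_wild) and not
Gp Q 3 s for s ≠ 1 (hG). If not Gp Q 1 s: Gp Q 0 s (Q^0 = ⊤) and not Gp Q (0+1) s. r4_hilb: ex = 2 * (number of s ≠ 1 with Gp Q 1 s) = 2 (e - 1) by r6_card (1 has Gp Q 1). -/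

theorem r7_ex [IsGalois N L] (p : ℕ) (hp : p.Prime) (k : ℕ) (hk : Module.finrank N L = p ^ k) (Q : HeightOneSpectrum (𝓞 L))
    (hpQ : (p : 𝓞 L) ∈ Q.asIdeal) (hG : G2 N Q.asIdeal) :
    ex Q (differentIdeal (𝓞 N) (𝓞 L)) = 2 * (Q.asIdeal.ramificationIdx (𝓞 N) - 1) := by
  classical
  rw [r4_hilb Q (fun s => if Gp Q.asIdeal 1 s then 2 else 0) ?_]
  · rw [← Finset.sum_filter, Finset.sum_const, smul_eq_mul, mul_comm, Finset.filter_erase,
      Finset.card_erase_of_mem, ← r6_card Q, Nat.card_eq_fintype_card, Fintype.card_subtype]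
    rw [Finset.mem_filter]
    refine ⟨Finset.mem_univ _, fun x => ?_⟩
    rw [one_smul, sub_self]
    exact Ideal.zero_mem _
  · intro s hs
    by_cases h1 : Gp Q.asIdeal 1 s
    · rw [if_pos h1]
      refine ⟨?_, fun h3 => hs (hG s h3)⟩
      apply r5_wild p hp Q hpQ s k _ h1
      rw [← hk, ← IsGalois.card_aut_eq_finrank]
      exact pow_card_eq_one'
    · rw [if_neg h1]
      refine ⟨fun x => ?_, h1⟩
      rw [pow_zero, Ideal.one_eq_top]
      exact Submodule.mem_top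

end SSR
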