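import Mathlib
import Pool.Agent.Lib.SSR.R7

open NumberField IsDedekindDomain

namespace SSR

variable {N : Type} [Field N] [NumberField N] {M : Type} [Field M] [NumberField M] {L : Type} [Field L] [NumberField L]
  [Algebra N M] [Algebra M L] [Algebra N L] [IsScalarTower N M L]

/-! Chunk R8 (M). The tower formula. N <= M <= L. PROOF of r8_map: the exponent of Q in I 𝓞 L is e(Q/w) times the exponent of w in I, w the prime of M below Q: I = w^a J, J not contained in w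
(a = ex w I; FiniteMultiplicity.exists_eq_pow_mul_and_not_dvd), Ideal.map is multiplicative; ex Q (w 𝓞 L) = e(Q/w) (Ideal.IsDedekindDomain.ramificationIdx_eq_multiplicity, see i3_idx in
Lib/H55P/I3.lean), ex Q (J 𝓞 L) = 0: J 𝓞 L <= Q would give J <= w. PROOF of r8_tower: differentIdeal_eq_differentIdeal_mul_differentIdeal (𝓞 N) (𝓞 M) (𝓞 L), ex_mul, r8_map.
PROOF of r8_sub: for s : L ≃ₐ[M] L, s.restrictScalars N is in L ≃ₐ[N] L with the same action on 𝓞 L. PROOF of r8_main: r7_ex for L/N and for L/M (finrank M L is a power of p: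
Module.finrank_mul_finrank, Nat.dvd_prime_pow; IsGalois M L: IsGalois.tower_top_of_isGalois), r8_tower: 2 (e(Q/N) - 1) = 2 (e(Q/M) - 1) + e(Q/M) * d, e(Q/N) = e(w/N) e(Q/M)
(Ideal.ramificationIdx_tower; e ≥ 1), so d = 2 (e(w/N) - 1). -/

theorem r8_map (Q : HeightOneSpectrum (𝓞 L)) (w : HeightOneSpectrum (𝓞 M)) (hw : Q.asIdeal.under (𝓞 M) = w.asIdeal) (I : Ideal (𝓞 M)) (hI : I ≠ ⊥) :
    ex Q (I.map (algebraMap (𝓞 M) (𝓞 L))) = Q.asIdeal.ramificationIdx (𝓞 M) * ex w I := by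
  have hinj : Function.Injective (algebraMap (𝓞 M) (𝓞 L)) := FaithfulSMul.algebraMap_injective _ _
  have hb : ∀ J : Ideal (𝓞 M), J ≠ ⊥ → J.map (algebraMap (𝓞 M) (𝓞 L)) ≠ ⊥ :=
    fun J hJ h => hJ ((Ideal.map_eq_bot_iff_of_injective hinj).1 h)
  have hlo : Q.asIdeal.LiesOver w.asIdeal := ⟨hw.symm⟩
  have hQp := Q.isPrime
  obtain ⟨J, hJ, hJw⟩ := (ex_fin w hI).exists_eq_pow_mul_and_not_dvd
  have hJ0 : J ≠ ⊥ := by
    rintro rfl
    apply hI
    rw [hJ, Ideal.mul_bot]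
  have e1 : ex Q (w.asIdeal.map (algebraMap (𝓞 M) (𝓞 L))) = Q.asIdeal.ramificationIdx (𝓞 M) :=
    (Ideal.IsDedekindDomain.ramificationIdx_eq_multiplicity w.asIdeal Q.asIdeal
      (hb _ w.ne_bot)).symm
  have e2 : ex Q (J.map (algebraMap (𝓞 M) (𝓞 L))) = 0 := ex_zero Q fun h => hJw (by
    rw [Ideal.dvd_iff_le, ← hw]
    exact Ideal.map_le_iff_le_comap.1 h)
  have e3 : I.map (algebraMap (𝓞 M) (𝓞 L)) =
      (w.asIdeal.map (algebraMap (𝓞 M) (𝓞 L))) ^ (ex w I) * J.map (algebraMap (𝓞 M) (𝓞 L)) := by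
    have h := congrArg (Ideal.map (algebraMap (𝓞 M) (𝓞 L))) hJ
    rw [Ideal.map_mul, Ideal.map_pow] at h
    exact h
  rw [e3, ex_mul Q (pow_ne_zero _ (hb _ w.ne_bot)) (hb _ hJ0), ex_pow Q (hb _ w.ne_bot), e1, e2,
    add_zero, mul_comm]

theorem r8_tower (Q : HeightOneSpectrum (𝓞 L)) (w : HeightOneSpectrum (𝓞 M)) (hw : Q.asIdeal.under (𝓞 M) = w.asIdeal) :
    ex Q (differentIdeal (𝓞 N) (𝓞 L)) = ex Q (differentIdeal (𝓞 M) (𝓞 L)) +
      Q.asIdeal.ramificationIdx (𝓞 M) * ex w (differentIdeal (𝓞 N) (𝓞 M)) := by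
  have hinj : Function.Injective (algebraMap (𝓞 M) (𝓞 L)) := FaithfulSMul.algebraMap_injective _ _
  let _ : Algebra (FractionRing (𝓞 N)) (FractionRing (𝓞 L)) := FractionRing.liftAlgebra _ _
  have h : differentIdeal (𝓞 N) (𝓞 L) = differentIdeal (𝓞 M) (𝓞 L) *
      (differentIdeal (𝓞 N) (𝓞 M)).map (algebraMap (𝓞 M) (𝓞 L)) :=
    differentIdeal_eq_differentIdeal_mul_differentIdeal (𝓞 N) (𝓞 M) (𝓞 L)
  have h0 : (differentIdeal (𝓞 N) (𝓞 M)).map (algebraMap (𝓞 M) (𝓞 L)) ≠ ⊥ :=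
    fun h => different_ne ((Ideal.map_eq_bot_iff_of_injective hinj).1 h)
  rw [h, ex_mul Q different_ne h0, r8_map Q w hw _ different_ne]

theorem r8_sub (Q : Ideal (𝓞 L)) (h : G2 N Q) : G2 M Q := by
  intro s hs
  have h1 : s.restrictScalars N = 1 := h (s.restrictScalars N) fun x => hs x
  refine AlgEquiv.ext fun x => ?_
  exact DFunLike.congr_fun h1 x

/-- The exponent of the different in the layers of a p-extension with trivial second ramification groups. -/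
theorem r8_main [IsGalois N L] (p : ℕ) (hp : p.Prime) (k : ℕ) (hk : Module.finrank N L = p ^ k) (Q : HeightOneSpectrum (𝓞 L))
    (hpQ : (p : 𝓞 L) ∈ Q.asIdeal) (hG : G2 N Q.asIdeal) (w : HeightOneSpectrum (𝓞 M)) (hw : Q.asIdeal.under (𝓞 M) = w.asIdeal) :
    ex w (differentIdeal (𝓞 N) (𝓞 M)) = 2 * (w.asIdeal.ramificationIdx (𝓞 N) - 1) := by
  have hlo : Q.asIdeal.LiesOver w.asIdeal := ⟨hw.symm⟩
  have hQp := Q.isPrime
  have hgal : IsGalois M L := IsGalois.tower_top_of_isGalois N M L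
  have hfin : Module.finrank M L ∣ p ^ k := by
    rw [← hk, ← Module.finrank_mul_finrank N M L]
    exact Dvd.intro_left _ rfl
  obtain ⟨k', -, hk'⟩ := (Nat.dvd_prime_pow hp).1 hfin
  have h1 := r7_ex (N := N) p hp k hk Q hpQ hG
  have h2 := r7_ex (N := M) p hp k' hk' Q hpQ (r8_sub Q.asIdeal hG)
  have h3 := r8_tower (N := N) Q w hw
  have h4 := Ideal.ramificationIdx_tower (R := 𝓞 N) w.asIdeal Q.asIdeal
  rw [h1, h2, h4] at h3
  have h5 : 0 < Q.asIdeal.ramificationIdx (𝓞 M) := Ideal.ramificationIdx_pos _ _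
  have hwp := w.isPrime
  have h6 : 0 < w.asIdeal.ramificationIdx (𝓞 N) := Ideal.ramificationIdx_pos _ _
  obtain ⟨a, ha⟩ : ∃ a, Q.asIdeal.ramificationIdx (𝓞 M) = a + 1 := ⟨_, (Nat.succ_pred_eq_of_pos h5).symm⟩
  obtain ⟨b, hb⟩ : ∃ b, w.asIdeal.ramificationIdx (𝓞 N) = b + 1 := ⟨_, (Nat.succ_pred_eq_of_pos h6).symm⟩
  rw [ha, hb] at h3
  rw [hb, Nat.add_sub_cancel]
  have e : (b + 1) * (a + 1) - 1 = b * (a + 1) + a := by
    have : (b + 1) * (a + 1) = b * (a + 1) + a + 1 := by ring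
    omega
  rw [e, Nat.add_sub_cancel] at h3
  have h7 : (a + 1) * (2 * b) = (a + 1) * ex w (differentIdeal (𝓞 N) (𝓞 M)) := by
    have : 2 * (b * (a + 1) + a) = 2 * a + (a + 1) * (2 * b) := by ring
    omega
  exact (Nat.eq_of_mul_eq_mul_left (Nat.succ_pos a) h7).symm

end SSR
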