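import Mathlib
import Pool.Agent.Lib.SSR.CD
import Pool.Agent.Lib.H55P.T10
import Pool.Agent.Lib.H55P.T5

open NumberField IsDedekindDomain

namespace SSR

open H55R (Pl es Spl)
open H55P (SplitP chp)

variable {N : Type} [Field N] [NumberField N] {L : Type} [Field L] [NumberField L] [Algebra N L]

/-! Chunk C3 (S). PORTS. c3_split: copy of H55P.rec_split (Lib/H55P/T10.lean; it uses only ram, val, zero, spl of IsRec). c3_pch: from IsRc with all t v = 1: coprime to f * prod v iff coprime to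
f * prod v^2 (IsCoprime.pow_right, IsCoprime.mul_right; finite products: IsCoprime.prod_right). c3_chp: as chp_PChr (Lib/H55P/T5.lean). -/

theorem c3_split [IsGalois N L] (p : ℕ) (hp : p.Prime) (hn : Module.finrank N L = p) (f : Ideal (𝓞 N))
    (ρ : Ideal (𝓞 N) →*₀ ℂ) (hρ : IsRc N L p f ρ) : SplitP N L p ρ := by
  intro w
  obtain ⟨T, hT, hc⟩ := H55P.pt10_card (K' := L) w
  rw [hn] at hc
  have hnorm : ∀ W ∈ T, Ideal.relNorm (𝓞 N) W.asIdeal = w.asIdeal ^ H55R.fs N L w :=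
    fun W hW => H55R.CH2_norm w W ((hT W).1 hW)
  refine ⟨T, hT, ?_⟩
  by_cases hfw : f ≤ w.asIdeal
  · have h1 : ρ w.asIdeal = 0 := by
      apply hρ.zero
      intro hcop
      rw [Ideal.isCoprime_iff_sup_eq, sup_eq_left.2 hfw] at hcop
      exact w.isPrime.ne_top hcop
    have he := (hρ.ram w).1 hfw
    have hdvd : H55R.es N L w ∣ p := ⟨T.card * H55R.fs N L w, by rw [← hc]; ring⟩
    have hep : H55R.es N L w = p := ((Nat.dvd_prime hp).1 hdvd).resolve_left he
    rw [hep] at hc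
    have hc1 : T.card * H55R.fs N L w = 1 := by
      have h2 : p * (T.card * H55R.fs N L w) = p * 1 := by
        rw [mul_one]
        nlinarith
      exact Nat.eq_of_mul_eq_mul_left hp.pos h2
    have hcT : T.card = 1 := Nat.eq_one_of_mul_eq_one_right hc1
    have hf1 : H55R.fs N L w = 1 := Nat.eq_one_of_mul_eq_one_left hc1
    refine Or.inr (Or.inr ⟨h1, hcT, fun W hW => ?_⟩)
    rw [hnorm W hW, hf1, pow_one]
  · have he : H55R.es N L w = 1 := by
      by_contra h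
      exact hfw ((hρ.ram w).2 h)
    by_cases h1 : ρ w.asIdeal = 1
    · have hs := (hρ.spl w hfw).1 h1
      have hf1 : H55R.fs N L w = 1 := hs.2
      rw [he, hf1, mul_one, mul_one] at hc
      refine Or.inl ⟨h1, hc, fun W hW => ?_⟩
      rw [hnorm W hW, hf1, pow_one]
    · have hfne : H55R.fs N L w ≠ 1 := fun h => h1 ((hρ.spl w hfw).2 ⟨he, h⟩)
      rw [he, one_mul] at hc
      have hdvd : H55R.fs N L w ∣ p := ⟨T.card, by rw [← hc]; ring⟩
      have hfp : H55R.fs N L w = p := ((Nat.dvd_prime hp).1 hdvd).resolve_left hfne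
      rw [hfp] at hc
      have hcT : T.card = 1 := by
        have h2 : T.card * p = 1 * p := by rw [hc, one_mul]
        exact Nat.eq_of_mul_eq_mul_right hp.pos h2
      refine Or.inr (Or.inl ⟨hρ.val _ w.ne_bot (H55R.cop_prime w f hfw), h1, hcT, fun W hW => ?_⟩)
      rw [hnorm W hW, hfp]

theorem c3_cop (f : Ideal (𝓞 N)) (R : Finset (HeightOneSpectrum (𝓞 N))) (a : Ideal (𝓞 N)) :
    IsCoprime a (f * ∏ v ∈ R, v.asIdeal ^ 2) ↔ IsCoprime a (f * ∏ v ∈ R, v.asIdeal) := by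
  rw [Finset.prod_pow, IsCoprime.mul_right_iff, IsCoprime.mul_right_iff, IsCoprime.pow_right_iff two_pos]

theorem c3_pch (p : ℕ) (f : Ideal (𝓞 N)) (R : Finset (HeightOneSpectrum (𝓞 N))) (ρ : Ideal (𝓞 N) →*₀ ℂ)
    (hρ : IsRc N L p (f * ∏ v ∈ R, v.asIdeal ^ 2) ρ) (hf : IsCoprime f (Ideal.span {(p : 𝓞 N)})) (hR : ∀ v ∈ R, (p : 𝓞 N) ∈ v.asIdeal) : PCh p f R ρ := by
  refine ⟨?_, hf, hR, ?_, ?_, ?_⟩
  · intro h
    apply hρ.ne
    rw [h]
    exact Ideal.bot_mul _
  · intro a ha hc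
    exact hρ.val a ha ((c3_cop f R a).2 hc)
  · intro a hc
    exact hρ.zero a (fun h => hc ((c3_cop f R a).1 h))
  · intro x y hx hy hc hxy
    exact hρ.per x y hx hy ((c3_cop f R _).2 hc) hxy

theorem c3_chp {p : ℕ} {f : Ideal (𝓞 N)} {R : Finset (HeightOneSpectrum (𝓞 N))} {χ : Ideal (𝓞 N) →*₀ ℂ} (h : PCh p f R χ) (j : ℕ) :
    PCh p f R (chp χ j) := by
  refine ⟨h.ne, h.cop, h.abv, ?_, ?_, ?_⟩
  · intro a ha hc
    rw [H55P.chp_apply, ← pow_mul, mul_comm, pow_mul, h.val a ha hc, one_pow]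
  · intro a hc
    rw [H55P.chp_apply, h.zero a hc, zero_pow (Nat.succ_ne_zero j)]
  · intro x y hx hy hc hxy
    rw [H55P.chp_apply, H55P.chp_apply, h.per x y hx hy hc hxy]

end SSR
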