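import Mathlib
import Pool.Agent.Lib.SSR.CD
import Pool.Agent.Lib.H55P.TD
import Pool.Agent.Lib.H55K.D0
import Pool.Agent.Lib.H16S.FD

/-! # SSR, part T: definitions (no sorry): the normalised size of an L-value, the supersingular context -/

open NumberField IsDedekindDomain WeierstrassCurve

namespace SSR

open H55N H55P
open H35P (WAB Ker tt)
open H55K (CMA Dta)

/-- The L-series of h converges for Re s > 3/2, continues to Re s > 1/2, and its value at 1 divided by the power of the period has the fourth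
power of its size at V equal to the inverse of the size of c. -/
def LVC (F : Type) [Field F] [NumberField F] {K : Type} [Field K] [NumberField K] [Algebra F K]
    (V : ValuationSubring ℂ) (Om c : ℂ) (h : Ideal (𝓞 K) →*₀ ℂ) : Prop :=
  ∃ Λ : ℂ → ℂ, AnalyticOnNhd ℂ Λ {s | 1 / 2 < s.re} ∧
    (∀ s : ℂ, 3 / 2 < s.re → HasSum (tm h s) (Λ s)) ∧
    V.valuation (Λ 1 / Om ^ Module.finrank F K) ^ 4 * V.valuation c = 1

/-- The same with ≤. -/
def LVCI (F : Type) [Field F] [NumberField F] {K : Type} [Field K] [NumberField K] [Algebra F K]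
    (V : ValuationSubring ℂ) (Om c : ℂ) (h : Ideal (𝓞 K) →*₀ ℂ) : Prop :=
  ∃ Λ : ℂ → ℂ, AnalyticOnNhd ℂ Λ {s | 1 / 2 < s.re} ∧
    (∀ s : ℂ, 3 / 2 < s.re → HasSum (tm h s) (Λ s)) ∧
    V.valuation (Λ 1 / Om ^ Module.finrank F K) ^ 4 * V.valuation c ≤ 1

/-- The discriminant, times the square of the norm of the product of the primes in R. -/
noncomputable def cR {K : Type} [Field K] [NumberField K] (R : Finset (HeightOneSpectrum (𝓞 K))) : ℂ :=
  ((NumberField.discr K : ℤ) : ℂ) * ((∏ v ∈ R, Ideal.absNorm v.asIdeal : ℕ) : ℂ) ^ 2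

/-- The context: p ≥ 5 inert in F, a Hecke character ψ with ψ((p)) = -p and modulus M prime to p, and a curve with complex multiplication and
period Om over F, with good supersingular reduction at p. -/
structure SCtx {F : Type} [Field F] [NumberField F] [IQ F] (p : ℕ) [Fact p.Prime] (M : Ideal (𝓞 F)) (ψ : Ideal (𝓞 F) →*₀ 𝓞 F)
    (Om : ℂ) : Prop where
  five : 5 ≤ p
  hecke : IsHecke M ψ
  cop : IsCoprime M (Ideal.span {(p : 𝓞 F)})
  val : ψ (Ideal.span {(p : 𝓞 F)}) = -(p : 𝓞 F)
  inert : (Ideal.span {(p : 𝓞 F)}).IsPrime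
  curve : ∃ (A B : F) (Ω : Type) (_ : Field Ω) (_ : DecidableEq Ω) (_ : Algebra F Ω) (_ : IsAlgClosure F Ω) (j : Ω →+* ℂ)
    (act : 𝓞 F →+* AddMonoid.End (Pt (WAB A B) Ω)), Dta A B Om j act M ψ p ∧ H16S.Sup act p

end SSR
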