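import Mathlib
import Pool.Agent.Lib.SSR.TD
import Pool.Agent.Lib.H55P.T9
import Pool.Agent.Lib.H55Z.Q6
import Pool.Agent.Lib.SSG.V.V8
import Pool.Agent.Lib.SSG.S.S1
import Pool.Agent.Lib.SSG.S.S2
import Pool.Agent.Lib.SSG.S.S4
import Pool.Agent.Lib.SSG.S.K1

/-! # SSR, part T: the data of the classes: definitions (no sorry) -/

open NumberField IsDedekindDomain WeierstrassCurve

namespace SSR

open H55N H55P SSG SSG.E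
open SSG.V (WtJ)
open H35P (WAB Ker tt)
open H55K (CMA Dta)

variable {F : Type} [Field F] [NumberField F] [IQ F] {K : Type} [Field K] [NumberField K] [Algebra F K]

/-- The p-adic shape of the values of a class (the second conclusion of SSG.V.classw2, N = 2). -/
def ClsW (F : Type) [Field F] [NumberField F] [IQ F] {K : Type} [Field K] [NumberField K] [Algebra F K] (p m : ℕ) [Fact p.Prime]
    (I₀ : Ideal (𝓞 K)) (c₀ : 𝓞 K) (val : 𝓞 K → ℂ) : Prop :=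
  ∀ (A B : F) (Om : ℂ) (Ω : Type) [Field Ω] [DecidableEq Ω] [Algebra F Ω] [IsAlgClosure F Ω] (j : Ω →+* ℂ)
    (act : 𝓞 F →+* AddMonoid.End (Pt (WAB A B) Ω)) (mm : Ideal (𝓞 F)) (ψ : Ideal (𝓞 F) →*₀ 𝓞 F),
    Dta A B Om j act mm ψ p →
    ∀ (V : ValuationSubring Ω) (i : Ω →+* ℂ_[p]) (T : ℕ → Pt (WAB A B) Ω) (L : LTF F ℂ_[p]),
      V.valuation (p : Ω) < 1 → LocM A B Om j act p V i T L →
    ∀ (ω₀ : Fin (m + 1) → 𝓞 K) (co : 𝓞 K → Fin (m + 1) → 𝓞 F),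
      (∀ x, ∃ t : 𝓞 K, x = ∑ s, algebraMap (𝓞 F) (𝓞 K) (co x s) * ω₀ s + (p : 𝓞 K) ^ 2 * t) →
    ∀ δ : ℂ, δ ^ 2 = embF F (Algebra.discr F fun s => (ω₀ s : K)) →
    ∃ (h : 𝓞 K → Ω) (H' : (Fin (m + 1) → 𝓞 F) → ℂ_[p]),
      (∀ a ∈ XS I₀ c₀, j (h a) = δ * val a / Om ^ (m + 1)) ∧
      L.Fn 2 (Fin (m + 1)) H' ∧ ∀ a ∈ XS I₀ c₀, i (h a) = H' (co a)

/-- The classes, the constants of ψ and of the character χ. -/
structure TCl (F : Type) [Field F] [NumberField F] [IQ F] {K : Type} [Field K] [NumberField K] [Algebra F K] (M : Ideal (𝓞 F))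
    (ψ : Ideal (𝓞 F) →*₀ 𝓞 F) (p : ℕ) (f : Ideal (𝓞 K)) (χ : Ideal (𝓞 K) →*₀ ℂ) (ι : Type) (b : ι → Ideal (𝓞 K)) (c₀ : ι → 𝓞 K)
    (T : ι → Set (𝓞 K)) (κ : ι → ℂ) : Prop where
  bot : mK K M * f ≠ ⊥
  top : mK K M * f ≠ ⊤
  cd : CDJ (mK K M * f) (Ideal.span {(p : 𝓞 K)} * (mK K M * f)) ι b c₀ T
  kap : ∀ i, ∀ x ∈ XS (mK K M * f * b i) (c₀ i), ∀ d : Ideal (𝓞 K), d * b i = Ideal.span {x} → x ≠ 0 ∧
    (PsiP K ψ * oneI f) d = κ i * (starRingEnd ℂ) (embF F (Algebra.norm F (x : K))) ∧ χ d = (χ (b i))⁻¹ * χ (Ideal.span {x})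
  unit : ∀ i, ∀ V : ValuationSubring ℂ, V.valuation (p : ℂ) < 1 → V.valuation (κ i) = 1
  alg : ∀ i, IsAlgebraic ℚ (κ i)
  zet : ∀ i, χ (b i) ^ p = 1
  prm : ∀ i, ∀ x ∈ XS (mK K M * f * b i) (c₀ i), IsCoprime (Ideal.span {x}) f
  zer : ∀ i, (0 : 𝓞 K) ∉ XS (mK K M * f * b i) (c₀ i)
  cop : ∀ i, IsCoprime (mK K M * f * b i) (Ideal.span {(p : 𝓞 K)})

/-- The classes, the smoothing and the values. -/
structure TDat (F : Type) [Field F] [NumberField F] [IQ F] {K : Type} [Field K] [NumberField K] [Algebra F K] {m : ℕ} (M : Ideal (𝓞 F))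
    (ψ : Ideal (𝓞 F) →*₀ 𝓞 F) (p : ℕ) [Fact p.Prime] (f : Ideal (𝓞 K)) (χ : Ideal (𝓞 K) →*₀ ℂ) (V : ValuationSubring ℂ) (ι : Type) (b : ι → Ideal (𝓞 K))
    (c₀ : ι → 𝓞 K) (T : ι → Set (𝓞 K)) (κ : ι → ℂ) (c : Fin (m + 1) × Fin 2 → Ideal (𝓞 K)) (q : Fin (m + 1) × Fin 2 → ℕ)
    (val : ι → 𝓞 K → ℂ) : Prop where
  cl : TCl F M ψ p f χ ι b c₀ T κ
  sm : Smooth c q
  pr : ∀ j, (c j).IsPrime
  np : ∀ j, (p : 𝓞 K) ∉ c j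
  ncf : ∀ j, ¬ f ≤ c j
  bc : ∀ i j, IsCoprime (b i) (c j)
  un : ∀ j, V.valuation (1 - PsiP K ψ (c j)) = 1
  ser : ∀ i, ∀ φ : 𝓞 K → ℂ, WtJ (mK K M * f) (mK K M * f * b i) (c₀ i) (p ^ 2) φ → ∃ Z : ℂ → ℂ, AnalyticOnNhd ℂ Z {s | 1 / 2 < s.re} ∧
    (∀ T : Set (𝓞 K), Transv (mK K M * f) (XS (mK K M * f * b i) (c₀ i)) T → ∀ s : ℂ, 3 / 2 < s.re →
      HasSum (fun x : T => φ x * (gw c q x * nf F s (x : 𝓞 K))) (Z s)) ∧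
    ∀ R : Finset (𝓞 K), RpU (mK K M * f * b i) (c₀ i) (p ^ 2) R → Z 1 = (((p : ℂ) ^ 2)⁻¹) ^ (m + 1) * ∑ a ∈ R, φ a * val i a
  cls : ∀ i, ClsW F p m (mK K M * f * b i) (c₀ i) (val i)

open Classical in
/-- The indicator function of an ideal. -/
noncomputable def indI (P : Ideal (𝓞 K)) (a : 𝓞 K) : ℂ := if a ∈ P then 1 else 0

end SSR
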