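import Mathlib
import Pool.Agent.Lib.SSR.TE
import Pool.Agent.Lib.H35M.TS8

open NumberField IsDedekindDomain

namespace SSR

open H55N H55P

variable {F : Type} [Field F] [NumberField F] [IQ F] {K : Type} [Field K] [NumberField K] [Algebra F K] {m p : ℕ}
  {f : Ideal (𝓞 K)} {R : Finset (HeightOneSpectrum (𝓞 K))} {χ : Ideal (𝓞 K) →*₀ ℂ}

/-! Chunk T1 (S/M). PROOF. t1_iff: IsCoprime with a product/power (IsCoprime.mul_right_iff, IsCoprime.prod_right_iff, IsCoprime.pow_right_iff). t1_pch: fields from hχ; ne: product of nonzero ideals; zero, val by t1_iff. t1_norm: χ a = 0 or χ a^p = 1 (Complex.norm_eq_one_of_pow_eq_one), a = 0: 0.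
t1_cont: H35M.tw_cont (imported, may be sorried) with the modulus f * prod v^2. t1_fin: primes w of norm... (not needed). -/

theorem t1_iff (f : Ideal (𝓞 K)) (R : Finset (HeightOneSpectrum (𝓞 K))) (a : Ideal (𝓞 K)) :
    IsCoprime a (f * ∏ v ∈ R, v.asIdeal ^ 2) ↔ IsCoprime a (f * ∏ v ∈ R, v.asIdeal) := by
  rw [IsCoprime.mul_right_iff, IsCoprime.mul_right_iff, IsCoprime.prod_right_iff, IsCoprime.prod_right_iff]
  refine and_congr_right fun _ => forall_congr' fun v => forall_congr' fun _ => ?_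
  exact IsCoprime.pow_right_iff two_pos

theorem t1_pch (hχ : PCh p f R χ) : H35M.PCh p (f * ∏ v ∈ R, v.asIdeal ^ 2) χ := by
  refine ⟨?_, ?_, ?_, ?_⟩
  · refine mul_ne_zero hχ.ne (Finset.prod_ne_zero_iff.2 fun v _ => pow_ne_zero 2 v.ne_bot)
  · intro a h0 hc
    exact hχ.val a h0 ((t1_iff f R a).1 hc)
  · intro a hc
    exact hχ.zero a fun h => hc ((t1_iff f R a).2 h)
  · intro x y hx hy hc hxy
    exact hχ.per x y hx hy ((t1_iff f R _).1 hc) hxy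

theorem t1_norm (hp : p.Prime) (hχ : PCh p f R χ) (a : Ideal (𝓞 K)) : ‖χ a‖ ≤ 1 := by
  exact H35M.ts8_norm hp.ne_zero (t1_pch hχ) a

theorem t1_cont (hp : p.Prime) {M : Ideal (𝓞 F)} {ψ : Ideal (𝓞 F) →*₀ 𝓞 F} (h : IsHecke M ψ) (hMp : IsCoprime M (Ideal.span {(p : 𝓞 F)}))
    (hm : Module.finrank F K = m + 1) (hχ : PCh p f R χ) :
    ∃ Z0 : ℂ → ℂ, AnalyticOnNhd ℂ Z0 {s | 3 / 2 - 1 / (2 * (m + 1 : ℝ)) < s.re} ∧
      ∀ s : ℂ, 3 / 2 < s.re → HasSum (tm (PsiP K ψ * χ : Ideal (𝓞 K) →*₀ ℂ) s) (Z0 s) := by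
  exact H35M.tw_cont hp h hMp hm _ χ (t1_pch hχ)

open Classical in
theorem t1_top {a : Ideal (𝓞 K)} (ha : a ≠ ⊥) : oneI (⊤ : Ideal (𝓞 K)) a = 1 := by
  show (if a ≠ ⊥ ∧ IsCoprime a (⊤ : Ideal (𝓞 K)) then (1 : ℂ) else 0) = 1
  rw [if_pos]
  refine ⟨ha, ?_⟩
  rw [← Ideal.one_eq_top]
  exact isCoprime_one_right

/-- The trivial character. -/
theorem t1_triv (hp : p.Prime) : PCh p (⊤ : Ideal (𝓞 K)) ∅ (oneI ⊤) := by
  have htop : (⊤ : Ideal (𝓞 K)) ≠ ⊥ := top_ne_bot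
  refine ⟨htop, ?_, ?_, ?_, ?_, ?_⟩
  · rw [← Ideal.one_eq_top]
    exact isCoprime_one_left
  · intro v hv
    exact absurd hv (Finset.notMem_empty v)
  · intro a ha _
    rw [t1_top ha, one_pow]
  · intro a hc
    exfalso
    apply hc
    rw [Finset.prod_empty, mul_one, ← Ideal.one_eq_top]
    exact isCoprime_one_right
  · intro x y hx hy _ _
    have h1 : Ideal.span {x} ≠ ⊥ := by
      rw [Ne, Ideal.span_singleton_eq_bot]
      exact hx
    have h2 : Ideal.span {y} ≠ ⊥ := by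
      rw [Ne, Ideal.span_singleton_eq_bot]
      exact hy
    rw [t1_top h1, t1_top h2]

/-- oneI ⊤ changes nothing. -/
theorem t1_one (ψ : Ideal (𝓞 F) →*₀ 𝓞 F) : (PsiP K ψ * oneI ⊤ : Ideal (𝓞 K) →*₀ ℂ) = PsiP K ψ := by
  refine DFunLike.ext _ _ fun a => ?_
  show PsiP K ψ a * oneI (⊤ : Ideal (𝓞 K)) a = PsiP K ψ a
  by_cases ha : a = ⊥
  · have h1 : PsiP K ψ a = 0 := by
      rw [ha]
      exact map_zero (PsiP K ψ)
    rw [h1, zero_mul]
  · rw [t1_top ha, mul_one]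

end SSR
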