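import Mathlib
import Pool.Agent.Lib.SSR.T1
import Pool.Agent.Lib.H35M.TS4

open NumberField IsDedekindDomain

namespace SSR

open H55N H55P

variable {F : Type} [Field F] [NumberField F] [IQ F] {K : Type} [Field K] [NumberField K] [Algebra F K] {p : ℕ}
  {f : Ideal (𝓞 K)} {R : Finset (HeightOneSpectrum (𝓞 K))} {χ : Ideal (𝓞 K) →*₀ ℂ}

/-! Chunk T2 (M). The classes. PROOF. As the first half of SSG.S.an_main (SSG/S/A2.lean) with f in the place of ⊤, and H35M TS4/TS9. bot: pt9_mK_ne h.ne and hχ.ne. top: the prime w0 of pt9_prime K hl (l from h.toMod p hMp) contains mK K M. exists_CDJ (mK K M * f) (span {p} * (mK K M * f)) gives ι b c₀ T, cd.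
κ i: exists_kappaP p hp h hMp f (oneI f) (H35M.ts4_chr p f hχ.ne hχ.cop) (b i) ..: take κ' (unit; the last clause), x ≠ 0. alg: as in the proof of SSG.S.k1_kappa: apply the formula to x = c₀ i and the ideal d with d b = (c₀) (b divides (c₀)): κ' = PsiP d * oneI f d / conj (embF (norm c₀)), quotient of algebraic numbers
(k1_alg in SSG/S/K1); (if oneI f d = 0 then κ' = 0, impossible or algebraic anyway). zet: b i is coprime to span {p} * (mK K M * f), hence to f and to all v ∈ R (p ∈ v: v ⊇ (p)), so to f * prod v; b i ≠ ⊥ (cd.ne): hχ.val. χ-formula: χ d * χ (b i) = χ (span {x}) (map_mul), χ (b i) ≠ 0.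
prm: let x ∈ XS. b i divides (x) (c₀ ∈ b i and J b i ≤ b i), (x) = d b i. A prime w ⊇ f + (x): w ⊇ f; b i is coprime to f so w does not contain b i; x ∈ w and x ∈ b i give x ∈ w ⊓ b i = w b i, and c₀ = x - (x - c₀) ∈ w b i because x - c₀ ∈ J b i ≤ f b i ≤ w b i: contradiction to cd.prim (J = mK K M * f ≤ w).
(If no such prime exists, f ⊔ (x) = ⊤: Ideal.exists_le_maximal; w is nonzero since it contains f ≠ ⊥.) zer: 0 ∈ XS would give c₀ ∈ J b i ≤ w0 b i, contradiction to cd.prim for a prime w0 ⊇ J (J ≠ ⊤). cop: mK K M is coprime to (p) (pe9_cop / PT.. hMp), f by hχ.cop, b i by cd.cop.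
nl: as in an_main (hlam): c₀ ∈ (l) b i ≤ w0 b i for the prime w0 ∋ l. -/

theorem t2_prm (J b : Ideal (𝓞 K)) (hJ0 : J ≠ ⊥) (hbJ : IsCoprime b J) (c₀ : 𝓞 K) (hc : c₀ ∈ b)
    (hpr : ∀ w : HeightOneSpectrum (𝓞 K), J ≤ w.asIdeal → c₀ ∉ w.asIdeal * b) (x : 𝓞 K)
    (hx : x ∈ XS (J * b) c₀) : IsCoprime (Ideal.span {x}) J := by
  rw [Ideal.isCoprime_iff_sup_eq]
  by_contra hne
  obtain ⟨P, hP, hle⟩ := Ideal.exists_le_maximal _ hne
  have hPf : J ≤ P := le_sup_right.trans hle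
  have hPc : Ideal.span {x} ≤ P := le_sup_left.trans hle
  have hP0 : P ≠ ⊥ := by
    rintro rfl
    exact hJ0 (le_bot_iff.1 hPf)
  have hbP : ¬ b ≤ P := by
    intro h5
    rw [Ideal.isCoprime_iff_sup_eq] at hbJ
    exact hP.ne_top (top_le_iff.1 (hbJ ▸ sup_le h5 hPf))
  have hxJ : x - c₀ ∈ J * b := hx
  have hxb : x ∈ b := by
    have h1 : x - c₀ ∈ b := (Ideal.mul_le_right : J * b ≤ b) hxJ
    have h2 := Ideal.add_mem _ h1 hc
    rwa [sub_add_cancel] at h2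
  obtain ⟨d, hd⟩ := Ideal.dvd_iff_le.2 ((Ideal.span_singleton_le_iff_mem b).2 hxb)
  rw [hd] at hPc
  have hdP : d ≤ P := (hP.isPrime.mul_le.1 hPc).resolve_left hbP
  refine hpr ⟨P, hP.isPrime, hP0⟩ hPf ?_
  have h5 : x ∈ P * b := by
    have h6 : x ∈ b * d := by rw [← hd]; exact Ideal.mem_span_singleton_self _
    rw [mul_comm]
    exact Ideal.mul_mono_right hdP h6
  have h7 : x - c₀ ∈ P * b := Ideal.mul_mono_left hPf hxJ
  have h8 := Ideal.sub_mem _ h5 h7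
  rw [sub_sub_cancel] at h8
  exact h8

theorem t2_kap (hp : p.Prime) {M : Ideal (𝓞 F)} {ψ : Ideal (𝓞 F) →*₀ 𝓞 F} (h : IsHecke M ψ)
    (hMp : IsCoprime M (Ideal.span {(p : 𝓞 F)})) (hf : f ≠ ⊥) (hfc : IsCoprime f (Ideal.span {(p : 𝓞 K)}))
    (b : Ideal (𝓞 K)) (hb : b ≠ ⊥)
    (hbc : IsCoprime b (Ideal.span {(p : 𝓞 K)} * (mK K M * f))) (c₀ : 𝓞 K) (hc : c₀ ∈ b)
    (hpr : ∀ w : HeightOneSpectrum (𝓞 K), mK K M * f ≤ w.asIdeal → c₀ ∉ w.asIdeal * b) :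
    ∃ κ : ℂ, (∀ V : ValuationSubring ℂ, V.valuation (p : ℂ) < 1 → V.valuation κ = 1) ∧ IsAlgebraic ℚ κ ∧
      ∀ x ∈ XS (mK K M * f * b) c₀, ∀ d : Ideal (𝓞 K), d * b = Ideal.span {x} → x ≠ 0 ∧
        (PsiP K ψ * oneI f) d = κ * (starRingEnd ℂ) (embF F (Algebra.norm F (x : K))) := by
  classical
  obtain ⟨κ, κ', ζ, h1, h2, h3, h4⟩ := exists_kappaP p hp h hMp f (oneI f) (H35M.ts4_chr p f hf hfc) b hb hbc c₀ hc hpr
  have h5 : ∀ x ∈ XS (mK K M * f * b) c₀, ∀ d : Ideal (𝓞 K), d * b = Ideal.span {x} → x ≠ 0 ∧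
        (PsiP K ψ * oneI f) d = κ' * (starRingEnd ℂ) (embF F (Algebra.norm F (x : K))) :=
    fun x hx d hd => ⟨(h4 x hx d hd).1, (h4 x hx d hd).2.2⟩
  refine ⟨κ', h1, ?_, h5⟩
  obtain ⟨d, hd⟩ := Ideal.dvd_iff_le.2 ((Ideal.span_singleton_le_iff_mem b).2 hc)
  obtain ⟨hc0, h7⟩ := h5 c₀ (by
    show c₀ - c₀ ∈ mK K M * f * b
    rw [sub_self]
    exact Ideal.zero_mem _) d (by rw [hd, mul_comm])
  have h8 : (starRingEnd ℂ) (embF F (Algebra.norm F (c₀ : K))) ≠ 0 := by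
    rw [map_ne_zero, map_ne_zero, Algebra.norm_ne_zero_iff]
    exact fun h => hc0 (RingOfIntegers.ext h)
  have h9 : κ' = PsiP K ψ d * oneI f d * ((starRingEnd ℂ) (embF F (Algebra.norm F (c₀ : K))))⁻¹ := by
    have h10 : PsiP K ψ d * oneI f d = κ' * (starRingEnd ℂ) (embF F (Algebra.norm F (c₀ : K))) := h7
    rw [h10, mul_assoc, mul_inv_cancel₀ h8, mul_one]
  have h10 : IsAlgebraic ℚ (oneI f d : ℂ) := by
    have h11 : (oneI f d : ℂ) = 1 ∨ (oneI f d : ℂ) = 0 := by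
      by_cases h12 : d ≠ ⊥ ∧ IsCoprime d f
      · exact Or.inl (if_pos h12)
      · exact Or.inr (if_neg h12)
    rcases h11 with h11 | h11
    · rw [h11]
      exact isAlgebraic_one
    · rw [h11]
      exact isAlgebraic_zero
  rw [h9, PsiP_apply, eF_apply]
  exact ((SSG.S.k1_alg ((starRingEnd ℂ).comp (embF F)) _).mul h10).mul
    (SSG.S.k1_alg ((starRingEnd ℂ).comp (embF F)) _).inv

theorem t2_cl (hp : p.Prime) {M : Ideal (𝓞 F)} {ψ : Ideal (𝓞 F) →*₀ 𝓞 F} (h : IsHecke M ψ) (hMp : IsCoprime M (Ideal.span {(p : 𝓞 F)}))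
    (hχ : PCh p f R χ) {l : 𝓞 F} (hl : Mod p M l) :
    ∃ (ι : Type) (_ : Fintype ι) (b : ι → Ideal (𝓞 K)) (c₀ : ι → 𝓞 K) (T : ι → Set (𝓞 K)) (κ : ι → ℂ),
      TCl F M ψ p f χ ι b c₀ T κ ∧ ∀ i, c₀ i ∉ Ideal.span {algebraMap (𝓞 F) (𝓞 K) l} * b i := by
  classical
  obtain ⟨w0, hw0l, hw0M⟩ := pt9_prime K hl
  have hJM : mK K M * f ≤ mK K M := Ideal.mul_le_left
  have hJ0 : mK K M * f ≠ ⊥ := mul_ne_zero (pt9_mK_ne h.ne) hχ.ne
  have hJ1 : mK K M * f ≠ ⊤ := by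
    intro h1
    apply w0.isPrime.ne_top
    rw [← top_le_iff, ← h1]
    exact hJM.trans hw0M
  have hpK : Ideal.span {(p : 𝓞 K)} ≠ ⊥ := by
    rw [Ne, Ideal.span_singleton_eq_bot, Nat.cast_eq_zero]
    exact hp.ne_zero
  have hg0 : Ideal.span {(p : 𝓞 K)} * (mK K M * f) ≠ ⊥ := mul_ne_zero hpK hJ0
  have hgJ : Ideal.span {(p : 𝓞 K)} * (mK K M * f) ≤ mK K M * f := Ideal.mul_le_right
  obtain ⟨ι, hι, b, c₀, T, hcd⟩ := exists_CDJ (mK K M * f) (Ideal.span {(p : 𝓞 K)} * (mK K M * f))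
    hJ0 hg0 hgJ hJ1
  have hlam : ∀ i, c₀ i ∉ Ideal.span {algebraMap (𝓞 F) (𝓞 K) l} * b i := by
    intro i hi
    refine hcd.prim i w0 (hJM.trans hw0M) (Ideal.mul_mono_left ?_ hi)
    rw [Ideal.span_singleton_le_iff_mem]
    exact hw0l
  have hbp : ∀ i, IsCoprime (b i) (Ideal.span {(p : 𝓞 K)}) := fun i => (hcd.cop i).of_mul_right_left
  have hbJ : ∀ i, IsCoprime (b i) (mK K M * f) := fun i => (hcd.cop i).of_mul_right_right
  have hbf : ∀ i, IsCoprime (b i) f := fun i => (hbJ i).of_mul_right_right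
  have hbR : ∀ i, IsCoprime (b i) (f * ∏ v ∈ R, v.asIdeal) := by
    intro i
    refine (hbf i).mul_right (IsCoprime.prod_right fun v hv => ?_)
    rw [Ideal.isCoprime_iff_sup_eq, ← top_le_iff, ← Ideal.isCoprime_iff_sup_eq.1 (hbp i)]
    exact sup_le_sup_left ((Ideal.span_singleton_le_iff_mem _).2 (hχ.abv v hv)) _
  have hχb : ∀ i, χ (b i) ^ p = 1 := fun i => hχ.val (b i) (hcd.ne i) (hbR i)
  have hχb0 : ∀ i, χ (b i) ≠ 0 := by
    intro i h0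
    have h1 := hχb i
    rw [h0, zero_pow hp.ne_zero] at h1
    exact zero_ne_one h1
  have hprm := fun i => t2_prm (mK K M * f) (b i) hJ0 (hbJ i) (c₀ i) (hcd.mem i) (hcd.prim i)
  have hkap := fun i => t2_kap hp h hMp hχ.ne hχ.cop (b i) (hcd.ne i) (hcd.cop i) (c₀ i) (hcd.mem i) (hcd.prim i)
  choose κ hκu hκa hκ using hkap
  refine ⟨ι, hι, b, c₀, T, κ, ⟨hJ0, hJ1, hcd, fun i x hx d hd => ?_, hκu, hκa, hχb,
    fun i x hx => (hprm i x hx).of_mul_right_right, fun i h0 => ?_, fun i => ?_⟩, hlam⟩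
  · obtain ⟨hx0, h6⟩ := hκ i x hx d hd
    refine ⟨hx0, h6, ?_⟩
    rw [← hd, map_mul, mul_comm (χ d), inv_mul_cancel_left₀ (hχb0 i)]
  · exact (hκ i 0 h0 ⊥ (by
      rw [Ideal.span_singleton_eq_bot.2 rfl]
      exact zero_mul (b i))).1 rfl
  · exact IsCoprime.mul_left (IsCoprime.mul_left (pe9_cop hMp) hχ.cop) (hbp i)

end SSR
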