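import Mathlib
import Pool.Agent.Lib.SSR.T1

open NumberField IsDedekindDomain

namespace SSR

open H55N H55P
open SSG.V (WtJ)

variable {F : Type} [Field F] [NumberField F] [IQ F] {K : Type} [Field K] [NumberField K] [Algebra F K] {p : ℕ}
  {f : Ideal (𝓞 K)} {R : Finset (HeightOneSpectrum (𝓞 K))} {χ : Ideal (𝓞 K) →*₀ ℂ}

/-! Chunk T3 (S/M). The weights. PROOF. P = prod over R of v, p ∈ every v. t3_chi: inv: span {v x} = span {x} for a unit v. per: x, y ∈ XS (y: x - y ∈ (p^2) I₀ ≤ I₀), x - y ∈ (p^2) I₀ ≤ f * prod v^2: (p^2) ≤ prod v^2 (p^2 ∈ ... (p) ≤ v for each v, products: prod v^2 = P^2, (p) ≤ P because the v are distinct primes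
containing p: Finset.prod of distinct primes divides: Finset.prod_primes_dvd or le of inf; then (p)^2 ≤ P^2) and I₀ ≤ f, so the product (p^2) I₀ ≤ P^2 f. If (x) is coprime to f P: hχ.per (x, y ≠ 0 because 0 ∉ XS). Otherwise (y) is not coprime to f P either (hprm: both are coprime to f; if x ∈ v then y ∈ v) and both
values are 0 (hχ.zero). t3_ind: inv: v x ∈ P iff x ∈ P. per: x - y ∈ (p^2) ≤ P. t3_pR: (p) ≤ P. -/

theorem t3_cop {v w : HeightOneSpectrum (𝓞 K)} (h : v ≠ w) : IsCoprime v.asIdeal w.asIdeal := by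
  rw [Ideal.isCoprime_iff_sup_eq]
  haveI := v.isMaximal
  haveI := w.isMaximal
  exact Ideal.IsMaximal.coprime_of_ne v.isMaximal w.isMaximal fun h0 => h (HeightOneSpectrum.ext h0)

/-- Coprimality to P depends only on the class modulo P. -/
theorem t3_iff {P : Ideal (𝓞 K)} {x y : 𝓞 K} (h : x - y ∈ P) (hx : IsCoprime (Ideal.span {x}) P) :
    IsCoprime (Ideal.span {y}) P := by
  rw [Ideal.isCoprime_iff_sup_eq] at hx ⊢
  rw [← top_le_iff, ← hx]
  refine sup_le ?_ le_sup_right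
  rw [Ideal.span_singleton_le_iff_mem]
  have h1 : x = y + (x - y) := by ring
  rw [h1]
  exact Ideal.add_mem _ (Ideal.mem_sup_left (Ideal.mem_span_singleton_self y)) (Ideal.mem_sup_right h)

theorem t3_pR (hp : p.Prime) (hR : ∀ v ∈ R, (p : 𝓞 K) ∈ v.asIdeal) : (p : 𝓞 K) ∈ ∏ v ∈ R, v.asIdeal := by
  classical
  rw [← Ideal.span_singleton_le_iff_mem, ← Ideal.dvd_iff_le]
  refine Finset.prod_dvd_of_coprime ?_ ?_
  · intro v _ w _ hvw
    exact t3_cop hvw
  · intro v hv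
    rw [Ideal.dvd_iff_le, Ideal.span_singleton_le_iff_mem]
    exact hR v hv

theorem t3_chi (hp : p.Prime) (hχ : PCh p f R χ) {J I₀ : Ideal (𝓞 K)} {c₀ : 𝓞 K} (hI : I₀ ≤ f)
    (hprm : ∀ x ∈ XS I₀ c₀, IsCoprime (Ideal.span {x}) f) (h0 : (0 : 𝓞 K) ∉ XS I₀ c₀) :
    WtJ J I₀ c₀ (p ^ 2) (fun x => χ (Ideal.span {x})) := by
  have hpP : (p : 𝓞 K) ∈ ∏ v ∈ R, v.asIdeal := t3_pR hp hχ.abv
  have hp2 : ((p ^ 2 : ℕ) : 𝓞 K) ∈ (∏ v ∈ R, v.asIdeal) ^ 2 := by
    rw [Nat.cast_pow]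
    exact Ideal.pow_mem_pow hpP 2
  constructor
  · intro x hx y hxy
    have hxyI : x - y ∈ I₀ := Ideal.mul_le_right hxy
    have hy : y ∈ XS I₀ c₀ := by
      have h1 : y - c₀ = (x - c₀) - (x - y) := by ring
      show y - c₀ ∈ I₀
      rw [h1]
      exact Ideal.sub_mem _ hx hxyI
    have hx0 : x ≠ 0 := fun h => h0 (h ▸ hx)
    have hy0 : y ≠ 0 := fun h => h0 (h ▸ hy)
    have hxyP : x - y ∈ ∏ v ∈ R, v.asIdeal :=
      Ideal.pow_le_self two_ne_zero (((Ideal.span_singleton_le_iff_mem _).2 hp2) (Ideal.mul_le_left hxy))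
    have hxyF : x - y ∈ f * ∏ v ∈ R, v.asIdeal ^ 2 := by
      rw [Finset.prod_pow, mul_comm]
      exact Ideal.mul_mono ((Ideal.span_singleton_le_iff_mem _).2 hp2) hI hxy
    by_cases hc : IsCoprime (Ideal.span {x}) (f * ∏ v ∈ R, v.asIdeal)
    · exact hχ.per x y hx0 hy0 hc hxyF
    · have hc' : ¬ IsCoprime (Ideal.span {y}) (f * ∏ v ∈ R, v.asIdeal) := by
        intro h1
        refine hc ((hprm x hx).mul_right (t3_iff (x := y) ?_ (IsCoprime.mul_right_iff.1 h1).2))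
        have h2 : y - x = -(x - y) := by ring
        rw [h2]
        exact (Ideal.neg_mem_iff _).2 hxyP
      show χ _ = χ _
      rw [hχ.zero _ hc, hχ.zero _ hc']
  · intro x _ v _
    show χ _ = χ _
    rw [Ideal.span_singleton_mul_left_unit v.isUnit]

theorem t3_ind (hp : p.Prime) (hR : ∀ v ∈ R, (p : 𝓞 K) ∈ v.asIdeal) (J I₀ : Ideal (𝓞 K)) (c₀ : 𝓞 K) :
    WtJ J I₀ c₀ (p ^ 2) (indI (∏ v ∈ R, v.asIdeal)) := by
  have hpP : (p : 𝓞 K) ∈ ∏ v ∈ R, v.asIdeal := t3_pR hp hR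
  have hp2 : ((p ^ 2 : ℕ) : 𝓞 K) ∈ ∏ v ∈ R, v.asIdeal := by
    rw [Nat.cast_pow, pow_two]
    exact Ideal.mul_mem_left _ _ hpP
  constructor
  · intro x _ y hxy
    have hxyP : x - y ∈ ∏ v ∈ R, v.asIdeal :=
      ((Ideal.span_singleton_le_iff_mem _).2 hp2) (Ideal.mul_le_left hxy)
    have hiff : x ∈ ∏ v ∈ R, v.asIdeal ↔ y ∈ ∏ v ∈ R, v.asIdeal := by
      constructor
      · intro h
        have h1 : y = x - (x - y) := by ring
        rw [h1]
        exact Ideal.sub_mem _ h hxyP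
      · intro h
        have h1 : x = y + (x - y) := by ring
        rw [h1]
        exact Ideal.add_mem _ h hxyP
    show indI _ x = indI _ y
    unfold indI
    by_cases h : x ∈ ∏ v ∈ R, v.asIdeal
    · rw [if_pos h, if_pos (hiff.1 h)]
    · rw [if_neg h, if_neg fun h1 => h (hiff.2 h1)]
  · intro x _ v _
    show indI _ ((v : 𝓞 K) * x) = indI _ x
    unfold indI
    have hiff := Ideal.unit_mul_mem_iff_mem (∏ v ∈ R, v.asIdeal) (x := x) v.isUnit
    by_cases h : x ∈ ∏ v ∈ R, v.asIdeal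
    · rw [if_pos h, if_pos (hiff.2 h)]
    · rw [if_neg h, if_neg fun h1 => h (hiff.1 h1)]

end SSR
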