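import Mathlib
import Pool.Agent.Lib.SSR.T2
import Pool.Agent.Lib.SSR.T3

open NumberField IsDedekindDomain

namespace SSR

open H55N H55P SSG SSG.E
open SSG.V (WtJ)

variable {F : Type} [Field F] [NumberField F] [IQ F] {K : Type} [Field K] [NumberField K] [Algebra F K] {m p : ℕ} [Fact p.Prime]
  {M : Ideal (𝓞 F)} {ψ : Ideal (𝓞 F) →*₀ 𝓞 F} {f : Ideal (𝓞 K)} {R : Finset (HeightOneSpectrum (𝓞 K))} {χ : Ideal (𝓞 K) →*₀ ℂ}
  {V : ValuationSubring ℂ} {ι : Type} {b : ι → Ideal (𝓞 K)} {c₀ : ι → 𝓞 K} {T : ι → Set (𝓞 K)} {κ : ι → ℂ}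
  {c : Fin (m + 1) × Fin 2 → Ideal (𝓞 K)} {q : Fin (m + 1) × Fin 2 → ℕ} {val : ι → 𝓞 K → ℂ}

/-! Chunk T4 (M). t4_dat: existence of the data. PROOF. t2_cl for the classes (l from h.toMod p hMp). SSG.V.classw2 p hl K m hm (b i) f (hcl.cd.ne i) (b i coprime to (p): hcl.cd.cop) hχ.ne hχ.cop (c₀ i) (hcl.cd.mem i) nl 2 gives Bad i and val i. exists_smoothP p hp h hMp V hV hNT m with the finite bad set
⋃ Bad i ∪ ⋃ {w | b i ≤ w} ∪ {w | p ∈ w} ∪ {w | f ≤ w} (pt9_finite) gives c, q, sm, pr, un; np, ncf, bc as in SSG.S.an_main. ser, cls: the two conclusions of classw2 (p ^ N with N = 2).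
t4_key: the weighted series (copy of key in SSG.S.an_main). PROOF. (hD.ser i φ (hφ i)) gives Z i; G s = Σ κ i lam i absNorm(b i)^s Z i s; SSG.S.s1_series with h := PsiP K ψ * oneI f, hc := coef_mulP h (pt3_oneI_zero f) (pt3_oneI_norm_le f) (from kap), g = span {p} * J (g ≤ J: Ideal.mul_le_right), Z i (T i) (cd.trans i). -/

theorem t4_dat {Om : ℂ} (hS : SCtx p M ψ Om) (hV : V.valuation (p : ℂ) < 1) (hNT : NTP K p M ψ V) (hm : Module.finrank F K = m + 1) (hχ : PCh p f R χ) :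
    ∃ (ι : Type) (_ : Fintype ι) (b : ι → Ideal (𝓞 K)) (c₀ : ι → 𝓞 K) (T : ι → Set (𝓞 K)) (κ : ι → ℂ)
      (c : Fin (m + 1) × Fin 2 → Ideal (𝓞 K)) (q : Fin (m + 1) × Fin 2 → ℕ) (val : ι → 𝓞 K → ℂ),
      TDat F M ψ p f χ V ι b c₀ T κ c q val := by
  classical
  have hpp : p.Prime := Fact.out
  have hMp := hS.cop
  obtain ⟨l, hl⟩ := hS.hecke.toMod p hMp
  obtain ⟨ι, hι, b, c₀, T, κ, hcl, hlam⟩ := t2_cl (K := K) hpp hS.hecke hMp hχ hl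
  have hpK : Ideal.span {(p : 𝓞 K)} ≠ ⊥ := by
    rw [Ne, Ideal.span_singleton_eq_bot, Nat.cast_eq_zero]
    exact hpp.ne_zero
  have hbp : ∀ i, IsCoprime (b i) (Ideal.span {(p : 𝓞 K)}) := fun i => (hcl.cd.cop i).of_mul_right_left
  have hcls := fun i => SSG.V.classw2 p hl K m hm (b i) f (hcl.cd.ne i) (hbp i) hχ.ne hχ.cop (c₀ i)
    (hcl.cd.mem i) (hlam i) 2 (by norm_num)
  choose Bad hBad hcls using hcls
  have hfinp : {w : Ideal (𝓞 K) | (p : 𝓞 K) ∈ w}.Finite := by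
    refine (pt9_finite (Ideal.span {(p : 𝓞 K)}) hpK).subset ?_
    intro w hw
    exact (Ideal.span_singleton_le_iff_mem w).2 hw
  obtain ⟨c, q, hs, hcb, hun⟩ := exists_smoothP p hpp hS.hecke hMp V hV hNT m
    ((((⋃ i, Bad i) ∪ ⋃ i, {w : Ideal (𝓞 K) | b i ≤ w}) ∪ {w : Ideal (𝓞 K) | (p : 𝓞 K) ∈ w}) ∪ {w : Ideal (𝓞 K) | f ≤ w})
    ((((Set.finite_iUnion hBad).union (Set.finite_iUnion fun i => pt9_finite (b i) (hcl.cd.ne i))).union hfinp).union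
      (pt9_finite f hχ.ne))
  have hcp : ∀ j, (c j).IsPrime := fun j => (hcb j).1
  have hcpp : ∀ j, (p : 𝓞 K) ∉ c j := fun j hj => (hcb j).2 (Or.inl (Or.inr hj))
  have hncf : ∀ j, ¬ f ≤ c j := fun j hj => (hcb j).2 (Or.inr hj)
  have hbc : ∀ i j, IsCoprime (b i) (c j) := by
    intro i j
    rw [Ideal.isCoprime_iff_sup_eq]
    by_contra h
    have hmax : (c j).IsMaximal := (hcp j).isMaximal (pt3_ne hs j)
    have h1 : c j ≤ b i ⊔ c j := le_sup_right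
    have h2 : b i ⊔ c j = c j := (hmax.eq_of_le h h1).symm
    apply (hcb j).2
    refine Or.inl (Or.inl (Or.inr (Set.mem_iUnion.2 ⟨i, ?_⟩)))
    show b i ≤ c j
    rw [← h2]
    exact le_sup_left
  have hcls2 := fun i => hcls i c q hs
    (fun j hj => (hcb j).2 (Or.inl (Or.inl (Or.inl (Set.mem_iUnion.2 ⟨i, hj⟩)))))
  choose val hval1 hval2 using hcls2
  exact ⟨ι, hι, b, c₀, T, κ, c, q, val, hcl, hs, hcp, hcpp, hncf, hbc, hun, hval1, hval2⟩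

open Classical in
theorem t4_key [Fintype ι] (h : IsHecke M ψ) (hD : TDat F M ψ p f χ V ι b c₀ T κ c q val) (θ : Ideal (𝓞 K) → ℂ) (φ : 𝓞 K → ℂ) (lam : ι → ℂ)
    (hφ : ∀ i, WtJ (mK K M * f) (mK K M * f * b i) (c₀ i) (p ^ 2) φ)
    (hθ : ∀ i, ∀ x ∈ XS (mK K M * f * b i) (c₀ i), ∀ a : Ideal (𝓞 K), a * b i = Ideal.span {x} → θ a = lam i * φ x)
    (S : ι → Finset (𝓞 K)) (hS : ∀ i, RpU (mK K M * f * b i) (c₀ i) (p ^ 2) (S i)) :
    ∃ G : ℂ → ℂ, AnalyticOnNhd ℂ G {s | 1 / 2 < s.re} ∧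
      (∀ s : ℂ, 3 / 2 < s.re → HasSum (fun a : Ideal (𝓞 K) => tm (PsiP K ψ * oneI f : Ideal (𝓞 K) →*₀ ℂ) s a * θ a *
        ∏ j, (if a ≤ c j then 1 - (q j : ℂ) else 1)) (G s)) ∧
      G 1 = ∑ i, κ i * lam i * (Ideal.absNorm (b i) : ℂ) *
        ((((p : ℂ) ^ 2)⁻¹) ^ (m + 1) * ∑ a ∈ S i, φ a * val i a) := by
  have hJ1 := hD.cl.top
  have hgJ : Ideal.span {(p : 𝓞 K)} * (mK K M * f) ≤ mK K M * f := Ideal.mul_le_right
  have hcf : CoefP F (mK K M * f) ι b c₀ (PsiP K ψ * oneI f) κ :=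
    coef_mulP h (pt3_oneI_zero f) (pt3_oneI_norm_le f) fun i x hx a ha =>
      ⟨(hD.cl.kap i x hx a ha).1, (hD.cl.kap i x hx a ha).2.1⟩
  have hNb : ∀ i, Ideal.absNorm (b i) ≠ 0 := fun i => by
    rw [Ne, Ideal.absNorm_eq_zero_iff]
    exact hD.cl.cd.ne i
  choose Z hZa hZs hZ1 using fun i => hD.ser i φ (hφ i)
  refine ⟨fun s => ∑ i, κ i * lam i * (Ideal.absNorm (b i) : ℂ) ^ s * Z i s, ?_, ?_, ?_⟩
  · intro s hs'
    exact Finset.analyticAt_fun_sum _ fun i _ =>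
      (analyticAt_const.mul (pt3_pow_analytic _ (hNb i) Set.univ s trivial)).mul (hZa i s hs')
  · intro s hs'
    exact SSG.S.s1_series hgJ hJ1 hD.cl.cd hcf θ φ lam hθ hD.pr hD.bc (fun i => Z i s) s
      fun i => hZs i (T i) (hD.cl.cd.trans i) s hs'
  · refine Finset.sum_congr rfl fun i _ => ?_
    rw [hZ1 i (S i) (hS i), Complex.cpow_one]

end SSR
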