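import Mathlib
import Pool.Agent.Lib.SSR.T4

open NumberField IsDedekindDomain

namespace SSR

open H55N H55P SSG SSG.E
open H55Z (HasL)

variable {F : Type} [Field F] [NumberField F] [IQ F] {K : Type} [Field K] [NumberField K] [Algebra F K] {m p : ℕ} [Fact p.Prime]
  {M : Ideal (𝓞 F)} {ψ : Ideal (𝓞 F) →*₀ 𝓞 F} {f : Ideal (𝓞 K)} {R : Finset (HeightOneSpectrum (𝓞 K))} {χ : Ideal (𝓞 K) →*₀ ℂ}
  {V : ValuationSubring ℂ} {ι : Type} [Fintype ι] {b : ι → Ideal (𝓞 K)} {c₀ : ι → 𝓞 K} {T : ι → Set (𝓞 K)} {κ : ι → ℂ}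
  {c : Fin (m + 1) × Fin 2 → Ideal (𝓞 K)} {q : Fin (m + 1) × Fin 2 → ℕ} {val : ι → 𝓞 K → ℂ}

/-! Chunk T5 (M). The twisted value. PROOF. As in SSG.S.an_main (part: the twisted series), with (chN K χ, wchi χ) replaced by (χ, fun x => χ (span {x})). t4_key with θ = χ, φ x = χ (span {x}) (weight: t3_chi with I₀ = mK K M * f * b i ≤ f, hD.cl.prm, zer), lam i = (χ (b i))⁻¹ (hD.cl.kap) gives G. Z0 from t1_cont.
tm (PsiP * oneI f) s a * χ a = tm (PsiP * χ) s a: if χ a ≠ 0 then a is coprime to f and a ≠ 0, so oneI f a = 1 (pt3_oneI..). G s = prod_j (1 - q j tm (PsiP * χ) s (c j)) * Z0 s for Re s > 3/2 (smooth_sum, as there). glue gives Λ with Λ = Z0 for Re s > 3/2, G = P Λ. Nonvanishing of P for Re s < 3/2: s4_ne (‖χ (c j)‖ = 1 or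
χ (c j) = 0 by hχ.val / zero; c j ≠ ⊥: pt3_ne). Bχ = prod_j (1 - q j tm (PsiP * χ) 1 (c j)), V(Bχ) = 1: s4_unit and s4_root with k = 1 (χ (c j) ^ p = 1 or 0). vχ = Λ 1. -/

open Classical in
theorem t5_one (hχ : PCh p f R χ) (a : Ideal (𝓞 K)) : (PsiP K ψ * χ : Ideal (𝓞 K) →*₀ ℂ) a =
    (PsiP K ψ * oneI f : Ideal (𝓞 K) →*₀ ℂ) a * χ a := by
  show PsiP K ψ a * χ a = PsiP K ψ a * oneI f a * χ a
  by_cases h : χ a = 0
  · rw [h, mul_zero, mul_zero]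
  · have h1 : oneI f a = 1 := by
      show (if a ≠ ⊥ ∧ IsCoprime a f then (1 : ℂ) else 0) = 1
      rw [if_pos]
      refine ⟨?_, ?_⟩
      · rintro rfl
        exact h (map_zero χ)
      · by_contra h2
        apply h
        refine hχ.zero a fun h3 => h2 ?_
        exact (IsCoprime.mul_right_iff.1 h3).1
    rw [h1, mul_one]

theorem t5_alt (hχ : PCh p f R χ) {a : Ideal (𝓞 K)} (ha : a ≠ ⊥) : χ a ^ p = 1 ∨ χ a = 0 := by
  by_cases h : IsCoprime a (f * ∏ v ∈ R, v.asIdeal)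
  · exact Or.inl (hχ.val a ha h)
  · exact Or.inr (hχ.zero a h)

theorem t5_tw (h : IsHecke M ψ) (hMp : IsCoprime M (Ideal.span {(p : 𝓞 F)})) (hm : Module.finrank F K = m + 1) (hV : V.valuation (p : ℂ) < 1)
    (hχ : PCh p f R χ) (hD : TDat F M ψ p f χ V ι b c₀ T κ c q val) (S : ι → Finset (𝓞 K))
    (hS : ∀ i, RpU (mK K M * f * b i) (c₀ i) (p ^ 2) (S i)) :
    ∃ Bχ vχ : ℂ, HasL (PsiP K ψ * χ : Ideal (𝓞 K) →*₀ ℂ) vχ ∧ V.valuation Bχ = 1 ∧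
      Bχ * vχ = ∑ i, κ i * (χ (b i))⁻¹ * (Ideal.absNorm (b i) : ℂ) *
        ((((p : ℂ) ^ 2)⁻¹) ^ (m + 1) * ∑ a ∈ S i, χ (Ideal.span {a}) * val i a) := by
  have hpp : p.Prime := Fact.out
  have hs : Smooth c q := hD.sm
  have hle : ∀ i, mK K M * f * b i ≤ f := fun i => Ideal.mul_le_left.trans Ideal.mul_le_right
  obtain ⟨G, hGa, hGs, hG1⟩ := t4_key h hD χ (fun x => χ (Ideal.span {x})) (fun i => (χ (b i))⁻¹)
    (fun i => t3_chi hpp hχ (hle i) (hD.cl.prm i) (hD.cl.zer i))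
    (fun i x hx a ha => (hD.cl.kap i x hx a ha).2.2) S hS
  obtain ⟨Z0, hZ0a, hZ0s⟩ := t1_cont hpp h hMp hm hχ
  have hnrm : ∀ a : Ideal (𝓞 K), ‖(PsiP K ψ * χ : Ideal (𝓞 K) →*₀ ℂ) a‖ ^ 2 ≤ Ideal.absNorm a := by
    intro a
    refine le_trans ?_ (PsiP_norm_le h a)
    have h4 : (PsiP K ψ * χ : Ideal (𝓞 K) →*₀ ℂ) a = PsiP K ψ a * χ a := rfl
    rw [h4, norm_mul, mul_pow]
    exact mul_le_of_le_one_right (by positivity) (pow_le_one₀ (norm_nonneg _) (t1_norm hpp hχ a))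
  have hPa : AnalyticOnNhd ℂ
      (fun s : ℂ => ∏ j, (1 - (q j : ℂ) * tm (PsiP K ψ * χ : Ideal (𝓞 K) →*₀ ℂ) s (c j))) {s | 1 / 2 < s.re} := by
    intro s hs'
    exact Finset.analyticAt_fun_prod _ fun j _ =>
      (analyticAt_const.sub (analyticAt_const.mul
        (pt3_tm_analytic _ (c j) (pt3_ne hs j) Set.univ s trivial)))
  have hGe : ∀ s : ℂ, 3 / 2 < s.re →
      G s = (∏ j, (1 - (q j : ℂ) * tm (PsiP K ψ * χ : Ideal (𝓞 K) →*₀ ℂ) s (c j))) * Z0 s := by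
    intro s hs'
    have h1 := hGs s hs'
    have h2 := smooth_sum (tmH (PsiP K ψ * χ : Ideal (𝓞 K) →*₀ ℂ) s) (tm_summable _ hnrm s hs') c hD.pr (pt3_ne hs)
      (pt3_inj hs) (fun i => (q i : ℂ))
    have h3 : ∑' a, tmH (PsiP K ψ * χ : Ideal (𝓞 K) →*₀ ℂ) s a = Z0 s := (hZ0s s hs').tsum_eq
    rw [h3] at h2
    refine h1.unique (h2.congr_fun fun a => ?_)
    have h4 : tmH (PsiP K ψ * χ : Ideal (𝓞 K) →*₀ ℂ) s a = tm (PsiP K ψ * oneI f : Ideal (𝓞 K) →*₀ ℂ) s a * χ a := by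
      show (PsiP K ψ * χ : Ideal (𝓞 K) →*₀ ℂ) a * _ = (PsiP K ψ * oneI f : Ideal (𝓞 K) →*₀ ℂ) a * _ * χ a
      rw [t5_one hχ]
      ring
    rw [h4]
  have halt : ∀ j, χ (c j) ^ p = 1 ∨ χ (c j) = 0 := fun j => t5_alt hχ (pt3_ne hs j)
  obtain ⟨Λ, hΛa, hΛs, hΛG⟩ := glue (1 / (2 * (m + 1 : ℝ))) (by positivity) G Z0
    (fun s : ℂ => ∏ j, (1 - (q j : ℂ) * tm (PsiP K ψ * χ : Ideal (𝓞 K) →*₀ ℂ) s (c j)))
    hGa hZ0a hPa
    (fun s hs' => Finset.prod_ne_zero_iff.2 fun j _ => SSG.S.s4_ne h χ (c j) (q j) (hs.prime j) (hs.norm j)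
      (by
        rcases halt j with h1 | h1
        · exact Or.inl (Complex.norm_eq_one_of_pow_eq_one h1 hpp.ne_zero)
        · exact Or.inr h1) s hs')
    hGe
  have h1re : (1 / 2 : ℝ) < (1 : ℂ).re := by norm_num
  refine ⟨∏ j, (1 - (q j : ℂ) * tm (PsiP K ψ * χ : Ideal (𝓞 K) →*₀ ℂ) 1 (c j)), Λ 1,
    ⟨Λ, hΛa, fun s hs' => ?_, rfl⟩, ?_, (hΛG 1 h1re).symm.trans hG1⟩
  · rw [hΛs s hs']
    exact hZ0s s hs'
  · rw [map_prod]
    refine Finset.prod_eq_one fun j _ => SSG.S.s4_unit V ψ χ (c j) (q j) (hs.prime j) (hs.norm j) (hD.un j) ?_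
    rcases halt j with h1 | h1
    · exact Or.inl (SSG.S.s4_root p hpp V hV 1 _ (by rw [pow_one]; exact h1))
    · exact Or.inr h1

end SSR
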