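import Mathlib
import Pool.Agent.Lib.SSR.T4

open NumberField IsDedekindDomain

namespace SSR

open H55N H55P SSG SSG.E
open H55Z (HasL)

variable {F : Type} [Field F] [NumberField F] [IQ F] {K : Type} [Field K] [NumberField K] [Algebra F K] {m p : ℕ} [Fact p.Prime]
  {M : Ideal (𝓞 F)} {ψ : Ideal (𝓞 F) →*₀ 𝓞 F} {f : Ideal (𝓞 K)} {R : Finset (HeightOneSpectrum (𝓞 K))} {χ : Ideal (𝓞 K) →*₀ ℂ}
  {V : ValuationSubring ℂ} {ι : Type} [Fintype ι] {b : ι → Ideal (𝓞 K)} {c₀ : ι → 𝓞 K} {T : ι → Set (𝓞 K)} {κ : ι → ℂ}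
  {c : Fin (m + 1) × Fin 2 → Ideal (𝓞 K)} {q : Fin (m + 1) × Fin 2 → ℕ} {val : ι → 𝓞 K → ℂ}

/-! Chunk T5B (M). The base value. PROOF. As the last part of SSG.S.an_main (the untwisted series with the weight ind), with Q = P = prod over R of v. t4_key with θ a = if a ≤ P then 1 else 0, φ = indI P (t3_ind), lam = 1: for a b i = (x): a ≤ P iff x ∈ P because b i is coprime to (p), hence to P
(as SSG.S.a1_dvd: IsCoprime P (b i)). G s = tm h' s P * (prod_j (1 - q j tm h' s (c j)) * Σ' tm h' s) with h' = PsiP K ψ * oneI f (SSG.S.s2_div: not P ≤ c j because p ∈ P (t3_pR), np; norm bound as in coef_mulP / hnrm there). tm h' s P = tm (PsiP K ψ) s P (oneI f P = 1: P coprime to f because p ∈ P and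
f coprime to (p); P ≠ 0), tm h' s (c j) = tm (PsiP K ψ) s (c j) (c j coprime to f: c j maximal, ncf). one_sumP h f: Σ' tm h' s = prod_(w ∈ W) (1 - tm (PsiP) s w) * Σ' tm (PsiP) s, W the set of the w with f ≤ w. ident (identity theorem, H55N.ident) with the continuation Λ₁ of HasL: for all Re s > 1/2
G s = tm (PsiP) s P * (B(s) * (prod_w (1 - tm s w) * Λ₁ s)) (both analytic: pt3_tm_analytic). s = 1. B₁ = prod_j (1 - q j tm (PsiP) 1 (c j)), V(B₁) = 1: s4_unit1. The finset W: Set.Finite.toFinset of {w | f ≤ w} (one_sumP gives one). -/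

theorem t5_base (h : IsHecke M ψ) (hχ : PCh p f R χ) (hD : TDat F M ψ p f χ V ι b c₀ T κ c q val) (S : ι → Finset (𝓞 K))
    (hS : ∀ i, RpU (mK K M * f * b i) (c₀ i) (p ^ 2) (S i)) :
    ∃ (B₁ : ℂ) (W : Finset (HeightOneSpectrum (𝓞 K))), V.valuation B₁ = 1 ∧ (∀ w, w ∈ W ↔ f ≤ w.asIdeal) ∧
      ∀ v₁ : ℂ, HasL (PsiP K ψ) v₁ →
        tm (PsiP K ψ) 1 (∏ v ∈ R, v.asIdeal) * (B₁ * ((∏ w ∈ W, (1 - tm (PsiP K ψ) 1 w.asIdeal)) * v₁)) =
          ∑ i, κ i * (Ideal.absNorm (b i) : ℂ) *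
            ((((p : ℂ) ^ 2)⁻¹) ^ (m + 1) * ∑ a ∈ S i, indI (∏ v ∈ R, v.asIdeal) a * val i a) := by
  classical
  have hpp : p.Prime := Fact.out
  have hpP : (p : 𝓞 K) ∈ ∏ v ∈ R, v.asIdeal := t3_pR hpp hχ.abv
  have hP0 : (∏ v ∈ R, v.asIdeal : Ideal (𝓞 K)) ≠ ⊥ := Finset.prod_ne_zero_iff.2 fun v _ => v.ne_bot
  have hind := fun i => t3_ind (p := p) hpp hχ.abv (mK K M * f) (mK K M * f * b i) (c₀ i)
  have hPle : Ideal.span {(p : 𝓞 K)} ≤ ∏ v ∈ R, v.asIdeal := (Ideal.span_singleton_le_iff_mem _).2 hpP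
  have hcopP : ∀ J : Ideal (𝓞 K), IsCoprime J (Ideal.span {(p : 𝓞 K)}) → IsCoprime (∏ v ∈ R, v.asIdeal) J := by
    intro J hJ
    rw [Ideal.isCoprime_iff_sup_eq] at hJ ⊢
    rw [eq_top_iff, ← hJ, sup_comm]
    exact sup_le_sup_right hPle J
  generalize (∏ v ∈ R, v.asIdeal : Ideal (𝓞 K)) = P at hpP hP0 hind hPle hcopP ⊢
  have hPc : ∀ j, ¬ P ≤ c j := fun j hj => hD.np j (hj hpP)
  have hbP : ∀ i, IsCoprime P (b i) := fun i => hcopP _ (hD.cl.cop i).of_mul_left_right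
  have hfP : IsCoprime P f := hcopP _ hχ.cop
  obtain ⟨G, hGa, hGs, hG1⟩ := t4_key h hD (fun a => if a ≤ P then 1 else 0) (indI P) (fun _ => 1) hind
    (fun i x _ a ha => by
      rw [one_mul]
      unfold indI
      have h2 : a ≤ P ↔ x ∈ P := by
        rw [← Ideal.span_singleton_le_iff_mem, ← ha]
        constructor
        · intro h2
          exact Ideal.mul_le_left.trans h2
        · intro h2
          rw [← Ideal.dvd_iff_le] at h2 ⊢
          exact (hbP i).dvd_of_dvd_mul_right h2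
      by_cases h3 : x ∈ P
      · rw [if_pos h3, if_pos (h2.2 h3)]
      · rw [if_neg h3, if_neg fun h4 => h3 (h2.1 h4)]) S hS
  have hnrm : ∀ a : Ideal (𝓞 K), ‖(PsiP K ψ * oneI f : Ideal (𝓞 K) →*₀ ℂ) a‖ ^ 2 ≤ Ideal.absNorm a := by
    intro a
    refine le_trans ?_ (PsiP_norm_le h a)
    have h4 : (PsiP K ψ * oneI f : Ideal (𝓞 K) →*₀ ℂ) a = PsiP K ψ a * oneI f a := rfl
    rw [h4, norm_mul, mul_pow]
    exact mul_le_of_le_one_right (by positivity) (pow_le_one₀ (norm_nonneg _) (pt3_oneI_norm_le f a))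
  have htm : ∀ (s : ℂ) (a : Ideal (𝓞 K)), a ≠ ⊥ → IsCoprime a f →
      tm (PsiP K ψ * oneI f : Ideal (𝓞 K) →*₀ ℂ) s a = tm (PsiP K ψ) s a := by
    intro s a ha hc
    have h5 : oneI f a = 1 := by
      show (if a ≠ ⊥ ∧ IsCoprime a f then (1 : ℂ) else 0) = 1
      rw [if_pos ⟨ha, hc⟩]
    show PsiP K ψ a * oneI f a * (Ideal.absNorm a : ℂ) ^ (-s) = PsiP K ψ a * (Ideal.absNorm a : ℂ) ^ (-s)
    rw [h5, mul_one]
  have hcf : ∀ j, IsCoprime (c j) f := by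
    intro j
    rw [Ideal.isCoprime_iff_sup_eq]
    by_contra h
    have hmax : (c j).IsMaximal := (hD.pr j).isMaximal (pt3_ne hD.sm j)
    have h1 : c j ≤ c j ⊔ f := le_sup_left
    have h2 : c j ⊔ f = c j := (hmax.eq_of_le h h1).symm
    apply hD.ncf j
    rw [← h2]
    exact le_sup_right
  obtain ⟨W, hW, hWs⟩ := one_sumP (K := K) h f hχ.ne
  refine ⟨∏ j, (1 - (q j : ℂ) * tm (PsiP K ψ) 1 (c j)), W, ?_, hW, ?_⟩
  · rw [map_prod]
    exact Finset.prod_eq_one fun j _ => SSG.S.s4_unit1 V ψ (c j) (q j) (hD.sm.prime j) (hD.sm.norm j) (hD.un j)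
  · rintro v₁ ⟨Λ₁, h1a, h1s, h1v⟩
    have h1re : (1 / 2 : ℝ) < (1 : ℂ).re := by norm_num
    have h4 : ∀ s : ℂ, 1 / 2 < s.re → G s = tm (PsiP K ψ) s P *
        ((∏ j, (1 - (q j : ℂ) * tm (PsiP K ψ) s (c j))) *
          ((∏ w ∈ W, (1 - tm (PsiP K ψ) s w.asIdeal)) * Λ₁ s)) := by
      intro s hs'
      refine ident G (fun s => tm (PsiP K ψ) s P *
        ((∏ j, (1 - (q j : ℂ) * tm (PsiP K ψ) s (c j))) *
          ((∏ w ∈ W, (1 - tm (PsiP K ψ) s w.asIdeal)) * Λ₁ s))) hGa ?_ ?_ s hs'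
      · intro z hz
        refine (pt3_tm_analytic (PsiP K ψ) _ hP0 Set.univ z trivial).mul (AnalyticAt.mul ?_ (AnalyticAt.mul ?_ (h1a z hz)))
        · exact Finset.analyticAt_fun_prod _ fun j _ =>
            (analyticAt_const.sub (analyticAt_const.mul
              (pt3_tm_analytic (PsiP K ψ) (c j) (pt3_ne hD.sm j) Set.univ z trivial)))
        · exact Finset.analyticAt_fun_prod _ fun w _ =>
            (analyticAt_const.sub (pt3_tm_analytic (PsiP K ψ) w.asIdeal w.ne_bot Set.univ z trivial))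
      · intro z hz
        have h5 := SSG.S.s2_div (PsiP K ψ * oneI f : Ideal (𝓞 K) →*₀ ℂ) hnrm P hP0 hD.sm hD.pr hPc z hz
        have h6 := hWs z hz
        rw [h6.tsum_eq, (h1s z hz).tsum_eq, htm z P hP0 hfP] at h5
        have h7 : (∏ j, (1 - (q j : ℂ) * tm (PsiP K ψ * oneI f : Ideal (𝓞 K) →*₀ ℂ) z (c j))) =
            ∏ j, (1 - (q j : ℂ) * tm (PsiP K ψ) z (c j)) :=
          Finset.prod_congr rfl fun j _ => by rw [htm z (c j) (pt3_ne hD.sm j) (hcf j)]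
        rw [h7] at h5
        exact (hGs z hz).unique h5
    have h5 := h4 1 h1re
    rw [h1v] at h5
    rw [← h5, hG1]
    refine Finset.sum_congr rfl fun i _ => ?_
    rw [mul_one]

end SSR
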