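import Mathlib
import Pool.Agent.Lib.SSG.F.Defs

/-! # SSR, part G: the functional: definitions (no sorry)

L : LTF F C (Lib/SSG/F/Defs): L.X N a = the Lubin-Tate coordinate of the point a modulo p^N, q = p^2. -/

open NumberField

namespace SSR

open SSG (LTF Rep)

/-- The coordinates of integral linear combinations are uniform limits of integral polynomials in the coordinates. -/
def LinX {F : Type} [Field F] [NumberField F] {C : Type} [NormedField C] (L : LTF F C) : Prop :=
  ∀ (N : ℕ) (κ : Type) [Fintype κ] (c : κ → 𝓞 F), L.Fn N κ (fun a => L.X N (∑ k, c k * a k))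

/-- The standing hypotheses of part G. -/
structure GH (p : ℕ) {F : Type} [Field F] [NumberField F] {C : Type} [NormedField C] (L : LTF F C) : Prop where
  prime : p.Prime
  three : 3 ≤ p
  deg : Module.finrank ℚ F = 2
  lt : ‖(p : C)‖ < 1
  ok : L.Ok p
  lin : LinX L

/-- Additive characters of O_F which are trivial on p O_F. -/
structure Ach (p : ℕ) {F : Type} [Field F] [NumberField F] {C : Type} [NormedField C] (ψ : 𝓞 F → C) : Prop where
  add : ∀ a b, ψ (a + b) = ψ a * ψ b
  per : ∀ a, ψ ((p : 𝓞 F) * a) = 1

/-- X_1(b) / X_1(1). -/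
noncomputable def tau {F : Type} [Field F] [NumberField F] {C : Type} [NormedField C] (L : LTF F C) (b : 𝓞 F) : C := L.X 1 b / L.X 1 1

end SSR
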