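import Mathlib
import Pool.Agent.Lib.SSR.GD
import Pool.Agent.Lib.SSG.E.A1

open NumberField

namespace SSR

open SSG

variable {F : Type} [Field F] [NumberField F] {C : Type} [NormedField C] [IsUltrametricDist C] {L : LTF F C} {p : ℕ}

/-! Chunk G0 (S/M). PROOF. g0_pol: induction (MvPolynomial: Q.sum / MvPolynomial.eval_eq: eval = sum over the support of coeff * prod of powers): Fn_sum, Fn_scal, Fn_prod, Fn_pow (SSG/E/A1).
g0_comp: given ε take Q for H and ε (integral, ‖H b - Q(X_N(b i))‖ ≤ ε for all b), the function a ↦ Q(X_N(Σ_k c i k a k)) is Fn by g0_pol with G i = the coordinate of the linear combination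
(hl N κ (c i)), within ε of H (Σ..): Fn_lim. g0_sv: the partial sums Σ_(n<m) c n H^n are Fn (Fn_sum, Fn_scal, Fn_pow) and within ρ^m of the series (ultrametric: norm of the tail ≤ sup of the
terms, tail = tsum of the terms n ≥ m, each ≤ ρ^m; Summable: norm ≤ ρ^n geometric, or NonarchimedeanAddGroup; see SSG/LT sv, Cl.of_sv, `cl_*` in SSG/LT/PA*.lean for the same lemma: may be reused). -/

theorem g0_pol (hs : ∀ N a, ‖L.X N a‖ < 1) {N : ℕ} {ι κ : Type} [Fintype ι] [Fintype κ] (Q : MvPolynomial ι C) (hQ : ∀ m, ‖Q.coeff m‖ ≤ 1)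
    (G : ι → (κ → 𝓞 F) → C) (hG : ∀ i, L.Fn N κ (G i)) : L.Fn N κ (fun a => MvPolynomial.eval (fun i => G i a) Q) := by
  simp only [MvPolynomial.eval_eq']
  exact Fn_sum _ fun m _ => Fn_scal hs (hQ m) (Fn_prod hs _ fun i _ => Fn_pow hs (hG i) _)

theorem g0_comp (hs : ∀ N a, ‖L.X N a‖ < 1) (hl : LinX L) {N : ℕ} {ι κ : Type} [Fintype ι] [Fintype κ] {H : (ι → 𝓞 F) → C} (hH : L.Fn N ι H)
    (c : ι → κ → 𝓞 F) : L.Fn N κ (fun a => H (fun i => ∑ k, c i k * a k)) := by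
  refine Fn_lim fun ε hε => ?_
  obtain ⟨Q, hQ, hQ'⟩ := hH ε hε
  exact ⟨fun a => MvPolynomial.eval (fun i => L.X N (∑ k, c i k * a k)) Q,
    g0_pol hs Q hQ _ (fun i => hl N κ (c i)), fun a => hQ' _⟩

theorem g0_sv [CompleteSpace C] (hs : ∀ N a, ‖L.X N a‖ < 1) {N : ℕ} {κ : Type} [Fintype κ] {H : (κ → 𝓞 F) → C} (hH : L.Fn N κ H) {ρ : ℝ} (hρ : ρ < 1)
    (hb : ∀ a, ‖H a‖ ≤ ρ) (c : ℕ → C) (hc : ∀ n, ‖c n‖ ≤ 1) : L.Fn N κ (fun a => ∑' n, c n * H a ^ n) := by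
  have hρ0 : 0 ≤ ρ := (norm_nonneg _).trans (hb fun _ => 0)
  have hg : HasSum (fun n : ℕ => ρ ^ n) (1 - ρ)⁻¹ := hasSum_geometric_of_lt_one hρ0 hρ
  have hterm : ∀ a n, ‖c n * H a ^ n‖ ≤ ρ ^ n := by
    intro a n
    rw [norm_mul, norm_pow]
    calc ‖c n‖ * ‖H a‖ ^ n ≤ 1 * ρ ^ n :=
          mul_le_mul (hc n) (pow_le_pow_left₀ (norm_nonneg _) (hb a) n) (by positivity) zero_le_one
      _ = ρ ^ n := one_mul _
  have hsum : ∀ a, Summable fun n => c n * H a ^ n := fun a =>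
    Summable.of_norm_bounded hg.summable (hterm a)
  refine Fn_lim fun ε hε => ?_
  have h1ρ : 0 < 1 - ρ := by linarith
  obtain ⟨m, hm⟩ := exists_pow_lt_of_lt_one (show 0 < ε * (1 - ρ) by positivity) hρ
  refine ⟨fun a => ∑ n ∈ Finset.range m, c n * H a ^ n,
    Fn_sum _ fun n _ => Fn_scal hs (hc n) (Fn_pow hs hH n), fun a => ?_⟩
  have h1 := (hsum a).sum_add_tsum_nat_add m
  have h2 : (∑' n, c n * H a ^ n) - ∑ n ∈ Finset.range m, c n * H a ^ n = ∑' n, c (n + m) * H a ^ (n + m) := by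
    rw [← h1, add_sub_cancel_left]
  rw [h2]
  have h3 : HasSum (fun n : ℕ => ρ ^ m * ρ ^ n) (ρ ^ m * (1 - ρ)⁻¹) := hg.mul_left _
  have h4 : ‖∑' n, c (n + m) * H a ^ (n + m)‖ ≤ ρ ^ m * (1 - ρ)⁻¹ := by
    refine tsum_of_norm_bounded h3 fun n => ?_
    have h5 : ρ ^ m * ρ ^ n = ρ ^ (n + m) := by rw [pow_add, mul_comm]
    rw [h5]
    exact hterm a (n + m)
  refine h4.trans ?_
  rw [← div_eq_mul_inv, div_le_iff₀ h1ρ]
  exact hm.le

end SSR
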