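import Mathlib
import Pool.Agent.Lib.SSR.G0
import Pool.Agent.Lib.SSG.LT.Fin

open NumberField IsDedekindDomain WeierstrassCurve

namespace SSR

open SSG
open H55P (IQ embF eF LF Per IsHecke Pt ac Inert Dec)
open H35P (WAB Ker tt)
open H55K

/-! Chunk GX (S/M). The local model with LinX. PROOF. Copy the proof of SSG.exists_locM_sup (SSG/LT/Fin.lean). Additional conjunct: for N, κ, c: by hL, hXs (as in the field fn there)
L.X N b = LT.sv (fun n => toC i₀ (a n)) (toC i₀ (tt (act b (T N)))) (LT.sv: a tsum of c n * z^n), so a ↦ L.X N (Σ c k * a k) is g0_sv applied to H a = toC i₀ (tt (act (Σ c k * a k) (T N))), which is Fn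
(the field fn, LT.xm4) and bounded by ρ < 1 (LT.xm1_bd, as in the proof of LT.xm4). small: (LocM.ok).small. -/

theorem exists_locL {F : Type} [Field F] [NumberField F] [IQ F] {A B : F} {Om : ℂ} {Ω : Type} [Field Ω] [DecidableEq Ω]
    [Algebra F Ω] [IsAlgClosure F Ω] {j : Ω →+* ℂ} {act : 𝓞 F →+* AddMonoid.End (Pt (WAB A B) Ω)}
    {m : Ideal (𝓞 F)} {ψ : Ideal (𝓞 F) →*₀ 𝓞 F} {p : ℕ} [Fact p.Prime] (d : Dta A B Om j act m ψ p)
    (hin : (Ideal.span {(p : 𝓞 F)}).IsPrime) (hS : H16S.Sup act p) (V : ValuationSubring Ω)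
    (hV : V.valuation (p : Ω) < 1) :
    ∃ (i : Ω →+* ℂ_[p]) (T : ℕ → Pt (WAB A B) Ω) (L : LTF F ℂ_[p]), LocM A B Om j act p V i T L ∧ GH p L := by
  have hpp : p.Prime := Fact.out
  have hp0 : (p : 𝓞 F) ≠ 0 := Nat.cast_ne_zero.2 hpp.ne_zero
  have hp : Prime (p : 𝓞 F) := (Ideal.span_singleton_prime hp0).1 hin
  have hG : GV A B V := d.good V hV
  have : CharZero Ω := charZero_of_injective_algebraMap (algebraMap F Ω).injective
  obtain ⟨i₀, hi₀⟩ := LT.em (F := F) hp V hV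
  obtain ⟨T, hT⟩ := LT.pt (j := j) (Om := Om) d.cma hG hp hV
  obtain ⟨f, f0, f1, hf⟩ := H16S.FRmain d.cma hpp d.five hp hS d.good
  obtain ⟨-, fV, fq, hs⟩ := hf V hV
  have hi : ∀ x, x ∈ V ↔ ‖toC i₀ x‖ ≤ 1 := fun x => by rw [norm_toC]; exact hi₀ x
  have hlt : ∀ P : Pt (WAB A B) Ω, Ker V P → ‖toC i₀ (tt P)‖ < 1 := by
    intro P hP
    by_contra hc
    have h1 := ttlt hG hP
    have h2 : (tt P) ≠ 0 := by
      intro h0
      rw [h0, map_zero, norm_zero] at hc
      exact hc one_pos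
    have h3 : ‖toC i₀ (tt P)⁻¹‖ ≤ 1 := by
      rw [map_inv₀, norm_inv]
      exact inv_le_one_of_one_le₀ (not_lt.1 hc)
    have h4 := (V.valuation_le_one_iff _).2 ((hi _).2 h3)
    rw [map_inv₀] at h4
    have h5 : 0 < V.valuation (tt P) := zero_lt_iff.2 ((map_ne_zero _).2 h2)
    exact absurd h1 (not_lt.2 ((inv_le_one₀ h5).1 h4))
  obtain ⟨a, a0, a1, ha, hth⟩ := LT.xm2 (A := A) (B := B) (toC i₀) hi hp hV
    (by rw [← PowerSeries.coeff_zero_eq_constantCoeff_apply]; exact f0) f1 fV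
    (by rw [← map_one (algebraMap F Ω), ← map_sub]; exact fq) hlt (fun P hP => hs ℂ_[p] (toC i₀) hi P hP)
  obtain ⟨X, hX, hXs⟩ := LT.xm3 (Om := Om) d.cma hG hp i₀ hi₀ T hT a0 a1 ha hth
  obtain ⟨L, hL, hgood⟩ := exists_good d hin V i₀ hi₀ T hT X hX
  have hfn : ∀ (N : ℕ) (ι : Type) [Fintype ι] (c : ι → 𝓞 F), L.Fn N ι (fun a => toC i₀ (tt (act (∑ k, c k * a k) (T N)))) :=
    fun N ι _ c => LT.xm4 (j := j) (Om := Om) d.cma hG i₀ hi₀ T hT a0 a1 ha L
      (fun N b => by rw [hL, hXs]) N ι c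
  have hok : L.Ok p := SSF.good_ok hin L hgood
  refine ⟨toC i₀, T, L, ?_, ?_⟩
  · exact
      { val := hi
        ok := hok
        good := hgood
        zero := hT.zero
        down := hT.down
        unif := hT.unif
        ker := hT.ker
        fn := hfn }
  · refine
      { prime := hpp
        three := by
          have := d.five
          omega
        deg := IQ.deg
        lt := ?_
        ok := hok
        lin := ?_ }
    · have h1 := LT.xm4_lt hi hV
      rwa [map_natCast] at h1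
    · intro N κ _ c
      have hp0' : ((p : 𝓞 F) ^ N) ≠ 0 := pow_ne_zero _ hp0
      obtain ⟨ρ, hρ, hρ2⟩ := LT.xm1_bd d.cma hG (toC i₀) hi hp0' ((hT.zero N _).2 dvd_rfl) (hT.ker N)
      have h1 := g0_sv hok.small (hfn N κ c) hρ (fun x => hρ2 _) (fun n => toC i₀ (algebraMap F Ω (a n))) ha
      have h2 : (fun x : κ → 𝓞 F => L.X N (∑ k, c k * x k)) = fun x : κ → 𝓞 F =>
          ∑' n, toC i₀ (algebraMap F Ω (a n)) * toC i₀ (tt (act (∑ k, c k * x k) (T N))) ^ n := by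
        funext x
        rw [hL, hXs]
        rfl
      rw [h2]
      exact h1

end SSR
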