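import Mathlib
import Pool.Agent.Lib.SSR.CD
import Pool.Agent.Lib.SSR.GD

/-! # SSR, part H: the class congruence: definitions (no sorry) -/

open NumberField IsDedekindDomain

namespace SSR

/-- ω₀ is a basis of O_K/p over O_F/p (p inert in F), adapted to the ideal P which contains p: the ω₀ s with s in I form a basis of P/p. -/
structure Adp (F : Type) [Field F] [NumberField F] {K : Type} [Field K] [NumberField K] [Algebra F K] {m : ℕ} (p : ℕ) (P : Ideal (𝓞 K))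
    (ω₀ : Fin (m + 1) → 𝓞 K) (I : Finset (Fin (m + 1))) : Prop where
  span : ∀ x : 𝓞 K, ∃ (a : Fin (m + 1) → 𝓞 F) (t : 𝓞 K), x = ∑ s, algebraMap (𝓞 F) (𝓞 K) (a s) * ω₀ s + (p : 𝓞 K) * t
  ind : ∀ a : Fin (m + 1) → 𝓞 F, (p : 𝓞 K) ∣ ∑ s, algebraMap (𝓞 F) (𝓞 K) (a s) * ω₀ s → ∀ s, (p : 𝓞 F) ∣ a s
  pmem : (p : 𝓞 K) ∈ P
  mem : ∀ s ∈ I, ω₀ s ∈ P
  sub : ∀ a : Fin (m + 1) → 𝓞 F, ∑ s, algebraMap (𝓞 F) (𝓞 K) (a s) * ω₀ s ∈ P → ∀ s, s ∉ I → (p : 𝓞 F) ∣ a s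

/-- The vector b for the indices in I, p b for the others. -/
def ub {F : Type} [Field F] [NumberField F] {ι : Type} [DecidableEq ι] (p : ℕ) (I : Finset ι) (b : ι → 𝓞 F) (k : ι) : 𝓞 F :=
  if k ∈ I then b k else (p : 𝓞 F) * b k

/-- Weights in the coordinates: on the cosets x + ub b the weight is 0 or a constant times a product of additive characters. -/
structure WtP (p : ℕ) {F : Type} [Field F] [NumberField F] {C : Type} [NormedField C] {ι : Type} [Fintype ι] [DecidableEq ι] (I : Finset ι)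
    (Φ : (ι → 𝓞 F) → C) : Prop where
  per : ∀ a b : ι → 𝓞 F, (∀ k, (p : 𝓞 F) ^ 2 ∣ a k - b k) → Φ a = Φ b
  step : ∀ x : ι → 𝓞 F, ∃ ψ : ι → 𝓞 F → C, (∀ k, Ach p (ψ k)) ∧ ∀ b : ι → 𝓞 F, Φ (fun k => x k + ub p I b k) = Φ x * ∏ k, ψ k (b k)
  val : ∀ x, Φ x = 0 ∨ Φ x ^ p = 1

/-- PCh with values in a field C. -/
structure PChG {K : Type} [Field K] [NumberField K] {C : Type} [Field C] (p : ℕ) (f : Ideal (𝓞 K)) (R : Finset (HeightOneSpectrum (𝓞 K)))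
    (χ : Ideal (𝓞 K) →*₀ C) : Prop where
  ne : f ≠ ⊥
  cop : IsCoprime f (Ideal.span {(p : 𝓞 K)})
  abv : ∀ v ∈ R, (p : 𝓞 K) ∈ v.asIdeal
  val : ∀ a : Ideal (𝓞 K), a ≠ ⊥ → IsCoprime a (f * ∏ v ∈ R, v.asIdeal) → χ a ^ p = 1
  zero : ∀ a : Ideal (𝓞 K), ¬ IsCoprime a (f * ∏ v ∈ R, v.asIdeal) → χ a = 0
  per : ∀ x y : 𝓞 K, x ≠ 0 → y ≠ 0 → IsCoprime (Ideal.span {x}) (f * ∏ v ∈ R, v.asIdeal) → x - y ∈ f * ∏ v ∈ R, v.asIdeal ^ 2 →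
    χ (Ideal.span {x}) = χ (Ideal.span {y})

end SSR
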