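import Mathlib
import Pool.Agent.Lib.SSR.HD

open NumberField IsDedekindDomain

namespace SSR

variable {F : Type} [Field F] [NumberField F] {K : Type} [Field K] [NumberField K] [Algebra F K] {m p : ℕ}

/-! Chunk H1 (M). PROOF. k = 𝓞 F / (p) is a field ((p) is a nonzero prime, hence maximal ideal), E = 𝓞 K / (p 𝓞 K) is a k-vector space (Module over 𝓞 F killed by p; Module.IsTorsionBySet.module or quotient algebra: Ideal.Quotient algebra 𝓞 F/p → 𝓞 K/p 𝓞 K) of dimension m + 1: its cardinality is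
Ideal.absNorm (span {p}) = p^finrank ℚ K (Ideal.absNorm_span_singleton, Algebra.norm_algebraMap / norm of a natural number; H55P.pt8_norm) = (p^2)^(m+1) (finrank ℚ K = 2 (m+1)), card k = p^2, Module.card_eq_pow_finrank. (Or: 𝓞 K is free of rank m + 1 if 𝓞 F is a PID, but only finiteness is needed.)
P' = P / (p) is a subspace of E. Take a basis of P' and extend it (Submodule.exists_isCompl and Module.finBasis of both parts; index them by Fin (m+1) through an equivalence Fin d ⊕ Fin e ≃ Fin (m+1), d + e = m + 1), I = the indices of the basis of P'. Lift: ω₀ s in P for s in I (representatives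
in P since P ⊇ (p)), arbitrary otherwise. span: coordinates of the class of x. ind: linear independence over k. sub: modulo P' the classes of ω₀ s, s ∉ I, are a basis of E/P', independent. h1_card: 𝓞 K / P ≃ E / P' has card k ^ (m + 1 - card I) elements. -/

theorem h1_bas {k E : Type} [Field k] [AddCommGroup E] [Module k E] [FiniteDimensional k E] (n : ℕ) (hn : Module.finrank k E = n)
    (W : Submodule k E) : ∃ (b : Module.Basis (Fin n) k E) (I : Finset (Fin n)), (∀ i ∈ I, b i ∈ W) ∧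
      (∀ x ∈ W, ∀ i, i ∉ I → b.repr x i = 0) ∧ I.card + Module.finrank k (E ⧸ W) = n := by
  classical
  obtain ⟨W', hW⟩ := Submodule.exists_isCompl W
  have h1 : Module.finrank k W + Module.finrank k W' = n := by
    rw [← hn]
    exact Submodule.finrank_add_eq_of_isCompl hW
  let b0 := ((Module.finBasis k W).prod (Module.finBasis k W')).map (Submodule.prodEquivOfIsCompl W W' hW)
  let e : Fin (Module.finrank k W) ⊕ Fin (Module.finrank k W') ≃ Fin n := finSumFinEquiv.trans (finCongr h1)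
  refine ⟨b0.reindex e, Finset.univ.image (fun i : Fin (Module.finrank k W) => e (Sum.inl i)), ?_, ?_, ?_⟩
  · intro i hi
    obtain ⟨j, _, rfl⟩ := Finset.mem_image.1 hi
    rw [Module.Basis.reindex_apply, Equiv.symm_apply_apply]
    have h2 : b0 (Sum.inl j) = (Module.finBasis k W j : E) := by
      simp [b0]
    rw [h2]
    exact Submodule.coe_mem _
  · intro x hx i hi
    rw [Module.Basis.repr_reindex_apply]
    rcases h3 : e.symm i with j | j
    · exfalso
      apply hi
      rw [Finset.mem_image]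
      exact ⟨j, Finset.mem_univ _, by rw [← h3, Equiv.apply_symm_apply]⟩
    · have h4 : (Submodule.prodEquivOfIsCompl W W' hW).symm x = ((⟨x, hx⟩ : W), 0) :=
        Submodule.prodEquivOfIsCompl_symm_apply_left W W' hW ⟨x, hx⟩
      have h5 : b0.repr x (Sum.inr j) = (Module.finBasis k W').repr ((Submodule.prodEquivOfIsCompl W W' hW).symm x).2 j := by
        simp [b0]
      rw [h5, h4]
      simp
  · have h6 : (Finset.univ.image (fun i : Fin (Module.finrank k W) => e (Sum.inl i))).card = Module.finrank k W := by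
      rw [Finset.card_image_of_injective _ (fun x y h => Sum.inl_injective (e.injective h)), Finset.card_univ, Fintype.card_fin]
    rw [h6, add_comm, Submodule.finrank_quotient_add_finrank, hn]

theorem h1_gen {R S : Type} [CommRing R] [CommRing S] [Algebra R S] (I0 : Ideal R) [hI : I0.IsMaximal] (J P : Ideal S)
    (hJ : ∀ a ∈ I0, algebraMap R S a ∈ J) (hJP : J ≤ P) (q n : ℕ) (hq : 1 < q) (hq' : Nat.card (R ⧸ I0) = q)
    (hn : Nat.card (S ⧸ J) = q ^ n) :
    ∃ (ω : Fin n → S) (I : Finset (Fin n)), (∀ x : S, ∃ a : Fin n → R, x - ∑ s, algebraMap R S (a s) * ω s ∈ J) ∧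
      (∀ a : Fin n → R, ∑ s, algebraMap R S (a s) * ω s ∈ J → ∀ s, a s ∈ I0) ∧ (∀ s ∈ I, ω s ∈ P) ∧
      (∀ a : Fin n → R, ∑ s, algebraMap R S (a s) * ω s ∈ P → ∀ s, s ∉ I → a s ∈ I0) ∧
      Nat.card (S ⧸ P) = q ^ (n - I.card) := by
  classical
  letI : Field (R ⧸ I0) := Ideal.Quotient.field I0
  have t1 : Module.IsTorsionBySet R (S ⧸ J) I0 := by
    intro x a
    obtain ⟨y, rfl⟩ := Ideal.Quotient.mk_surjective x
    have e : ((a : R) • Ideal.Quotient.mk J y) = Ideal.Quotient.mk J (algebraMap R S a * y) := by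
      rw [← Algebra.smul_def]; rfl
    show ((a : R) • Ideal.Quotient.mk J y) = 0
    rw [e, Ideal.Quotient.eq_zero_iff_mem]
    exact J.mul_mem_right _ (hJ _ a.2)
  have t2 : Module.IsTorsionBySet R (S ⧸ P) I0 := by
    intro x a
    obtain ⟨y, rfl⟩ := Ideal.Quotient.mk_surjective x
    have e : ((a : R) • Ideal.Quotient.mk P y) = Ideal.Quotient.mk P (algebraMap R S a * y) := by
      rw [← Algebra.smul_def]; rfl
    show ((a : R) • Ideal.Quotient.mk P y) = 0
    rw [e, Ideal.Quotient.eq_zero_iff_mem]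
    exact P.mul_mem_right _ (hJP (hJ _ a.2))
  letI m1 : Module (R ⧸ I0) (S ⧸ J) := t1.module
  letI m2 : Module (R ⧸ I0) (S ⧸ P) := t2.module
  have s1 : ∀ (a : R) (y : S), (Ideal.Quotient.mk I0 a) • (Ideal.Quotient.mk J y) =
      Ideal.Quotient.mk J (algebraMap R S a * y) := by
    intro a y
    rw [← Algebra.smul_def]; rfl
  have s2 : ∀ (a : R) (y : S), (Ideal.Quotient.mk I0 a) • (Ideal.Quotient.mk P y) =
      Ideal.Quotient.mk P (algebraMap R S a * y) := by
    intro a y
    rw [← Algebra.smul_def]; rfl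
  let g : (S ⧸ J) →ₗ[R ⧸ I0] (S ⧸ P) :=
    { toFun := Ideal.Quotient.factor hJP
      map_add' := map_add _
      map_smul' := by
        intro c x
        obtain ⟨a, rfl⟩ := Ideal.Quotient.mk_surjective c
        obtain ⟨y, rfl⟩ := Ideal.Quotient.mk_surjective x
        rw [s1, Ideal.Quotient.factor_mk, RingHom.id_apply, Ideal.Quotient.factor_mk, s2] }
  have hg : ∀ y : S, g (Ideal.Quotient.mk J y) = Ideal.Quotient.mk P y := fun y => Ideal.Quotient.factor_mk hJP y
  have hgs : Function.Surjective g := by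
    intro x
    obtain ⟨y, rfl⟩ := Ideal.Quotient.mk_surjective x
    exact ⟨Ideal.Quotient.mk J y, hg y⟩
  haveI : Finite (S ⧸ J) := Nat.finite_of_card_ne_zero (by rw [hn]; positivity)
  haveI : Finite (R ⧸ I0) := Nat.finite_of_card_ne_zero (by rw [hq']; omega)
  haveI : FiniteDimensional (R ⧸ I0) (S ⧸ J) := Module.Finite.of_finite
  have hfr : Module.finrank (R ⧸ I0) (S ⧸ J) = n := by
    have h1 := Module.natCard_eq_pow_finrank (K := R ⧸ I0) (V := S ⧸ J)
    rw [hn, hq'] at h1
    exact (Nat.pow_right_injective hq h1).symm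
  obtain ⟨b, I, hb1, hb2, hb3⟩ := h1_bas n hfr (LinearMap.ker g)
  choose ω hω using fun s => Ideal.Quotient.mk_surjective (b s)
  have key : ∀ a : Fin n → R, Ideal.Quotient.mk J (∑ s, algebraMap R S (a s) * ω s) =
      ∑ s, (Ideal.Quotient.mk I0 (a s)) • b s := by
    intro a
    rw [map_sum]
    refine Finset.sum_congr rfl fun s _ => ?_
    rw [← s1, hω]
  refine ⟨ω, I, ?_, ?_, ?_, ?_, ?_⟩
  · intro x
    choose a ha using fun s => Ideal.Quotient.mk_surjective (b.repr (Ideal.Quotient.mk J x) s)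
    refine ⟨a, ?_⟩
    rw [← Ideal.Quotient.eq_zero_iff_mem, map_sub, key, sub_eq_zero]
    simp only [ha]
    exact (b.sum_repr _).symm
  · intro a ha s
    rw [← Ideal.Quotient.eq_zero_iff_mem, key] at ha
    have h1 := (Fintype.linearIndependent_iff.1 b.linearIndependent) _ ha s
    rwa [Ideal.Quotient.eq_zero_iff_mem] at h1
  · intro s hs
    have h1 := hb1 s hs
    rw [LinearMap.mem_ker, ← hω, hg, Ideal.Quotient.eq_zero_iff_mem] at h1
    exact h1
  · intro a ha s hs
    have h1 : Ideal.Quotient.mk J (∑ s, algebraMap R S (a s) * ω s) ∈ LinearMap.ker g := by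
      rw [LinearMap.mem_ker, hg, Ideal.Quotient.eq_zero_iff_mem]
      exact ha
    have h2 := hb2 _ h1 s hs
    rw [key, b.repr_sum_self, Ideal.Quotient.eq_zero_iff_mem] at h2
    exact h2
  · have h1 : Nat.card (S ⧸ P) = Nat.card ((S ⧸ J) ⧸ LinearMap.ker g) :=
      Nat.card_congr (LinearMap.quotKerEquivOfSurjective g hgs).toEquiv.symm
    have h2 := Module.natCard_eq_pow_finrank (K := R ⧸ I0) (V := (S ⧸ J) ⧸ LinearMap.ker g)
    rw [h1, h2, hq']
    congr 1
    omega

theorem h1_norm {K : Type} [Field K] [NumberField K] (q : ℕ) :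
    Ideal.absNorm (Ideal.span {(q : 𝓞 K)}) = q ^ Module.finrank ℚ K := by
  rw [Ideal.absNorm_span_singleton]
  have h4 := Algebra.norm_algebraMap (S := 𝓞 K) (q : ℤ)
  rw [map_natCast, RingOfIntegers.rank] at h4
  rw [h4, Int.natAbs_pow, Int.natAbs_natCast]

theorem h1_adp (hp : p.Prime) (hd : Module.finrank ℚ F = 2) (hin : Prime (p : 𝓞 F)) (hm : Module.finrank F K = m + 1) (P : Ideal (𝓞 K)) (hP : (p : 𝓞 K) ∈ P) :
    ∃ (ω₀ : Fin (m + 1) → 𝓞 K) (I : Finset (Fin (m + 1))), Adp F p P ω₀ I ∧ Ideal.absNorm P = p ^ (2 * (m + 1 - I.card)) := by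
  haveI : (Ideal.span {(p : 𝓞 F)}).IsMaximal :=
    ((Ideal.span_singleton_prime hin.ne_zero).2 hin).isMaximal (by rw [Ne, Ideal.span_singleton_eq_bot]; exact hin.ne_zero)
  have hfK : Module.finrank ℚ K = 2 * (m + 1) := by
    rw [← hd, ← hm, Module.finrank_mul_finrank]
  have hc1 : Nat.card (𝓞 F ⧸ Ideal.span {(p : 𝓞 F)}) = p ^ 2 := by
    have h1 := h1_norm (K := F) p
    rw [hd] at h1
    exact h1
  have hc2 : Nat.card (𝓞 K ⧸ Ideal.span {(p : 𝓞 K)}) = (p ^ 2) ^ (m + 1) := by
    have h1 := h1_norm (K := K) p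
    rw [hfK, pow_mul] at h1
    exact h1
  obtain ⟨ω, I, h1, h2, h3, h4, h5⟩ := h1_gen (Ideal.span {(p : 𝓞 F)}) (Ideal.span {(p : 𝓞 K)}) P
    (fun a ha => by
      rw [Ideal.mem_span_singleton] at ha ⊢
      obtain ⟨c, rfl⟩ := ha
      exact ⟨algebraMap _ _ c, by rw [map_mul, map_natCast]⟩)
    ((Ideal.span_singleton_le_iff_mem _).2 hP) (p ^ 2) (m + 1) (Nat.one_lt_pow (by norm_num) hp.one_lt) hc1 hc2
  refine ⟨ω, I, ⟨?_, ?_, hP, h3, ?_⟩, ?_⟩
  · intro x
    obtain ⟨a, ha⟩ := h1 x
    obtain ⟨t, ht⟩ := Ideal.mem_span_singleton.1 ha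
    exact ⟨a, t, by rw [← ht]; ring⟩
  · intro a ha s
    exact Ideal.mem_span_singleton.1 (h2 a (Ideal.mem_span_singleton.2 ha) s)
  · intro a ha s hs
    exact Ideal.mem_span_singleton.1 (h4 a ha s hs)
  · rw [pow_mul]
    exact h5

end SSR
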