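import Mathlib
import Pool.Agent.Lib.SSR.GD

open NumberField

namespace SSR

open SSG

variable {F : Type} [Field F] [NumberField F] {C : Type} [NormedField C] [IsUltrametricDist C] {L : LTF F C} {p : ℕ}

/-! Chunk G1 (S). PROOF. g1_nd: if p divided 1 in 𝓞 F it would be a unit, but its norm (Algebra.norm ℤ) is a power p^2 (or: p is not a unit because (p : ℤ) is not: Ideal.absNorm / RingOfIntegers; finrank > 0).
g1_zero: ok.down gives X N 0 = X (N+1) 0 (-p * 0 = 0), ok.g: y = -p y + y^(p^2) for y = X (N+1) 0, i.e. y (y^(p^2-1) - 1 - p) = 0; the second factor is not 0 because its norm is 1 (‖y‖ < 1 (small), ‖p‖ < 1); so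
X (N+1) 0 = 0 and X N 0 = X (N+1) 0 = 0. g1_iff: ok.inj 1 b 0 and g1_zero. g1_X0: X 0 b = 0: ok.inj 0 b 0 (p^0 = 1 divides). g1_pow: ok.g 0 b: 0 = -p X + X^(p^2), X ≠ 0 (g1_iff): cancel X. g1_s: norms of g1_pow at b = 1 (g1_nd).
g1_norm: pow_left_injective on norms (p^2 - 1 ≠ 0). g1_p0: p = X^(p^2-1) ≠ 0. -/

theorem g1_nd (hG : GH p L) : ¬ (p : 𝓞 F) ∣ 1 := by
  rintro ⟨u, hu⟩
  have hp0 : (p : ℚ) ≠ 0 := by exact_mod_cast hG.prime.ne_zero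
  have h1 : (1 : F) = (p : F) * (u : F) := by
    have h2 := congrArg (fun x : 𝓞 F => (x : F)) hu
    simpa using h2
  have h3 : (u : F) = algebraMap ℚ F (1 / p) := by
    have h4 : (p : F) ≠ 0 := by exact_mod_cast hG.prime.ne_zero
    rw [map_div₀, map_one, map_natCast, h1]
    field_simp
  have h5 : IsIntegral ℤ (algebraMap ℚ F (1 / p)) := by
    rw [← h3]
    exact RingOfIntegers.isIntegral_coe u
  have h6 := (isIntegral_algebraMap_iff (algebraMap ℚ F).injective).1 h5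
  obtain ⟨y, hy⟩ := IsIntegrallyClosed.isIntegral_iff.1 h6
  have h7 : (y : ℚ) * p = 1 := by
    have h8 : (y : ℚ) = 1 / p := hy
    rw [h8]
    field_simp
  have h9 : y * p = 1 := by exact_mod_cast h7
  have h10 : (p : ℤ) ∣ 1 := ⟨y, by rw [← h9]; ring⟩
  have h11 : p ∣ 1 := by exact_mod_cast h10
  exact hG.prime.one_lt.ne' (Nat.dvd_one.1 h11)

/-- `p ^ 2 - 1 ≠ 0` -/
theorem g1_ne (hG : GH p L) : p ^ 2 - 1 ≠ 0 := by
  have h1 : 2 ≤ p := hG.prime.two_le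
  have h2 : 2 * 2 ≤ p * p := Nat.mul_le_mul h1 h1
  rw [sq]
  omega

theorem g1_zero (hG : GH p L) (N : ℕ) : L.X N 0 = 0 := by
  have h1 := hG.ok.down N 0
  have h2 := hG.ok.g N 0
  rw [mul_zero] at h1
  rw [h1] at h2
  rw [h1]
  have h3 := hG.ok.small (N + 1) 0
  obtain ⟨y, hy⟩ : ∃ y, y = L.X (N + 1) 0 := ⟨_, rfl⟩
  rw [← hy] at h2 h3 ⊢
  by_contra h0
  have h4 := g1_ne hG
  have h5 : y ^ (p ^ 2) = y * y ^ (p ^ 2 - 1) := by
    rw [← pow_succ']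
    congr 1
    omega
  rw [h5] at h2
  have h6 : y ^ (p ^ 2 - 1) = 1 + p := by
    refine mul_left_cancel₀ h0 ?_
    linear_combination -h2
  have h7 : ‖(1 : C)‖ < 1 := by
    have h8 : (1 : C) = y ^ (p ^ 2 - 1) - p := by
      rw [h6]
      ring
    rw [h8]
    have h9 : ‖y ^ (p ^ 2 - 1)‖ < 1 := by
      rw [norm_pow]
      exact pow_lt_one₀ (norm_nonneg _) h3 h4
    rw [sub_eq_add_neg]
    refine lt_of_le_of_lt (IsUltrametricDist.norm_add_le_max _ _) (max_lt h9 ?_)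
    rw [norm_neg]
    exact hG.lt
  rw [norm_one] at h7
  exact lt_irrefl _ h7

theorem g1_X0 (hG : GH p L) (b : 𝓞 F) : L.X 0 b = 0 := by
  rw [← g1_zero hG 0]
  refine (hG.ok.inj 0 b 0).2 ?_
  rw [pow_zero]
  exact one_dvd _

theorem g1_iff (hG : GH p L) (b : 𝓞 F) : L.X 1 b = 0 ↔ (p : 𝓞 F) ∣ b := by
  have h1 := hG.ok.inj 1 b 0
  rw [g1_zero hG 1, pow_one, sub_zero] at h1
  exact h1

theorem g1_pow (hG : GH p L) {b : 𝓞 F} (hb : ¬ (p : 𝓞 F) ∣ b) : L.X 1 b ^ (p ^ 2 - 1) = (p : C) := by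
  have h1 := hG.ok.g 0 b
  rw [g1_X0 hG, zero_add] at h1
  have h0 : L.X 1 b ≠ 0 := fun h => hb ((g1_iff hG b).1 h)
  have h4 := g1_ne hG
  have h5 : L.X 1 b ^ (p ^ 2) = L.X 1 b * L.X 1 b ^ (p ^ 2 - 1) := by
    rw [← pow_succ']
    congr 1
    omega
  rw [h5] at h1
  refine mul_left_cancel₀ h0 ?_
  linear_combination -h1

theorem g1_norm (hG : GH p L) {b : 𝓞 F} (hb : ¬ (p : 𝓞 F) ∣ b) : ‖L.X 1 b‖ = ‖L.X 1 1‖ := by
  refine (pow_left_inj₀ (norm_nonneg _) (norm_nonneg _) (g1_ne hG)).1 ?_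
  rw [← norm_pow, ← norm_pow, g1_pow hG hb, g1_pow hG (g1_nd hG)]

theorem g1_s (hG : GH p L) : ‖L.X 1 1‖ ^ (p ^ 2 - 1) = ‖(p : C)‖ ∧ 0 < ‖L.X 1 1‖ ∧ ‖L.X 1 1‖ < 1 := by
  refine ⟨by rw [← norm_pow, g1_pow hG (g1_nd hG)], norm_pos_iff.2 fun h => g1_nd hG ((g1_iff hG 1).1 h),
    hG.ok.small 1 1⟩

theorem g1_p0 (hG : GH p L) : (p : C) ≠ 0 := by
  rw [← g1_pow hG (g1_nd hG)]
  exact pow_ne_zero _ fun h => g1_nd hG ((g1_iff hG 1).1 h)

end SSR
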