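import Mathlib
import Pool.Agent.Lib.SSR.G1

open NumberField

namespace SSR

open SSG

variable {F : Type} [Field F] [NumberField F] {C : Type} [NormedField C] [IsUltrametricDist C] {L : LTF F C} {p : ℕ}

/-! Chunk G1B (M). PROOF. r = ‖X 1 1‖, 0 < r < 1 (g1_s). hG.lin 1 (Fin 2) (fun _ => 1): the function a ↦ X_1(1 * a 0 + 1 * a 1) is Fn: take the polynomial Q in two variables with coefficients of norm ≤ 1 for ε = r^2.
So for all a b: ‖X_1(a + b) - Q(X_1 a, X_1 b)‖ ≤ r^2 (1). All values X_1(a) have norm ≤ r (g1_norm, g1_iff). Split Q(x, y) = c0 + c1 x + c2 y + (monomials of degree ≥ 2) where c0, c1, c2 are the coefficients of 1, X 0, X 1: for ‖x‖, ‖y‖ ≤ r the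
last sum has norm ≤ r^2 (MvPolynomial.eval_eq', each monomial m ≠ 0, single 0 1, single 1 1 has degree ≥ 2; ultrametric sum). (1) at (0, 0): X_1(0) = 0: ‖c0‖ ≤ r^2. (1) at (1, 0): ‖s - c1 s‖ ≤ r^2 with s = X_1(1). The same for c2.
For all a b, X_1(a + b) - X_1 a - X_1 b = (X_1(a+b) - Q(X_1 a, X_1 b)) + c0 + (c1 - 1) X_1 a + (c2 - 1) X_1 b + (degree ≥ 2 part): norms ≤ r^2: for the third, ‖(c1 - 1) X_1 a‖ ≤ ‖c1 - 1‖ r = ‖(c1 - 1) s‖ ≤ r^2 . And r^2 < r.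
Suggestion: state the splitting as a lemma about MvPolynomial (Fin 2) C. -/

/-- the linear part of a polynomial in two small variables -/
theorem g1b_split (Q : MvPolynomial (Fin 2) C) (hQ : ∀ m, ‖Q.coeff m‖ ≤ 1) (x : Fin 2 → C) {r : ℝ} (hr : r ≤ 1)
    (hx : ∀ i, ‖x i‖ ≤ r) :
    ‖MvPolynomial.eval x Q - (Q.coeff 0 + Q.coeff (Finsupp.single 0 1) * x 0 +
      Q.coeff (Finsupp.single 1 1) * x 1)‖ ≤ r ^ 2 := by
  classical
  have hr0 : 0 ≤ r := (norm_nonneg _).trans (hx 0)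
  set T : (Fin 2 →₀ ℕ) → C := fun m => Q.coeff m * ∏ i, x i ^ m i with hT
  set S3 : Finset (Fin 2 →₀ ℕ) := {0, Finsupp.single 0 1, Finsupp.single 1 1} with hS3
  have h1 : MvPolynomial.eval x Q = ∑ m ∈ Q.support ∪ S3, T m := by
    rw [MvPolynomial.eval_eq']
    refine Finset.sum_subset Finset.subset_union_left fun m _ hm => ?_
    rw [MvPolynomial.notMem_support_iff.1 hm, zero_mul]
  have n1 : (0 : Fin 2 →₀ ℕ) ≠ Finsupp.single 0 1 := by
    intro h
    have := DFunLike.congr_fun h 0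
    simp at this
  have n2 : (0 : Fin 2 →₀ ℕ) ≠ Finsupp.single 1 1 := by
    intro h
    have := DFunLike.congr_fun h 1
    simp at this
  have n3 : (Finsupp.single 0 1 : Fin 2 →₀ ℕ) ≠ Finsupp.single 1 1 := by
    intro h
    have := DFunLike.congr_fun h 0
    simp at this
  have h2 : ∑ m ∈ S3, T m = Q.coeff 0 + Q.coeff (Finsupp.single 0 1) * x 0 +
      Q.coeff (Finsupp.single 1 1) * x 1 := by
    rw [hS3, Finset.sum_insert, Finset.sum_insert, Finset.sum_singleton]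
    · simp [hT, Fin.prod_univ_two, add_assoc]
    · rw [Finset.mem_singleton]
      exact n3
    · rw [Finset.mem_insert, Finset.mem_singleton]
      rintro (h | h)
      · exact n1 h
      · exact n2 h
  rw [h1, ← Finset.sum_sdiff (Finset.subset_union_right : S3 ⊆ Q.support ∪ S3), h2, add_sub_cancel_right]
  refine IsUltrametricDist.norm_sum_le_of_forall_le_of_nonneg (by positivity) fun m hm => ?_
  have hm3 : m ∉ S3 := (Finset.mem_sdiff.1 hm).2
  rw [hS3, Finset.mem_insert, Finset.mem_insert, Finset.mem_singleton, not_or, not_or] at hm3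
  have hd : 2 ≤ m 0 + m 1 := by
    by_contra hcon
    rcases Nat.lt_or_ge 0 (m 0) with h | h
    · refine hm3.2.1 (Finsupp.ext fun i => ?_)
      fin_cases i
      · simp
        omega
      · simp
        omega
    · rcases Nat.lt_or_ge 0 (m 1) with h' | h'
      · refine hm3.2.2 (Finsupp.ext fun i => ?_)
        fin_cases i
        · simp
          omega
        · simp
          omega
      · refine hm3.1 (Finsupp.ext fun i => ?_)
        fin_cases i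
        · simp
          omega
        · simp
          omega
  rw [hT]
  simp only [Fin.prod_univ_two, norm_mul, norm_pow]
  calc ‖Q.coeff m‖ * (‖x 0‖ ^ m 0 * ‖x 1‖ ^ m 1) ≤ 1 * (r ^ m 0 * r ^ m 1) :=
        mul_le_mul (hQ m) (mul_le_mul (pow_le_pow_left₀ (norm_nonneg _) (hx 0) _)
          (pow_le_pow_left₀ (norm_nonneg _) (hx 1) _) (by positivity) (by positivity)) (by positivity) zero_le_one
    _ = r ^ (m 0 + m 1) := by rw [one_mul, pow_add]
    _ ≤ r ^ 2 := pow_le_pow_of_le_one hr0 hr hd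

theorem g1b_max {x y : C} {ε : ℝ} (hx : ‖x‖ ≤ ε) (hy : ‖y‖ ≤ ε) : ‖x + y‖ ≤ ε :=
  (IsUltrametricDist.norm_add_le_max x y).trans (max_le hx hy)

theorem g1_add (hG : GH p L) (a b : 𝓞 F) : ‖L.X 1 (a + b) - L.X 1 a - L.X 1 b‖ < ‖L.X 1 1‖ := by
  obtain ⟨-, hr0, hr1⟩ := g1_s hG
  obtain ⟨r, hr⟩ : ∃ r, r = ‖L.X 1 1‖ := ⟨_, rfl⟩
  rw [← hr] at hr0 hr1 ⊢
  have hle : ∀ c, ‖L.X 1 c‖ ≤ r := by
    intro c
    by_cases hc : (p : 𝓞 F) ∣ c
    · rw [(g1_iff hG c).2 hc, norm_zero]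
      exact hr0.le
    · rw [g1_norm hG hc, hr]
  obtain ⟨Q, hQ, hQ'⟩ := hG.lin 1 (Fin 2) (fun _ => 1) (r ^ 2) (by positivity)
  obtain ⟨c0, hc0⟩ : ∃ c0, c0 = Q.coeff 0 := ⟨_, rfl⟩
  obtain ⟨c1, hc1⟩ : ∃ c1, c1 = Q.coeff (Finsupp.single 0 1) := ⟨_, rfl⟩
  obtain ⟨c2, hc2⟩ : ∃ c2, c2 = Q.coeff (Finsupp.single 1 1) := ⟨_, rfl⟩
  have key : ∀ a b : 𝓞 F, ‖L.X 1 (a + b) - (c0 + c1 * L.X 1 a + c2 * L.X 1 b)‖ ≤ r ^ 2 := by
    intro a b
    have h1 := hQ' ![a, b]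
    have h2 := g1b_split Q hQ (fun i => L.X 1 (![a, b] i)) hr1.le (fun i => hle _)
    rw [← hc0, ← hc1, ← hc2] at h2
    have h3 := g1b_max h1 h2
    rw [sub_add_sub_cancel] at h3
    simpa [Fin.sum_univ_two] using h3
  have z0 : ‖c0‖ ≤ r ^ 2 := by
    have h1 := key 0 0
    rw [add_zero, g1_zero hG, mul_zero, mul_zero, add_zero, add_zero, zero_sub, norm_neg] at h1
    exact h1
  have z1 : ‖(c1 - 1) * L.X 1 1‖ ≤ r ^ 2 := by
    have h1 := key 1 0
    rw [add_zero, g1_zero hG, mul_zero, add_zero] at h1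
    have h2 := g1b_max h1 z0
    have h3 : L.X 1 1 - (c0 + c1 * L.X 1 1) + c0 = -((c1 - 1) * L.X 1 1) := by ring
    rw [h3, norm_neg] at h2
    exact h2
  have z2 : ‖(c2 - 1) * L.X 1 1‖ ≤ r ^ 2 := by
    have h1 := key 0 1
    rw [zero_add, g1_zero hG, mul_zero, add_zero] at h1
    have h2 := g1b_max h1 z0
    have h3 : L.X 1 1 - (c0 + c2 * L.X 1 1) + c0 = -((c2 - 1) * L.X 1 1) := by ring
    rw [h3, norm_neg] at h2
    exact h2
  have z3 : ∀ c : C, ‖c * L.X 1 1‖ ≤ r ^ 2 → ∀ d, ‖c * L.X 1 d‖ ≤ r ^ 2 := by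
    intro c hc d
    refine le_trans ?_ hc
    rw [norm_mul, norm_mul, ← hr]
    exact mul_le_mul_of_nonneg_left (hle d) (norm_nonneg _)
  have h4 : L.X 1 (a + b) - L.X 1 a - L.X 1 b = (L.X 1 (a + b) - (c0 + c1 * L.X 1 a + c2 * L.X 1 b)) + c0 +
      (c1 - 1) * L.X 1 a + (c2 - 1) * L.X 1 b := by ring
  rw [h4]
  refine lt_of_le_of_lt (g1b_max (g1b_max (g1b_max (key a b) z0) (z3 _ z1 a)) (z3 _ z2 b)) ?_
  nlinarith

end SSR
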