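import Mathlib
import Pool.Agent.Lib.SSR.G1B

open NumberField

namespace SSR

open SSG

variable {F : Type} [Field F] [NumberField F] {C : Type} [NormedField C] [IsUltrametricDist C] {L : LTF F C} {p : ℕ}

/-! Chunk G2 (M). PROOF. tau L b = X_1(b) / X_1(1), X_1(1) ≠ 0 (g1_iff, g1_nd). g2_X: field. g2_zero: g1_iff. g2_root: quotient of the two g1_pow (p ≠ 0: g1_p0). g2_eq: ok.inj 1. g2_le: norm 0 or 1 (g1_norm). g2_add: g1_add divided by ‖X_1(1)‖.
g2_card: T has p^2 elements: x ↦ its class is a bijection of T onto 𝓞 F / (p^1), which has absNorm (span {p}) = p^2 elements (Ideal.absNorm_apply, Submodule.cardQuot, H55P.pt8_norm or Algebra.norm_algebraMap: norm ℤ (p) = p^finrank, finrank ℤ (𝓞 F) = finrank ℚ F: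
RingOfIntegers.rank; see SSG/Z or SSG/S for a lemma card of Rep). g2_bij: maps T into the roots of z^(p^2) = z (g2_zero, g2_root), injective (g2_eq and uniqueness in Rep), the set of roots is finite with at most p^2 elements (nonzero polynomial X^(p^2) - X of degree p^2:
Polynomial.card_roots'): a set of p^2 roots is everything (Finset.eq_of_subset_of_card_le). g2_surj: g2_bij for some T (existence of a Rep: exists_Rep or choose representatives; or use finiteness of the quotient directly).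
g2_sum: n = 0: sum of 1 = card = p^2. n ≥ 1: by g2_bij the sum is the sum of z^n over the roots of z^(p^2) = z (Finset.sum_bij / Set.BijOn to the finset); if p^2 - 1 divides n every nonzero z has z^n = 1 and 0^n = 0: sum = p^2 - 1. Otherwise there is b, p not dividing b, with
(tau b)^n ≠ 1: else the p^2 - 1 nonzero values are roots of X^n' - 1 with n' = gcd(n, p^2 - 1) < p^2 - 1 (z^n = 1 and z^(p^2-1) = 1 imply z^n' = 1: orderOf divides both), contradiction. z ↦ (tau b) z permutes the roots of z^(p^2) = z, so S = (tau b)^n S and S = 0. -/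

theorem g2_s0 (hG : GH p L) : L.X 1 1 ≠ 0 := fun h => g1_nd hG ((g1_iff hG 1).1 h)

theorem g2_X (hG : GH p L) (b : 𝓞 F) : L.X 1 b = tau L b * L.X 1 1 := by
  unfold tau
  rw [div_mul_cancel₀ _ (g2_s0 hG)]

theorem g2_zero (hG : GH p L) {b : 𝓞 F} : tau L b = 0 ↔ (p : 𝓞 F) ∣ b := by
  rw [← g1_iff hG b]
  unfold tau
  rw [div_eq_zero_iff]
  exact ⟨fun h => h.resolve_right (g2_s0 hG), fun h => Or.inl h⟩

theorem g2_root (hG : GH p L) {b : 𝓞 F} (hb : ¬ (p : 𝓞 F) ∣ b) : tau L b ^ (p ^ 2 - 1) = 1 := by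
  unfold tau
  rw [div_pow, g1_pow hG hb, g1_pow hG (g1_nd hG), div_self (g1_p0 hG)]

theorem g2_eq (hG : GH p L) {a b : 𝓞 F} : tau L a = tau L b ↔ (p : 𝓞 F) ∣ a - b := by
  have h := hG.ok.inj 1 a b
  rw [pow_one] at h
  rw [← h]
  unfold tau
  constructor
  · intro h1
    exact (div_left_inj' (g2_s0 hG)).1 h1
  · intro h1
    rw [h1]

theorem g2_le (hG : GH p L) (b : 𝓞 F) : ‖tau L b‖ ≤ 1 := by
  by_cases hb : (p : 𝓞 F) ∣ b
  · rw [(g2_zero hG).2 hb, norm_zero]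
    exact zero_le_one
  · unfold tau
    rw [norm_div, g1_norm hG hb, div_self (norm_ne_zero_iff.2 (g2_s0 hG))]

theorem g2_add (hG : GH p L) (a b : 𝓞 F) : ‖tau L (a + b) - tau L a - tau L b‖ < 1 := by
  unfold tau
  rw [← sub_div, ← sub_div, norm_div, div_lt_one (norm_pos_iff.2 (g2_s0 hG))]
  exact g1_add hG a b

theorem g2_quot (hG : GH p L) : Nat.card (𝓞 F ⧸ Ideal.span {(p : 𝓞 F)}) = p ^ 2 := by
  have h1 : Nat.card (𝓞 F ⧸ Ideal.span {(p : 𝓞 F)}) = Ideal.absNorm (Ideal.span {(p : 𝓞 F)}) := rfl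
  rw [h1, Ideal.absNorm_span_singleton]
  have h2 : (p : 𝓞 F) = algebraMap ℤ (𝓞 F) (p : ℤ) := by simp
  rw [h2, Algebra.norm_algebraMap_of_basis (RingOfIntegers.basis F), Int.natAbs_pow, Int.natAbs_natCast,
    ← Module.finrank_eq_card_basis (RingOfIntegers.basis F), RingOfIntegers.rank, hG.deg]

theorem g2_card (hG : GH p L) {T : Finset (𝓞 F)} (hT : Rep p 1 T) : T.card = p ^ 2 := by
  classical
  rw [← g2_quot hG, ← Set.ncard_coe_finset T, ← Nat.card_coe_set_eq]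
  refine Nat.card_congr (Equiv.ofBijective (fun a : (T : Set (𝓞 F)) => Ideal.Quotient.mk (Ideal.span {(p : 𝓞 F)}) a.1) ⟨?_, ?_⟩)
  · rintro ⟨a, ha⟩ ⟨b, hb⟩ h
    simp only at h
    rw [Ideal.Quotient.eq, Ideal.mem_span_singleton] at h
    obtain ⟨c, -, hc⟩ := hT a
    have h1 := hc a ⟨ha, by rw [sub_self]; exact dvd_zero _⟩
    have h2 := hc b ⟨hb, by rw [pow_one]; exact h⟩
    exact Subtype.ext (h1.trans h2.symm)
  · intro y
    obtain ⟨x, rfl⟩ := Ideal.Quotient.mk_surjective y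
    obtain ⟨c, ⟨hc, hxc⟩, -⟩ := hT x
    refine ⟨⟨c, hc⟩, ?_⟩
    simp only
    rw [pow_one] at hxc
    rw [eq_comm, Ideal.Quotient.eq, Ideal.mem_span_singleton]
    exact hxc

theorem g2_pos (hG : GH p L) : 0 < p ^ 2 - 1 := by
  have h1 := hG.three
  have h2 : 3 * 3 ≤ p * p := Nat.mul_le_mul h1 h1
  rw [sq]
  omega

theorem g2_q (hG : GH p L) : p ^ 2 = (p ^ 2 - 1) + 1 := by
  have h1 := g2_pos hG
  omega

/-- the image of the representatives is the set of the roots -/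
theorem g2_img (hG : GH p L) {T : Finset (𝓞 F)} (hT : Rep p 1 T) : ∃ R : Finset C, R.card = p ^ 2 ∧
    (∀ z, z ∈ R ↔ z ^ (p ^ 2) = z) ∧ (∀ z, z ∈ R ↔ ∃ b ∈ T, tau L b = z) ∧
    (∀ a ∈ T, ∀ b ∈ T, tau L a = tau L b → a = b) ∧ ∀ f : C → C, ∑ b ∈ T, f (tau L b) = ∑ z ∈ R, f z := by
  classical
  have hinj : ∀ a ∈ T, ∀ b ∈ T, tau L a = tau L b → a = b := by
    intro a ha b hb h
    have h0 := (g2_eq hG).1 h
    obtain ⟨c, -, hc⟩ := hT a
    have h1 := hc a ⟨ha, by rw [sub_self]; exact dvd_zero _⟩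
    have h2 := hc b ⟨hb, by rw [pow_one]; exact h0⟩
    exact h1.trans h2.symm
  have hcard : (T.image (tau L)).card = p ^ 2 := by
    rw [Finset.card_image_of_injOn (fun a ha b hb h => hinj a ha b hb h), g2_card hG hT]
  have hmap : ∀ b : 𝓞 F, tau L b ^ (p ^ 2) = tau L b := by
    intro b
    by_cases hb : (p : 𝓞 F) ∣ b
    · rw [(g2_zero hG).2 hb, zero_pow]
      have := g2_q hG
      omega
    · rw [g2_q hG, pow_succ, g2_root hG hb, one_mul]
  obtain ⟨P, hP⟩ : ∃ P : Polynomial C, P = Polynomial.X ^ (p ^ 2) - Polynomial.X := ⟨_, rfl⟩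
  have hp1 : 1 < p ^ 2 := by
    have := g2_pos hG
    omega
  have hdeg : P.natDegree = p ^ 2 := by
    rw [hP]
    exact FiniteField.X_pow_card_sub_X_natDegree_eq C hp1
  have hP0 : P ≠ 0 := by
    intro h
    rw [h, Polynomial.natDegree_zero] at hdeg
    omega
  have hroots : ∀ z, z ∈ P.roots.toFinset ↔ z ^ (p ^ 2) = z := by
    intro z
    rw [Multiset.mem_toFinset, Polynomial.mem_roots hP0, hP]
    simp [sub_eq_zero]
  have hsub : T.image (tau L) ⊆ P.roots.toFinset := by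
    intro z hz
    obtain ⟨b, -, rfl⟩ := Finset.mem_image.1 hz
    exact (hroots _).2 (hmap b)
  have heq : T.image (tau L) = P.roots.toFinset := by
    refine Finset.eq_of_subset_of_card_le hsub ?_
    rw [hcard, ← hdeg]
    exact (Multiset.toFinset_card_le _).trans (Polynomial.card_roots' P)
  refine ⟨T.image (tau L), hcard, fun z => ?_, fun z => ?_, hinj, fun f => ?_⟩
  · rw [heq]
    exact hroots z
  · rw [Finset.mem_image]
  · rw [Finset.sum_image (fun a ha b hb h => hinj a ha b hb h)]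

theorem g2_bij (hG : GH p L) {T : Finset (𝓞 F)} (hT : Rep p 1 T) : Set.BijOn (tau L) (T : Set (𝓞 F)) {z | z ^ (p ^ 2) = z} := by
  obtain ⟨R, -, h1, h2, h3, -⟩ := g2_img hG hT
  refine ⟨fun b hb => ?_, fun a ha b hb h => h3 a ha b hb h, fun z hz => ?_⟩
  · exact (h1 _).1 ((h2 _).2 ⟨b, hb, rfl⟩)
  · obtain ⟨b, hb, hbz⟩ := (h2 z).1 ((h1 z).2 hz)
    exact ⟨b, hb, hbz⟩

theorem g2_rep (hp : p ≠ 0) : ∃ T : Finset (𝓞 F), Rep p 1 T := by
  classical
  have hp0 : (p : 𝓞 F) ≠ 0 := by exact_mod_cast hp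
  have hpN0 : Ideal.span {(p : 𝓞 F) ^ 1} ≠ ⊥ := by
    rw [Ne, Ideal.span_singleton_eq_bot]
    exact pow_ne_zero 1 hp0
  have hfin : Finite (𝓞 F ⧸ Ideal.span {(p : 𝓞 F) ^ 1}) := Ideal.finiteQuotientOfFreeOfNeBot _ hpN0
  have hfr : (Set.range (Quotient.out : (𝓞 F ⧸ Ideal.span {(p : 𝓞 F) ^ 1}) → 𝓞 F)).Finite := Set.finite_range _
  have hout : ∀ y : 𝓞 F ⧸ Ideal.span {(p : 𝓞 F) ^ 1}, Ideal.Quotient.mk (Ideal.span {(p : 𝓞 F) ^ 1}) (Quotient.out y) = y :=
    fun y => Ideal.Quotient.mk_out y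
  refine ⟨hfr.toFinset, fun x => ⟨Quotient.out (Ideal.Quotient.mk (Ideal.span {(p : 𝓞 F) ^ 1}) x), ⟨?_, ?_⟩, ?_⟩⟩
  · rw [Set.Finite.mem_toFinset]
    exact ⟨_, rfl⟩
  · rw [← Ideal.mem_span_singleton, ← Ideal.Quotient.eq]
    exact (hout _).symm
  · rintro a ⟨ha, hxa⟩
    rw [Set.Finite.mem_toFinset] at ha
    obtain ⟨y, rfl⟩ := ha
    rw [← Ideal.mem_span_singleton, ← Ideal.Quotient.eq, hout] at hxa
    rw [hxa]

theorem g2_surj (hG : GH p L) {z : C} (hz : z ^ (p ^ 2) = z) : ∃ b, tau L b = z := by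
  obtain ⟨T, hT⟩ := g2_rep (F := F) hG.prime.ne_zero
  obtain ⟨b, -, hb⟩ := (g2_bij hG hT).surjOn hz
  exact ⟨b, hb⟩

theorem g2_sum (hG : GH p L) {T : Finset (𝓞 F)} (hT : Rep p 1 T) (n : ℕ) :
    ∑ b ∈ T, tau L b ^ n = if n = 0 then (p : C) ^ 2 else if (p ^ 2 - 1) ∣ n then (p : C) ^ 2 - 1 else 0 := by
  classical
  obtain ⟨R, hRc, hR, -, -, hsum⟩ := g2_img hG hT
  have hq0 := g2_pos hG
  have hq := g2_q hG
  rw [hsum (fun z => z ^ n)]
  by_cases hn : n = 0
  · rw [if_pos hn, hn]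
    simp only [pow_zero, Finset.sum_const, nsmul_eq_mul, mul_one]
    rw [hRc]
    push_cast
    rfl
  rw [if_neg hn]
  have h0R : (0 : C) ∈ R := (hR 0).2 (zero_pow (by omega))
  have hunit : ∀ z ∈ R.erase 0, z ^ (p ^ 2 - 1) = 1 := by
    intro z hz
    obtain ⟨hz0, hzR⟩ := Finset.mem_erase.1 hz
    have h1 := (hR z).1 hzR
    rw [hq, pow_succ] at h1
    exact mul_right_cancel₀ hz0 (by rw [one_mul]; exact h1)
  have hEc : (R.erase 0).card = p ^ 2 - 1 := by rw [Finset.card_erase_of_mem h0R, hRc]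
  split_ifs with hd
  · obtain ⟨k, hk⟩ := hd
    rw [← Finset.add_sum_erase R (fun z => z ^ n) h0R]
    have h1 : ∀ z ∈ R.erase 0, z ^ n = 1 := by
      intro z hz
      rw [hk, pow_mul, hunit z hz, one_pow]
    rw [Finset.sum_congr rfl h1, Finset.sum_const, hEc, zero_pow hn, zero_add, nsmul_eq_mul, mul_one,
      Nat.cast_sub (by omega)]
    push_cast
    rfl
  · obtain ⟨u, hu, hun⟩ : ∃ u ∈ R.erase 0, u ^ n ≠ 1 := by
      by_contra hcon
      push Not at hcon
      obtain ⟨m, hm⟩ : ∃ m : ℕ, m = Nat.gcd n (p ^ 2 - 1) := ⟨_, rfl⟩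
      have hm0 : 0 < m := by
        rw [hm]
        exact Nat.gcd_pos_of_pos_right _ hq0
      have hmd : m ∣ n := by
        rw [hm]
        exact Nat.gcd_dvd_left _ _
      have hmle : m ≤ p ^ 2 - 1 := by
        rw [hm]
        exact Nat.gcd_le_right _ hq0
      have hsubset : R.erase 0 ⊆ (Polynomial.nthRoots m (1 : C)).toFinset := by
        intro z hz
        rw [Multiset.mem_toFinset, Polynomial.mem_nthRoots hm0, hm]
        exact pow_gcd_eq_one.2 ⟨hcon z hz, hunit z hz⟩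
      have h1 := (Finset.card_le_card hsubset).trans
        ((Multiset.toFinset_card_le _).trans (Polynomial.card_nthRoots m (1 : C)))
      rw [hEc] at h1
      have h2 : m = p ^ 2 - 1 := le_antisymm hmle h1
      rw [h2] at hmd
      exact hd hmd
    obtain ⟨hu0, huR⟩ := Finset.mem_erase.1 hu
    have hup := (hR u).1 huR
    have hmul : ∑ z ∈ R, z ^ n = ∑ z ∈ R, (u * z) ^ n := by
      refine (Finset.sum_nbij' (fun z => u * z) (fun z => u⁻¹ * z) ?_ ?_ ?_ ?_ ?_).symm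
      · intro z hz
        rw [hR, mul_pow, hup, (hR z).1 hz]
      · intro z hz
        rw [hR, mul_pow, inv_pow, hup, (hR z).1 hz]
      · intro z _
        rw [← mul_assoc, inv_mul_cancel₀ hu0, one_mul]
      · intro z _
        rw [← mul_assoc, mul_inv_cancel₀ hu0, one_mul]
      · intro z _
        rfl
    have h1 : ∑ z ∈ R, (u * z) ^ n = u ^ n * ∑ z ∈ R, z ^ n := by
      rw [Finset.mul_sum]
      exact Finset.sum_congr rfl fun z _ => mul_pow _ _ _
    rw [h1] at hmul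
    have h2 : (1 - u ^ n) * ∑ z ∈ R, z ^ n = 0 := by
      rw [sub_mul, one_mul, ← hmul, sub_self]
    exact (mul_eq_zero.1 h2).resolve_left (sub_ne_zero.2 (Ne.symm hun))

end SSR
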