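import Mathlib
import Pool.Agent.Lib.SSR.G2

open NumberField

namespace SSR

open SSG

variable {F : Type} [Field F] [NumberField F] {C : Type} [NormedField C] [IsUltrametricDist C] {L : LTF F C} {p : ℕ}

/-! Chunk G3 (M). PROOF. Let W be the subring {x : ‖x‖ ≤ 1} of C (or the valuation subring), the ideal {‖x‖ < 1} is maximal, k the residue field, e : 𝓞 F → k, e b = class of tau b: additive (g2_add), e b = 0 iff p divides b
(‖tau b‖ = 1 otherwise), so k has characteristic p and the image E of e is an additive group with p^2 elements; all its elements satisfy y^(p^2) = y (g2_root). E is the set of all roots of y^(p^2) = y in k (at most p^2 roots), so E is stable under products: for z = tau c the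
class of z * tau b is e(b') for some b'. For y in E: Tr y := y + y^p satisfies (Tr y)^p = Tr y, so Tr y is in the prime field (the p roots of y^p = y are the images of the integers 0..p-1); Tr is additive and not identically 0 on E (a polynomial of degree p < p^2).
The maps b ↦ Tr (e c * e b), c modulo p, are p^2 additive maps from 𝓞 F/p to ZMod p (identify the prime field of k with ZMod p), pairwise different (if Tr (y E) = 0 with y ≠ 0 in E, then Tr E = 0 because y E = E). There are exactly p^2 additive maps from 𝓞 F/p (of order p^2, killed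
by p: a 2-dimensional vector space over ZMod p; card of the dual = p^2: Module.card_eq_pow_finrank, Subspace.dual_finrank_eq) to ZMod p: so every additive map is one of them: the map given by m (hadd, hper) is b ↦ Tr (e c * e b); z = tau c. Lift: ‖z tau b + (z tau b)^p - m b‖ < 1 because
the class in k is 0. g3_psi: if ψ = 1 take ζ = 1, m = 0. Otherwise ψ b₀ ≠ 1, ζ = ψ b₀ satisfies ζ^p = ψ (p b₀) = 1 (ψ (n • b) = (ψ b)^n by induction, ψ 0 = 1: from per 0 ) and is a primitive p-th root of 1; every ψ b is a p-th root of 1, hence a power ζ^(m b) (IsPrimitiveRoot.eq_pow_of_pow_eq_one);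
the congruences from ζ^(m(a+b)) = ζ^(m a + m b) (IsPrimitiveRoot.zpow_eq_one_iff_dvd or pow_inj). -/

/-- Additive maps to the prime field are traces. -/
theorem g3_field {k : Type} [Field k] {p : ℕ} (hp : p.Prime) [CharP k p] {G : Type} [AddCommGroup G] (e : G →+ k)
    (hroot : ∀ b, e b ^ (p ^ 2) = e b) (hcard : ∃ T : Finset G, T.card = p ^ 2 ∧ Set.InjOn e (T : Set G)) (m : G →+ ZMod p)
    (hm : ∀ b, e b = 0 → m b = 0) :
    ∃ c : G, ∀ b, e c * e b + (e c * e b) ^ p = ZMod.castHom (dvd_refl p) k (m b) := by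
  classical
  have hfp : Fact p.Prime := ⟨hp⟩
  have h4 : 2 * 2 ≤ p ^ 2 := by have := hp.two_le; nlinarith
  let E : Subfield k := (iterateFrobenius k p 2).eqLocusField (RingHom.id k)
  have hE : ∀ x : k, x ∈ E ↔ x ^ (p ^ 2) = x := fun x => by
    rw [RingHom.mem_eqLocusField, iterateFrobenius_def, RingHom.id_apply]
  -- E is finite
  let P : Polynomial k := Polynomial.X ^ (p ^ 2) - Polynomial.X
  have hP0 : P ≠ 0 := FiniteField.X_pow_card_sub_X_ne_zero k (by omega)
  have hPd : P.natDegree = p ^ 2 := FiniteField.X_pow_card_sub_X_natDegree_eq k (by omega)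
  have hEP : ∀ x : k, x ∈ E ↔ x ∈ P.roots.toFinset := by
    intro x
    rw [hE, Multiset.mem_toFinset, Polynomial.mem_roots hP0, Polynomial.IsRoot.def, Polynomial.eval_sub,
      Polynomial.eval_pow, Polynomial.eval_X, sub_eq_zero]
  have hEeq : (E : Set k) = (P.roots.toFinset : Set k) := by
    ext x
    exact hEP x
  have hfin : Finite E := by
    have h : (E : Set k).Finite := by
      rw [hEeq]
      exact Finset.finite_toSet _
    exact h
  have hle : P.roots.toFinset.card ≤ p ^ 2 := by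
    rw [← hPd]
    exact (Multiset.toFinset_card_le _).trans (Polynomial.card_roots' P)
  obtain ⟨T, hT, hinj⟩ := hcard
  have himg : T.image e = P.roots.toFinset := by
    refine Finset.eq_of_subset_of_card_le ?_ ?_
    · intro x hx
      obtain ⟨b, _, rfl⟩ := Finset.mem_image.1 hx
      exact (hEP _).1 ((hE _).2 (hroot b))
    · rw [Finset.card_image_of_injOn hinj, hT]
      exact hle
  have hcE : Nat.card E = p ^ 2 := by
    have h1 : Nat.card E = P.roots.toFinset.card := by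
      have h2 : Nat.card E = (E : Set k).ncard := rfl
      rw [h2, hEeq, Set.ncard_coe_finset]
    rw [h1, ← himg, Finset.card_image_of_injOn hinj, hT]
  have hsurj : ∀ y : E, ∃ b : G, e b = (y : k) := by
    intro y
    have h1 : (y : k) ∈ T.image e := by
      rw [himg]
      exact (hEP _).1 y.2
    obtain ⟨b, _, hb⟩ := Finset.mem_image.1 h1
    exact ⟨b, hb⟩
  choose s hs using hsurj
  have hcharE : CharP E p := E.subtype.charP E.subtype.injective p
  let _ : Algebra (ZMod p) E := ZMod.algebra E p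
  have hfd : FiniteDimensional (ZMod p) E := inferInstance
  have hrank : Module.finrank (ZMod p) E = 2 := by
    have h1 := Module.natCard_eq_pow_finrank (K := ZMod p) (V := E)
    rw [hcE, Nat.card_zmod] at h1
    exact (Nat.pow_right_injective hp.two_le h1).symm
  -- the functional
  have hker : ∀ b b' : G, e b = e b' → m b = m b' := by
    intro b b' h
    have h1 := hm (b - b') (by rw [map_sub, h, sub_self])
    rw [map_sub] at h1
    exact sub_eq_zero.1 h1
  let φ : E →+ ZMod p := AddMonoidHom.mk' (fun y => m (s y)) (by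
    intro y y'
    rw [← map_add]
    refine hker _ _ ?_
    rw [hs, map_add, hs, hs]
    rfl)
  let f : Module.Dual (ZMod p) E := φ.toZModLinearMap p
  have hnd := traceForm_nondegenerate (ZMod p) E
  let y0 : E := ((Algebra.traceForm (ZMod p) E).toDual hnd).symm f
  have hy0 : ∀ v : E, Algebra.trace (ZMod p) E (y0 * v) = φ v := by
    intro v
    have h1 := LinearMap.BilinForm.apply_toDual_symm_apply (hB := hnd) f v
    rw [Algebra.traceForm_apply] at h1
    exact h1
  refine ⟨s y0, fun b => ?_⟩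
  have hbE : e b ∈ E := (hE _).2 (hroot b)
  have h1 := FiniteField.algebraMap_trace_eq_sum_pow (ZMod p) E (y0 * ⟨e b, hbE⟩)
  rw [hrank, hy0, Nat.card_zmod, Finset.sum_range_succ, Finset.sum_range_one, pow_zero, pow_one, pow_one] at h1
  have h2 : φ ⟨e b, hbE⟩ = m b := hker _ _ (hs _)
  rw [h2] at h1
  have h3 := congrArg E.subtype h1
  rw [map_add, map_pow, map_mul] at h3
  have h4 : E.subtype (algebraMap (ZMod p) E (m b)) = ZMod.castHom (dvd_refl p) k (m b) :=
    RingHom.congr_fun (Subsingleton.elim (E.subtype.comp (algebraMap (ZMod p) E)) (ZMod.castHom (dvd_refl p) k)) (m b)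
  rw [h4] at h3
  rw [hs y0, h3]
  rfl

/-- The unit ball. -/
noncomputable def g3_V (C : Type) [NormedField C] [IsUltrametricDist C] : ValuationSubring C :=
  (NormedField.valuation (K := C)).valuationSubring

theorem g3_mem (x : C) : x ∈ g3_V C ↔ ‖x‖ ≤ 1 := Iff.rfl

theorem g3_res (x : g3_V C) : IsLocalRing.residue (g3_V C) x = 0 ↔ ‖(x : C)‖ < 1 := by
  rw [IsLocalRing.residue_eq_zero_iff, IsLocalRing.mem_maximalIdeal, mem_nonunits_iff]
  have hx : ‖(x : C)‖ ≤ 1 := (g3_mem _).1 x.2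
  constructor
  · intro h
    refine lt_of_le_of_ne hx fun h1 => h ?_
    have h0 : (x : C) ≠ 0 := by
      intro h2
      rw [h2, norm_zero] at h1
      exact zero_ne_one h1
    have hi : (x : C)⁻¹ ∈ g3_V C := by
      rw [g3_mem, norm_inv, h1, inv_one]
    exact IsUnit.of_mul_eq_one ⟨(x : C)⁻¹, hi⟩ (Subtype.ext (mul_inv_cancel₀ h0))
  · intro h hu
    obtain ⟨y, hy⟩ := hu.exists_right_inv
    have h1 : (x : C) * (y : C) = 1 := congrArg Subtype.val hy
    have h2 : ‖(x : C)‖ * ‖(y : C)‖ = 1 := by rw [← norm_mul, h1, norm_one]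
    have hy1 : ‖(y : C)‖ ≤ 1 := (g3_mem _).1 y.2
    have h3 : ‖(x : C)‖ * ‖(y : C)‖ ≤ ‖(x : C)‖ * 1 := mul_le_mul_of_nonneg_left hy1 (norm_nonneg _)
    rw [h2, mul_one] at h3
    exact absurd h3 (not_le.2 h)

omit [IsUltrametricDist C] in
theorem g3_rep (p N : ℕ) (hp : p ≠ 0) : ∃ T : Finset (𝓞 F), Rep p N T := by
  classical
  have hp0 : (p : 𝓞 F) ≠ 0 := by exact_mod_cast hp
  have hpN0 : Ideal.span {(p : 𝓞 F) ^ N} ≠ ⊥ := by
    rw [Ne, Ideal.span_singleton_eq_bot]; exact pow_ne_zero N hp0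
  have hfin : Finite (𝓞 F ⧸ Ideal.span {(p : 𝓞 F) ^ N}) := Ideal.finiteQuotientOfFreeOfNeBot _ hpN0
  have hfr : (Set.range (Quotient.out : (𝓞 F ⧸ Ideal.span {(p : 𝓞 F) ^ N}) → 𝓞 F)).Finite := Set.finite_range _
  have hout : ∀ y : 𝓞 F ⧸ Ideal.span {(p : 𝓞 F) ^ N}, Ideal.Quotient.mk (Ideal.span {(p : 𝓞 F) ^ N}) (Quotient.out y) = y :=
    fun y => Ideal.Quotient.mk_out y
  refine ⟨hfr.toFinset, fun x => ⟨Quotient.out (Ideal.Quotient.mk (Ideal.span {(p : 𝓞 F) ^ N}) x), ⟨?_, ?_⟩, ?_⟩⟩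
  · rw [Set.Finite.mem_toFinset]; exact ⟨_, rfl⟩
  · rw [← Ideal.mem_span_singleton, ← Ideal.Quotient.eq]
    exact (hout _).symm
  · rintro a ⟨ha, hxa⟩
    rw [Set.Finite.mem_toFinset] at ha
    obtain ⟨y, rfl⟩ := ha
    rw [← Ideal.mem_span_singleton, ← Ideal.Quotient.eq, hout] at hxa
    rw [hxa]

theorem g3_char (hG : GH p L) (m : 𝓞 F → ℤ) (hadd : ∀ a b, (p : ℤ) ∣ m (a + b) - m a - m b) (hper : ∀ a, (p : ℤ) ∣ m ((p : 𝓞 F) * a)) :
    ∃ z : C, z ^ (p ^ 2) = z ∧ ∀ b, ‖z * tau L b + (z * tau L b) ^ p - ((m b : ℤ) : C)‖ < 1 := by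
  classical
  have hpp := hG.prime
  have hfp : Fact p.Prime := ⟨hpp⟩
  let k := IsLocalRing.ResidueField (g3_V C)
  let r : g3_V C →+* k := IsLocalRing.residue (g3_V C)
  have hr : ∀ x : g3_V C, r x = 0 ↔ ‖(x : C)‖ < 1 := g3_res
  have hpk : ((p : ℕ) : k) = 0 := by
    rw [← map_natCast r, hr]
    exact hG.lt
  have hchar : CharP k p := by
    obtain ⟨q, hq⟩ := CharP.exists k
    have h1 : q ∣ p := (CharP.cast_eq_zero_iff k q p).1 hpk
    rcases (Nat.dvd_prime hpp).1 h1 with h2 | h2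
    · rw [h2] at hq
      exact absurd (CharP.cast_eq_zero k 1) (by rw [Nat.cast_one]; exact one_ne_zero)
    · rw [← h2]; exact hq
  let t : 𝓞 F → g3_V C := fun b => ⟨tau L b, (g3_mem _).2 (g2_le hG b)⟩
  let e : 𝓞 F →+ k := AddMonoidHom.mk' (fun b => r (t b)) (by
    intro a b
    rw [← map_add, ← sub_eq_zero, ← map_sub, hr]
    have h1 := g2_add hG a b
    rw [sub_sub] at h1
    exact h1)
  have he : ∀ b, e b = r (t b) := fun _ => rfl
  have htr : ∀ b, tau L b ^ (p ^ 2) = tau L b := by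
    intro b
    by_cases hb : (p : 𝓞 F) ∣ b
    · rw [(g2_zero hG).2 hb, zero_pow (by have := hpp.pos; positivity)]
    · have h1 : p ^ 2 = (p ^ 2 - 1) + 1 := by
        have := Nat.one_le_pow 2 p hpp.pos
        omega
      rw [h1, pow_succ, g2_root hG hb, one_mul]
  have hroot : ∀ b, e b ^ (p ^ 2) = e b := by
    intro b
    rw [he, ← map_pow]
    exact congrArg r (Subtype.ext (htr b))
  have hzero : ∀ b, e b = 0 → (p : 𝓞 F) ∣ b := by
    intro b hb
    by_contra h
    rw [he, hr] at hb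
    have h1 : ‖tau L b‖ ^ (p ^ 2 - 1) = 1 := by rw [← norm_pow, g2_root hG h, norm_one]
    have h2 : p ^ 2 - 1 ≠ 0 := by
      have := hpp.two_le
      have : 2 * 2 ≤ p ^ 2 := by nlinarith
      omega
    have h3 : ‖tau L b‖ = 1 := (pow_eq_one_iff_of_nonneg (norm_nonneg _) h2).1 h1
    exact absurd h3 (ne_of_lt hb)
  obtain ⟨T, hT⟩ := g3_rep (F := F) p 1 hpp.ne_zero
  have hcard : ∃ T : Finset (𝓞 F), T.card = p ^ 2 ∧ Set.InjOn e (T : Set (𝓞 F)) := by
    refine ⟨T, g2_card hG hT, ?_⟩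
    intro a ha b hb hab
    have h1 : e (a - b) = 0 := by rw [map_sub, hab, sub_self]
    have h2 := hzero _ h1
    refine (hT a).unique ⟨ha, ?_⟩ ⟨hb, ?_⟩
    · rw [sub_self]
      exact dvd_zero _
    · rw [pow_one]
      exact h2
  have hcong : ∀ x y : ℤ, (p : ℤ) ∣ x - y → ((x : ℤ) : ZMod p) = (y : ZMod p) := by
    intro x y h
    rw [← sub_eq_zero, ← Int.cast_sub]
    exact (ZMod.intCast_zmod_eq_zero_iff_dvd _ p).2 h
  let m' : 𝓞 F →+ ZMod p := AddMonoidHom.mk' (fun b => ((m b : ℤ) : ZMod p)) (by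
    intro a b
    rw [← Int.cast_add]
    refine hcong _ _ ?_
    have h1 := hadd a b
    rw [sub_sub] at h1
    exact h1)
  have hm' : ∀ b, e b = 0 → m' b = 0 := by
    intro b hb
    obtain ⟨a, rfl⟩ := hzero b hb
    exact (ZMod.intCast_zmod_eq_zero_iff_dvd _ p).2 (hper a)
  obtain ⟨c, hc⟩ := g3_field hpp e hroot hcard m' hm'
  refine ⟨tau L c, htr c, fun b => ?_⟩
  have h1 := hc b
  have h2 : ZMod.castHom (dvd_refl p) k (m' b) = ((m b : ℤ) : k) := map_intCast _ _
  rw [h2, he, he, ← map_mul, ← map_pow, ← map_add, ← map_intCast r, ← sub_eq_zero, ← map_sub, hr] at h1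
  exact h1

omit [IsUltrametricDist C] in
theorem g3_psi (hG : GH p L) {ψ : 𝓞 F → C} (hψ : Ach p ψ) :
    ∃ ζ : C, ζ ^ p = 1 ∧ ∃ m : 𝓞 F → ℕ, (∀ b, ψ b = ζ ^ m b) ∧ (∀ a b, (p : ℤ) ∣ (m (a + b) : ℤ) - m a - m b) ∧
      ∀ a, (p : ℤ) ∣ (m ((p : 𝓞 F) * a) : ℤ) := by
  classical
  have hpp := hG.prime
  have hfp : Fact p.Prime := ⟨hpp⟩
  have h0 : ψ 0 = 1 := by
    have h := hψ.per 0
    rwa [mul_zero] at h
  have hn : ∀ (b : 𝓞 F) (n : ℕ), ψ ((n : 𝓞 F) * b) = ψ b ^ n := by
    intro b n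
    induction n with
    | zero => rw [Nat.cast_zero, zero_mul, pow_zero, h0]
    | succ n ih => rw [Nat.cast_succ, add_mul, one_mul, hψ.add, ih, pow_succ]
  have hpow : ∀ b, ψ b ^ p = 1 := fun b => by rw [← hn, hψ.per]
  by_cases htriv : ∀ b, ψ b = 1
  · refine ⟨1, one_pow _, fun _ => 0, fun b => ?_, fun a b => ?_, fun a => ?_⟩
    · rw [pow_zero, htriv]
    · simp
    · simp
  · push Not at htriv
    obtain ⟨b₀, hb₀⟩ := htriv
    have hord : orderOf (ψ b₀) = p := orderOf_eq_prime (hpow b₀) hb₀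
    have hprim : IsPrimitiveRoot (ψ b₀) p := hord ▸ IsPrimitiveRoot.orderOf (ψ b₀)
    have hne : NeZero p := ⟨hpp.ne_zero⟩
    have hex : ∀ b, ∃ i : ℕ, ψ b = ψ b₀ ^ i := by
      intro b
      obtain ⟨i, _, hi⟩ := hprim.eq_pow_of_pow_eq_one (hpow b)
      exact ⟨i, hi.symm⟩
    choose m hm using hex
    have key : ∀ x y : ℕ, ψ b₀ ^ x = ψ b₀ ^ y → (p : ℤ) ∣ (x : ℤ) - y := by
      intro x y h
      have hz : ψ b₀ ≠ 0 := hprim.ne_zero hpp.ne_zero
      have h1 : ψ b₀ ^ ((x : ℤ) - y) = 1 := by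
        rw [zpow_sub₀ hz, zpow_natCast, zpow_natCast, h, div_self (pow_ne_zero _ hz)]
      exact (hprim.zpow_eq_one_iff_dvd _).1 h1
    refine ⟨ψ b₀, hpow b₀, m, hm, fun a b => ?_, fun a => ?_⟩
    · have h1 := key (m (a + b)) (m a + m b) (by rw [← hm, hψ.add, pow_add, ← hm, ← hm])
      rw [Nat.cast_add, ← sub_sub] at h1
      exact h1
    · have h1 := key (m ((p : 𝓞 F) * a)) 0 (by rw [← hm, hψ.per, pow_zero])
      rw [Nat.cast_zero, sub_zero] at h1
      exact h1

end SSR
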