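import Mathlib

namespace SSR

variable {C : Type} [NormedField C] [IsUltrametricDist C] {p : ℕ}

/-! Chunk G4A (M). ONLY MATHLIB. PROOF. Natural numbers and integers have norm ≤ 1 (ultrametric), n prime to p has norm 1 (Bezout: a n + b p = 1 and ‖p‖ < 1). g4_root: (1 + π)^p = 1 gives π^p = - sum over 1 ≤ i < p of C(p,i) π^i, all binomials divisible by p; ‖π‖ ≤ 1 (‖ζ‖ = 1); if π ≠ 0
divide by π: π^(p-1) = -p (integral): norm ≤ ‖p‖. g4_close: M = z + z^p, ‖z‖ ≤ 1 (z = 0 or z^(p^2-1) = 1). M^p = z^p + z^(p^2) + p (integral) = M + p (integral) (add_pow, p divides the middle binomials: use exists_add_pow_prime_eq or sub_pow..). So ‖M^p - M‖ ≤ ‖p‖. Also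
‖m^p - m‖ ≤ ‖p‖ (p divides m^p - m: Int.ModEq.pow_card_sub.. / ZMod.pow_card). With δ = M - m, ‖δ‖ < 1: M^p - M = (m + δ)^p - m - δ = (m^p - m) + δ^p + p (integral) δ - δ, so δ - δ^p = (norm ≤ ‖p‖), ‖δ - δ^p‖ = ‖δ‖ because ‖δ^p‖ < ‖δ‖ (δ ≠ 0, p ≥ 2). Hence ‖δ‖ ≤ ‖p‖.
g4_exp: with π = ζ - 1: ζ^m = sum_(i ≤ m) C(m,i) π^i. For i ≥ p the term has norm ≤ ‖π‖^p ≤ ‖π‖^(p-1) ≤ ‖p‖ (g4_root). For i < p: C(m,i) = (prod over l < i of (m - l)) / i! (Nat.descFactorial_eq_factorial_mul_choose, Nat.descFactorial as a product cast: for l ≤ m; for i > m both sides are 0,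
so extend the sum to i < p), ‖i!‖ = 1, and the product with M in place of m differs by norm ≤ ‖p‖ (telescoping: all factors have norm ≤ 1, the factors differ by M - m). -/

/-- the binomial formula for a prime exponent with an integral remainder -/
theorem g4a_pow (hp : p.Prime) (x y : C) (hx : ‖x‖ ≤ 1) (hy : ‖y‖ ≤ 1) :
    ∃ r : C, ‖r‖ ≤ 1 ∧ (x + y) ^ p = x ^ p + y ^ p + (p : C) * x * y * r := by
  refine ⟨_, ?_, add_pow_prime_eq hp x y⟩
  refine IsUltrametricDist.norm_sum_le_of_forall_le_of_nonneg zero_le_one fun k _ => ?_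
  rw [norm_mul, norm_mul, norm_pow, norm_pow]
  exact mul_le_one₀ (mul_le_one₀ (pow_le_one₀ (norm_nonneg _) hx) (by positivity) (pow_le_one₀ (norm_nonneg _) hy))
    (norm_nonneg _) (IsUltrametricDist.norm_natCast_le_one C _)

theorem g4a_nat {n : ℕ} (hlt : ‖(p : C)‖ < 1) (h : Nat.Coprime n p) : ‖(n : C)‖ = 1 := by
  refine le_antisymm (IsUltrametricDist.norm_natCast_le_one C n) ?_
  have h1 : ((n : ℤ)) * Nat.gcdA n p + (p : ℤ) * Nat.gcdB n p = 1 := by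
    rw [← Nat.gcd_eq_gcd_ab, h]
    rfl
  have h2 : (n : C) * ((Nat.gcdA n p : ℤ) : C) + (p : C) * ((Nat.gcdB n p : ℤ) : C) = 1 := by
    have h3 := congrArg (fun z : ℤ => (z : C)) h1
    push_cast at h3
    exact h3
  by_contra hcon
  rw [not_le] at hcon
  have h4 : ‖(n : C) * ((Nat.gcdA n p : ℤ) : C)‖ < 1 := by
    rw [norm_mul]
    calc _ ≤ ‖(n : C)‖ * 1 := mul_le_mul_of_nonneg_left (IsUltrametricDist.norm_intCast_le_one C _) (norm_nonneg _)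
      _ < 1 := by rwa [mul_one]
  have h5 : ‖(p : C) * ((Nat.gcdB n p : ℤ) : C)‖ < 1 := by
    rw [norm_mul]
    calc _ ≤ ‖(p : C)‖ * 1 := mul_le_mul_of_nonneg_left (IsUltrametricDist.norm_intCast_le_one C _) (norm_nonneg _)
      _ < 1 := by rwa [mul_one]
  have h6 : ‖(1 : C)‖ < 1 := by
    rw [← h2]
    exact (IsUltrametricDist.norm_add_le_max _ _).trans_lt (max_lt h4 h5)
  rw [norm_one] at h6
  exact lt_irrefl _ h6

theorem g4a_sub (a b : C) {r : ℝ} (ha : ‖a‖ ≤ r) (hb : ‖b‖ ≤ r) : ‖a - b‖ ≤ r := by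
  rw [sub_eq_add_neg]
  refine (IsUltrametricDist.norm_add_le_max _ _).trans (max_le ha ?_)
  rwa [norm_neg]

theorem g4a_add (a b : C) {r : ℝ} (ha : ‖a‖ ≤ r) (hb : ‖b‖ ≤ r) : ‖a + b‖ ≤ r :=
  (IsUltrametricDist.norm_add_le_max _ _).trans (max_le ha hb)

theorem g4a_pi (hp : p.Prime) {ζ : C} (hζ : ζ ^ p = 1) : ‖ζ - 1‖ ≤ 1 :=
  g4a_sub _ _ ((pow_eq_one_iff_of_nonneg (norm_nonneg _) hp.ne_zero).1 (by rw [← norm_pow, hζ, norm_one])).le norm_one.le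

theorem g4_root (hp : p.Prime) (hlt : ‖(p : C)‖ < 1) {ζ : C} (hζ : ζ ^ p = 1) : ‖ζ - 1‖ ^ (p - 1) ≤ ‖(p : C)‖ := by
  by_cases h0 : ζ - 1 = 0
  · rw [h0, norm_zero, zero_pow (by have := hp.two_le; omega)]
    exact norm_nonneg _
  have h1 := g4a_pi hp hζ
  obtain ⟨r, hr, h2⟩ := g4a_pow hp (ζ - 1) 1 h1 norm_one.le
  rw [sub_add_cancel, hζ, one_pow, mul_one] at h2
  have h3 : (ζ - 1) ^ (p - 1) * (ζ - 1) = -((p : C) * r) * (ζ - 1) := by
    rw [← pow_succ, Nat.sub_add_cancel hp.one_le]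
    linear_combination -h2
  have h4 := mul_right_cancel₀ h0 h3
  rw [← norm_pow, h4, norm_neg, norm_mul]
  exact mul_le_of_le_one_right (norm_nonneg _) hr

theorem g4_close (hp : p.Prime) (hlt : ‖(p : C)‖ < 1) {z : C} (hz : z ^ (p ^ 2) = z) {m : ℤ} (h : ‖z + z ^ p - (m : C)‖ < 1) :
    ‖z + z ^ p - (m : C)‖ ≤ ‖(p : C)‖ := by
  have hp2 := hp.two_le
  have hz1 : ‖z‖ ≤ 1 := by
    by_contra hcon
    rw [not_le] at hcon
    have h1 : ‖z‖ ^ (p ^ 2) = ‖z‖ := by rw [← norm_pow, hz]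
    have h2 : ‖z‖ ^ 1 < ‖z‖ ^ (p ^ 2) := pow_lt_pow_right₀ hcon (by nlinarith)
    rw [h1, pow_one] at h2
    exact lt_irrefl _ h2
  have hzp : ‖z ^ p‖ ≤ 1 := by
    rw [norm_pow]
    exact pow_le_one₀ (norm_nonneg _) hz1
  obtain ⟨r1, hr1, e1⟩ := g4a_pow hp z (z ^ p) hz1 hzp
  rw [← pow_mul, ← pow_two p, hz] at e1
  obtain ⟨δ, hδ⟩ : ∃ δ : C, δ = z + z ^ p - (m : C) := ⟨_, rfl⟩
  rw [← hδ] at h ⊢
  have hm1 : ‖(m : C)‖ ≤ 1 := IsUltrametricDist.norm_intCast_le_one C m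
  obtain ⟨r2, hr2, e2⟩ := g4a_pow hp (m : C) δ hm1 h.le
  have e3 : (m : C) + δ = z + z ^ p := by rw [hδ]; ring
  rw [e3, e1] at e2
  have e4 : (p : ℤ) ∣ m ^ p - m := by
    have := Fact.mk hp
    apply (ZMod.intCast_zmod_eq_zero_iff_dvd _ p).1
    push_cast
    rw [ZMod.pow_card, sub_self]
  obtain ⟨k, hk⟩ := e4
  have e5 : (m : C) ^ p - m = (p : C) * (k : C) := by
    have h3 := congrArg (fun z : ℤ => (z : C)) hk
    push_cast at h3
    exact h3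
  have e6 : δ - δ ^ p = (p : C) * (k - z * z ^ p * r1 + m * δ * r2) := by
    linear_combination hδ + e2 + e5
  have e7 : ‖(k : C) - z * z ^ p * r1 + m * δ * r2‖ ≤ 1 := by
    refine g4a_add _ _ (g4a_sub _ _ (IsUltrametricDist.norm_intCast_le_one C k) ?_) ?_
    · rw [norm_mul, norm_mul]
      exact mul_le_one₀ (mul_le_one₀ hz1 (norm_nonneg _) hzp) (norm_nonneg _) hr1
    · rw [norm_mul, norm_mul]
      exact mul_le_one₀ (mul_le_one₀ hm1 (norm_nonneg _) h.le) (norm_nonneg _) hr2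
  have e8 : ‖δ - δ ^ p‖ ≤ ‖(p : C)‖ := by
    rw [e6, norm_mul]
    exact mul_le_of_le_one_right (norm_nonneg _) e7
  by_cases hd : δ = 0
  · rw [hd, norm_zero]; exact norm_nonneg _
  have hd0 : 0 < ‖δ‖ := norm_pos_iff.2 hd
  have e9 : ‖δ ^ p‖ < ‖δ‖ := by
    rw [norm_pow]
    calc ‖δ‖ ^ p < ‖δ‖ ^ 1 := pow_lt_pow_right_of_lt_one₀ hd0 h (by omega)
      _ = ‖δ‖ := pow_one _
  have e10 : ‖δ‖ ≤ max ‖δ - δ ^ p‖ ‖δ ^ p‖ := by
    calc ‖δ‖ = ‖(δ - δ ^ p) + δ ^ p‖ := by rw [sub_add_cancel]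
      _ ≤ _ := IsUltrametricDist.norm_add_le_max _ _
  rcases le_max_iff.1 e10 with h6 | h6
  · exact h6.trans e8
  · exact absurd h6 (not_le.2 e9)

theorem g4_fac (hp : p.Prime) (hlt : ‖(p : C)‖ < 1) {i : ℕ} (hi : i < p) : ‖((i.factorial : ℕ) : C)‖ = 1 := by
  refine g4a_nat hlt (Nat.Coprime.symm ((Nat.Prime.coprime_iff_not_dvd hp).2 ?_))
  rw [hp.dvd_factorial]
  omega

theorem g4a_prod {M : C} {m : ℕ} (h1 : ‖M - (m : C)‖ ≤ 1) (i : ℕ) : ‖∏ l ∈ Finset.range i, ((m : C) - (l : C))‖ ≤ 1 ∧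
    ‖∏ l ∈ Finset.range i, (M - (l : C)) - ∏ l ∈ Finset.range i, ((m : C) - (l : C))‖ ≤ ‖M - (m : C)‖ := by
  have hm : ∀ l : ℕ, ‖(m : C) - (l : C)‖ ≤ 1 := fun l =>
    g4a_sub _ _ (IsUltrametricDist.norm_natCast_le_one C m) (IsUltrametricDist.norm_natCast_le_one C l)
  have hM : ∀ l : ℕ, ‖M - (l : C)‖ ≤ 1 := fun l => by
    have e : M - (l : C) = (M - m) + (m - l) := by ring
    rw [e]
    exact g4a_add _ _ h1 (hm l)
  induction i with
  | zero => simp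
  | succ i ih =>
    rw [Finset.prod_range_succ, Finset.prod_range_succ]
    constructor
    · rw [norm_mul]
      exact mul_le_one₀ ih.1 (norm_nonneg _) (hm i)
    · have e : (∏ l ∈ Finset.range i, (M - (l : C))) * (M - (i : C)) - (∏ l ∈ Finset.range i, ((m : C) - (l : C))) * ((m : C) - (i : C)) =
          (∏ l ∈ Finset.range i, (M - (l : C)) - ∏ l ∈ Finset.range i, ((m : C) - (l : C))) * (M - (i : C)) +
          (∏ l ∈ Finset.range i, ((m : C) - (l : C))) * (M - m) := by ring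
      rw [e]
      refine g4a_add _ _ ?_ ?_
      · rw [norm_mul]
        exact (mul_le_of_le_one_right (norm_nonneg _) (hM i)).trans ih.2
      · rw [norm_mul]
        exact mul_le_of_le_one_left (norm_nonneg _) ih.1

theorem g4a_choose (hp : p.Prime) (hlt : ‖(p : C)‖ < 1) {i : ℕ} (hi : i < p) (m : ℕ) :
    ((m.choose i : ℕ) : C) = (∏ l ∈ Finset.range i, ((m : C) - (l : C))) / ((i.factorial : ℕ) : C) := by
  have h0 : ((i.factorial : ℕ) : C) ≠ 0 := by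
    intro h
    have := g4_fac (C := C) hp hlt hi
    rw [h, norm_zero] at this
    exact zero_ne_one this
  rw [eq_div_iff h0]
  have h1 : ((m.descFactorial i : ℕ) : C) = ∏ l ∈ Finset.range i, ((m : C) - (l : C)) := by
    rw [← descPochhammer_eval_eq_descFactorial, descPochhammer_eval_eq_prod_range]
  rw [← h1, Nat.descFactorial_eq_factorial_mul_choose]
  push_cast
  ring

theorem g4a_binom (ζ : C) (m p : ℕ) : ζ ^ m = (∑ i ∈ Finset.range p, ((m.choose i : ℕ) : C) * (ζ - 1) ^ i) +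
    ∑ i ∈ Finset.range (m + 1), ((m.choose (p + i) : ℕ) : C) * (ζ - 1) ^ (p + i) := by
  rw [← Finset.sum_range_add, add_comm p (m + 1), Finset.sum_range_add]
  have h1 : ∑ x ∈ Finset.range p, ((m.choose (m + 1 + x) : ℕ) : C) * (ζ - 1) ^ (m + 1 + x) = 0 := by
    refine Finset.sum_eq_zero fun x _ => ?_
    rw [Nat.choose_eq_zero_of_lt (by omega), Nat.cast_zero, zero_mul]
  rw [h1, add_zero]
  have h2 := add_pow (ζ - 1) (1 : C) m
  rw [sub_add_cancel] at h2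
  rw [h2]
  refine Finset.sum_congr rfl fun x _ => ?_
  rw [one_pow, mul_one, mul_comm]

theorem g4_exp (hp : p.Prime) (hlt : ‖(p : C)‖ < 1) {ζ : C} (hζ : ζ ^ p = 1) {M : C} {m : ℕ} (h : ‖M - (m : C)‖ ≤ ‖(p : C)‖) :
    ‖ζ ^ m - ∑ i ∈ Finset.range p, (∏ l ∈ Finset.range i, (M - (l : C))) / ((i.factorial : ℕ) : C) * (ζ - 1) ^ i‖ ≤ ‖(p : C)‖ := by
  have hπ := g4a_pi hp hζ
  have hroot := g4_root hp hlt hζ
  have e : ζ ^ m - ∑ i ∈ Finset.range p, (∏ l ∈ Finset.range i, (M - (l : C))) / ((i.factorial : ℕ) : C) * (ζ - 1) ^ i =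
      (∑ i ∈ Finset.range (m + 1), ((m.choose (p + i) : ℕ) : C) * (ζ - 1) ^ (p + i)) -
      ∑ i ∈ Finset.range p, (∏ l ∈ Finset.range i, (M - (l : C)) - ∏ l ∈ Finset.range i, ((m : C) - (l : C))) /
        ((i.factorial : ℕ) : C) * (ζ - 1) ^ i := by
    have h1 : ∑ i ∈ Finset.range p, (∏ l ∈ Finset.range i, (M - (l : C)) - ∏ l ∈ Finset.range i, ((m : C) - (l : C))) /
        ((i.factorial : ℕ) : C) * (ζ - 1) ^ i =
        ∑ i ∈ Finset.range p, (∏ l ∈ Finset.range i, (M - (l : C))) / ((i.factorial : ℕ) : C) * (ζ - 1) ^ i -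
        ∑ i ∈ Finset.range p, ((m.choose i : ℕ) : C) * (ζ - 1) ^ i := by
      rw [← Finset.sum_sub_distrib]
      refine Finset.sum_congr rfl fun i hi => ?_
      rw [g4a_choose hp hlt (Finset.mem_range.1 hi) m]
      ring
    rw [h1, g4a_binom ζ m p]
    ring
  rw [e]
  refine g4a_sub _ _ ?_ ?_
  · refine IsUltrametricDist.norm_sum_le_of_forall_le_of_nonneg (norm_nonneg _) fun i _ => ?_
    rw [norm_mul, norm_pow]
    calc ‖((m.choose (p + i) : ℕ) : C)‖ * ‖ζ - 1‖ ^ (p + i) ≤ ‖ζ - 1‖ ^ (p + i) :=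
          mul_le_of_le_one_left (by positivity) (IsUltrametricDist.norm_natCast_le_one C _)
      _ ≤ ‖ζ - 1‖ ^ (p - 1) := pow_le_pow_of_le_one (norm_nonneg _) hπ (by omega)
      _ ≤ _ := hroot
  · refine IsUltrametricDist.norm_sum_le_of_forall_le_of_nonneg (norm_nonneg _) fun i hi => ?_
    rw [norm_mul, norm_div, norm_pow, g4_fac hp hlt (Finset.mem_range.1 hi), div_one]
    calc _ ≤ ‖∏ l ∈ Finset.range i, (M - (l : C)) - ∏ l ∈ Finset.range i, ((m : C) - (l : C))‖ :=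
          mul_le_of_le_one_right (norm_nonneg _) (pow_le_one₀ (norm_nonneg _) hπ)
      _ ≤ ‖M - (m : C)‖ := (g4a_prod (h.trans hlt.le) i).2
      _ ≤ _ := h

end SSR
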