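import Mathlib
import Pool.Agent.Lib.SSR.G3
import Pool.Agent.Lib.SSR.G4A

open NumberField

namespace SSR

open SSG

variable {F : Type} [Field F] [NumberField F] {C : Type} [NormedField C] [IsUltrametricDist C] {L : LTF F C} {p : ℕ}

/-! Chunk G4B (M). The Gauss sums. PROOF. q = p^2, s = X_1(1), π = ζ - 1 with ζ, m from g3_psi, z from g3_char (for the integers m b). M b = z tau b + (z tau b)^p, (z tau b)^(p^2) = z tau b: ‖M b - m b‖ ≤ ‖p‖ (g4_close).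
g4_exp: ψ b = sum over i < p of P_i(M b) π^i + (norm ≤ ‖p‖), P_i(M) = (prod over l < i of (M - l)) / i! = sum over e ≤ i of c(i,e) M^e with ‖c(i,e)‖ ≤ 1 (coefficients of the polynomial prod (X - l), natural/integer numbers, divided by i! of norm 1).
M b^e = sum over a ≤ e of C(e,a) (z tau b)^(a + p (e - a)) (add_pow). So sum over b in T of ψ b (tau b)^j = (norm ≤ ‖p‖) + sum over i < p, e ≤ i, a ≤ e of (integral coefficient) π^i * (sum over b of (tau b)^(j + a + p (e - a))). By g2_sum the inner sum is 0 unless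
(q - 1) | n = j + a + p (e - a) (n > 0 since j ≥ 1); n ≤ (q - 2) + p (p - 1) < 2 (q - 1), so then n = q - 1, and the inner sum q - 1 has norm ≤ 1. Multiply by s^j: (1) ‖s‖^j ‖p‖ < ‖p‖ (j ≥ 1, ‖s‖ < 1, p ≠ 0). (2) for a term with n = q - 1: ‖s‖^j ‖π‖^i ≤ ‖s‖^j ‖π‖^e =: A (e ≤ i,
‖π‖ ≤ 1). Put f = e - a. A^(q-1) = (‖s‖^(q-1))^j (‖π‖^(p-1))^(e (p+1)) ≤ ‖p‖^(j + e (p + 1)) (g1_s, g4_root; q - 1 = (p-1)(p+1)); j = q - 1 - a - p f and e = a + f: j + e (p+1) = q - 1 + p a + f > q - 1 because (a, f) ≠ (0, 0) (otherwise j = q - 1). So A^(q-1) < ‖p‖^(q-1) (0 < ‖p‖ < 1), A < ‖p‖.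
A finite ultrametric sum of terms < ‖p‖ is < ‖p‖. X_1(b)^j = s^j (tau b)^j (g2_X). It is convenient to prove first a bound for arbitrary coefficients: the abstract lemma g4_term (norm of coefficient * π^i * s^j * inner sum < ‖p‖). -/

theorem g4b_tau (hG : GH p L) (b : 𝓞 F) : tau L b ^ (p ^ 2) = tau L b := by
  have hp2 := hG.prime.two_le
  by_cases hb : (p : 𝓞 F) ∣ b
  · rw [(g2_zero hG).2 hb, zero_pow (by positivity)]
  · have h := g2_root hG hb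
    have e : p ^ 2 = (p ^ 2 - 1) + 1 := by
      have : 1 ≤ p ^ 2 := Nat.one_le_pow _ _ (by omega)
      omega
    rw [e, pow_succ, h, one_mul]

/-- the falling factorial as a polynomial with integral coefficients -/
theorem g4b_desc {C : Type} [NormedField C] [IsUltrametricDist C] (i : ℕ) : ∃ c : ℕ → C, (∀ e, ‖c e‖ ≤ 1) ∧
    ∀ M : C, ∏ l ∈ Finset.range i, (M - (l : C)) = ∑ e ∈ Finset.range (i + 1), c e * M ^ e := by
  refine ⟨fun e => (((descPochhammer ℤ i).coeff e : ℤ) : C), fun e => IsUltrametricDist.norm_intCast_le_one C _, fun M => ?_⟩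
  rw [← descPochhammer_eval_eq_prod_range, ← descPochhammer_map (Int.castRingHom C), Polynomial.eval_map,
    Polynomial.eval₂_eq_sum_range' _ (n := i + 1) (by rw [descPochhammer_natDegree]; omega)]
  rfl

/-- the numerical estimate -/
theorem g4b_num {p j i e a : ℕ} (hp : 2 ≤ p) (h1 : 1 ≤ j) (h2 : j < p ^ 2 - 1) (hi : i < p) (he : e ≤ i) (ha : a ≤ e)
    (hd : (p ^ 2 - 1) ∣ j + (a + p * (e - a))) {P S W : ℝ} (hP : 0 < P) (hP1 : P < 1) (hS : 0 ≤ S) (hSP : S ^ (p ^ 2 - 1) = P)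
    (hW : 0 ≤ W) (hW1 : W ≤ 1) (hWP : W ^ (p - 1) ≤ P) : W ^ i * S ^ j < P := by
  obtain ⟨f, rfl⟩ := Nat.exists_eq_add_of_le ha
  rw [Nat.add_sub_cancel_left] at hd
  have hpp : 1 ≤ p ^ 2 := Nat.one_le_pow _ _ (by omega)
  have hpe : (a + f) * p ≤ p ^ 2 - p := by
    have : (a + f) + 1 ≤ p := by omega
    have h3 : ((a + f) + 1) * p ≤ p * p := Nat.mul_le_mul_right p this
    rw [pow_two]
    have h4 : ((a + f) + 1) * p = (a + f) * p + p := by ring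
    omega
  have hn : j + (a + p * f) = p ^ 2 - 1 := by
    obtain ⟨k, hk⟩ := hd
    have h3 : j + (a + p * f) < 2 * (p ^ 2 - 1) := by
      have h5 : a + p * f ≤ (a + f) * p := by nlinarith
      have h6 : p ≤ p ^ 2 := by nlinarith
      omega
    have h4 : k = 1 := by
      rcases Nat.lt_or_ge k 1 with h | h
      · have : k = 0 := by omega
        rw [this] at hk
        omega
      · by_contra hcon
        have h5 : 2 ≤ k := by omega
        have h6 : (p ^ 2 - 1) * 2 ≤ (p ^ 2 - 1) * k := Nat.mul_le_mul_left _ h5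
        omega
    rw [hk, h4, mul_one]
  have hp1 : (p ^ 2 - 1) = (p - 1) * (p + 1) := by
    obtain ⟨r, rfl⟩ := Nat.exists_eq_add_of_le hp
    have : 2 + r - 1 = r + 1 := by omega
    rw [this]
    have h5 : (2 + r) ^ 2 = (r + 1) * (2 + r + 1) + 1 := by ring
    omega
  have hexp : p ^ 2 - 1 + 1 ≤ j + (a + f) * (p + 1) := by
    have h3 : 1 ≤ p * a + f := by
      rcases Nat.eq_zero_or_pos a with h | h
      · rcases Nat.eq_zero_or_pos f with h' | h'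
        · rw [h, h'] at hn
          omega
        · omega
      · have : 1 ≤ p * a := Nat.mul_pos (by omega) h
        omega
    have h4 : j + (a + f) * (p + 1) = (j + (a + p * f)) + (p * a + f) := by ring
    rw [h4, hn]
    omega
  have hWi : W ^ i ≤ W ^ (a + f) := pow_le_pow_of_le_one hW hW1 he
  refine lt_of_pow_lt_pow_left₀ (p ^ 2 - 1) hP.le ?_
  calc (W ^ i * S ^ j) ^ (p ^ 2 - 1) ≤ (W ^ (a + f) * S ^ j) ^ (p ^ 2 - 1) :=
        pow_le_pow_left₀ (by positivity) (mul_le_mul_of_nonneg_right hWi (by positivity)) _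
    _ = (W ^ (p - 1)) ^ ((a + f) * (p + 1)) * (S ^ (p ^ 2 - 1)) ^ j := by
        rw [mul_pow, ← pow_mul, ← pow_mul, ← pow_mul, ← pow_mul]
        congr 1
        · rw [hp1]; ring_nf
        · rw [mul_comm]
    _ ≤ P ^ ((a + f) * (p + 1)) * P ^ j := by
        rw [hSP]
        exact mul_le_mul_of_nonneg_right (pow_le_pow_left₀ (by positivity) hWP _) (by positivity)
    _ = P ^ (j + (a + f) * (p + 1)) := by rw [← pow_add, add_comm]
    _ ≤ P ^ (p ^ 2 - 1 + 1) := pow_le_pow_of_le_one hP.le hP1.le hexp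
    _ < P ^ (p ^ 2 - 1) := by
        rw [pow_succ]
        exact mul_lt_of_lt_one_right (by positivity) hP1

theorem g4b_term (hG : GH p L) {T : Finset (𝓞 F)} (hT : Rep p 1 T) {j : ℕ} (h1 : 1 ≤ j) (h2 : j < p ^ 2 - 1) {ζ : C} (hζ : ζ ^ p = 1)
    {i e a : ℕ} (hi : i < p) (he : e ≤ i) (ha : a ≤ e) :
    ‖(ζ - 1) ^ i * L.X 1 1 ^ j * ∑ b ∈ T, tau L b ^ (j + (a + p * (e - a)))‖ < ‖(p : C)‖ := by
  have hp0 : 0 < ‖(p : C)‖ := norm_pos_iff.2 (g1_p0 hG)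
  rw [g2_sum hG hT, if_neg (by omega)]
  by_cases hd : (p ^ 2 - 1) ∣ j + (a + p * (e - a))
  · rw [if_pos hd, norm_mul, norm_mul, norm_pow, norm_pow]
    have h3 : ‖(p : C) ^ 2 - 1‖ ≤ 1 := by
      refine g4a_sub _ _ ?_ norm_one.le
      rw [norm_pow]
      exact pow_le_one₀ (norm_nonneg _) hG.lt.le
    refine (mul_le_of_le_one_right (by positivity) h3).trans_lt ?_
    exact g4b_num hG.prime.two_le h1 h2 hi he ha hd hp0 hG.lt (norm_nonneg _) (g1_s hG).1 (norm_nonneg _) (g4a_pi hG.prime hζ)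
      (g4_root hG.prime hG.lt hζ)
  · rw [if_neg hd, mul_zero, norm_zero]
    exact hp0

theorem g4b_lt {α : Type*} (s : Finset α) (f : α → C) (R : ℝ) (hR : 0 < R) (h : ∀ i ∈ s, ‖f i‖ < R) : ‖∑ i ∈ s, f i‖ < R := by
  classical
  induction s using Finset.induction_on with
  | empty => simpa using hR
  | insert a s ha ih =>
    rw [Finset.sum_insert ha]
    exact (IsUltrametricDist.norm_add_le_max _ _).trans_lt
      (max_lt (h a (Finset.mem_insert_self a s)) (ih fun i hi => h i (Finset.mem_insert_of_mem hi)))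

/-- the terms of the binomial expansion of the powers of `M` -/
theorem g4b_pow (z t : C) (p e j : ℕ) : (z * t + (z * t) ^ p) ^ e * t ^ j =
    ∑ a ∈ Finset.range (e + 1), (z ^ (a + p * (e - a)) * ((e.choose a : ℕ) : C)) * t ^ (j + (a + p * (e - a))) := by
  rw [add_pow, Finset.sum_mul]
  refine Finset.sum_congr rfl fun a _ => ?_
  rw [← pow_mul, mul_pow, mul_pow, pow_add, pow_add, pow_add]
  ring

theorem g4b_M (hG : GH p L) {T : Finset (𝓞 F)} (hT : Rep p 1 T) {j : ℕ} (h1 : 1 ≤ j) (h2 : j < p ^ 2 - 1) {ζ : C} (hζ : ζ ^ p = 1)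
    {z : C} (hz : ‖z‖ ≤ 1) {i e : ℕ} (hi : i < p) (he : e ≤ i) :
    ‖(ζ - 1) ^ i * L.X 1 1 ^ j * ∑ b ∈ T, (z * tau L b + (z * tau L b) ^ p) ^ e * tau L b ^ j‖ < ‖(p : C)‖ := by
  have hp0 : 0 < ‖(p : C)‖ := norm_pos_iff.2 (g1_p0 hG)
  have e1 : (ζ - 1) ^ i * L.X 1 1 ^ j * ∑ b ∈ T, (z * tau L b + (z * tau L b) ^ p) ^ e * tau L b ^ j =
      ∑ a ∈ Finset.range (e + 1), (z ^ (a + p * (e - a)) * ((e.choose a : ℕ) : C)) *
        ((ζ - 1) ^ i * L.X 1 1 ^ j * ∑ b ∈ T, tau L b ^ (j + (a + p * (e - a)))) := by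
    rw [Finset.sum_congr rfl fun b _ => g4b_pow z (tau L b) p e j, Finset.sum_comm, Finset.mul_sum]
    refine Finset.sum_congr rfl fun a _ => ?_
    rw [← Finset.mul_sum]
    ring
  rw [e1]
  refine g4b_lt _ _ _ hp0 fun a ha => ?_
  rw [norm_mul]
  refine (mul_le_of_le_one_left (norm_nonneg _) ?_).trans_lt
    (g4b_term hG hT h1 h2 hζ hi he (by have := Finset.mem_range.1 ha; omega))
  rw [norm_mul, norm_pow]
  exact mul_le_one₀ (pow_le_one₀ (norm_nonneg _) hz) (norm_nonneg _) (IsUltrametricDist.norm_natCast_le_one C _)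

theorem g4b_P (hG : GH p L) {T : Finset (𝓞 F)} (hT : Rep p 1 T) {j : ℕ} (h1 : 1 ≤ j) (h2 : j < p ^ 2 - 1) {ζ : C} (hζ : ζ ^ p = 1)
    {z : C} (hz : ‖z‖ ≤ 1) {i : ℕ} (hi : i < p) :
    ‖∑ b ∈ T, (∏ l ∈ Finset.range i, ((z * tau L b + (z * tau L b) ^ p) - (l : C))) / ((i.factorial : ℕ) : C) * (ζ - 1) ^ i *
      L.X 1 b ^ j‖ < ‖(p : C)‖ := by
  have hp0 : 0 < ‖(p : C)‖ := norm_pos_iff.2 (g1_p0 hG)
  obtain ⟨c, hc, hcM⟩ := g4b_desc (C := C) i
  have e1 : ∑ b ∈ T, (∏ l ∈ Finset.range i, ((z * tau L b + (z * tau L b) ^ p) - (l : C))) / ((i.factorial : ℕ) : C) * (ζ - 1) ^ i *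
      L.X 1 b ^ j = ∑ e ∈ Finset.range (i + 1), (c e / ((i.factorial : ℕ) : C)) *
        ((ζ - 1) ^ i * L.X 1 1 ^ j * ∑ b ∈ T, (z * tau L b + (z * tau L b) ^ p) ^ e * tau L b ^ j) := by
    simp only [Finset.mul_sum]
    rw [Finset.sum_comm]
    refine Finset.sum_congr rfl fun b _ => ?_
    rw [hcM, g2_X hG b, mul_pow, Finset.sum_div, Finset.sum_mul, Finset.sum_mul]
    refine Finset.sum_congr rfl fun e _ => ?_
    ring
  rw [e1]
  refine g4b_lt _ _ _ hp0 fun e he => ?_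
  rw [norm_mul, norm_div, g4_fac hG.prime hG.lt hi, div_one]
  exact (mul_le_of_le_one_left (norm_nonneg _) (hc e)).trans_lt
    (g4b_M hG hT h1 h2 hζ hz hi (by have := Finset.mem_range.1 he; omega))

theorem g4_gauss (hG : GH p L) {ψ : 𝓞 F → C} (hψ : Ach p ψ) {T : Finset (𝓞 F)} (hT : Rep p 1 T) {j : ℕ} (h1 : 1 ≤ j) (h2 : j < p ^ 2 - 1) :
    ‖∑ b ∈ T, ψ b * L.X 1 b ^ j‖ < ‖(p : C)‖ := by
  have hp0 : 0 < ‖(p : C)‖ := norm_pos_iff.2 (g1_p0 hG)
  have hp2 := hG.prime.two_le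
  obtain ⟨ζ, hζ, m, hm1, hm2, hm3⟩ := g3_psi hG hψ
  obtain ⟨z, hz, hzm⟩ := g3_char hG (fun b => (m b : ℤ)) hm2 hm3
  have hz1 : ‖z‖ ≤ 1 := by
    by_contra hcon
    rw [not_le] at hcon
    have h3 : ‖z‖ ^ (p ^ 2) = ‖z‖ := by rw [← norm_pow, hz]
    have h4 : ‖z‖ ^ 1 < ‖z‖ ^ (p ^ 2) := pow_lt_pow_right₀ hcon (by nlinarith)
    rw [h3, pow_one] at h4
    exact lt_irrefl _ h4
  have hMb : ∀ b, ‖(z * tau L b + (z * tau L b) ^ p) - ((m b : ℕ) : C)‖ ≤ ‖(p : C)‖ := by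
    intro b
    have h3 := hzm b
    have h4 : (z * tau L b) ^ (p ^ 2) = z * tau L b := by rw [mul_pow, hz, g4b_tau hG b]
    have h5 := g4_close hG.prime hG.lt h4 h3
    simpa using h5
  have hE : ∀ b, ‖ψ b - ∑ i ∈ Finset.range p, (∏ l ∈ Finset.range i, ((z * tau L b + (z * tau L b) ^ p) - (l : C))) /
      ((i.factorial : ℕ) : C) * (ζ - 1) ^ i‖ ≤ ‖(p : C)‖ := by
    intro b
    rw [hm1 b]
    exact g4_exp hG.prime hG.lt hζ (hMb b)
  have e1 : ∑ b ∈ T, ψ b * L.X 1 b ^ j =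
      (∑ b ∈ T, (ψ b - ∑ i ∈ Finset.range p, (∏ l ∈ Finset.range i, ((z * tau L b + (z * tau L b) ^ p) - (l : C))) /
        ((i.factorial : ℕ) : C) * (ζ - 1) ^ i) * L.X 1 b ^ j) +
      ∑ i ∈ Finset.range p, ∑ b ∈ T, (∏ l ∈ Finset.range i, ((z * tau L b + (z * tau L b) ^ p) - (l : C))) /
        ((i.factorial : ℕ) : C) * (ζ - 1) ^ i * L.X 1 b ^ j := by
    rw [Finset.sum_comm, ← Finset.sum_add_distrib]
    refine Finset.sum_congr rfl fun b _ => ?_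
    rw [← Finset.sum_mul]
    ring
  have hs := g1_s hG
  rw [e1]
  refine (IsUltrametricDist.norm_add_le_max _ _).trans_lt (max_lt ?_ ?_)
  · refine g4b_lt _ _ _ hp0 fun b _ => ?_
    have h6 : ‖L.X 1 b ^ j‖ = ‖tau L b‖ ^ j * ‖L.X 1 1‖ ^ j := by rw [norm_pow, g2_X hG b, norm_mul, mul_pow]
    rw [norm_mul, h6]
    have h3 : ‖tau L b‖ ^ j ≤ 1 := pow_le_one₀ (norm_nonneg _) (g2_le hG b)
    have h4 : ‖L.X 1 1‖ ^ j < 1 := pow_lt_one₀ (norm_nonneg _) hs.2.2 (by omega)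
    have h5 : ‖tau L b‖ ^ j * ‖L.X 1 1‖ ^ j < 1 := by
      calc _ ≤ 1 * ‖L.X 1 1‖ ^ j := mul_le_mul_of_nonneg_right h3 (by positivity)
        _ < 1 := by rwa [one_mul]
    calc _ ≤ ‖(p : C)‖ * (‖tau L b‖ ^ j * ‖L.X 1 1‖ ^ j) := mul_le_mul_of_nonneg_right (hE b) (by positivity)
      _ < ‖(p : C)‖ * 1 := mul_lt_mul_of_pos_left h5 hp0
      _ = _ := mul_one _
  · refine g4b_lt _ _ _ hp0 fun i hi => ?_
    exact g4b_P hG hT h1 h2 hζ hz1 (Finset.mem_range.1 hi)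

end SSR
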