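import Mathlib
import Pool.Agent.Lib.SSR.G4B

open NumberField

namespace SSR

open SSG

variable {F : Type} [Field F] [NumberField F] {C : Type} [NormedField C] [IsUltrametricDist C] {L : LTF F C} {p : ℕ}

/-! Chunk G5 (S/M). Level 1. PROOF. The trivial character 1 is an Ach. ‖ψ b‖ = 1 ((ψ b)^p = ψ (p b) = 1). g5_sum: if ψ = 1 on 𝓞 F: card T = p^2 (g2_card). Otherwise there is c with ψ c ≠ 1; S = sum over T of ψ b = sum over T of ψ (b + c) (b + c is congruent to a unique element of T, and ψ only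
depends on the class modulo p: ψ a = ψ b ψ (a - b)), so S = ψ c S, S = 0. g5_one by cases. j = 0: both sums are 0 or p^2, ‖p^2‖ < ‖p‖. 1 ≤ j < p^2 - 1: g4_gauss for ψ and for 1 (ultrametric difference). j = p^2 - 1: X^(p^2-1) = p for p not dividing b and 0 otherwise (g1_pow, g1_iff):
the sum is p (S - 1) where S = sum over T of ψ (exactly one element of T is divisible by p, and ψ = 1 there): S in {0, p^2}: norm ≤ ‖p‖, difference of norm ≤ ‖p‖ ‖p^2‖ < ‖p‖. j ≥ p^2: X^j = p X^(j - (p^2 - 1)) (also for p | b: 0 = 0, since j - (p^2-1) ≥ 1): each term has norm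
≤ ‖p‖ ‖X_1 b‖ < ‖p‖ (ok.small). g5_pol: Q = sum of coeff j * X^j (Polynomial.eval_eq_sum_range), finite ultrametric sum; strictness: the maximum of finitely many numbers < ‖p‖ (p ≠ 0: g1_p0; for the empty sum 0 < ‖p‖). -/

omit [IsUltrametricDist C] in
theorem g5_zero {ψ : 𝓞 F → C} (hψ : Ach p ψ) : ψ 0 = 1 := by
  have := hψ.per 0
  rwa [mul_zero] at this

omit [IsUltrametricDist C] in
theorem g5_nat {ψ : 𝓞 F → C} (hψ : Ach p ψ) (b : 𝓞 F) (n : ℕ) : ψ ((n : 𝓞 F) * b) = ψ b ^ n := by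
  induction n with
  | zero => rw [Nat.cast_zero, zero_mul, pow_zero, g5_zero hψ]
  | succ n ih =>
    have e : ((n + 1 : ℕ) : 𝓞 F) * b = (n : 𝓞 F) * b + b := by push_cast; ring
    rw [e, hψ.add, ih, pow_succ]

omit [IsUltrametricDist C] in
theorem g5_norm (hp : p ≠ 0) {ψ : 𝓞 F → C} (hψ : Ach p ψ) (b : 𝓞 F) : ‖ψ b‖ = 1 := by
  have h1 : ψ b ^ p = 1 := by rw [← g5_nat hψ, hψ.per]
  have h2 : ‖ψ b‖ ^ p = 1 := by rw [← norm_pow, h1, norm_one]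
  exact (pow_eq_one_iff_of_nonneg (norm_nonneg _) hp).1 h2

omit [IsUltrametricDist C] in
theorem g5_cong {ψ : 𝓞 F → C} (hψ : Ach p ψ) {x a : 𝓞 F} (h : (p : 𝓞 F) ^ 1 ∣ x - a) : ψ x = ψ a := by
  obtain ⟨d, hd⟩ := h
  have e : x = a + (p : 𝓞 F) * d := by
    rw [pow_one] at hd
    rw [← hd]; ring
  rw [e, hψ.add, hψ.per, mul_one]

omit [IsUltrametricDist C] in
theorem g5_triv : Ach p (fun _ : 𝓞 F => (1 : C)) := ⟨fun _ _ => by rw [mul_one], fun _ => rfl⟩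

theorem g5_lt {ι : Type} (s : Finset ι) (f : ι → C) {r : ℝ} (hr : 0 < r) (h : ∀ i ∈ s, ‖f i‖ < r) :
    ‖∑ i ∈ s, f i‖ < r := by
  classical
  induction s using Finset.induction_on with
  | empty => rw [Finset.sum_empty, norm_zero]; exact hr
  | insert a s ha ih =>
    rw [Finset.sum_insert ha]
    refine lt_of_le_of_lt (IsUltrametricDist.norm_add_le_max _ _) (max_lt ?_ ?_)
    · exact h a (Finset.mem_insert_self a s)
    · exact ih fun i hi => h i (Finset.mem_insert_of_mem hi)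

theorem g5_le {ι : Type} (s : Finset ι) (f : ι → C) {r : ℝ} (hr : 0 ≤ r) (h : ∀ i ∈ s, ‖f i‖ ≤ r) :
    ‖∑ i ∈ s, f i‖ ≤ r := by
  classical
  induction s using Finset.induction_on with
  | empty => rw [Finset.sum_empty, norm_zero]; exact hr
  | insert a s ha ih =>
    rw [Finset.sum_insert ha]
    refine le_trans (IsUltrametricDist.norm_add_le_max _ _) (max_le ?_ ?_)
    · exact h a (Finset.mem_insert_self a s)
    · exact ih fun i hi => h i (Finset.mem_insert_of_mem hi)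

theorem g5_sub {x y : C} {r : ℝ} (hx : ‖x‖ < r) (hy : ‖y‖ < r) : ‖x - y‖ < r := by
  rw [sub_eq_add_neg]
  refine lt_of_le_of_lt (IsUltrametricDist.norm_add_le_max _ _) (max_lt hx ?_)
  rw [norm_neg]; exact hy

theorem g5_sub_le {x y : C} {r : ℝ} (hx : ‖x‖ ≤ r) (hy : ‖y‖ ≤ r) : ‖x - y‖ ≤ r := by
  rw [sub_eq_add_neg]
  refine le_trans (IsUltrametricDist.norm_add_le_max _ _) (max_le hx ?_)
  rw [norm_neg]; exact hy

theorem g5_sum (hG : GH p L) {ψ : 𝓞 F → C} (hψ : Ach p ψ) {T : Finset (𝓞 F)} (hT : Rep p 1 T) :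
    ∑ b ∈ T, ψ b = 0 ∨ ∑ b ∈ T, ψ b = (p : C) ^ 2 := by
  classical
  by_cases h : ∀ c, ψ c = 1
  · right
    rw [Finset.sum_congr rfl (fun b _ => h b), Finset.sum_const, g2_card hG hT, nsmul_eq_mul, mul_one, Nat.cast_pow]
  · left
    push Not at h
    obtain ⟨c, hc⟩ := h
    choose σ hσ hσu using fun x => (hT x)
    have e1 : ∑ b ∈ T, ψ b = ∑ b ∈ T, ψ (b + c) := by
      symm
      refine Finset.sum_bij (fun b _ => σ (b + c)) ?_ ?_ ?_ ?_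
      · intro b _
        exact (hσ (b + c)).1
      · intro b1 h1 b2 h2 h12
        have a1 := (hσ (b1 + c)).2
        have a2 := (hσ (b2 + c)).2
        rw [h12] at a1
        have a3 : (p : 𝓞 F) ^ 1 ∣ b1 - b2 := by
          have := dvd_sub a1 a2
          have e : b1 + c - σ (b2 + c) - (b2 + c - σ (b2 + c)) = b1 - b2 := by ring
          rwa [e] at this
        have a4 : (p : 𝓞 F) ^ 1 ∣ b1 - b1 := by rw [sub_self]; exact dvd_zero _
        have a5 := hσu b1 b1 ⟨h1, a4⟩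
        have a6 := hσu b1 b2 ⟨h2, a3⟩
        rw [a5, a6]
      · intro a ha
        refine ⟨σ (a - c), (hσ (a - c)).1, ?_⟩
        have a1 := (hσ (a - c)).2
        have a2 : (p : 𝓞 F) ^ 1 ∣ (σ (a - c) + c) - a := by
          have := (dvd_neg (a := (p : 𝓞 F) ^ 1) (b := a - c - σ (a - c))).2 a1
          have e : -(a - c - σ (a - c)) = (σ (a - c) + c) - a := by ring
          rwa [e] at this
        exact (hσu (σ (a - c) + c) a ⟨ha, a2⟩).symm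
      · intro b _
        exact g5_cong hψ (hσ (b + c)).2
    have e2 : ∑ b ∈ T, ψ (b + c) = (∑ b ∈ T, ψ b) * ψ c := by
      rw [Finset.sum_mul]
      exact Finset.sum_congr rfl fun b _ => hψ.add b c
    have e3 : (∑ b ∈ T, ψ b) * (ψ c - 1) = 0 := by
      rw [mul_sub, mul_one, ← e2, ← e1, sub_self]
    rcases mul_eq_zero.1 e3 with h0 | h0
    · exact h0
    · exact absurd (sub_eq_zero.1 h0) hc

theorem g5_pp (hG : GH p L) : 0 < ‖(p : C)‖ ∧ ‖(p : C) ^ 2‖ < ‖(p : C)‖ ∧ ‖(p : C) ^ 2‖ ≤ 1 := by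
  have h0 : 0 < ‖(p : C)‖ := norm_pos_iff.2 (g1_p0 hG)
  have h1 := hG.lt
  rw [norm_pow]
  refine ⟨h0, ?_, ?_⟩
  · nlinarith
  · nlinarith

theorem g5_zero_sum (hG : GH p L) {ψ : 𝓞 F → C} (hψ : Ach p ψ) {T : Finset (𝓞 F)} (hT : Rep p 1 T) :
    ‖∑ b ∈ T, ψ b‖ < ‖(p : C)‖ := by
  obtain ⟨h0, h1, _⟩ := g5_pp hG
  rcases g5_sum hG hψ hT with h | h
  · rw [h, norm_zero]; exact h0
  · rw [h]; exact h1

/-- the case `j = p ^ 2 - 1` -/
theorem g5_mid (hG : GH p L) {ψ : 𝓞 F → C} (hψ : Ach p ψ) {T : Finset (𝓞 F)} (hT : Rep p 1 T) :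
    ∑ b ∈ T, ψ b * L.X 1 b ^ (p ^ 2 - 1) = (p : C) * (∑ b ∈ T, ψ b - 1) := by
  classical
  obtain ⟨b0, ⟨hb0, hd0⟩, hu0⟩ := hT 0
  have hp2 : p ^ 2 - 1 ≠ 0 := by
    have := hG.three
    have : 3 ^ 2 ≤ p ^ 2 := Nat.pow_le_pow_left this 2
    omega
  have hpb0 : (p : 𝓞 F) ∣ b0 := by
    rw [zero_sub, pow_one, dvd_neg] at hd0
    exact hd0
  have hψ0 : ψ b0 = 1 := by
    have : (p : 𝓞 F) ^ 1 ∣ b0 - 0 := by rw [sub_zero, pow_one]; exact hpb0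
    rw [g5_cong hψ this, g5_zero hψ]
  have e1 : ∀ b ∈ T.erase b0, ψ b * L.X 1 b ^ (p ^ 2 - 1) = (p : C) * ψ b := by
    intro b hb
    have hb' := Finset.mem_erase.1 hb
    have hnd : ¬ (p : 𝓞 F) ∣ b := by
      intro hd
      apply hb'.1
      apply hu0
      refine ⟨hb'.2, ?_⟩
      rw [zero_sub, pow_one, dvd_neg]
      exact hd
    rw [g1_pow hG hnd, mul_comm]
  rw [← Finset.add_sum_erase T _ hb0, ← Finset.add_sum_erase T (fun b => ψ b) hb0, Finset.sum_congr rfl e1, ← Finset.mul_sum,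
    (g1_iff hG b0).2 hpb0, zero_pow hp2, hψ0]
  ring

/-- the case `j ≥ p ^ 2` -/
theorem g5_big (hG : GH p L) {ψ : 𝓞 F → C} (hψ : Ach p ψ) (T : Finset (𝓞 F)) {k : ℕ} (hk : 1 ≤ k) :
    ‖∑ b ∈ T, ψ b * L.X 1 b ^ (p ^ 2 - 1 + k)‖ < ‖(p : C)‖ := by
  obtain ⟨h0, _, _⟩ := g5_pp hG
  refine g5_lt T _ h0 ?_
  intro b _
  have hp0 : p ≠ 0 := by have := hG.three; omega
  have e : L.X 1 b ^ (p ^ 2 - 1 + k) = (p : C) * L.X 1 b ^ k := by
    by_cases hb : (p : 𝓞 F) ∣ b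
    · rw [(g1_iff hG b).2 hb, zero_pow (by omega), zero_pow (by omega), mul_zero]
    · rw [pow_add, g1_pow hG hb]
  rw [e, norm_mul, norm_mul, norm_pow, g5_norm hp0 hψ b, one_mul]
  have h1 : ‖L.X 1 b‖ ^ k < 1 := pow_lt_one₀ (norm_nonneg _) (hG.ok.small 1 b) (by omega)
  calc ‖(p : C)‖ * ‖L.X 1 b‖ ^ k < ‖(p : C)‖ * 1 := mul_lt_mul_of_pos_left h1 h0
    _ = ‖(p : C)‖ := mul_one _

theorem g5_one (hG : GH p L) {ψ : 𝓞 F → C} (hψ : Ach p ψ) {T : Finset (𝓞 F)} (hT : Rep p 1 T) (j : ℕ) :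
    ‖∑ b ∈ T, ψ b * L.X 1 b ^ j‖ ≤ ‖(p : C)‖ ∧ ‖∑ b ∈ T, ψ b * L.X 1 b ^ j - ∑ b ∈ T, L.X 1 b ^ j‖ < ‖(p : C)‖ := by
  obtain ⟨h0, h1, h1'⟩ := g5_pp hG
  have ht : ∀ j : ℕ, ∑ b ∈ T, L.X 1 b ^ j = ∑ b ∈ T, (1 : C) * L.X 1 b ^ j := fun j =>
    Finset.sum_congr rfl fun b _ => (one_mul _).symm
  have htriv : Ach p (fun _ : 𝓞 F => (1 : C)) := g5_triv
  rw [ht j]
  rcases lt_trichotomy j (p ^ 2 - 1) with hj | hj | hj
  · rcases Nat.eq_zero_or_pos j with hj0 | hj0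
    · subst hj0
      simp only [pow_zero, mul_one]
      have a1 := g5_zero_sum hG hψ hT
      have a2 := g5_zero_sum hG htriv hT
      exact ⟨a1.le, g5_sub a1 a2⟩
    · have a1 := g4_gauss hG hψ hT hj0 hj
      have a2 := g4_gauss hG htriv hT hj0 hj
      exact ⟨a1.le, g5_sub a1 a2⟩
  · rw [hj, g5_mid hG hψ hT, g5_mid hG htriv hT]
    have a1 := g5_zero_sum hG hψ hT
    have a2 := g5_zero_sum hG htriv hT
    have h2 := hG.lt
    constructor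
    · rw [norm_mul]
      have : ‖∑ b ∈ T, ψ b - 1‖ ≤ 1 := g5_sub_le (by linarith) (by rw [norm_one])
      calc ‖(p : C)‖ * ‖∑ b ∈ T, ψ b - 1‖ ≤ ‖(p : C)‖ * 1 := mul_le_mul_of_nonneg_left this h0.le
        _ = ‖(p : C)‖ := mul_one _
    · rw [← mul_sub, norm_mul]
      have e : (∑ b ∈ T, ψ b - 1) - (∑ b ∈ T, (fun _ : 𝓞 F => (1 : C)) b - 1) = ∑ b ∈ T, ψ b - ∑ b ∈ T, (fun _ : 𝓞 F => (1 : C)) b := by
        ring
      rw [e]
      have : ‖∑ b ∈ T, ψ b - ∑ b ∈ T, (fun _ : 𝓞 F => (1 : C)) b‖ < 1 := lt_trans (g5_sub a1 a2) h2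
      calc ‖(p : C)‖ * _ < ‖(p : C)‖ * 1 := mul_lt_mul_of_pos_left this h0
        _ = ‖(p : C)‖ := mul_one _
  · obtain ⟨k, hk⟩ : ∃ k, j = p ^ 2 - 1 + k := ⟨j - (p ^ 2 - 1), by omega⟩
    have hk1 : 1 ≤ k := by omega
    rw [hk]
    have a1 := g5_big hG hψ T hk1
    have a2 := g5_big hG htriv T hk1
    exact ⟨a1.le, g5_sub a1 a2⟩

omit [NumberField F] [IsUltrametricDist C] in
theorem g5_swap (X : 𝓞 F → C) (ψ : 𝓞 F → C) (T : Finset (𝓞 F)) (Q : Polynomial C) :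
    ∑ b ∈ T, ψ b * Q.eval (X b) = ∑ i ∈ Finset.range (Q.natDegree + 1), Q.coeff i * ∑ b ∈ T, ψ b * X b ^ i := by
  have : ∀ b ∈ T, ψ b * Q.eval (X b) = ∑ i ∈ Finset.range (Q.natDegree + 1), Q.coeff i * (ψ b * X b ^ i) := by
    intro b _
    rw [Polynomial.eval_eq_sum_range, Finset.mul_sum]
    apply Finset.sum_congr rfl
    intro i _
    ring
  rw [Finset.sum_congr rfl this, Finset.sum_comm]
  apply Finset.sum_congr rfl
  intro i _
  rw [Finset.mul_sum]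

theorem g5_pol (hG : GH p L) {ψ : 𝓞 F → C} (hψ : Ach p ψ) {T : Finset (𝓞 F)} (hT : Rep p 1 T) (Q : Polynomial C) (hQ : ∀ i, ‖Q.coeff i‖ ≤ 1) :
    ‖∑ b ∈ T, ψ b * Q.eval (L.X 1 b)‖ ≤ ‖(p : C)‖ ∧
      ‖∑ b ∈ T, ψ b * Q.eval (L.X 1 b) - ∑ b ∈ T, Q.eval (L.X 1 b)‖ < ‖(p : C)‖ := by
  obtain ⟨h0, _, _⟩ := g5_pp hG
  have e2 : ∑ b ∈ T, Q.eval (L.X 1 b) = ∑ i ∈ Finset.range (Q.natDegree + 1), Q.coeff i * ∑ b ∈ T, L.X 1 b ^ i := by
    have h := g5_swap (fun b => L.X 1 b) (fun _ => (1 : C)) T Q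
    simp only [one_mul] at h
    exact h
  have e1 := g5_swap (fun b => L.X 1 b) ψ T Q
  rw [e2, e1, ← Finset.sum_sub_distrib]
  constructor
  · refine g5_le _ _ h0.le ?_
    intro i _
    rw [norm_mul]
    calc ‖Q.coeff i‖ * _ ≤ 1 * ‖(p : C)‖ := mul_le_mul (hQ i) (g5_one hG hψ hT i).1 (norm_nonneg _) zero_le_one
      _ = ‖(p : C)‖ := one_mul _
  · refine g5_lt _ _ h0 ?_
    intro i _
    rw [← mul_sub, norm_mul]
    calc ‖Q.coeff i‖ * _ ≤ 1 * ‖∑ b ∈ T, ψ b * L.X 1 b ^ i - ∑ b ∈ T, L.X 1 b ^ i‖ :=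
          mul_le_mul_of_nonneg_right (hQ i) (norm_nonneg _)
      _ < ‖(p : C)‖ := by rw [one_mul]; exact (g5_one hG hψ hT i).2

end SSR
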