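import Mathlib
import Pool.Agent.Lib.SSR.G5
import Pool.Agent.Lib.SSG.F.A2

open NumberField

namespace SSR

open SSG

variable {F : Type} [Field F] [NumberField F] {C : Type} [NormedField C] [IsUltrametricDist C] {L : LTF F C} {p : ℕ}

/-! Chunk G6 (M). Level 2. PROOF. T1 a set of representatives modulo p (exists: H55P / SSG exists_Rep, or choose), T2 modulo p^2. For b in T1 the fibre S_b = {a in T2 : p | a - b} has p^2 elements (a = b + p u, u modulo p: u ↦ the element of T2 congruent to b + p u modulo p^2 is a bijection from T1 onto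
S_b), on it X_2(a)^(p^2) - p X_2(a) = X_1(a) = X_1(b) (ok.g 1, ok.inj 1), the values X_2(a) are distinct (ok.inj 2): SSF.newton with s = the image of S_b (injective), y = X_1(b): sum over S_b of X_2^j = p * (SSF.ctm C p j).eval (X_1 b). ψ is constant on S_b (ψ a = ψ b ψ (a - b), per).
So sum over T2 of ψ X_2^j = p * sum over T1 of ψ b * (ctm C p j).eval (X_1 b): g5_pol with Q = ctm C p j times ‖p‖ (for ψ and ψ = 1, difference). Its coefficients have norm ≤ 1: they are natural numbers (strong induction with ctm_zero, ctm_small, ctm_q1, ctm_rec of SSG/F/A1; perhaps the lemma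
exists: grep ctm in SSG/F). g6_res: X_2(p b) = X_1(-b) (ok.down 1 (-b): X_1(-b) = X_2(-p * (-b))). -T1 is again a set of representatives, b ↦ ψ (-b) an Ach: g5_one. -/

omit [IsUltrametricDist C] in
theorem g6_rep (p N : ℕ) (hp : p ≠ 0) : ∃ T : Finset (𝓞 F), Rep p N T := by
  classical
  have hp0 : (p : 𝓞 F) ≠ 0 := by exact_mod_cast hp
  have hpN0 : Ideal.span {(p : 𝓞 F) ^ N} ≠ ⊥ := by
    rw [Ne, Ideal.span_singleton_eq_bot]; exact pow_ne_zero N hp0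
  have hfin : Finite (𝓞 F ⧸ Ideal.span {(p : 𝓞 F) ^ N}) := Ideal.finiteQuotientOfFreeOfNeBot _ hpN0
  have hfr : (Set.range (Quotient.out : (𝓞 F ⧸ Ideal.span {(p : 𝓞 F) ^ N}) → 𝓞 F)).Finite := Set.finite_range _
  have hout : ∀ y : 𝓞 F ⧸ Ideal.span {(p : 𝓞 F) ^ N}, Ideal.Quotient.mk (Ideal.span {(p : 𝓞 F) ^ N}) (Quotient.out y) = y :=
    fun y => Ideal.Quotient.mk_out y
  refine ⟨hfr.toFinset, fun x => ⟨Quotient.out (Ideal.Quotient.mk (Ideal.span {(p : 𝓞 F) ^ N}) x), ⟨?_, ?_⟩, ?_⟩⟩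
  · rw [Set.Finite.mem_toFinset]; exact ⟨_, rfl⟩
  · rw [← Ideal.mem_span_singleton, ← Ideal.Quotient.eq]
    exact (hout _).symm
  · rintro a ⟨ha, hxa⟩
    rw [Set.Finite.mem_toFinset] at ha
    obtain ⟨y, rfl⟩ := ha
    rw [← Ideal.mem_span_singleton, ← Ideal.Quotient.eq, hout] at hxa
    rw [hxa]

theorem g6_ctm (p j i : ℕ) : ‖(SSF.ctm C p j).coeff i‖ ≤ 1 := by
  have h := SSF.ctm_map p j (Int.castRingHom C)
  rw [← h, Polynomial.coeff_map]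
  exact IsUltrametricDist.norm_intCast_le_one C _

omit [IsUltrametricDist C] in
theorem g6_congr {ψ : 𝓞 F → C} (hψ : Ach p ψ) {a b : 𝓞 F} (h : (p : 𝓞 F) ∣ a - b) : ψ a = ψ b := by
  obtain ⟨c, hc⟩ := h
  have e : a = b + (p : 𝓞 F) * c := by rw [← hc]; ring
  rw [e, hψ.add, hψ.per, mul_one]

/-- The fibre of the representatives modulo p^2 over a class modulo p has p^2 elements. -/
theorem g6_card (hG : GH p L) {T1 T : Finset (𝓞 F)} (h1 : Rep p 1 T1) (hT : Rep p 2 T) (b : 𝓞 F) (S : Finset (𝓞 F))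
    (hS : ∀ a, a ∈ S ↔ a ∈ T ∧ (p : 𝓞 F) ∣ a - b) : S.card = p ^ 2 := by
  classical
  have hp0 : (p : 𝓞 F) ≠ 0 := by exact_mod_cast hG.prime.ne_zero
  have hpd : ∀ a a' u u' : 𝓞 F, a ∈ T → a' ∈ T → (p : 𝓞 F) ^ 2 ∣ u - a → (p : 𝓞 F) ^ 2 ∣ u - a' → a = a' := by
    intro a a' u _ ha ha' h h'
    exact (hT u).unique ⟨ha, h⟩ ⟨ha', h'⟩
  choose f hf _ using fun u : 𝓞 F => hT (b + (p : 𝓞 F) * u)
  rw [← g2_card hG h1]
  symm
  refine Finset.card_bij (fun u _ => f u) ?_ ?_ ?_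
  · intro u _
    refine (hS _).2 ⟨(hf u).1, ?_⟩
    obtain ⟨m, hm⟩ := (hf u).2
    refine ⟨u - (p : 𝓞 F) * m, ?_⟩
    have e : f u - b = (p : 𝓞 F) * u - (b + (p : 𝓞 F) * u - f u) := by ring
    rw [e, hm]
    ring
  · intro u hu v hv huv
    obtain ⟨m, hm⟩ := (hf u).2
    obtain ⟨m', hm'⟩ := (hf v).2
    rw [← huv] at hm'
    have e : (p : 𝓞 F) * (u - v) = (p : 𝓞 F) * ((p : 𝓞 F) * (m - m')) := by
      have e1 : (p : 𝓞 F) * (u - v) = (b + (p : 𝓞 F) * u - f u) - (b + (p : 𝓞 F) * v - f u) := by ring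
      rw [e1, hm, hm']
      ring
    have e2 : u - v = (p : 𝓞 F) * (m - m') := mul_left_cancel₀ hp0 e
    refine (h1 u).unique ⟨hu, ?_⟩ ⟨hv, ?_⟩
    · rw [sub_self]
      exact dvd_zero _
    · rw [pow_one, e2]
      exact dvd_mul_right _ _
  · intro a ha
    obtain ⟨haT, c, hc⟩ := (hS a).1 ha
    obtain ⟨u, ⟨hu, hcu⟩, _⟩ := h1 c
    refine ⟨u, hu, ?_⟩
    obtain ⟨m, hm⟩ := hcu
    refine (hT (b + (p : 𝓞 F) * u)).unique (hf u) ⟨haT, ?_⟩
    rw [pow_one] at hm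
    refine ⟨-m, ?_⟩
    have e : b + (p : 𝓞 F) * u - a = -((p : 𝓞 F) * (c - u)) := by
      have e1 : b + (p : 𝓞 F) * u - a = (p : 𝓞 F) * u - (a - b) := by ring
      rw [e1, hc]
      ring
    rw [e, hm]
    ring

/-- The sum over the representatives modulo p^2. -/
theorem g6_sum (hG : GH p L) {ψ : 𝓞 F → C} (hψ : Ach p ψ) {T1 T : Finset (𝓞 F)} (h1 : Rep p 1 T1) (hT : Rep p 2 T) (j : ℕ) :
    ∑ b ∈ T, ψ b * L.X 2 b ^ j = (p : C) * ∑ b ∈ T1, ψ b * (SSF.ctm C p j).eval (L.X 1 b) := by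
  classical
  have h1' := h1
  choose g hg _ using h1'
  have hg' : ∀ a, (p : 𝓞 F) ∣ a - g a := fun a => by
    have h := (hg a).2
    rwa [pow_one] at h
  rw [← Finset.sum_fiberwise_of_maps_to (t := T1) (g := g) (fun a _ => (hg a).1), Finset.mul_sum]
  refine Finset.sum_congr rfl fun b hb => ?_
  have hS : ∀ a, a ∈ T.filter (fun a => g a = b) ↔ a ∈ T ∧ (p : 𝓞 F) ∣ a - b := by
    intro a
    rw [Finset.mem_filter]
    constructor
    · rintro ⟨ha, rfl⟩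
      exact ⟨ha, hg' a⟩
    · rintro ⟨ha, hab⟩
      refine ⟨ha, (h1 a).unique (hg a) ⟨hb, ?_⟩⟩
      rw [pow_one]
      exact hab
  have hcard := g6_card hG h1 hT b _ hS
  have hinj : Set.InjOn (fun a => L.X 2 a) (T.filter (fun a => g a = b) : Set (𝓞 F)) := by
    intro a ha a' ha' h
    rw [Finset.mem_coe] at ha ha'
    have h2 := (hG.ok.inj 2 a a').1 h
    refine (hT a).unique ⟨((hS a).1 ha).1, ?_⟩ ⟨((hS a').1 ha').1, h2⟩
    rw [sub_self]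
    exact dvd_zero _
  have hnew := SSF.newton p hG.prime.two_le ((T.filter (fun a => g a = b)).image (fun a => L.X 2 a))
    (by rw [Finset.card_image_of_injOn hinj, hcard]) (L.X 1 b) (by
      intro z hz
      obtain ⟨a, ha, rfl⟩ := Finset.mem_image.1 hz
      have e1 := hG.ok.g 1 a
      have e2 : L.X 1 a = L.X 1 b := (hG.ok.inj 1 a b).2 (by rw [pow_one]; exact ((hS a).1 ha).2)
      rw [← e2, e1]
      ring) j
  rw [Finset.sum_image hinj] at hnew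
  have e3 : ∀ a ∈ T.filter (fun a => g a = b), ψ a * L.X 2 a ^ j = ψ b * L.X 2 a ^ j := by
    intro a ha
    rw [g6_congr hψ ((hS a).1 ha).2]
  rw [Finset.sum_congr rfl e3, ← Finset.mul_sum, hnew]
  ring

theorem g6_two (hG : GH p L) {ψ : 𝓞 F → C} (hψ : Ach p ψ) {T : Finset (𝓞 F)} (hT : Rep p 2 T) (j : ℕ) :
    ‖∑ b ∈ T, ψ b * L.X 2 b ^ j‖ ≤ ‖(p : C)‖ ^ 2 ∧ ‖∑ b ∈ T, ψ b * L.X 2 b ^ j - ∑ b ∈ T, L.X 2 b ^ j‖ < ‖(p : C)‖ ^ 2 := by
  have hp0 : 0 < ‖(p : C)‖ := norm_pos_iff.2 (g1_p0 hG)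
  obtain ⟨T1, h1⟩ := g6_rep (F := F) p 1 hG.prime.ne_zero
  have htr : Ach p (fun _ : 𝓞 F => (1 : C)) := ⟨fun _ _ => (one_mul 1).symm, fun _ => rfl⟩
  have h2 := g6_sum hG hψ h1 hT j
  have h3 := g6_sum hG htr h1 hT j
  simp only [one_mul] at h3
  obtain ⟨h4, h5⟩ := g5_pol hG hψ h1 (SSF.ctm C p j) (g6_ctm p j)
  rw [h2, h3, ← mul_sub, norm_mul, norm_mul, pow_two]
  exact ⟨mul_le_mul_of_nonneg_left h4 hp0.le, mul_lt_mul_of_pos_left h5 hp0⟩

theorem g6_res (hG : GH p L) {ψ : 𝓞 F → C} (hψ : Ach p ψ) {T : Finset (𝓞 F)} (hT : Rep p 1 T) (j : ℕ) :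
    ‖∑ b ∈ T, ψ b * L.X 2 ((p : 𝓞 F) * b) ^ j‖ ≤ ‖(p : C)‖ ∧
      ‖∑ b ∈ T, ψ b * L.X 2 ((p : 𝓞 F) * b) ^ j - ∑ b ∈ T, L.X 2 ((p : 𝓞 F) * b) ^ j‖ < ‖(p : C)‖ := by
  classical
  have hX : ∀ b : 𝓞 F, L.X 2 ((p : 𝓞 F) * b) = L.X 1 (-b) := by
    intro b
    rw [hG.ok.down 1 (-b), neg_mul_neg]
  have hT' : Rep p 1 (T.image fun b => -b) := by
    intro x
    obtain ⟨a, ⟨ha, hxa⟩, hu⟩ := hT (-x)
    refine ⟨-a, ⟨Finset.mem_image_of_mem _ ha, ?_⟩, ?_⟩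
    · have e : x - -a = -(-x - a) := by ring
      rw [e]
      exact (dvd_neg).2 hxa
    · rintro c ⟨hc, hxc⟩
      obtain ⟨c', hc', rfl⟩ := Finset.mem_image.1 hc
      rw [hu c' ⟨hc', by
        have e : -x - c' = -(x - -c') := by ring
        rw [e]
        exact (dvd_neg).2 hxc⟩]
  have hψ' : Ach p (fun b => ψ (-b)) := by
    refine ⟨fun a b => ?_, fun a => ?_⟩
    · rw [neg_add, hψ.add]
    · rw [← mul_neg, hψ.per]
  have h := g5_one hG hψ' hT' j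
  rw [Finset.sum_image (fun a _ b _ h => neg_injective h), Finset.sum_image (fun a _ b _ h => neg_injective h)] at h
  simp only [neg_neg] at h
  have e1 : ∑ b ∈ T, ψ b * L.X 2 ((p : 𝓞 F) * b) ^ j = ∑ b ∈ T, ψ b * L.X 1 (-b) ^ j :=
    Finset.sum_congr rfl fun b _ => by rw [hX]
  have e2 : ∑ b ∈ T, L.X 2 ((p : 𝓞 F) * b) ^ j = ∑ b ∈ T, L.X 1 (-b) ^ j :=
    Finset.sum_congr rfl fun b _ => by rw [hX]
  rw [e1, e2]
  exact h

end SSR
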