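import Mathlib

namespace SSR

variable {C : Type} [NormedField C] [IsUltrametricDist C]

/-- The one-dimensional estimates: r bounds the sums of ψ Y^j and of Y^j, and the difference is smaller than r. -/
structure CG {A : Type} (T : Finset A) (ψ Y : A → C) (r : ℝ) : Prop where
  pos : 0 < r
  le : ∀ j : ℕ, ‖∑ b ∈ T, ψ b * Y b ^ j‖ ≤ r
  le1 : ∀ j : ℕ, ‖∑ b ∈ T, Y b ^ j‖ ≤ r
  lt : ∀ j : ℕ, ‖∑ b ∈ T, ψ b * Y b ^ j - ∑ b ∈ T, Y b ^ j‖ < r

/-! Chunk G7 (M). ONLY MATHLIB. PROOF. g7_prod: for a monomial prod_k y_k^(m k): the sum over Fintype.piFinset T of prod_k (ψ k (b k)) * prod_k (Y k (b k))^(m k) is prod_k (sum over T k of ψ Y^(m k)) (Finset.prod_univ_sum, Finset.sum_prod_piFinset): norm ≤ prod r. Difference of two products of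
numbers x_k, y_k with ‖x_k‖, ‖y_k‖ ≤ r_k, ‖x_k - y_k‖ < r_k, r_k > 0: ‖prod x - prod y‖ < prod r if the index set is nonempty, and it is 0 < prod r = 1 if it is empty: so always < (Finset induction: x a - y b = (x - y) a + y (a - b), norms < r_k R; note strict < also needs R > 0). General Q:
MvPolynomial.eval_eq' (finite sum over the support of coeff * prod): ultrametric finite sums (‖sum‖ ≤ max), strictness by finiteness (support empty: 0 < prod r).
g7_par: variables ι ⊕ κ: evaluate at Sum.elim (Y (b)) y, ‖y k‖ < 1. Difference with y = 0: monomials m with m (inr k) = 0 for all k: the same values up to g7_prod; with some m (inr k) > 0: the value at y = 0 is 0, and the sum for y is (coefficient) * (prod_k y_k^(m (inr k))) * prod (sums): norm ≤ ρ prod r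
< prod r with ρ = ‖y k‖ < 1. -/

/-- strict ultrametric bound for a finite sum -/
theorem g7a_lt {α : Type*} (s : Finset α) (f : α → C) (R : ℝ) (hR : 0 < R) (h : ∀ i ∈ s, ‖f i‖ < R) : ‖∑ i ∈ s, f i‖ < R := by
  classical
  induction s using Finset.induction_on with
  | empty => simpa using hR
  | insert a s ha ih =>
    rw [Finset.sum_insert ha]
    exact (IsUltrametricDist.norm_add_le_max _ _).trans_lt
      (max_lt (h a (Finset.mem_insert_self a s)) (ih fun i hi => h i (Finset.mem_insert_of_mem hi)))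

theorem g7a_diff {α : Type*} (s : Finset α) (x y : α → C) (r : α → ℝ) (hr : ∀ k, 0 < r k) (hx : ∀ k, ‖x k‖ ≤ r k) (hy : ∀ k, ‖y k‖ ≤ r k)
    (hxy : ∀ k, ‖x k - y k‖ < r k) : ‖∏ k ∈ s, x k - ∏ k ∈ s, y k‖ < ∏ k ∈ s, r k := by
  classical
  induction s using Finset.induction_on with
  | empty => simp
  | insert a s ha ih =>
    rw [Finset.prod_insert ha, Finset.prod_insert ha, Finset.prod_insert ha]
    have hR : 0 < ∏ k ∈ s, r k := Finset.prod_pos fun k _ => hr k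
    have e : x a * ∏ k ∈ s, x k - y a * ∏ k ∈ s, y k = (x a - y a) * ∏ k ∈ s, x k + y a * (∏ k ∈ s, x k - ∏ k ∈ s, y k) := by ring
    have h1 : ‖∏ k ∈ s, x k‖ ≤ ∏ k ∈ s, r k := by
      rw [norm_prod]
      exact Finset.prod_le_prod (fun k _ => norm_nonneg _) fun k _ => hx k
    rw [e]
    refine (IsUltrametricDist.norm_add_le_max _ _).trans_lt (max_lt ?_ ?_)
    · rw [norm_mul]
      calc ‖x a - y a‖ * ‖∏ k ∈ s, x k‖ ≤ ‖x a - y a‖ * ∏ k ∈ s, r k := mul_le_mul_of_nonneg_left h1 (norm_nonneg _)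
        _ < r a * ∏ k ∈ s, r k := mul_lt_mul_of_pos_right (hxy a) hR
    · rw [norm_mul]
      calc ‖y a‖ * ‖∏ k ∈ s, x k - ∏ k ∈ s, y k‖ ≤ r a * ‖∏ k ∈ s, x k - ∏ k ∈ s, y k‖ := mul_le_mul_of_nonneg_right (hy a) (norm_nonneg _)
        _ < r a * ∏ k ∈ s, r k := mul_lt_mul_of_pos_left ih (hr a)

theorem g7a_exp {A ι κ : Type} [Fintype ι] [DecidableEq ι] [Fintype κ] (T : ι → Finset A) (ψ Y : ι → A → C) (Q : MvPolynomial (ι ⊕ κ) C) (y : κ → C) :
    ∑ b ∈ Fintype.piFinset T, (∏ k, ψ k (b k)) * MvPolynomial.eval (Sum.elim (fun k => Y k (b k)) y) Q =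
      ∑ d ∈ Q.support, Q.coeff d * ((∏ k : κ, y k ^ (d (Sum.inr k))) * ∏ k : ι, ∑ b ∈ T k, ψ k b * Y k b ^ (d (Sum.inl k))) := by
  have h1 : ∀ b : ι → A, (∏ k, ψ k (b k)) * MvPolynomial.eval (Sum.elim (fun k => Y k (b k)) y) Q =
      ∑ d ∈ Q.support, Q.coeff d * ((∏ k : κ, y k ^ (d (Sum.inr k))) * ∏ k : ι, (ψ k (b k) * Y k (b k) ^ (d (Sum.inl k)))) := by
    intro b
    rw [MvPolynomial.eval_eq', Finset.mul_sum]
    refine Finset.sum_congr rfl fun d _ => ?_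
    rw [Fintype.prod_sum_type, Finset.prod_mul_distrib]
    simp only [Sum.elim_inl, Sum.elim_inr]
    ring
  rw [Finset.sum_congr rfl fun b _ => h1 b, Finset.sum_comm]
  refine Finset.sum_congr rfl fun d _ => ?_
  rw [← Finset.mul_sum, ← Finset.mul_sum, Finset.prod_univ_sum]

theorem g7a_exp1 {A ι κ : Type} [Fintype ι] [DecidableEq ι] [Fintype κ] (T : ι → Finset A) (Y : ι → A → C) (Q : MvPolynomial (ι ⊕ κ) C) (y : κ → C) :
    ∑ b ∈ Fintype.piFinset T, MvPolynomial.eval (Sum.elim (fun k => Y k (b k)) y) Q =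
      ∑ d ∈ Q.support, Q.coeff d * ((∏ k : κ, y k ^ (d (Sum.inr k))) * ∏ k : ι, ∑ b ∈ T k, Y k b ^ (d (Sum.inl k))) := by
  have h := g7a_exp T (fun _ _ => (1 : C)) Y Q y
  simp only [Finset.prod_const_one, one_mul] at h
  exact h

theorem g7a_ex {A ι : Type} [Fintype ι] [DecidableEq ι] (T : ι → Finset A) (ψ Y : ι → A → C) (Q : MvPolynomial ι C) :
    ∑ b ∈ Fintype.piFinset T, (∏ k, ψ k (b k)) * MvPolynomial.eval (fun k => Y k (b k)) Q =
      ∑ d ∈ Q.support, Q.coeff d * ∏ k : ι, ∑ b ∈ T k, ψ k b * Y k b ^ (d k) := by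
  have h1 : ∀ b : ι → A, (∏ k, ψ k (b k)) * MvPolynomial.eval (fun k => Y k (b k)) Q =
      ∑ d ∈ Q.support, Q.coeff d * ∏ k : ι, (ψ k (b k) * Y k (b k) ^ (d k)) := by
    intro b
    rw [MvPolynomial.eval_eq', Finset.mul_sum]
    refine Finset.sum_congr rfl fun d _ => ?_
    rw [Finset.prod_mul_distrib]
    ring
  rw [Finset.sum_congr rfl fun b _ => h1 b, Finset.sum_comm]
  refine Finset.sum_congr rfl fun d _ => ?_
  rw [← Finset.mul_sum, Finset.prod_univ_sum]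

theorem g7a_ex1 {A ι : Type} [Fintype ι] [DecidableEq ι] (T : ι → Finset A) (Y : ι → A → C) (Q : MvPolynomial ι C) :
    ∑ b ∈ Fintype.piFinset T, MvPolynomial.eval (fun k => Y k (b k)) Q =
      ∑ d ∈ Q.support, Q.coeff d * ∏ k : ι, ∑ b ∈ T k, Y k b ^ (d k) := by
  have h := g7a_ex T (fun _ _ => (1 : C)) Y Q
  simp only [Finset.prod_const_one, one_mul] at h
  exact h

theorem g7_prod {A ι : Type} [Fintype ι] [DecidableEq ι] (T : ι → Finset A) (ψ Y : ι → A → C) (r : ι → ℝ) (h : ∀ k, CG (T k) (ψ k) (Y k) (r k))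
    (Q : MvPolynomial ι C) (hQ : ∀ m, ‖Q.coeff m‖ ≤ 1) :
    ‖∑ b ∈ Fintype.piFinset T, (∏ k, ψ k (b k)) * MvPolynomial.eval (fun k => Y k (b k)) Q‖ ≤ ∏ k, r k ∧
    ‖∑ b ∈ Fintype.piFinset T, MvPolynomial.eval (fun k => Y k (b k)) Q‖ ≤ ∏ k, r k ∧
    ‖∑ b ∈ Fintype.piFinset T, (∏ k, ψ k (b k)) * MvPolynomial.eval (fun k => Y k (b k)) Q -
      ∑ b ∈ Fintype.piFinset T, MvPolynomial.eval (fun k => Y k (b k)) Q‖ < ∏ k, r k := by
  have hR : 0 < ∏ k, r k := Finset.prod_pos fun k _ => (h k).pos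
  rw [g7a_ex, g7a_ex1, ← Finset.sum_sub_distrib]
  refine ⟨?_, ?_, ?_⟩
  · refine IsUltrametricDist.norm_sum_le_of_forall_le_of_nonneg hR.le fun d _ => ?_
    rw [norm_mul, norm_prod]
    refine (mul_le_of_le_one_left (by positivity) (hQ d)).trans ?_
    exact Finset.prod_le_prod (fun k _ => norm_nonneg _) fun k _ => (h k).le _
  · refine IsUltrametricDist.norm_sum_le_of_forall_le_of_nonneg hR.le fun d _ => ?_
    rw [norm_mul, norm_prod]
    refine (mul_le_of_le_one_left (by positivity) (hQ d)).trans ?_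
    exact Finset.prod_le_prod (fun k _ => norm_nonneg _) fun k _ => (h k).le1 _
  · refine g7a_lt _ _ _ hR fun d _ => ?_
    rw [← mul_sub, norm_mul]
    refine (mul_le_of_le_one_left (norm_nonneg _) (hQ d)).trans_lt ?_
    exact g7a_diff _ _ _ _ (fun k => (h k).pos) (fun k => (h k).le _) (fun k => (h k).le1 _) (fun k => (h k).lt _)

theorem g7_par {A ι κ : Type} [Fintype ι] [DecidableEq ι] [Fintype κ] (T : ι → Finset A) (ψ Y : ι → A → C) (r : ι → ℝ) (h : ∀ k, CG (T k) (ψ k) (Y k) (r k))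
    (Q : MvPolynomial (ι ⊕ κ) C) (hQ : ∀ m, ‖Q.coeff m‖ ≤ 1) (y : κ → C) (hy : ∀ k, ‖y k‖ < 1) :
    ‖∑ b ∈ Fintype.piFinset T, (∏ k, ψ k (b k)) * MvPolynomial.eval (Sum.elim (fun k => Y k (b k)) y) Q -
      ∑ b ∈ Fintype.piFinset T, MvPolynomial.eval (Sum.elim (fun k => Y k (b k)) (fun _ => 0)) Q‖ < ∏ k, r k := by
  have hR : 0 < ∏ k, r k := Finset.prod_pos fun k _ => (h k).pos
  rw [g7a_exp, g7a_exp1, ← Finset.sum_sub_distrib]
  refine g7a_lt _ _ _ hR fun d _ => ?_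
  rw [← mul_sub, norm_mul]
  refine (mul_le_of_le_one_left (norm_nonneg _) (hQ d)).trans_lt ?_
  by_cases hd : ∀ k : κ, d (Sum.inr k) = 0
  · have e1 : ∏ k : κ, y k ^ (d (Sum.inr k)) = 1 := Finset.prod_eq_one fun k _ => by rw [hd k, pow_zero]
    have e2 : ∏ k : κ, (0 : C) ^ (d (Sum.inr k)) = 1 := Finset.prod_eq_one fun k _ => by rw [hd k, pow_zero]
    rw [e1, e2, one_mul, one_mul]
    exact g7a_diff _ _ _ _ (fun k => (h k).pos) (fun k => (h k).le _) (fun k => (h k).le1 _) (fun k => (h k).lt _)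
  · rw [not_forall] at hd
    obtain ⟨k0, hk0⟩ := hd
    have e2 : ∏ k : κ, (0 : C) ^ (d (Sum.inr k)) = 0 := Finset.prod_eq_zero (Finset.mem_univ k0) (zero_pow hk0)
    rw [e2, zero_mul, sub_zero, norm_mul]
    have e3 : ‖∏ k : κ, y k ^ (d (Sum.inr k))‖ < 1 := by
      classical
      rw [norm_prod, ← Finset.mul_prod_erase Finset.univ _ (Finset.mem_univ k0)]
      have e4 : ‖y k0 ^ (d (Sum.inr k0))‖ < 1 := by
        rw [norm_pow]
        exact pow_lt_one₀ (norm_nonneg _) (hy k0) hk0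
      have e5 : ∏ k ∈ Finset.univ.erase k0, ‖y k ^ (d (Sum.inr k))‖ ≤ 1 := by
        refine Finset.prod_le_one (fun k _ => norm_nonneg _) fun k _ => ?_
        rw [norm_pow]
        exact pow_le_one₀ (norm_nonneg _) (hy k).le
      calc ‖y k0 ^ (d (Sum.inr k0))‖ * ∏ k ∈ Finset.univ.erase k0, ‖y k ^ (d (Sum.inr k))‖ ≤ ‖y k0 ^ (d (Sum.inr k0))‖ * 1 :=
            mul_le_mul_of_nonneg_left e5 (norm_nonneg _)
        _ < 1 := by rwa [mul_one]
    have e6 : ‖∏ k : ι, ∑ b ∈ T k, ψ k b * Y k b ^ (d (Sum.inl k))‖ ≤ ∏ k, r k := by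
      rw [norm_prod]
      exact Finset.prod_le_prod (fun k _ => norm_nonneg _) fun k _ => (h k).le _
    calc _ ≤ ‖∏ k : κ, y k ^ (d (Sum.inr k))‖ * ∏ k, r k := mul_le_mul_of_nonneg_left e6 (norm_nonneg _)
      _ < 1 * ∏ k, r k := mul_lt_mul_of_pos_right e3 hR
      _ = ∏ k, r k := one_mul _

end SSR
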