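import Mathlib
import Pool.Agent.Lib.SSR.G0
import Pool.Agent.Lib.SSR.G6
import Pool.Agent.Lib.SSR.G7

open NumberField

namespace SSR

open SSG

variable {F : Type} [Field F] [NumberField F] {C : Type} [NormedField C] [IsUltrametricDist C] {L : LTF F C} {p : ℕ}

/-! Chunk G8 (M). PROOF. H' (b, x) := H (fun k => x k + b k) is Fn 2 in the variables ι ⊕ ι (g0_comp with c i (inl k) = c i (inr k) = (if k = i then 1 else 0); sums over ι ⊕ ι: Fintype.sum_sum_type). Take Q for ε = half of ‖p‖^(card I + card ι) (> 0):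
‖H (x + b) - Q(X_2(b k) , X_2(x k))‖ ≤ ε for all b, x. Apply g7_par with A = 𝓞 F, T k = T2 or T1, Y k b = X_2 b or X_2 (p b), r k = ‖p‖^2 or ‖p‖ (CG from g6_two resp. g6_res for ψ k and for the trivial character, pos by g1_p0), y k = X_2 (x k) (norm < 1: ok.small). prod r k = ‖p‖^(card I + card ι)
(Finset.prod_ite, prod_pow: 2 card I + (card ι - card I)). At x = 0: X_2 0 = 0 (g1_zero), 0 + b = b. Errors: each of the two finite sums changes by norm ≤ ε (ultrametric; ‖ψ‖ = 1) when H is replaced by Q. Second statement: g7_prod for the polynomial Q with y = 0 substituted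
(or g7_prod with ψ = 1 applied to a polynomial for H itself, variables ι). -/

omit [IsUltrametricDist C] in
theorem g8_psi (hp : p ≠ 0) {ψ : 𝓞 F → C} (hψ : Ach p ψ) (b : 𝓞 F) : ‖ψ b‖ = 1 := by
  have h0 : ψ 0 = 1 := by
    have h := hψ.per 0
    rwa [mul_zero] at h
  have h1 : ∀ n : ℕ, ψ ((n : 𝓞 F) * b) = ψ b ^ n := by
    intro n
    induction n with
    | zero => rw [Nat.cast_zero, zero_mul, pow_zero, h0]
    | succ n ih => rw [Nat.cast_succ, add_mul, one_mul, hψ.add, ih, pow_succ]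
  have h2 : ψ b ^ p = 1 := by rw [← h1, hψ.per]
  have h3 : ‖ψ b‖ ^ p = 1 := by rw [← norm_pow, h2, norm_one]
  exact (pow_eq_one_iff_of_nonneg (norm_nonneg _) hp).1 h3

theorem g8_lt {x y z : C} {R : ℝ} (h1 : ‖x - y‖ < R) (h2 : ‖y - z‖ < R) : ‖x - z‖ < R := by
  have h : x - z = (x - y) + (y - z) := by ring
  rw [h]
  exact lt_of_le_of_lt (IsUltrametricDist.norm_add_le_max _ _) (max_lt h1 h2)

theorem g8_cg (hG : GH p L) {T1 T2 : Finset (𝓞 F)} (h1 : Rep p 1 T1) (h2 : Rep p 2 T2) (P : Prop) [Decidable P] {ψ : 𝓞 F → C}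
    (hψ : Ach p ψ) : CG (if P then T2 else T1) ψ (fun b => L.X 2 (if P then b else (p : 𝓞 F) * b))
      (if P then ‖(p : C)‖ ^ 2 else ‖(p : C)‖) := by
  have hp0 : 0 < ‖(p : C)‖ := norm_pos_iff.2 (g1_p0 hG)
  have htr : Ach p (fun _ : 𝓞 F => (1 : C)) := ⟨fun _ _ => (one_mul 1).symm, fun _ => rfl⟩
  by_cases hP : P
  · simp only [if_pos hP]
    refine ⟨by positivity, fun j => (g6_two hG hψ h2 j).1, fun j => ?_, fun j => (g6_two hG hψ h2 j).2⟩
    have h := (g6_two hG htr h2 j).1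
    simp only [one_mul] at h
    exact h
  · simp only [if_neg hP]
    refine ⟨hp0, fun j => (g6_res hG hψ h1 j).1, fun j => ?_, fun j => (g6_res hG hψ h1 j).2⟩
    have h := (g6_res hG htr h1 j).1
    simp only [one_mul] at h
    exact h

theorem g8_main (hG : GH p L) {ι : Type} [Fintype ι] [DecidableEq ι] {H : (ι → 𝓞 F) → C} (hH : L.Fn 2 ι H) {T1 T2 : Finset (𝓞 F)} (h1 : Rep p 1 T1)
    (h2 : Rep p 2 T2) (I : Finset ι) (ψ : ι → 𝓞 F → C) (hψ : ∀ k, Ach p (ψ k)) (x : ι → 𝓞 F) :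
    ‖∑ b ∈ Fintype.piFinset (fun k => if k ∈ I then T2 else T1), (∏ k, ψ k (b k)) * H (fun k => x k + (if k ∈ I then b k else (p : 𝓞 F) * b k)) -
      ∑ b ∈ Fintype.piFinset (fun k => if k ∈ I then T2 else T1), H (fun k => if k ∈ I then b k else (p : 𝓞 F) * b k)‖ <
      ‖(p : C)‖ ^ (I.card + Fintype.card ι) ∧
    ‖∑ b ∈ Fintype.piFinset (fun k => if k ∈ I then T2 else T1), H (fun k => if k ∈ I then b k else (p : 𝓞 F) * b k)‖ ≤
      ‖(p : C)‖ ^ (I.card + Fintype.card ι) := by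
  classical
  have hp0 : 0 < ‖(p : C)‖ := norm_pos_iff.2 (g1_p0 hG)
  have hpp : p ≠ 0 := hG.prime.ne_zero
  set R : ℝ := ‖(p : C)‖ ^ (I.card + Fintype.card ι) with hR
  have hR0 : 0 < R := by positivity
  have hcg : ∀ k, CG (if k ∈ I then T2 else T1) (ψ k) (fun b => L.X 2 (if k ∈ I then b else (p : 𝓞 F) * b))
      (if k ∈ I then ‖(p : C)‖ ^ 2 else ‖(p : C)‖) := fun k => g8_cg hG h1 h2 (k ∈ I) (hψ k)
  have hprod : ∏ k, (if k ∈ I then ‖(p : C)‖ ^ 2 else ‖(p : C)‖) = R := by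
    have e : ∀ k : ι, (if k ∈ I then ‖(p : C)‖ ^ 2 else ‖(p : C)‖) = (if k ∈ I then ‖(p : C)‖ else 1) * ‖(p : C)‖ := by
      intro k
      by_cases h : k ∈ I
      · rw [if_pos h, if_pos h, pow_two]
      · rw [if_neg h, if_neg h, one_mul]
    rw [Finset.prod_congr rfl fun k _ => e k, Finset.prod_mul_distrib, Finset.prod_ite_mem, Finset.univ_inter,
      Finset.prod_const, Finset.prod_const, Finset.card_univ, hR, pow_add]
  have hε : 0 < R / 2 := half_pos hR0
  have hεR : R / 2 < R := half_lt_self hR0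
  have hone : ∀ b : ι → 𝓞 F, ‖∏ k, ψ k (b k)‖ = 1 := by
    intro b
    rw [norm_prod]
    exact Finset.prod_eq_one fun k _ => g8_psi hpp (hψ k) (b k)
  -- the second statement
  obtain ⟨Q', hQ1', hQ2'⟩ := hH (R / 2) hε
  have hB : ‖∑ b ∈ Fintype.piFinset (fun k => if k ∈ I then T2 else T1), H (fun k => if k ∈ I then b k else (p : 𝓞 F) * b k)‖ ≤ R := by
    have e1 := (g7_prod _ ψ _ _ hcg Q' hQ1').2.1
    rw [hprod] at e1
    have e2 : ‖∑ b ∈ Fintype.piFinset (fun k => if k ∈ I then T2 else T1), H (fun k => if k ∈ I then b k else (p : 𝓞 F) * b k) -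
        ∑ b ∈ Fintype.piFinset (fun k => if k ∈ I then T2 else T1),
          MvPolynomial.eval (fun k => L.X 2 (if k ∈ I then b k else (p : 𝓞 F) * b k)) Q'‖ ≤ R := by
      rw [← Finset.sum_sub_distrib]
      exact IsUltrametricDist.norm_sum_le_of_forall_le_of_nonneg hR0.le fun b _ => (hQ2' _).trans hεR.le
    have e3 := (IsUltrametricDist.norm_add_le_max _ _).trans (max_le e2 e1)
    rwa [sub_add_cancel] at e3
  refine ⟨?_, hB⟩
  -- the first statement
  have hc := g0_comp hG.ok.small hG.lin hH (fun i : ι => (Sum.elim (fun k : ι => if k = i then (1 : 𝓞 F) else 0)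
    (fun k : ι => if k = i then (1 : 𝓞 F) else 0) : ι ⊕ ι → 𝓞 F))
  obtain ⟨Q, hQ1, hQ2⟩ := hc (R / 2) hε
  have hQ3 : ∀ a x : ι → 𝓞 F, ‖H (fun k => x k + a k) - MvPolynomial.eval (Sum.elim (fun k => L.X 2 (a k)) fun k => L.X 2 (x k)) Q‖ ≤ R / 2 := by
    intro a x
    have e1 := hQ2 (Sum.elim a x)
    have e2 : (fun i : ι => ∑ k : ι ⊕ ι, (Sum.elim (fun k : ι => if k = i then (1 : 𝓞 F) else 0)
        (fun k : ι => if k = i then (1 : 𝓞 F) else 0) : ι ⊕ ι → 𝓞 F) k * (Sum.elim a x : ι ⊕ ι → 𝓞 F) k) = fun k => x k + a k := by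
      funext i
      rw [Fintype.sum_sum_type]
      simp only [Sum.elim_inl, Sum.elim_inr, ite_mul, one_mul, zero_mul, Finset.sum_ite_eq', Finset.mem_univ, if_true]
      exact add_comm _ _
    have e3 : (fun i : ι ⊕ ι => L.X 2 ((Sum.elim a x : ι ⊕ ι → 𝓞 F) i)) = Sum.elim (fun k => L.X 2 (a k)) fun k => L.X 2 (x k) := by
      funext i
      rcases i with i | i <;> rfl
    beta_reduce at e1
    rw [e2, e3] at e1
    exact e1
  have hpar := g7_par _ ψ _ _ hcg Q hQ1 (fun k => L.X 2 (x k)) (fun k => hG.ok.small 2 (x k))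
  rw [hprod] at hpar
  refine g8_lt (y := ∑ b ∈ Fintype.piFinset (fun k => if k ∈ I then T2 else T1), (∏ k, ψ k (b k)) *
    MvPolynomial.eval (Sum.elim (fun k => L.X 2 (if k ∈ I then b k else (p : 𝓞 F) * b k)) fun k => L.X 2 (x k)) Q) ?_
    (g8_lt hpar ?_)
  · refine lt_of_le_of_lt ?_ hεR
    rw [← Finset.sum_sub_distrib]
    refine IsUltrametricDist.norm_sum_le_of_forall_le_of_nonneg hε.le fun b _ => ?_
    rw [← mul_sub, norm_mul, hone b, one_mul]
    exact hQ3 _ x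
  · refine lt_of_le_of_lt ?_ hεR
    rw [← Finset.sum_sub_distrib]
    refine IsUltrametricDist.norm_sum_le_of_forall_le_of_nonneg hε.le fun b _ => ?_
    have e1 := hQ3 (fun k => if k ∈ I then b k else (p : 𝓞 F) * b k) (fun _ => 0)
    simp only [zero_add, g1_zero hG 2] at e1
    rw [norm_sub_rev]
    exact e1

end SSR
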