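import Mathlib
import Pool.Agent.Lib.SSR.HD

open NumberField IsDedekindDomain

namespace SSR

open SSG (Rep)

variable {F : Type} [Field F] [NumberField F] {p : ℕ} {ι : Type} [Fintype ι] [DecidableEq ι]

/-! Chunk H2A (M). PROOF. One coordinate: for k in I: x k = 0 and b in T2: nothing to do. For k not in I: (x, b) ↦ the element of T2 congruent to x + p b modulo p^2 is a bijection from T1 × T1 onto T2 (x = representative of a modulo p, then b = representative of (a - x)/p modulo p; injective: x + p b = x' + p b'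
modulo p^2 implies x = x' modulo p, so x = x', p (b - b') divisible by p^2, p ≠ 0). All coordinates: the map (x, b) ↦ a, a k = the element of T2 congruent to x k + ub b k, from piFinset A × piFinset B to piFinset T2 is a bijection (Finset.sum_product', Finset.sum_bij' or sum_nbij'), and G has the
same value at a and x + ub b by periodicity. -/

theorem h2_split {M : Type} [AddCommMonoid M] (hp : p.Prime) {T1 T2 : Finset (𝓞 F)} (h1 : Rep p 1 T1) (h2 : Rep p 2 T2) (I : Finset ι)
    (G : (ι → 𝓞 F) → M) (hG : ∀ a b : ι → 𝓞 F, (∀ k, (p : 𝓞 F) ^ 2 ∣ a k - b k) → G a = G b) :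
    ∑ a ∈ Fintype.piFinset (fun _ : ι => T2), G a =
      ∑ x ∈ Fintype.piFinset (fun k : ι => if k ∈ I then ({0} : Finset (𝓞 F)) else T1),
        ∑ b ∈ Fintype.piFinset (fun k : ι => if k ∈ I then T2 else T1), G (fun k => x k + ub p I b k) := by
  classical
  have hp0 : (p : 𝓞 F) ≠ 0 := by exact_mod_cast hp.ne_zero
  have h1' := h1
  have h2' := h2
  choose r1 hr1 _ using h1'
  choose r2 hr2 _ using h2'
  have hu1 : ∀ a b : 𝓞 F, a ∈ T1 → b ∈ T1 → (p : 𝓞 F) ∣ a - b → a = b := by
    intro a b ha hb h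
    refine (h1 a).unique ⟨ha, ?_⟩ ⟨hb, ?_⟩
    · rw [sub_self]; exact dvd_zero _
    · rw [pow_one]; exact h
  have hu2 : ∀ a b : 𝓞 F, a ∈ T2 → b ∈ T2 → (p : 𝓞 F) ^ 2 ∣ a - b → a = b := by
    intro a b ha hb h
    refine (h2 a).unique ⟨ha, ?_⟩ ⟨hb, h⟩
    rw [sub_self]; exact dvd_zero _
  have hA : ∀ x : ι → 𝓞 F, x ∈ Fintype.piFinset (fun k : ι => if k ∈ I then ({0} : Finset (𝓞 F)) else T1) ↔
      ∀ k, (k ∈ I → x k = 0) ∧ (k ∉ I → x k ∈ T1) := by
    intro x
    rw [Fintype.mem_piFinset]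
    refine forall_congr' fun k => ?_
    by_cases hk : k ∈ I
    · rw [if_pos hk, Finset.mem_singleton]
      exact ⟨fun h => ⟨fun _ => h, fun h' => absurd hk h'⟩, fun h => h.1 hk⟩
    · rw [if_neg hk]
      exact ⟨fun h => ⟨fun h' => absurd h' hk, fun _ => h⟩, fun h => h.2 hk⟩
  have hB : ∀ b : ι → 𝓞 F, b ∈ Fintype.piFinset (fun k : ι => if k ∈ I then T2 else T1) ↔
      ∀ k, (k ∈ I → b k ∈ T2) ∧ (k ∉ I → b k ∈ T1) := by
    intro b
    rw [Fintype.mem_piFinset]
    refine forall_congr' fun k => ?_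
    by_cases hk : k ∈ I
    · rw [if_pos hk]
      exact ⟨fun h => ⟨fun _ => h, fun h' => absurd hk h'⟩, fun h => h.1 hk⟩
    · rw [if_neg hk]
      exact ⟨fun h => ⟨fun h' => absurd h' hk, fun _ => h⟩, fun h => h.2 hk⟩
  refine Eq.trans ?_ (Finset.sum_product' _ _ (fun (x b : ι → 𝓞 F) => G (fun k => x k + ub p I b k)))
  symm
  refine Finset.sum_bij (fun q _ => fun k => r2 (q.1 k + ub p I q.2 k)) ?_ ?_ ?_ ?_
  · intro q _
    exact Fintype.mem_piFinset.2 fun k => (hr2 _).1
  · rintro ⟨x, b⟩ hq ⟨x', b'⟩ hq' h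
    obtain ⟨hx, hb⟩ := Finset.mem_product.1 hq
    obtain ⟨hx', hb'⟩ := Finset.mem_product.1 hq'
    have hx := (hA x).1 hx
    have hb := (hB b).1 hb
    have hx' := (hA x').1 hx'
    have hb' := (hB b').1 hb'
    have key : ∀ k, x k = x' k ∧ b k = b' k := by
      intro k
      have e1 : r2 (x k + ub p I b k) = r2 (x' k + ub p I b' k) := congrFun h k
      have e2 : (p : 𝓞 F) ^ 2 ∣ (x k + ub p I b k) - (x' k + ub p I b' k) := by
        have e3 := dvd_sub (hr2 (x k + ub p I b k)).2 (hr2 (x' k + ub p I b' k)).2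
        rw [e1] at e3
        have e4 : x k + ub p I b k - r2 (x' k + ub p I b' k) - (x' k + ub p I b' k - r2 (x' k + ub p I b' k)) =
          (x k + ub p I b k) - (x' k + ub p I b' k) := by ring
        rwa [e4] at e3
      unfold ub at e2
      by_cases hk : k ∈ I
      · rw [if_pos hk, if_pos hk, (hx k).1 hk, (hx' k).1 hk, zero_add, zero_add] at e2
        exact ⟨((hx k).1 hk).trans ((hx' k).1 hk).symm, hu2 _ _ ((hb k).1 hk) ((hb' k).1 hk) e2⟩
      · rw [if_neg hk, if_neg hk] at e2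
        obtain ⟨t, ht⟩ := e2
        have e5 : x k = x' k := by
          refine hu1 _ _ ((hx k).2 hk) ((hx' k).2 hk) ⟨(p : 𝓞 F) * t - (b k - b' k), ?_⟩
          have e6 : x k - x' k = (x k + (p : 𝓞 F) * b k - (x' k + (p : 𝓞 F) * b' k)) - (p : 𝓞 F) * (b k - b' k) := by ring
          rw [e6, ht]
          ring
        refine ⟨e5, hu1 _ _ ((hb k).2 hk) ((hb' k).2 hk) ⟨t, ?_⟩⟩
        have e7 : (p : 𝓞 F) * (b k - b' k) = (p : 𝓞 F) * ((p : 𝓞 F) * t) := by
          have e8 : (p : 𝓞 F) * (b k - b' k) = x k + (p : 𝓞 F) * b k - (x' k + (p : 𝓞 F) * b' k) := by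
            rw [e5]
            ring
          rw [e8, ht]
          ring
        exact mul_left_cancel₀ hp0 e7
    exact Prod.ext (funext fun k => (key k).1) (funext fun k => (key k).2)
  · intro a ha
    have ha := Fintype.mem_piFinset.1 ha
    have hc : ∀ k, ∃ c : 𝓞 F, a k - r1 (a k) = (p : 𝓞 F) * c := by
      intro k
      have h := (hr1 (a k)).2
      rw [pow_one] at h
      exact h
    choose c hc using hc
    refine ⟨(fun k => if k ∈ I then 0 else r1 (a k), fun k => if k ∈ I then a k else r1 (c k)), ?_, ?_⟩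
    · refine Finset.mem_product.2 ⟨(hA _).2 fun k => ⟨fun hk => if_pos hk, fun hk => ?_⟩,
        (hB _).2 fun k => ⟨fun hk => ?_, fun hk => ?_⟩⟩
      · change (if k ∈ I then 0 else r1 (a k)) ∈ T1
        rw [if_neg hk]
        exact (hr1 _).1
      · change (if k ∈ I then a k else r1 (c k)) ∈ T2
        rw [if_pos hk]
        exact ha k
      · change (if k ∈ I then a k else r1 (c k)) ∈ T1
        rw [if_neg hk]
        exact (hr1 _).1
    · funext k
      change r2 ((if k ∈ I then 0 else r1 (a k)) + ub p I (fun k => if k ∈ I then a k else r1 (c k)) k) = a k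
      unfold ub
      by_cases hk : k ∈ I
      · simp only [if_pos hk]
        rw [zero_add]
        refine hu2 _ _ (hr2 _).1 (ha k) ?_
        have h := (hr2 (a k)).2
        rw [← dvd_neg, neg_sub] at h
        exact h
      · simp only [if_neg hk]
        refine hu2 _ _ (hr2 _).1 (ha k) ?_
        have h := (hr2 (r1 (a k) + (p : 𝓞 F) * r1 (c k))).2
        have h3 := (hr1 (c k)).2
        rw [pow_one] at h3
        obtain ⟨t, ht⟩ := h3
        obtain ⟨t', ht'⟩ := h
        refine ⟨-t - t', ?_⟩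
        have e1 : r2 (r1 (a k) + (p : 𝓞 F) * r1 (c k)) - a k =
            -(a k - r1 (a k)) + (p : 𝓞 F) * r1 (c k) - (r1 (a k) + (p : 𝓞 F) * r1 (c k) - r2 (r1 (a k) + (p : 𝓞 F) * r1 (c k))) := by
          ring
        have e2 : r1 (c k) = c k - (p : 𝓞 F) * t := by rw [← ht]; ring
        rw [e1, ht', hc k]
        rw [e2]
        ring
  · rintro ⟨x, b⟩ _
    exact hG _ _ fun k => (hr2 _).2

end SSR
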