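import Mathlib
import Pool.Agent.Lib.SSR.G8
import Pool.Agent.Lib.SSR.H2A

open NumberField IsDedekindDomain

namespace SSR

open SSG

variable {F : Type} [Field F] [NumberField F] {C : Type} [NormedField C] [IsUltrametricDist C] {L : LTF F C} {p : ℕ} {ι : Type} [Fintype ι]
  [DecidableEq ι]

/-! Chunk H2 (M). PROOF. H is periodic modulo p^2 (L.Fn and ok.inj: SSG Fn_per or a4_per in SSG/E/A4: ‖H a - H b‖ ≤ ε for all ε). h2_split for G = Φ H. For each x: the inner sum is Φ x * Σ_b (prod ψ) H(x + ub b) (step), and by g8_main (unfold ub) it differs from Φ x * S, S = Σ_b H (ub b), by norm < ‖p‖^r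
(‖Φ x‖ ≤ 1). So the total differs from (Σ_x Φ x) S by < ‖p‖^r (finite ultrametric sum, 0 < ‖p‖^r). Each Φ x is 0 or has Φ x^p = 1, then ‖Φ x - 1‖ < 1 (g4_root in G4A: ‖ζ - 1‖^(p-1) ≤ ‖p‖ < 1). So Σ_x Φ x = n + (norm < 1) with n the number of x with Φ x ≠ 0, and ‖S‖ ≤ ‖p‖^r. -/

omit [DecidableEq ι] in
theorem h2_per (hG : GH p L) {H : (ι → 𝓞 F) → C} (hH : L.Fn 2 ι H) (a b : ι → 𝓞 F) (h : ∀ k, (p : 𝓞 F) ^ 2 ∣ a k - b k) :
    H a = H b := by
  have hX : (fun k => L.X 2 (a k)) = fun k => L.X 2 (b k) := funext fun k => (hG.ok.inj 2 _ _).2 (h k)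
  rw [← sub_eq_zero, ← norm_eq_zero]
  refine le_antisymm (le_of_forall_pos_le_add fun ε hε => ?_) (norm_nonneg _)
  obtain ⟨Q, _, hQ⟩ := hH ε hε
  have h1 := hQ a
  have h2 := hQ b
  rw [hX] at h1
  have e : H a - H b = (H a - MvPolynomial.eval (fun k => L.X 2 (b k)) Q) - (H b - MvPolynomial.eval (fun k => L.X 2 (b k)) Q) := by ring
  rw [zero_add, e, sub_eq_add_neg]
  refine (IsUltrametricDist.norm_add_le_max _ _).trans (max_le h1 ?_)
  rw [norm_neg]
  exact h2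

theorem h2_lt {x y : C} {r : ℝ} (hx : ‖x‖ < r) (hy : ‖y‖ < r) : ‖x + y‖ < r :=
  lt_of_le_of_lt (IsUltrametricDist.norm_add_le_max _ _) (max_lt hx hy)

theorem h2_sum {A : Type} (s : Finset A) (f : A → C) {r : ℝ} (hr : 0 < r) (h : ∀ a ∈ s, ‖f a‖ < r) : ‖∑ a ∈ s, f a‖ < r := by
  classical
  induction s using Finset.induction_on with
  | empty => rw [Finset.sum_empty, norm_zero]; exact hr
  | insert a s ha ih =>
    rw [Finset.sum_insert ha]
    exact h2_lt (h a (Finset.mem_insert_self a s)) (ih fun b hb => h b (Finset.mem_insert_of_mem hb))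

open Classical in
theorem h2_main (hG : GH p L) {T1 T2 : Finset (𝓞 F)} (h1 : Rep p 1 T1) (h2 : Rep p 2 T2) {I : Finset ι} {Φ : (ι → 𝓞 F) → C} (hΦ : WtP p I Φ)
    {H : (ι → 𝓞 F) → C} (hH : L.Fn 2 ι H) :
    ‖∑ a ∈ Fintype.piFinset (fun _ : ι => T2), Φ a * H a -
      ((((Fintype.piFinset (fun k : ι => if k ∈ I then ({0} : Finset (𝓞 F)) else T1)).filter fun x => Φ x ≠ 0).card : ℕ) : C) *
        ∑ b ∈ Fintype.piFinset (fun k : ι => if k ∈ I then T2 else T1), H (ub p I b)‖ < ‖(p : C)‖ ^ (I.card + Fintype.card ι) := by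
  have hp0 : 0 < ‖(p : C)‖ := norm_pos_iff.2 (g1_p0 hG)
  set R : ℝ := ‖(p : C)‖ ^ (I.card + Fintype.card ι) with hR
  have hR0 : 0 < R := by positivity
  set A := Fintype.piFinset (fun k : ι => if k ∈ I then ({0} : Finset (𝓞 F)) else T1) with hA
  set S : C := ∑ b ∈ Fintype.piFinset (fun k : ι => if k ∈ I then T2 else T1), H (ub p I b) with hS
  have hSle : ‖S‖ ≤ R := (g8_main hG hH h1 h2 I (fun _ _ => 1) (fun _ => ⟨fun _ _ => (one_mul 1).symm, fun _ => rfl⟩) (fun _ => 0)).2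
  have hΦ1 : ∀ x, ‖Φ x‖ ≤ 1 := by
    intro x
    rcases hΦ.val x with h | h
    · rw [h, norm_zero]; exact zero_le_one
    · have h3 : ‖Φ x‖ ^ p = 1 := by rw [← norm_pow, h, norm_one]
      exact ((pow_eq_one_iff_of_nonneg (norm_nonneg _) hG.prime.ne_zero).1 h3).le
  have hΦ2 : ∀ x, Φ x ≠ 0 → ‖Φ x - 1‖ < 1 := by
    intro x hx
    have h := (hΦ.val x).resolve_left hx
    have h3 := lt_of_le_of_lt (g4_root hG.prime hG.lt h) hG.lt
    by_contra h4
    rw [not_lt] at h4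
    exact absurd (one_le_pow₀ h4) (not_le.2 h3)
  rw [h2_split hG.prime h1 h2 I (fun a => Φ a * H a) (fun a b h => by rw [hΦ.per a b h, h2_per hG hH a b h])]
  -- the inner sums
  have hin : ∀ x ∈ A, ‖(∑ b ∈ Fintype.piFinset (fun k : ι => if k ∈ I then T2 else T1),
      Φ (fun k => x k + ub p I b k) * H (fun k => x k + ub p I b k)) - Φ x * S‖ < R := by
    intro x _
    obtain ⟨ψ, hψ, hst⟩ := hΦ.step x
    have h3 := (g8_main hG hH h1 h2 I ψ hψ x).1
    have e1 : (∑ b ∈ Fintype.piFinset (fun k : ι => if k ∈ I then T2 else T1),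
        Φ (fun k => x k + ub p I b k) * H (fun k => x k + ub p I b k)) =
        Φ x * ∑ b ∈ Fintype.piFinset (fun k : ι => if k ∈ I then T2 else T1),
          (∏ k, ψ k (b k)) * H (fun k => x k + ub p I b k) := by
      rw [Finset.mul_sum]
      refine Finset.sum_congr rfl fun b _ => ?_
      rw [hst b, mul_assoc]
    rw [e1, ← mul_sub, norm_mul]
    refine lt_of_le_of_lt (mul_le_of_le_one_left (norm_nonneg _) (hΦ1 x)) ?_
    exact h3
  have h4 := h2_sum A _ hR0 hin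
  rw [Finset.sum_sub_distrib, ← Finset.sum_mul] at h4
  have h5 : ‖∑ x ∈ A, Φ x - (((A.filter fun x => Φ x ≠ 0).card : ℕ) : C)‖ < 1 := by
    have e2 : ∑ x ∈ A, Φ x - (((A.filter fun x => Φ x ≠ 0).card : ℕ) : C) =
        ∑ x ∈ A.filter (fun x => Φ x ≠ 0), (Φ x - 1) := by
      rw [Finset.sum_sub_distrib, Finset.sum_const, nsmul_eq_mul, mul_one, Finset.sum_filter_ne_zero]
    rw [e2]
    exact h2_sum _ _ one_pos fun x hx => hΦ2 x (Finset.mem_filter.1 hx).2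
  have h6 : ‖(∑ x ∈ A, Φ x - (((A.filter fun x => Φ x ≠ 0).card : ℕ) : C)) * S‖ < R := by
    rw [norm_mul]
    rcases eq_or_lt_of_le (norm_nonneg S) with h7 | h7
    · rw [← h7, mul_zero]; exact hR0
    · exact lt_of_lt_of_le (mul_lt_of_lt_one_left h7 h5) hSle
  have h8 := h2_lt h4 h6
  have e3 : (∑ x ∈ A, ∑ b ∈ Fintype.piFinset (fun k : ι => if k ∈ I then T2 else T1),
      Φ (fun k => x k + ub p I b k) * H (fun k => x k + ub p I b k)) - (∑ x ∈ A, Φ x) * S +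
      (∑ x ∈ A, Φ x - (((A.filter fun x => Φ x ≠ 0).card : ℕ) : C)) * S =
      (∑ x ∈ A, ∑ b ∈ Fintype.piFinset (fun k : ι => if k ∈ I then T2 else T1),
      Φ (fun k => x k + ub p I b k) * H (fun k => x k + ub p I b k)) - (((A.filter fun x => Φ x ≠ 0).card : ℕ) : C) * S := by
    ring
  rw [e3] at h8
  exact h8

theorem h2_int (hG : GH p L) {T1 T2 : Finset (𝓞 F)} (h1 : Rep p 1 T1) (h2 : Rep p 2 T2) (I : Finset ι) {H : (ι → 𝓞 F) → C} (hH : L.Fn 2 ι H) :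
    ‖∑ b ∈ Fintype.piFinset (fun k : ι => if k ∈ I then T2 else T1), H (ub p I b)‖ ≤ ‖(p : C)‖ ^ (I.card + Fintype.card ι) := by
  exact (g8_main hG hH h1 h2 I (fun _ _ => 1) (fun _ => ⟨fun _ _ => (one_mul 1).symm, fun _ => rfl⟩) (fun _ => 0)).2

end SSR
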