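import Mathlib
import Pool.Agent.Lib.SSR.HD

open NumberField IsDedekindDomain

namespace SSR

variable {F : Type} [Field F] [NumberField F] {K : Type} [Field K] [NumberField K] [Algebra F K] {m p : ℕ} {P : Ideal (𝓞 K)} {ω₀ : Fin (m + 1) → 𝓞 K} {I : Finset (Fin (m + 1))}

/-! Chunk H1B (S). PROOF. two: apply span to x and to t: x = Σ (a + p a') ω₀ + p^2 t'. ind2: p^2 | Σ a ω₀ implies p | Σ a ω₀, so a s = p a' s (ind, choose), Σ a ω₀ = p Σ a' ω₀, cancel p (p ≠ 0 in 𝓞 K, domain): p | Σ a' ω₀, so p | a' s. iff: if p | a s for s ∉ I then each term is in P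
(mem, pmem); conversely sub. ub_mem: terms. ub_ex: if Σ a ω₀ is in P then a = ub p I b for some b (sub; b s = a s for s in I). -/

theorem adp_two (hA : Adp F p P ω₀ I) (x : 𝓞 K) :
    ∃ (a : Fin (m + 1) → 𝓞 F) (t : 𝓞 K), x = ∑ s, algebraMap (𝓞 F) (𝓞 K) (a s) * ω₀ s + (p : 𝓞 K) ^ 2 * t := by
  obtain ⟨a, t, h1⟩ := hA.span x
  obtain ⟨a', t', h2⟩ := hA.span t
  refine ⟨fun s => a s + (p : 𝓞 F) * a' s, t', ?_⟩
  have e : ∑ s, algebraMap (𝓞 F) (𝓞 K) (a s + (p : 𝓞 F) * a' s) * ω₀ s =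
      ∑ s, algebraMap (𝓞 F) (𝓞 K) (a s) * ω₀ s + (p : 𝓞 K) * ∑ s, algebraMap (𝓞 F) (𝓞 K) (a' s) * ω₀ s := by
    rw [Finset.mul_sum, ← Finset.sum_add_distrib]
    refine Finset.sum_congr rfl fun s _ => ?_
    rw [map_add, map_mul, map_natCast]
    ring
  rw [e, h1, h2]
  ring

theorem adp_ind2 (hp : p.Prime) (hA : Adp F p P ω₀ I) (a : Fin (m + 1) → 𝓞 F) (h : (p : 𝓞 K) ^ 2 ∣ ∑ s, algebraMap (𝓞 F) (𝓞 K) (a s) * ω₀ s) :
    ∀ s, (p : 𝓞 F) ^ 2 ∣ a s := by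
  have hp0 : (p : 𝓞 K) ≠ 0 := Nat.cast_ne_zero.2 hp.ne_zero
  have h1 := hA.ind a ((dvd_pow_self _ two_ne_zero).trans h)
  choose a' ha' using h1
  have e : ∑ s, algebraMap (𝓞 F) (𝓞 K) (a s) * ω₀ s =
      (p : 𝓞 K) * ∑ s, algebraMap (𝓞 F) (𝓞 K) (a' s) * ω₀ s := by
    rw [Finset.mul_sum]
    refine Finset.sum_congr rfl fun s _ => ?_
    rw [ha' s, map_mul, map_natCast]
    ring
  rw [e, pow_two, mul_dvd_mul_iff_left hp0] at h
  intro s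
  rw [ha' s, pow_two]
  exact mul_dvd_mul_left _ (hA.ind a' h s)

theorem adp_iff (hA : Adp F p P ω₀ I) (a : Fin (m + 1) → 𝓞 F) :
    ∑ s, algebraMap (𝓞 F) (𝓞 K) (a s) * ω₀ s ∈ P ↔ ∀ s, s ∉ I → (p : 𝓞 F) ∣ a s := by
  refine ⟨hA.sub a, fun h => Ideal.sum_mem _ fun s _ => ?_⟩
  by_cases hs : s ∈ I
  · exact Ideal.mul_mem_left _ _ (hA.mem s hs)
  · obtain ⟨c, hc⟩ := h s hs
    rw [hc, map_mul, map_natCast, mul_assoc]
    exact Ideal.mul_mem_right _ _ hA.pmem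

theorem adp_ub (hA : Adp F p P ω₀ I) (b : Fin (m + 1) → 𝓞 F) : ∑ s, algebraMap (𝓞 F) (𝓞 K) (ub p I b s) * ω₀ s ∈ P := by
  refine (adp_iff hA _).2 fun s hs => ?_
  unfold ub
  rw [if_neg hs]
  exact dvd_mul_right _ _

theorem adp_ex (hA : Adp F p P ω₀ I) (a : Fin (m + 1) → 𝓞 F) (h : ∑ s, algebraMap (𝓞 F) (𝓞 K) (a s) * ω₀ s ∈ P) : ∃ b, a = ub p I b := by
  have h1 := (adp_iff hA a).1 h
  have h2 : ∀ s, ∃ c, s ∉ I → a s = (p : 𝓞 F) * c := by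
    intro s
    by_cases hs : s ∈ I
    · exact ⟨0, fun h => absurd hs h⟩
    · obtain ⟨c, hc⟩ := h1 s hs
      exact ⟨c, fun _ => hc⟩
  choose c hc using h2
  refine ⟨fun s => if s ∈ I then a s else c s, ?_⟩
  funext s
  unfold ub
  by_cases hs : s ∈ I
  · rw [if_pos hs]
    exact (if_pos hs).symm
  · rw [if_neg hs]
    refine (hc s hs).trans ?_
    congr 1
    exact (if_neg hs).symm

end SSR
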