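import Mathlib
import Pool.Agent.Lib.SSR.H1B
import Pool.Agent.Lib.H55N.Defs

open NumberField IsDedekindDomain

namespace SSR

open H55N (XS)

variable {F : Type} [Field F] [NumberField F] {K : Type} [Field K] [NumberField K] [Algebra F K] {m p : ℕ} {C : Type} [NormedField C]
  {f : Ideal (𝓞 K)} {R : Finset (HeightOneSpectrum (𝓞 K))} {χ : Ideal (𝓞 K) →*₀ C} {ω₀ : Fin (m + 1) → 𝓞 K} {I : Finset (Fin (m + 1))}
  {I₀ : Ideal (𝓞 K)} {c₀ : 𝓞 K}

/-! Chunk H3 (M). PROOF. P = prod over R of v (contains p: hA.pmem; if R is empty P = 1). h3_lift: I₀ + (p^2) = 1 (coprime to a power): for x choose x' ∈ XS I₀ c₀ (x' - c₀ ∈ I₀) with x' - x ∈ (p^2) (Chinese remainder: 1 = i + p^2 t, x' = x i' ... e.g. x' = c₀ + (x - c₀) p2-complement).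
Put X a := Σ a ω₀ and Φ a := χ (span {x'}) for x = X a. Let g = f * prod v^2.
(0) p^2 ∈ prod v^2 (p in every v; prod v^2 = P^2, hA.pmem: p ∈ P gives p^2 ∈ P^2). If y, z ∈ XS I₀ c₀ and y - z ∈ P^2 then y - z ∈ I₀ ⊓ P^2 ≤ f ⊓ P^2 = f P^2 = g (f is coprime to (p), P contains p: f, P^2 coprime).
(1) for y, z ∈ XS I₀ c₀ with y - z ∈ P^2: χ (y) = χ (z): both coprime to f (hcop). If (y) is coprime to f P: per (y ≠ 0, z ≠ 0: 0 is not coprime to f P unless f P = 1; if f P = 1: then g = 1; treat: if y = 0 then span {0} coprime to f P means f P = ⊤, R empty, f = ⊤; the hypothesis hne: 0 ∉ XS I₀ c₀ excludes it).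
Otherwise (z) is not coprime to f P either (y - z ∈ P, (z) coprime to f) and both values are 0 (zero).
per: if a = b modulo p^2 then X a - X b ∈ (p^2) and the lifts differ by an element of (p^2) ≤ P^2: (1). The second conclusion: x ∈ XS, p^2 | x - X a: x and the lift of X a differ by a multiple of p^2: (1).
val: zero or val. Third conclusion: Φ a ≠ 0 iff the lift x' is coprime to f P iff x' is in no v ∈ R (coprime to f known; a prime power/product: IsCoprime with a product of maximal ideals) iff X a ∉ v for all v ∈ R (x' - X a ∈ (p^2) ⊆ v).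
step: given a. If Φ a = 0: some v ∈ R contains X a, then X (a + ub b) = X a + (element of P) ∈ v (adp_ub): Φ = 0, ψ = 1. If Φ a ≠ 0: for y ∈ P let y' be a lift: y' ∈ I₀, y' - y ∈ (p^2) (so y' ∈ P ⊓ I₀), x' + y' is a lift of X a + y. Put θ y := χ (x' + y') / χ (x') (well defined by (1)).
θ (y + z) = θ y θ z for y, z ∈ P: (x' + y')(x' + z') = x' (x' + y' + z') + y' z', y' z' ∈ P^2 I₀ ≤ g, all four numbers are coprime to f P, χ multiplicative on principal ideals and per: χ (x' + y') χ (x' + z') = χ (x') χ (x' + y' + z').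
θ y = 1 for y ∈ P^2 (1). Now ψ k (b) := θ (algebraMap (ub-entry of b at k) * ω₀ k), i.e. θ (b ω₀ k) for k ∈ I (ω₀ k ∈ P), θ (p b ω₀ k) for k ∉ I. Ach: add from θ; per: ψ k (p b) = θ (element of p P ≤ P^2) = 1. Φ (a + ub b) = Φ a θ (Σ_k ..) = Φ a prod_k ψ k (b k) (finite induction). -/

theorem h3_lift (hI : IsCoprime I₀ (Ideal.span {(p : 𝓞 K)})) (c₀ x : 𝓞 K) : ∃ x' ∈ XS I₀ c₀, (p : 𝓞 K) ^ 2 ∣ x' - x := by
  have h1 : IsCoprime I₀ (Ideal.span {(p : 𝓞 K)} ^ 2) := hI.pow_right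
  rw [Ideal.span_singleton_pow] at h1
  obtain ⟨i, hi, j, hj, hij⟩ := Ideal.isCoprime_iff_exists.1 h1
  rw [Ideal.mem_span_singleton] at hj
  refine ⟨c₀ * j + x * i, ?_, ?_⟩
  · show c₀ * j + x * i - c₀ ∈ I₀
    have h2 : c₀ * j + x * i - c₀ = (x - c₀) * i := by
      have h3 : j = 1 - i := by rw [← hij]; ring
      rw [h3]; ring
    rw [h2]
    exact Ideal.mul_mem_left _ _ hi
  · have h2 : c₀ * j + x * i - x = (c₀ - x) * j := by
      have h3 : i = 1 - j := by rw [← hij]; ring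
      rw [h3]; ring
    rw [h2]
    exact dvd_mul_of_dvd_right hj _

theorem h3_a_v (v : HeightOneSpectrum (𝓞 K)) (y : 𝓞 K) :
    IsCoprime (Ideal.span {y}) v.asIdeal ↔ y ∉ v.asIdeal := by
  rw [Ideal.isCoprime_iff_sup_eq]
  constructor
  · intro h hy
    rw [sup_eq_right.2 ((Ideal.span_singleton_le_iff_mem _).2 hy)] at h
    exact v.isPrime.ne_top h
  · intro h
    refine v.isMaximal.1.2 _ (lt_of_le_of_ne le_sup_right ?_)
    intro h2
    apply h
    rw [h2]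
    exact Ideal.mem_sup_left (Ideal.mem_span_singleton_self y)

theorem h3_a_cop (hcop : ∀ x ∈ XS I₀ c₀, IsCoprime (Ideal.span {x}) f) {y : 𝓞 K} (hy : y ∈ XS I₀ c₀) :
    IsCoprime (Ideal.span {y}) (f * ∏ v ∈ R, v.asIdeal) ↔ ∀ v ∈ R, y ∉ v.asIdeal := by
  constructor
  · intro h v hv
    have h1 := IsCoprime.of_mul_right_right h
    rw [IsCoprime.prod_right_iff] at h1
    exact (h3_a_v v y).1 (h1 v hv)
  · intro h
    exact IsCoprime.mul_right (hcop y hy) (IsCoprime.prod_right fun v hv => (h3_a_v v y).2 (h v hv))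

theorem h3_a_inf (hA : (p : 𝓞 K) ∈ ∏ v ∈ R, v.asIdeal) (hχ : PChG p f R χ) {x : 𝓞 K} (h1 : x ∈ f)
    (h2 : x ∈ (∏ v ∈ R, v.asIdeal) ^ 2) : x ∈ f * ∏ v ∈ R, v.asIdeal ^ 2 := by
  have h3 : IsCoprime f (∏ v ∈ R, v.asIdeal) := by
    have h4 := hχ.cop
    rw [Ideal.isCoprime_iff_sup_eq] at h4 ⊢
    rw [eq_top_iff, ← h4]
    exact sup_le_sup_left ((Ideal.span_singleton_le_iff_mem _).2 hA) _
  rw [Finset.prod_pow, ← Ideal.inf_eq_mul_of_isCoprime h3.pow_right]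
  exact ⟨h1, h2⟩

theorem h3_a_le {v : HeightOneSpectrum (𝓞 K)} (hv : v ∈ R) : ∏ v ∈ R, v.asIdeal ≤ v.asIdeal :=
  Ideal.le_of_dvd (Finset.dvd_prod_of_mem (fun v : HeightOneSpectrum (𝓞 K) => v.asIdeal) hv)

theorem h3_a_sq {P : Ideal (𝓞 K)} {x : 𝓞 K} (h : x ∈ P ^ 2) : x ∈ P :=
  Ideal.pow_le_self two_ne_zero h

theorem h3_a_eq (hA : (p : 𝓞 K) ∈ ∏ v ∈ R, v.asIdeal) (hχ : PChG p f R χ) (hf : I₀ ≤ f)
    (hcop : ∀ x ∈ XS I₀ c₀, IsCoprime (Ideal.span {x}) f) (hne : (0 : 𝓞 K) ∉ XS I₀ c₀) {y z : 𝓞 K}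
    (hy : y ∈ XS I₀ c₀) (hz : z ∈ XS I₀ c₀) (h : y - z ∈ (∏ v ∈ R, v.asIdeal) ^ 2) :
    χ (Ideal.span {y}) = χ (Ideal.span {z}) := by
  have h1 : y - z ∈ f := by
    apply hf
    have h2 : y - z = (y - c₀) - (z - c₀) := by ring
    rw [h2]
    exact I₀.sub_mem hy hz
  have h2 : ∀ v ∈ R, (y ∈ v.asIdeal ↔ z ∈ v.asIdeal) := by
    intro v hv
    have h3 : y - z ∈ v.asIdeal := h3_a_le hv (h3_a_sq h)
    constructor
    · intro h4
      have h5 := v.asIdeal.sub_mem h4 h3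
      rwa [sub_sub_cancel] at h5
    · intro h4
      have h5 := v.asIdeal.add_mem h3 h4
      rwa [sub_add_cancel] at h5
  by_cases hc : IsCoprime (Ideal.span {y}) (f * ∏ v ∈ R, v.asIdeal)
  · refine hχ.per y z ?_ ?_ hc (h3_a_inf hA hχ h1 h)
    · intro h0
      rw [h0] at hy
      exact hne hy
    · intro h0
      rw [h0] at hz
      exact hne hz
  · rw [hχ.zero _ hc, hχ.zero]
    intro hc2
    apply hc
    rw [h3_a_cop hcop hz] at hc2
    rw [h3_a_cop hcop hy]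
    intro v hv
    rw [h2 v hv]
    exact hc2 v hv

theorem h3_a_ne (hp : p.Prime) (hχ : PChG p f R χ) (hcop : ∀ x ∈ XS I₀ c₀, IsCoprime (Ideal.span {x}) f)
    (hne : (0 : 𝓞 K) ∉ XS I₀ c₀) {y : 𝓞 K} (hy : y ∈ XS I₀ c₀) :
    (χ (Ideal.span {y}) = 0 ∨ χ (Ideal.span {y}) ^ p = 1) ∧
      (χ (Ideal.span {y}) ≠ 0 ↔ ∀ v ∈ R, y ∉ v.asIdeal) := by
  have h0 : Ideal.span {y} ≠ ⊥ := by
    intro h
    rw [Ideal.span_singleton_eq_bot] at h
    rw [h] at hy
    exact hne hy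
  by_cases hc : IsCoprime (Ideal.span {y}) (f * ∏ v ∈ R, v.asIdeal)
  · have h1 := hχ.val _ h0 hc
    refine ⟨Or.inr h1, fun _ => (h3_a_cop hcop hy).1 hc, fun _ h2 => ?_⟩
    rw [h2, zero_pow hp.ne_zero] at h1
    exact zero_ne_one h1
  · have h1 := hχ.zero _ hc
    refine ⟨Or.inl h1, fun h => absurd h1 h, fun h => ?_⟩
    exact absurd ((h3_a_cop hcop hy).2 h) hc

theorem h3_a_step (hp : p.Prime) (hA : (p : 𝓞 K) ∈ ∏ v ∈ R, v.asIdeal) (hχ : PChG p f R χ)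
    (hI : IsCoprime I₀ (Ideal.span {(p : 𝓞 K)})) (hf : I₀ ≤ f)
    (hcop : ∀ x ∈ XS I₀ c₀, IsCoprime (Ideal.span {x}) f) (hne : (0 : 𝓞 K) ∉ XS I₀ c₀)
    {T : 𝓞 K → C} (hT : ∀ x, ∀ y ∈ XS I₀ c₀, y - x ∈ (∏ v ∈ R, v.asIdeal) ^ 2 → T x = χ (Ideal.span {y}))
    {x : 𝓞 K} (hx : T x ≠ 0) {y z : 𝓞 K} (hy : y ∈ ∏ v ∈ R, v.asIdeal) (hz : z ∈ ∏ v ∈ R, v.asIdeal) :
    T (x + (y + z)) * T x = T (x + y) * T (x + z) := by
  have hp2 : ∀ {a b : 𝓞 K}, (p : 𝓞 K) ^ 2 ∣ a - b → a - b ∈ (∏ v ∈ R, v.asIdeal) ^ 2 := by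
    intro a b h
    obtain ⟨t, ht⟩ := h
    rw [ht]
    exact Ideal.mul_mem_right _ _ (Ideal.pow_mem_pow hA 2)
  obtain ⟨x', hx', hx2⟩ := h3_lift hI c₀ x
  obtain ⟨y', hy', hy2⟩ := h3_lift hI 0 y
  obtain ⟨z', hz', hz2⟩ := h3_lift hI 0 z
  have hyI : y' ∈ I₀ := by
    have h : y' - 0 ∈ I₀ := hy'
    rwa [sub_zero] at h
  have hzI : z' ∈ I₀ := by
    have h : z' - 0 ∈ I₀ := hz'
    rwa [sub_zero] at h
  have hyP : y' ∈ ∏ v ∈ R, v.asIdeal := by
    have h := (∏ v ∈ R, v.asIdeal).add_mem (h3_a_sq (hp2 hy2)) hy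
    rwa [sub_add_cancel] at h
  have hzP : z' ∈ ∏ v ∈ R, v.asIdeal := by
    have h := (∏ v ∈ R, v.asIdeal).add_mem (h3_a_sq (hp2 hz2)) hz
    rwa [sub_add_cancel] at h
  have hXS : ∀ {w : 𝓞 K}, w ∈ I₀ → x' + w ∈ XS I₀ c₀ := by
    intro w hw
    show x' + w - c₀ ∈ I₀
    have h1 : x' + w - c₀ = (x' - c₀) + w := by ring
    rw [h1]
    exact I₀.add_mem hx' hw
  have e0 : T x = χ (Ideal.span {x'}) := hT x x' hx' (hp2 hx2)
  have e1 : T (x + y) = χ (Ideal.span {x' + y'}) := by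
    refine hT _ _ (hXS hyI) ?_
    have h1 : x' + y' - (x + y) = (x' - x) + (y' - y) := by ring
    rw [h1]
    exact Ideal.add_mem _ (hp2 hx2) (hp2 hy2)
  have e2 : T (x + z) = χ (Ideal.span {x' + z'}) := by
    refine hT _ _ (hXS hzI) ?_
    have h1 : x' + z' - (x + z) = (x' - x) + (z' - z) := by ring
    rw [h1]
    exact Ideal.add_mem _ (hp2 hx2) (hp2 hz2)
  have e3 : T (x + (y + z)) = χ (Ideal.span {x' + (y' + z')}) := by
    refine hT _ _ (hXS (I₀.add_mem hyI hzI)) ?_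
    have h1 : x' + (y' + z') - (x + (y + z)) = (x' - x) + ((y' - y) + (z' - z)) := by ring
    rw [h1]
    exact Ideal.add_mem _ (hp2 hx2) (Ideal.add_mem _ (hp2 hy2) (hp2 hz2))
  have hcl : ∀ v ∈ R, x' ∉ v.asIdeal := by
    rw [e0] at hx
    exact (h3_a_ne hp hχ hcop hne hx').2.1 hx
  have hclw : ∀ {w : 𝓞 K}, w ∈ I₀ → w ∈ ∏ v ∈ R, v.asIdeal →
      IsCoprime (Ideal.span {x' + w}) (f * ∏ v ∈ R, v.asIdeal) := by
    intro w hw hwP
    rw [h3_a_cop hcop (hXS hw)]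
    intro v hv h
    have h1 := v.asIdeal.sub_mem h (h3_a_le hv hwP)
    rw [add_sub_cancel_right] at h1
    exact hcl v hv h1
  have hne0 : ∀ {w : 𝓞 K}, w ∈ I₀ → x' + w ≠ 0 := by
    intro w hw h
    have h1 := hXS hw
    rw [h] at h1
    exact hne h1
  have hx0 : x' ≠ 0 := by
    intro h
    rw [h] at hx'
    exact hne hx'
  have hx0c : IsCoprime (Ideal.span {x'}) (f * ∏ v ∈ R, v.asIdeal) := (h3_a_cop hcop hx').2 hcl
  rw [e0, e1, e2, e3, ← map_mul, ← map_mul, Ideal.span_singleton_mul_span_singleton,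
    Ideal.span_singleton_mul_span_singleton]
  refine (hχ.per _ _ ?_ ?_ ?_ ?_).symm
  · exact mul_ne_zero (hne0 hyI) (hne0 hzI)
  · exact mul_ne_zero (hne0 (I₀.add_mem hyI hzI)) hx0
  · rw [← Ideal.span_singleton_mul_span_singleton]
    exact IsCoprime.mul_left (hclw hyI hyP) (hclw hzI hzP)
  · have h1 : (x' + y') * (x' + z') - (x' + (y' + z')) * x' = y' * z' := by ring
    rw [h1]
    refine h3_a_inf hA hχ (f.mul_mem_right _ (hf hyI)) ?_
    rw [pow_two]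
    exact Ideal.mul_mem_mul hyP hzP

theorem h3_wt (hp : p.Prime) (hA : Adp F p (∏ v ∈ R, v.asIdeal) ω₀ I) (hχ : PChG p f R χ) (hI : IsCoprime I₀ (Ideal.span {(p : 𝓞 K)})) (hf : I₀ ≤ f)
    (hcop : ∀ x ∈ XS I₀ c₀, IsCoprime (Ideal.span {x}) f) (hne : (0 : 𝓞 K) ∉ XS I₀ c₀) :
    ∃ Φ : (Fin (m + 1) → 𝓞 F) → C, WtP p I Φ ∧
      (∀ x ∈ XS I₀ c₀, ∀ a : Fin (m + 1) → 𝓞 F, (p : 𝓞 K) ^ 2 ∣ x - ∑ s, algebraMap (𝓞 F) (𝓞 K) (a s) * ω₀ s → Φ a = χ (Ideal.span {x})) ∧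
      ∀ a : Fin (m + 1) → 𝓞 F, Φ a ≠ 0 ↔ ∀ v ∈ R, ∑ s, algebraMap (𝓞 F) (𝓞 K) (a s) * ω₀ s ∉ v.asIdeal := by
  have hpP := hA.pmem
  have hp2 : ∀ {a b : 𝓞 K}, (p : 𝓞 K) ^ 2 ∣ a - b → a - b ∈ (∏ v ∈ R, v.asIdeal) ^ 2 := by
    intro a b h
    obtain ⟨t, ht⟩ := h
    rw [ht]
    exact Ideal.mul_mem_right _ _ (Ideal.pow_mem_pow hpP 2)
  have hlift := fun x => h3_lift hI c₀ x
  choose li hli1 hli2 using hlift
  obtain ⟨T, hTdef⟩ : ∃ T : 𝓞 K → C, T = fun x => χ (Ideal.span {li x}) := ⟨_, rfl⟩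
  have hT : ∀ x, ∀ y ∈ XS I₀ c₀, y - x ∈ (∏ v ∈ R, v.asIdeal) ^ 2 → T x = χ (Ideal.span {y}) := by
    intro x y hy hxy
    rw [hTdef]
    refine h3_a_eq hpP hχ hf hcop hne (hli1 x) hy ?_
    have h1 : li x - y = (li x - x) - (y - x) := by ring
    rw [h1]
    exact Ideal.sub_mem _ (hp2 (hli2 x)) hxy
  have hT2 : ∀ x y, x - y ∈ (∏ v ∈ R, v.asIdeal) ^ 2 → T x = T y := by
    intro x y hxy
    have h1 : T y = χ (Ideal.span {li y}) := by rw [hTdef]
    rw [h1]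
    refine hT x _ (hli1 y) ?_
    have h2 : li y - x = (li y - y) - (x - y) := by ring
    rw [h2]
    exact Ideal.sub_mem _ (hp2 (hli2 y)) hxy
  have hTne : ∀ x, (T x = 0 ∨ T x ^ p = 1) ∧ (T x ≠ 0 ↔ ∀ v ∈ R, x ∉ v.asIdeal) := by
    intro x
    have h1 : T x = χ (Ideal.span {li x}) := by rw [hTdef]
    obtain ⟨h2, h3⟩ := h3_a_ne hp hχ hcop hne (hli1 x)
    rw [h1]
    refine ⟨h2, h3.trans ?_⟩
    refine forall₂_congr fun v hv => not_congr ?_
    have h4 : li x - x ∈ v.asIdeal := h3_a_le hv (h3_a_sq (hp2 (hli2 x)))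
    constructor
    · intro h5
      have h6 := v.asIdeal.sub_mem h5 h4
      rwa [sub_sub_cancel] at h6
    · intro h5
      have h6 := v.asIdeal.add_mem h4 h5
      rwa [sub_add_cancel] at h6
  obtain ⟨X, hX⟩ : ∃ X : (Fin (m + 1) → 𝓞 F) → 𝓞 K,
    X = fun a => ∑ s, algebraMap (𝓞 F) (𝓞 K) (a s) * ω₀ s := ⟨_, rfl⟩
  have hXadd : ∀ a b : Fin (m + 1) → 𝓞 F, X (fun k => a k + b k) = X a + X b := by
    intro a b
    rw [hX]
    beta_reduce
    rw [← Finset.sum_add_distrib]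
    refine Finset.sum_congr rfl fun s _ => ?_
    rw [map_add, add_mul]
  refine ⟨fun a => T (X a), ⟨?_, ?_, ?_⟩, ?_, ?_⟩
  · intro a b hab
    refine hT2 _ _ (hp2 ?_)
    rw [hX]
    beta_reduce
    rw [← Finset.sum_sub_distrib]
    refine Finset.dvd_sum fun s _ => ?_
    rw [← sub_mul, ← map_sub]
    have h1 := map_dvd (algebraMap (𝓞 F) (𝓞 K)) (hab s)
    rw [map_pow, map_natCast] at h1
    exact dvd_mul_of_dvd_left h1 _
  · intro x
    beta_reduce
    by_cases hx : T (X x) = 0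
    · refine ⟨fun _ _ => 1, fun k => ⟨fun a b => (one_mul 1).symm, fun a => rfl⟩, fun b => ?_⟩
      rw [hx, zero_mul, hXadd]
      by_contra h
      have h1 := (hTne _).2.1 h
      have h2 : ∀ v ∈ R, X x ∉ v.asIdeal := by
        intro v hv h3
        apply h1 v hv
        refine v.asIdeal.add_mem h3 (h3_a_le hv ?_)
        rw [hX]
        exact adp_ub hA b
      exact (hTne _).2.2 h2 hx
    · obtain ⟨e, he⟩ : ∃ e : Fin (m + 1) → 𝓞 F → 𝓞 K, e = fun k b =>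
          algebraMap (𝓞 F) (𝓞 K) (if k ∈ I then b else (p : 𝓞 F) * b) * ω₀ k := ⟨_, rfl⟩
      have heP : ∀ k b, e k b ∈ ∏ v ∈ R, v.asIdeal := by
        intro k b
        rw [he]
        beta_reduce
        split_ifs with hk
        · exact Ideal.mul_mem_left _ _ (hA.mem k hk)
        · rw [map_mul, map_natCast, mul_assoc]
          exact Ideal.mul_mem_right _ _ hpP
      have hep : ∀ k b, e k ((p : 𝓞 F) * b) ∈ (∏ v ∈ R, v.asIdeal) ^ 2 := by
        intro k b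
        have h1 : e k ((p : 𝓞 F) * b) = (p : 𝓞 K) * e k b := by
          rw [he]
          beta_reduce
          split_ifs with hk
          · rw [map_mul, map_natCast]
            ring
          · rw [map_mul, map_mul, map_natCast]
            ring
        rw [h1, pow_two]
        exact Ideal.mul_mem_mul hpP (heP k b)
      have hea : ∀ k a b, e k (a + b) = e k a + e k b := by
        intro k a b
        rw [he]
        beta_reduce
        split_ifs with hk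
        · rw [map_add, add_mul]
        · rw [mul_add, map_add, add_mul]
      have hmul : ∀ {y z : 𝓞 K}, y ∈ ∏ v ∈ R, v.asIdeal → z ∈ ∏ v ∈ R, v.asIdeal →
          T (X x + (y + z)) * T (X x) = T (X x + y) * T (X x + z) := fun hy hz =>
        h3_a_step hp hpP hχ hI hf hcop hne hT hx hy hz
      refine ⟨fun k b => T (X x + e k b) / T (X x), fun k => ⟨fun a b => ?_, fun a => ?_⟩, fun b => ?_⟩
      · beta_reduce
        rw [hea, div_mul_div_comm, ← hmul (heP k a) (heP k b), mul_div_mul_right _ _ hx]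
      · beta_reduce
        rw [div_eq_one_iff_eq hx]
        refine hT2 _ _ ?_
        rw [add_sub_cancel_left]
        exact hep k a
      · have h1 : ∀ S : Finset (Fin (m + 1)), T (X x + ∑ k ∈ S, e k (b k)) =
            T (X x) * ∏ k ∈ S, (T (X x + e k (b k)) / T (X x)) := by
          intro S
          classical
          induction S using Finset.induction_on with
          | empty => rw [Finset.sum_empty, Finset.prod_empty, add_zero, mul_one]
          | insert k S hk ih =>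
            rw [Finset.sum_insert hk, Finset.prod_insert hk]
            have h2 : ∑ k ∈ S, e k (b k) ∈ ∏ v ∈ R, v.asIdeal := Ideal.sum_mem _ fun k _ => heP k _
            have h3 := hmul (heP k (b k)) h2
            rw [ih] at h3
            have h4 : T (X x + (e k (b k) + ∑ k ∈ S, e k (b k))) =
                T (X x + e k (b k)) * ∏ k ∈ S, (T (X x + e k (b k)) / T (X x)) := by
              refine mul_right_cancel₀ hx ?_
              rw [h3]
              ring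
            rw [h4]
            field_simp
        have h5 := h1 Finset.univ
        have h6 : ∑ k, e k (b k) = X (ub p I b) := by
          rw [he, hX]
          rfl
        rw [h6, ← hXadd] at h5
        exact h5
  · intro x
    exact (hTne _).1
  · intro x hx a hxa
    refine hT _ _ hx ?_
    rw [hX]
    exact hp2 hxa
  · intro a
    have h1 := (hTne (X a)).2
    rw [hX] at h1 ⊢
    exact h1

end SSR
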