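import Mathlib
import Pool.Agent.Lib.SSR.H1B

open NumberField IsDedekindDomain

namespace SSR

open SSG (Rep)

variable {F : Type} [Field F] [NumberField F] {K : Type} [Field K] [NumberField K] [Algebra F K] {m p : ℕ}
  {R : Finset (HeightOneSpectrum (𝓞 K))} {ω₀ : Fin (m + 1) → 𝓞 K} {I : Finset (Fin (m + 1))}

/-! Chunk H3B (M). PROOF. P = prod over R of v. The map x ↦ class of Σ x ω₀ modulo P is a bijection from piFinset (k ∈ I: {0}, else T1) onto 𝓞 K / P: surjective: span + reduce: y = Σ a ω₀ + p t, and modulo P only the coordinates a s, s ∉ I, modulo p matter (mem, pmem); injective: if Σ (x - x') ω₀ ∈ P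
then p | x s - x' s for s ∉ I (sub), so equal (Rep). The condition Σ x ω₀ ∉ v for all v ∈ R says that the class is a unit of 𝓞 K / P ≅ product of the fields 𝓞 K / v (Chinese remainder theorem: Ideal.quotientInfRingEquivPiQuotient / IsDedekindDomain.quotientEquivPiOfFinsetProdEq with exponents 1; the v ∈ R are
distinct primes). The number of elements of the product with all components ≠ 0 is prod (absNorm v - 1). h3_sign: p divides absNorm v (p ∈ v: absNorm v is a power of p; or absNorm v ∈ v, v ∩ ℤ = (p)), so prod (absNorm v - 1) = (-1)^card R modulo p, in ℤ; in C: the difference is p times an integer. -/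

theorem h3b_mem_prod {R : Finset (HeightOneSpectrum (𝓞 K))} {z : 𝓞 K} (h : ∀ v ∈ R, z ∈ v.asIdeal) :
    z ∈ ∏ v ∈ R, v.asIdeal := by
  have h1 := IsDedekindDomain.inf_pow_eq_prod_of_prime R (fun v : HeightOneSpectrum (𝓞 K) => v.asIdeal) (fun _ => 1)
    (fun v _ => v.prime) (fun v _ w _ hvw h => hvw (HeightOneSpectrum.ext h))
  simp only [pow_one] at h1
  rw [← h1, Submodule.mem_finsetInf]
  exact h

theorem h3b_prod_le {R : Finset (HeightOneSpectrum (𝓞 K))} {v : HeightOneSpectrum (𝓞 K)} (hv : v ∈ R) :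
    (∏ v ∈ R, v.asIdeal) ≤ v.asIdeal :=
  Ideal.dvd_iff_le.1 (Finset.dvd_prod_of_mem (fun w : HeightOneSpectrum (𝓞 K) => w.asIdeal) hv)

open Classical in
theorem h3_count (hp : p.Prime) (hA : Adp F p (∏ v ∈ R, v.asIdeal) ω₀ I) {T1 : Finset (𝓞 F)} (h1 : Rep p 1 T1) :
    ((Fintype.piFinset (fun k : Fin (m + 1) => if k ∈ I then ({0} : Finset (𝓞 F)) else T1)).filter
      fun x => ∀ v ∈ R, ∑ s, algebraMap (𝓞 F) (𝓞 K) (x s) * ω₀ s ∉ v.asIdeal).card = ∏ v ∈ R, (Ideal.absNorm v.asIdeal - 1) := by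
  have hfin : ∀ v : R, Finite (𝓞 K ⧸ v.1.asIdeal) := fun v =>
    v.1.asIdeal.finiteQuotientOfFreeOfNeBot v.1.ne_bot
  have hft : ∀ v : R, Fintype (𝓞 K ⧸ v.1.asIdeal) := fun v => Fintype.ofFinite _
  have hcard : (Fintype.piFinset (fun v : R => (Finset.univ : Finset (𝓞 K ⧸ v.1.asIdeal)).erase 0)).card =
      ∏ v ∈ R, (Ideal.absNorm v.asIdeal - 1) := by
    rw [Fintype.card_piFinset, ← Finset.prod_coe_sort R (fun v => Ideal.absNorm v.asIdeal - 1)]
    refine Finset.prod_congr rfl fun v _ => ?_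
    rw [Finset.card_erase_of_mem (Finset.mem_univ _), Finset.card_univ, Ideal.absNorm_apply, Submodule.cardQuot_apply,
      Nat.card_eq_fintype_card]
  rw [← hcard]
  obtain ⟨Y, hY⟩ : ∃ Y : (Fin (m + 1) → 𝓞 F) → 𝓞 K, Y = fun x => ∑ s, algebraMap (𝓞 F) (𝓞 K) (x s) * ω₀ s := ⟨_, rfl⟩
  have hYx : ∀ x, ∑ s, algebraMap (𝓞 F) (𝓞 K) (x s) * ω₀ s = Y x := fun x => by rw [hY]
  have hYsub : ∀ x y : Fin (m + 1) → 𝓞 F, Y x - Y y = ∑ s, algebraMap (𝓞 F) (𝓞 K) (x s - y s) * ω₀ s := by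
    intro x y
    rw [hY, ← Finset.sum_sub_distrib]
    refine Finset.sum_congr rfl fun s _ => ?_
    rw [map_sub, sub_mul]
  have hx : ∀ x : Fin (m + 1) → 𝓞 F, x ∈ Fintype.piFinset (fun k : Fin (m + 1) => if k ∈ I then ({0} : Finset (𝓞 F)) else T1) ↔
      (∀ k ∈ I, x k = 0) ∧ ∀ k, k ∉ I → x k ∈ T1 := by
    intro x
    rw [Fintype.mem_piFinset]
    constructor
    · intro h
      refine ⟨fun k hk => ?_, fun k hk => ?_⟩
      · have := h k
        rw [if_pos hk, Finset.mem_singleton] at this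
        exact this
      · have := h k
        rw [if_neg hk] at this
        exact this
    · rintro ⟨h2, h3⟩ k
      by_cases hk : k ∈ I
      · rw [if_pos hk, Finset.mem_singleton]
        exact h2 k hk
      · rw [if_neg hk]
        exact h3 k hk
  refine Finset.card_bij (fun x _ => fun v : R => Ideal.Quotient.mk v.1.asIdeal (Y x)) ?_ ?_ ?_
  · intro x hxF
    rw [Finset.mem_filter] at hxF
    rw [Fintype.mem_piFinset]
    intro v
    rw [Finset.mem_erase]
    refine ⟨?_, Finset.mem_univ _⟩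
    rw [Ne, Ideal.Quotient.eq_zero_iff_mem, ← hYx]
    exact hxF.2 v.1 v.2
  · intro x hxF y hyF hxy
    rw [Finset.mem_filter, hx] at hxF hyF
    have h2 : Y x - Y y ∈ ∏ v ∈ R, v.asIdeal := by
      refine h3b_mem_prod fun v hv => ?_
      have := congrFun hxy ⟨v, hv⟩
      exact Ideal.Quotient.eq.1 this
    rw [hYsub] at h2
    have h3 := hA.sub (fun s => x s - y s) h2
    funext k
    by_cases hk : k ∈ I
    · rw [hxF.1.1 k hk, hyF.1.1 k hk]
    · obtain ⟨a, -, ha⟩ := h1 (x k)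
      have e1 := ha (x k) ⟨hxF.1.2 k hk, by rw [sub_self]; exact dvd_zero _⟩
      have e2 := ha (y k) ⟨hyF.1.2 k hk, by rw [pow_one]; exact h3 k hk⟩
      rw [e1, e2]
  · intro f hf
    rw [Fintype.mem_piFinset] at hf
    choose g hg using fun v : R => Ideal.Quotient.mk_surjective (f v)
    obtain ⟨y, hy⟩ := IsDedekindDomain.exists_forall_sub_mem_ideal (s := R)
      (fun v : HeightOneSpectrum (𝓞 K) => v.asIdeal) (fun _ => 1)
      (fun v _ => v.prime) (fun v _ w _ hvw h => hvw (HeightOneSpectrum.ext h)) g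
    obtain ⟨a, t, hat⟩ := hA.span y
    choose r hr using fun k : Fin (m + 1) => (h1 (a k)).exists
    obtain ⟨x, hxd⟩ : ∃ x : Fin (m + 1) → 𝓞 F, x = fun k => if k ∈ I then 0 else r k := ⟨_, rfl⟩
    have hxT : x ∈ Fintype.piFinset (fun k : Fin (m + 1) => if k ∈ I then ({0} : Finset (𝓞 F)) else T1) := by
      rw [hx, hxd]
      refine ⟨fun k hk => if_pos hk, fun k hk => ?_⟩
      simp only [if_neg hk]
      exact (hr k).1
    have hP : y - Y x ∈ ∏ v ∈ R, v.asIdeal := by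
      have h2 : y - Y x = ∑ s, algebraMap (𝓞 F) (𝓞 K) (a s - x s) * ω₀ s + (p : 𝓞 K) * t := by
        rw [← hYsub, hat, hYx]
        ring
      rw [h2]
      refine Ideal.add_mem _ (Ideal.sum_mem _ fun s _ => ?_) (Ideal.mul_mem_right _ _ hA.pmem)
      by_cases hs : s ∈ I
      · exact Ideal.mul_mem_left _ _ (hA.mem s hs)
      · have h3 : a s - x s = a s - r s := by
          rw [hxd]
          simp only [if_neg hs]
        obtain ⟨c, hc⟩ := (hr s).2
        rw [pow_one] at hc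
        rw [h3, hc, map_mul, map_natCast, mul_assoc]
        exact Ideal.mul_mem_right _ _ hA.pmem
    have hfx : (fun v : R => Ideal.Quotient.mk v.1.asIdeal (Y x)) = f := by
      funext v
      rw [← hg v]
      refine Ideal.Quotient.eq.2 ?_
      have h3 := hy v.1 v.2
      rw [pow_one] at h3
      have h4 := h3b_prod_le v.2 hP
      have h5 : Y x - g v = (y - g v) - (y - Y x) := by ring
      rw [h5]
      exact Ideal.sub_mem _ h3 h4
    refine ⟨x, ?_, hfx⟩
    rw [Finset.mem_filter]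
    refine ⟨hxT, fun v hv hmem => ?_⟩
    have h3 := hf ⟨v, hv⟩
    rw [Finset.mem_erase] at h3
    apply h3.1
    rw [← hfx]
    rw [hYx] at hmem
    exact Ideal.Quotient.eq_zero_iff_mem.2 hmem

theorem h3_sign {C : Type} [NormedField C] [IsUltrametricDist C] (hp : p.Prime) (hlt : ‖(p : C)‖ < 1) (hR : ∀ v ∈ R, (p : 𝓞 K) ∈ v.asIdeal) :
    ‖((∏ v ∈ R, (Ideal.absNorm v.asIdeal - 1) : ℕ) : C) - (-1) ^ R.card‖ < 1 := by
  have hdvd : ∀ v ∈ R, p ∣ Ideal.absNorm v.asIdeal := by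
    intro v hv
    by_contra hcon
    have hcop : Nat.Coprime p (Ideal.absNorm v.asIdeal) := (Nat.Prime.coprime_iff_not_dvd hp).2 hcon
    have h1 : IsCoprime (p : ℤ) (Ideal.absNorm v.asIdeal : ℤ) := Nat.isCoprime_iff_coprime.2 hcop
    obtain ⟨a, b, hab⟩ := h1
    apply v.isPrime.ne_top
    rw [Ideal.eq_top_iff_one]
    have h2 : ((a * (p : ℤ) + b * (Ideal.absNorm v.asIdeal : ℤ) : ℤ) : 𝓞 K) = 1 := by
      rw [hab]
      exact Int.cast_one
    rw [← h2]
    push_cast
    exact Ideal.add_mem _ (Ideal.mul_mem_left _ _ (hR v hv)) (Ideal.mul_mem_left _ _ (Ideal.absNorm_mem v.asIdeal))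
  have hmod : (p : ℤ) ∣ ((∏ v ∈ R, (Ideal.absNorm v.asIdeal - 1) : ℕ) : ℤ) - (-1) ^ R.card := by
    rw [← ZMod.intCast_zmod_eq_zero_iff_dvd]
    push_cast
    rw [sub_eq_zero, ← Finset.prod_const]
    refine Finset.prod_congr rfl fun v hv => ?_
    have h1 : Ideal.absNorm v.asIdeal ≠ 0 := fun h => v.ne_bot (Ideal.absNorm_eq_zero_iff.1 h)
    rw [Nat.cast_pred (Nat.pos_of_ne_zero h1), (ZMod.natCast_eq_zero_iff _ _).2 (hdvd v hv), zero_sub]
  obtain ⟨z, hz⟩ := hmod
  have h1 : ((∏ v ∈ R, (Ideal.absNorm v.asIdeal - 1) : ℕ) : C) - (-1) ^ R.card = (p : C) * (z : C) := by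
    have := congrArg (fun x : ℤ => (x : C)) hz
    push_cast at this
    push_cast
    exact this
  rw [h1, norm_mul]
  calc ‖(p : C)‖ * ‖(z : C)‖ ≤ ‖(p : C)‖ * 1 :=
        mul_le_mul_of_nonneg_left (IsUltrametricDist.norm_intCast_le_one C z) (norm_nonneg _)
    _ < 1 := by rw [mul_one]; exact hlt

end SSR
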