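import Mathlib
import Pool.Agent.Lib.SSR.H3
import Pool.Agent.Lib.SSG.E.IFD

open NumberField IsDedekindDomain

namespace SSR

open H55N (XS)
open SSG (Rep)
open SSG.E (RpU)

variable {F : Type} [Field F] [NumberField F] {K : Type} [Field K] [NumberField K] [Algebra F K] {m p : ℕ}
  {P : Ideal (𝓞 K)} {ω₀ : Fin (m + 1) → 𝓞 K} {I : Finset (Fin (m + 1))} {I₀ : Ideal (𝓞 K)} {c₀ : 𝓞 K} {M : Type} [AddCommMonoid M]

/-! Chunk H4 (M). PROOF. h4_sum: S is a set of representatives of XS I₀ c₀ modulo p^2 I₀ = (p^2) ⊓ I₀ (coprime). The map a ∈ S ↦ the vector of the elements of T2 congruent to co a k modulo p^2 is a bijection onto piFinset T2: injective: equal vectors give co a = co a' modulo p^2, so a - a' ∈ (p^2), and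
a - a' ∈ I₀, so a - a' ∈ (p^2) I₀ (Ideal.inf_eq_mul_of_isCoprime) and a = a' (uniqueness, RpU.ex). Surjective: c ∈ piFinset T2, x' a lift of Σ c ω₀ (h3_lift), a ∈ S with x' - a ∈ (p^2) I₀: Σ co a ω₀ - Σ c ω₀ ∈ (p^2), so p^2 | co a s - c s (adp_ind2). G is periodic, so it has the same value. Finset.sum_bij.
h4_ind: by h2_split (G a := if Σ a ω₀ ∈ P then H a else 0, periodic because p^2 ∈ P): for x ∈ piFinset (0 or T1): Σ (x + ub b) ω₀ ∈ P iff Σ x ω₀ ∈ P (adp_ub) iff p | x s for s ∉ I (adp_iff); the elements x = with x s = 0 (s ∈ I) and x s = t0 the representative of 0 in T1. So only one x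
contributes: x s = t0 for s ∉ I with p | t0: x + ub b = ub b' modulo p^2 with b' s = b s + t0 / p for s ∉ I; b ↦ b' permutes the classes modulo p: the sum is Σ_b H (ub b) (H periodic; reindex b s ∈ T1). -/

theorem h4_uniq {p N : ℕ} {T : Finset (𝓞 F)} (h : Rep p N T) {a b : 𝓞 F} (ha : a ∈ T) (hb : b ∈ T)
    (hab : (p : 𝓞 F) ^ N ∣ a - b) : a = b := by
  refine (h a).unique ⟨ha, ?_⟩ ⟨hb, hab⟩
  rw [sub_self]
  exact dvd_zero _

theorem h4_mem (hI : IsCoprime I₀ (Ideal.span {(p : 𝓞 K)})) {z : 𝓞 K} (h1 : (p : 𝓞 K) ^ 2 ∣ z) (h2 : z ∈ I₀) :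
    z ∈ Ideal.span {((p ^ 2 : ℕ) : 𝓞 K)} * I₀ := by
  have h3 : IsCoprime (Ideal.span {((p ^ 2 : ℕ) : 𝓞 K)}) I₀ := by
    have h4 := (hI.pow_right (n := 2)).symm
    rw [Ideal.span_singleton_pow] at h4
    push_cast
    exact h4
  rw [Ideal.mul_eq_inf_of_isCoprime h3]
  refine ⟨?_, h2⟩
  have h5 : z ∈ Ideal.span {((p ^ 2 : ℕ) : 𝓞 K)} := by
    rw [Ideal.mem_span_singleton]
    push_cast
    exact h1
  exact h5

theorem h4_dvd {z : 𝓞 K} (h : z ∈ Ideal.span {((p ^ 2 : ℕ) : 𝓞 K)} * I₀) : (p : 𝓞 K) ^ 2 ∣ z := by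
  have h1 := Ideal.mul_le_left h
  rw [Ideal.mem_span_singleton] at h1
  push_cast at h1
  exact h1

theorem h4_lin (a b : Fin (m + 1) → 𝓞 F) :
    ∑ s, algebraMap (𝓞 F) (𝓞 K) (a s) * ω₀ s - ∑ s, algebraMap (𝓞 F) (𝓞 K) (b s) * ω₀ s =
      ∑ s, algebraMap (𝓞 F) (𝓞 K) (a s - b s) * ω₀ s := by
  rw [← Finset.sum_sub_distrib]
  refine Finset.sum_congr rfl fun s _ => ?_
  rw [map_sub, sub_mul]

theorem h4_dvd_sum {c : Fin (m + 1) → 𝓞 F} (h : ∀ s, (p : 𝓞 F) ^ 2 ∣ c s) :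
    (p : 𝓞 K) ^ 2 ∣ ∑ s, algebraMap (𝓞 F) (𝓞 K) (c s) * ω₀ s := by
  refine Finset.dvd_sum fun s _ => ?_
  obtain ⟨e, he⟩ := h s
  rw [he, map_mul, map_pow, map_natCast, mul_assoc]
  exact dvd_mul_right _ _

theorem h4_sum (hp : p.Prime) (hA : Adp F p P ω₀ I) (hI : IsCoprime I₀ (Ideal.span {(p : 𝓞 K)})) (co : 𝓞 K → Fin (m + 1) → 𝓞 F)
    (hco : ∀ x, ∃ t : 𝓞 K, x = ∑ s, algebraMap (𝓞 F) (𝓞 K) (co x s) * ω₀ s + (p : 𝓞 K) ^ 2 * t) {S : Finset (𝓞 K)} (hS : RpU I₀ c₀ (p ^ 2) S)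
    {T2 : Finset (𝓞 F)} (h2 : Rep p 2 T2) (G : (Fin (m + 1) → 𝓞 F) → M)
    (hG : ∀ a b : Fin (m + 1) → 𝓞 F, (∀ k, (p : 𝓞 F) ^ 2 ∣ a k - b k) → G a = G b) :
    ∑ a ∈ S, G (co a) = ∑ a ∈ Fintype.piFinset (fun _ : Fin (m + 1) => T2), G a := by
  classical
  choose r2 hr2 _ using fun x => h2 x
  refine Finset.sum_bij (fun a _ => fun k => r2 (co a k)) ?_ ?_ ?_ ?_
  · intro a _
    exact Fintype.mem_piFinset.2 fun k => (hr2 _).1
  · intro a ha a' ha' h
    have e1 : ∀ k, (p : 𝓞 F) ^ 2 ∣ co a k - co a' k := by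
      intro k
      have e2 : r2 (co a k) = r2 (co a' k) := congrFun h k
      have e3 := dvd_sub (hr2 (co a k)).2 (hr2 (co a' k)).2
      rw [e2] at e3
      have e4 : co a k - r2 (co a' k) - (co a' k - r2 (co a' k)) = co a k - co a' k := by ring
      rwa [e4] at e3
    obtain ⟨t, ht⟩ := hco a
    obtain ⟨t', ht'⟩ := hco a'
    have e5 : (p : 𝓞 K) ^ 2 ∣ a - a' := by
      have e6 : a - a' = ∑ s, algebraMap (𝓞 F) (𝓞 K) (co a s - co a' s) * ω₀ s + (p : 𝓞 K) ^ 2 * (t - t') := by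
        rw [← h4_lin]
        linear_combination ht - ht'
      rw [e6]
      exact dvd_add (h4_dvd_sum e1) (dvd_mul_right _ _)
    have e7 : a - a' ∈ I₀ := by
      have e8 : a - c₀ ∈ I₀ := hS.sub a ha
      have e9 : a' - c₀ ∈ I₀ := hS.sub a' ha'
      have e10 : a - a' = (a - c₀) - (a' - c₀) := by ring
      rw [e10]
      exact Ideal.sub_mem _ e8 e9
    refine (hS.ex a (hS.sub a ha)).unique ⟨ha, ?_⟩ ⟨ha', h4_mem hI e5 e7⟩
    rw [sub_self]
    exact Ideal.zero_mem _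
  · intro c hc
    rw [Fintype.mem_piFinset] at hc
    obtain ⟨x', hx', hx'd⟩ := h3_lift (p := p) hI c₀ (∑ s, algebraMap (𝓞 F) (𝓞 K) (c s) * ω₀ s)
    obtain ⟨a, ⟨haS, hax⟩, -⟩ := hS.ex x' hx'
    refine ⟨a, haS, ?_⟩
    obtain ⟨t, ht⟩ := hco a
    have e1 : (p : 𝓞 K) ^ 2 ∣ ∑ s, algebraMap (𝓞 F) (𝓞 K) (co a s - c s) * ω₀ s := by
      have e2 : ∑ s, algebraMap (𝓞 F) (𝓞 K) (co a s - c s) * ω₀ s =
          (x' - ∑ s, algebraMap (𝓞 F) (𝓞 K) (c s) * ω₀ s) - (x' - a) - (p : 𝓞 K) ^ 2 * t := by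
        rw [← h4_lin]
        linear_combination -ht
      rw [e2]
      exact dvd_sub (dvd_sub hx'd (h4_dvd hax)) (dvd_mul_right _ _)
    have e3 := adp_ind2 hp hA (fun s => co a s - c s) e1
    funext k
    refine h4_uniq h2 (hr2 _).1 (hc k) ?_
    have e4 : r2 (co a k) - c k = (co a k - c k) - (co a k - r2 (co a k)) := by ring
    rw [e4]
    exact dvd_sub (e3 k) (hr2 _).2
  · intro a _
    exact hG _ _ fun k => (hr2 _).2

open Classical in
theorem h4_ind (hp : p.Prime) (hA : Adp F p P ω₀ I) {T1 T2 : Finset (𝓞 F)} (h1 : Rep p 1 T1) (h2 : Rep p 2 T2) (G : (Fin (m + 1) → 𝓞 F) → M)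
    (hG : ∀ a b : Fin (m + 1) → 𝓞 F, (∀ k, (p : 𝓞 F) ^ 2 ∣ a k - b k) → G a = G b) :
    ∑ a ∈ Fintype.piFinset (fun _ : Fin (m + 1) => T2), (if ∑ s, algebraMap (𝓞 F) (𝓞 K) (a s) * ω₀ s ∈ P then G a else 0) =
      ∑ b ∈ Fintype.piFinset (fun k : Fin (m + 1) => if k ∈ I then T2 else T1), G (ub p I b) := by
  have hp0 : (p : 𝓞 F) ≠ 0 := by exact_mod_cast hp.ne_zero
  choose r1 hr1 _ using fun x => h1 x
  choose r2 hr2 _ using fun x => h2 x
  have hB : ∀ b : Fin (m + 1) → 𝓞 F, b ∈ Fintype.piFinset (fun k : Fin (m + 1) => if k ∈ I then T2 else T1) ↔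
      ∀ k, (k ∈ I → b k ∈ T2) ∧ (k ∉ I → b k ∈ T1) := by
    intro b
    rw [Fintype.mem_piFinset]
    refine forall_congr' fun k => ?_
    by_cases hk : k ∈ I
    · rw [if_pos hk]
      exact ⟨fun h => ⟨fun _ => h, fun h' => absurd hk h'⟩, fun h => h.1 hk⟩
    · rw [if_neg hk]
      exact ⟨fun h => ⟨fun h' => absurd h' hk, fun _ => h⟩, fun h => h.2 hk⟩
  rw [← Finset.sum_filter]
  symm
  refine Finset.sum_bij (fun b _ => fun k => r2 (ub p I b k)) ?_ ?_ ?_ ?_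
  · intro b _
    rw [Finset.mem_filter]
    refine ⟨Fintype.mem_piFinset.2 fun k => (hr2 _).1, (adp_iff hA _).2 fun s hs => ?_⟩
    have e1 := (hr2 (ub p I b s)).2
    have e2 : (p : 𝓞 F) ∣ ub p I b s := by
      unfold ub
      rw [if_neg hs]
      exact dvd_mul_right _ _
    have e3 : (p : 𝓞 F) ∣ ub p I b s - r2 (ub p I b s) := (dvd_pow_self _ two_ne_zero).trans e1
    have e4 : r2 (ub p I b s) = ub p I b s - (ub p I b s - r2 (ub p I b s)) := by ring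
    rw [e4]
    exact dvd_sub e2 e3
  · intro b hb b' hb' h
    rw [hB] at hb hb'
    funext k
    have e1 : r2 (ub p I b k) = r2 (ub p I b' k) := congrFun h k
    have e2 : (p : 𝓞 F) ^ 2 ∣ ub p I b k - ub p I b' k := by
      have e3 := dvd_sub (hr2 (ub p I b k)).2 (hr2 (ub p I b' k)).2
      rw [e1] at e3
      have e4 : ub p I b k - r2 (ub p I b' k) - (ub p I b' k - r2 (ub p I b' k)) = ub p I b k - ub p I b' k := by ring
      rwa [e4] at e3
    unfold ub at e2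
    by_cases hk : k ∈ I
    · rw [if_pos hk, if_pos hk] at e2
      exact h4_uniq h2 ((hb k).1 hk) ((hb' k).1 hk) e2
    · rw [if_neg hk, if_neg hk, ← mul_sub, sq, mul_dvd_mul_iff_left hp0] at e2
      exact h4_uniq h1 ((hb k).2 hk) ((hb' k).2 hk) (by rw [pow_one]; exact e2)
  · intro a ha
    rw [Finset.mem_filter, Fintype.mem_piFinset, adp_iff hA] at ha
    obtain ⟨ha1, ha2⟩ := ha
    have hc : ∀ k, ∃ c : 𝓞 F, k ∉ I → a k = p * c := by
      intro k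
      by_cases hk : k ∈ I
      · exact ⟨0, fun h => absurd hk h⟩
      · obtain ⟨c, hc⟩ := ha2 k hk
        exact ⟨c, fun _ => hc⟩
    choose c hc using hc
    obtain ⟨b, hb⟩ : ∃ b : Fin (m + 1) → 𝓞 F, b = fun k => if k ∈ I then a k else r1 (c k) := ⟨_, rfl⟩
    have hbI : ∀ k, k ∈ I → b k = a k := by
      intro k hk
      rw [hb]
      simp only [if_pos hk]
    have hbN : ∀ k, k ∉ I → b k = r1 (c k) := by
      intro k hk
      rw [hb]
      simp only [if_neg hk]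
    refine ⟨b, ?_, ?_⟩
    · rw [hB]
      refine fun k => ⟨fun hk => ?_, fun hk => ?_⟩
      · rw [hbI k hk]
        exact ha1 k
      · rw [hbN k hk]
        exact (hr1 _).1
    · funext k
      refine h4_uniq h2 (hr2 _).1 (ha1 k) ?_
      have e1 := (hr2 (ub p I b k)).2
      have e2 : (p : 𝓞 F) ^ 2 ∣ ub p I b k - a k := by
        unfold ub
        by_cases hk : k ∈ I
        · rw [if_pos hk, hbI k hk, sub_self]
          exact dvd_zero _
        · rw [if_neg hk, hbN k hk, hc k hk, ← mul_sub, sq]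
          refine mul_dvd_mul_left _ ?_
          have e3 := (hr1 (c k)).2
          rw [pow_one] at e3
          rw [← neg_sub]
          exact (dvd_neg).2 e3
      have e5 : r2 (ub p I b k) - a k = (ub p I b k - a k) - (ub p I b k - r2 (ub p I b k)) := by
        ring
      rw [e5]
      exact dvd_sub e2 e1
  · intro b _
    exact hG _ _ fun k => (hr2 _).2

end SSR
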