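import Mathlib
import Pool.Agent.Lib.SSR.H2
import Pool.Agent.Lib.SSR.H3
import Pool.Agent.Lib.SSR.H3B
import Pool.Agent.Lib.SSR.H4
import Pool.Agent.Lib.SSG.S.D3
import Pool.Agent.Lib.SSG.E.A2

open NumberField IsDedekindDomain

namespace SSR

open H55N (XS)
open SSG (Rep LTF)
open SSG.E (RpU)

variable {F : Type} [Field F] [NumberField F] {K : Type} [Field K] [NumberField K] [Algebra F K] {m p : ℕ} {C : Type} [NormedField C]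
  [IsUltrametricDist C] {L : LTF F C} {f : Ideal (𝓞 K)} {R : Finset (HeightOneSpectrum (𝓞 K))} {χ : Ideal (𝓞 K) →*₀ C} {ω₀ : Fin (m + 1) → 𝓞 K}
  {I : Finset (Fin (m + 1))} {I₀ : Ideal (𝓞 K)} {c₀ : 𝓞 K}

/-! Chunk H5 (M, assembly). PROOF. T1, T2: sets of representatives modulo p, p^2 (exists_Rep: SSG/S or choose; finiteness of 𝓞 F/(n)). Φ from h3_wt. H is periodic (Fn). First sum: Σ_{a ∈ S} χ (a) H (co a) = Σ_{a ∈ S} G (co a) with G = Φ H (h3_wt second part with x = a ∈ XS (hS.sub), hco) = Σ over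
piFinset T2 of Φ H (h4_sum). Second sum: a ∈ P iff Σ co a ω₀ ∈ P (p^2 ∈ P): = Σ over piFinset T2 of (if Σ a ω₀ ∈ P then H a else 0) = Σ_b H (ub b) =: S0 (h4_sum, h4_ind). h2_main: the first sum differs from n S0 by < ‖p‖^r, n = card of the x with Φ x ≠ 0 = prod (absNorm v - 1) (third part of h3_wt and
h3_count); ‖n - (-1)^card R‖ < 1 (h3_sign) and ‖S0‖ ≤ ‖p‖^r (h2_int). Fintype.card (Fin (m + 1)) = m + 1. -/

open Classical in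
theorem h5_class (hG : GH p L) (hA : Adp F p (∏ v ∈ R, v.asIdeal) ω₀ I) (hχ : PChG p f R χ) (hI : IsCoprime I₀ (Ideal.span {(p : 𝓞 K)}))
    (hf : I₀ ≤ f) (hcop : ∀ x ∈ XS I₀ c₀, IsCoprime (Ideal.span {x}) f) (hne : (0 : 𝓞 K) ∉ XS I₀ c₀) (co : 𝓞 K → Fin (m + 1) → 𝓞 F)
    (hco : ∀ x, ∃ t : 𝓞 K, x = ∑ s, algebraMap (𝓞 F) (𝓞 K) (co x s) * ω₀ s + (p : 𝓞 K) ^ 2 * t) {S : Finset (𝓞 K)} (hS : RpU I₀ c₀ (p ^ 2) S)
    {H : (Fin (m + 1) → 𝓞 F) → C} (hH : L.Fn 2 (Fin (m + 1)) H) :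
    ‖∑ a ∈ S, χ (Ideal.span {a}) * H (co a) - (-1) ^ R.card * ∑ a ∈ S, (if a ∈ ∏ v ∈ R, v.asIdeal then 1 else 0) * H (co a)‖ <
      ‖(p : C)‖ ^ (I.card + (m + 1)) ∧
    ‖∑ a ∈ S, (if a ∈ ∏ v ∈ R, v.asIdeal then 1 else 0) * H (co a)‖ ≤ ‖(p : C)‖ ^ (I.card + (m + 1)) := by
  have hp := hG.prime
  have hp0 : 0 < ‖(p : C)‖ := norm_pos_iff.2 (g1_p0 hG)
  obtain ⟨T1, h1⟩ := SSG.S.exists_Rep (F := F) p 1 hp.ne_zero
  obtain ⟨T2, h2⟩ := SSG.S.exists_Rep (F := F) p 2 hp.ne_zero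
  obtain ⟨Φ, hΦ, hΦ2, hΦ3⟩ := h3_wt hp hA hχ hI hf hcop hne
  have hHper : ∀ a b : Fin (m + 1) → 𝓞 F, (∀ k, (p : 𝓞 F) ^ 2 ∣ a k - b k) → H a = H b :=
    fun a b hab => SSG.Fn_per hG.ok hH a b hab
  have hco2 : ∀ x, (p : 𝓞 K) ^ 2 ∣ x - ∑ s, algebraMap (𝓞 F) (𝓞 K) (co x s) * ω₀ s := by
    intro x
    obtain ⟨t, ht⟩ := hco x
    refine ⟨t, ?_⟩
    have h3 := congrArg (fun z => z - ∑ s, algebraMap (𝓞 F) (𝓞 K) (co x s) * ω₀ s) ht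
    beta_reduce at h3
    rw [h3]
    ring
  have hpp : (p : 𝓞 K) ^ 2 ∈ ∏ v ∈ R, v.asIdeal := by
    rw [pow_two]
    exact Ideal.mul_mem_left _ _ hA.pmem
  -- the first sum
  have e1 : ∑ a ∈ S, χ (Ideal.span {a}) * H (co a) =
      ∑ a ∈ Fintype.piFinset (fun _ : Fin (m + 1) => T2), Φ a * H a := by
    rw [← h4_sum hp hA hI co hco hS h2 (fun a => Φ a * H a) (fun a b hab => by
      beta_reduce
      rw [hΦ.per a b hab, hHper a b hab])]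
    refine Finset.sum_congr rfl fun a ha => ?_
    beta_reduce
    rw [hΦ2 a (hS.sub a ha) (co a) (hco2 a)]
  -- membership in the ideal
  have hmem : ∀ a : 𝓞 K, (a ∈ ∏ v ∈ R, v.asIdeal) ↔
      ∑ s, algebraMap (𝓞 F) (𝓞 K) (co a s) * ω₀ s ∈ ∏ v ∈ R, v.asIdeal := by
    intro a
    obtain ⟨t, ht⟩ := hco2 a
    have h3 : (p : 𝓞 K) ^ 2 * t ∈ ∏ v ∈ R, v.asIdeal := Ideal.mul_mem_right _ _ hpp
    rw [← ht] at h3
    constructor
    · intro h4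
      have h5 := Ideal.sub_mem _ h4 h3
      rwa [sub_sub_cancel] at h5
    · intro h4
      have h5 := Ideal.add_mem _ h3 h4
      rwa [sub_add_cancel] at h5
  have hmem2 : ∀ a b : Fin (m + 1) → 𝓞 F, (∀ k, (p : 𝓞 F) ^ 2 ∣ a k - b k) →
      ((∑ s, algebraMap (𝓞 F) (𝓞 K) (a s) * ω₀ s ∈ ∏ v ∈ R, v.asIdeal) ↔
        ∑ s, algebraMap (𝓞 F) (𝓞 K) (b s) * ω₀ s ∈ ∏ v ∈ R, v.asIdeal) := by
    intro a b hab
    have h3 : ∑ s, algebraMap (𝓞 F) (𝓞 K) (a s) * ω₀ s - ∑ s, algebraMap (𝓞 F) (𝓞 K) (b s) * ω₀ s ∈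
        ∏ v ∈ R, v.asIdeal := by
      rw [← Finset.sum_sub_distrib]
      refine Ideal.sum_mem _ fun s _ => ?_
      rw [← sub_mul, ← map_sub]
      obtain ⟨t, ht⟩ := hab s
      rw [ht, map_mul, map_pow, map_natCast]
      exact Ideal.mul_mem_right _ _ (Ideal.mul_mem_right _ _ hpp)
    constructor
    · intro h4
      have h5 := Ideal.sub_mem _ h4 h3
      rwa [sub_sub_cancel] at h5
    · intro h4
      have h5 := Ideal.add_mem _ h3 h4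
      rwa [sub_add_cancel] at h5
  -- the second sum
  have e2 : ∑ a ∈ S, (if a ∈ ∏ v ∈ R, v.asIdeal then 1 else 0) * H (co a) =
      ∑ b ∈ Fintype.piFinset (fun k : Fin (m + 1) => if k ∈ I then T2 else T1), H (ub p I b) := by
    rw [← h4_ind hp hA h1 h2 H hHper, ← h4_sum hp hA hI co hco hS h2
      (fun a => if ∑ s, algebraMap (𝓞 F) (𝓞 K) (a s) * ω₀ s ∈ ∏ v ∈ R, v.asIdeal then H a else 0)
      (fun a b hab => by
        beta_reduce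
        rw [hHper a b hab]
        exact if_congr (hmem2 a b hab) rfl rfl)]
    refine Finset.sum_congr rfl fun a _ => ?_
    beta_reduce
    by_cases h3 : a ∈ ∏ v ∈ R, v.asIdeal
    · rw [if_pos h3, if_pos ((hmem a).1 h3), one_mul]
    · rw [if_neg h3, if_neg fun h4 => h3 ((hmem a).2 h4), zero_mul]
  have e3 := h2_main hG h1 h2 hΦ hH
  have e4 := h2_int hG h1 h2 I hH
  have e5 : ((Fintype.piFinset (fun k : Fin (m + 1) => if k ∈ I then ({0} : Finset (𝓞 F)) else T1)).filter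
      fun x => Φ x ≠ 0).card = ∏ v ∈ R, (Ideal.absNorm v.asIdeal - 1) := by
    rw [← h3_count hp hA h1]
    congr 1
    exact Finset.filter_congr fun x _ => hΦ3 x
  have e6 := h3_sign (C := C) hp hG.lt hχ.abv
  rw [Fintype.card_fin] at e3 e4
  rw [e5] at e3
  rw [e1, e2]
  refine ⟨?_, e4⟩
  obtain ⟨S0, hS0⟩ : ∃ S0 : C, S0 = ∑ b ∈ Fintype.piFinset (fun k : Fin (m + 1) => if k ∈ I then T2 else T1),
    H (ub p I b) := ⟨_, rfl⟩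
  obtain ⟨A, hAd⟩ : ∃ A : C, A = ∑ a ∈ Fintype.piFinset (fun _ : Fin (m + 1) => T2), Φ a * H a := ⟨_, rfl⟩
  rw [← hS0] at e3 e4 ⊢
  rw [← hAd] at e3 ⊢
  have hq : 0 < ‖(p : C)‖ ^ (I.card + (m + 1)) := pow_pos hp0 _
  have h3 : A - (-1) ^ R.card * S0 = (A - ((∏ v ∈ R, (Ideal.absNorm v.asIdeal - 1) : ℕ) : C) * S0) +
      (((∏ v ∈ R, (Ideal.absNorm v.asIdeal - 1) : ℕ) : C) - (-1) ^ R.card) * S0 := by ring
  rw [h3]
  refine lt_of_le_of_lt (IsUltrametricDist.norm_add_le_max _ _) (max_lt e3 ?_)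
  rw [norm_mul]
  calc ‖((∏ v ∈ R, (Ideal.absNorm v.asIdeal - 1) : ℕ) : C) - (-1) ^ R.card‖ * ‖S0‖ ≤
      ‖((∏ v ∈ R, (Ideal.absNorm v.asIdeal - 1) : ℕ) : C) - (-1) ^ R.card‖ *
        ‖(p : C)‖ ^ (I.card + (m + 1)) := mul_le_mul_of_nonneg_left e4 (norm_nonneg _)
    _ < 1 * ‖(p : C)‖ ^ (I.card + (m + 1)) := mul_lt_mul_of_pos_right e6 hq
    _ = ‖(p : C)‖ ^ (I.card + (m + 1)) := one_mul _

end SSR
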