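import Mathlib
import Pool.Agent.Lib.SSR.HD
import Pool.Agent.Lib.SSG.S.M2

open NumberField IsDedekindDomain

namespace SSR

variable {F : Type} [Field F] [NumberField F] {K : Type} [Field K] [NumberField K] {p : ℕ} {C : Type} [NormedField C]
  {f : Ideal (𝓞 K)} {R : Finset (HeightOneSpectrum (𝓞 K))} {χ : Ideal (𝓞 K) →*₀ ℂ}

/-! Chunk H6 (S/M). PROOF. χ a is 0 or a root of unity, hence algebraic over ℚ: SSG.S.m2_lift (SSG/S/M2): χ a = j (y a) for some y a ∈ Ω. χ' a := y a; it is multiplicative, maps 0 to 0 and 1 to 1 because j is injective (χ is multiplicative, zero, one). χ'' = i ∘ χ' (MonoidWithZeroHom.comp with i.toMonoidWithZeroHom).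
The fields of PChG: apply i to the equations χ' a ^ p = 1 etc., which follow from those of χ by injectivity of j. -/

theorem h6_chi {Ω : Type} [Field Ω] [Algebra F Ω] [IsAlgClosure F Ω] (hp : p.Prime) (j : Ω →+* ℂ) (i : Ω →+* C) (hχ : PCh p f R χ) :
    ∃ (χ' : Ideal (𝓞 K) →*₀ Ω) (χ'' : Ideal (𝓞 K) →*₀ C), (∀ a, j (χ' a) = χ a) ∧ (∀ a, i (χ' a) = χ'' a) ∧ PChG p f R χ'' := by
  haveI hΩ : CharZero Ω := charZero_of_injective_algebraMap (algebraMap F Ω).injective
  have hj : Function.Injective j := j.injective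
  have halg : ∀ a, IsAlgebraic ℚ (χ a) := by
    intro a
    by_cases h : IsCoprime a (f * ∏ v ∈ R, v.asIdeal)
    · by_cases h0 : a = ⊥
      · have h1 : χ a = 0 := by
          rw [h0]
          exact map_zero χ
        rw [h1]
        exact isAlgebraic_zero
      · have h1 := hχ.val a h0 h
        refine ⟨Polynomial.X ^ p - 1, ?_, ?_⟩
        · exact Polynomial.X_pow_sub_C_ne_zero hp.pos 1
        · rw [map_sub, map_pow, Polynomial.aeval_X, map_one, h1, sub_self]
    · rw [hχ.zero a h]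
      exact isAlgebraic_zero
  have hex : ∀ a, ∃ x : Ω, j x = χ a := fun a => SSG.S.m2_lift (F := F) j (χ a) (halg a)
  choose y hy using hex
  obtain ⟨χ', hχ'⟩ : ∃ χ' : Ideal (𝓞 K) →*₀ Ω, ∀ a, χ' a = y a := by
    refine ⟨{ toFun := y, map_zero' := ?_, map_one' := ?_, map_mul' := ?_ }, fun a => rfl⟩
    · apply hj
      rw [hy, map_zero, map_zero]
    · apply hj
      rw [hy, map_one, map_one]
    · intro a b
      apply hj
      rw [hy, map_mul, map_mul, hy, hy]
  have hjχ : ∀ a, j (χ' a) = χ a := fun a => by rw [hχ', hy]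
  refine ⟨χ', (i.toMonoidWithZeroHom).comp χ', hjχ, fun a => rfl, ?_⟩
  have hi : ∀ a, ((i.toMonoidWithZeroHom).comp χ') a = i (χ' a) := fun a => rfl
  refine ⟨hχ.ne, hχ.cop, hχ.abv, ?_, ?_, ?_⟩
  · intro a ha hc
    have h1 : χ' a ^ p = 1 := by
      apply hj
      rw [map_pow, hjχ, hχ.val a ha hc, map_one]
    rw [hi, ← map_pow, h1, map_one]
  · intro a ha
    have h1 : χ' a = 0 := by
      apply hj
      rw [hjχ, hχ.zero a ha, map_zero]
    rw [hi, h1, map_zero]
  · intro x y' hx hy' hc hxy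
    have h1 : χ' (Ideal.span {x}) = χ' (Ideal.span {y'}) := by
      apply hj
      rw [hjχ, hjχ, hχ.per x y' hx hy' hc hxy]
    rw [hi, hi, h1]

end SSR
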