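import Mathlib
import Pool.Agent.Lib.SSR.H1B
import Pool.Agent.Lib.H41D.P8
import Pool.Agent.Lib.SSG.V.V8

open NumberField IsDedekindDomain

namespace SSR

open H55P

variable {F : Type} [Field F] [NumberField F] [IQ F] {K : Type} [Field K] [NumberField K] [Algebra F K] {m p : ℕ}

/-! Chunk HE (M). PROOF. Lib/H41D (module DS of helper41, imported sorried statements may be used) has: dl σ ω = det (σ i (ω s)), IBas F ω (basis of O_K over O_F), ibas_exists (P4), dl_rep (P2), val_disc (P4: V(dl σ ω)^2 = vN F V (different), for any π ≠ 0 with V(eF π) < 1: take π = p),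
val_lt_iff, val_eq_one_iff (P1, with the prime π = p of 𝓞 F), val_absNorm (P6: V(absNorm a) = vN a * vNc a), discr_tower (P8). σ: the embeddings over embF F (H55P: exists_emb or as in corew2 / H41D; Emb F σ). (1) SSG.V.det_sq: dl σ ω₀ ^ 2 = embF F (discr ω₀) = δ^2, so V(δ) = V(dl σ ω₀).
(2) ω₀ s = Σ A s t ω t (IBas), dl σ ω₀ = eF (det A) dl σ ω (dl_rep). det A is not divisible by the prime p of 𝓞 F: otherwise there is a vector a, not all a s divisible by p, with Σ_s a s A s t = 0 modulo p for all t (Matrix.exists_vecMul_eq_zero_iff over the field 𝓞 F/p), so p divides Σ a s ω₀ s, contradiction to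
Adp.ind. So V(eF det A) = 1 (val_eq_one_iff) and V(δ)^2 = V(dl σ ω)^2 = vN D, D = differentIdeal (𝓞 F) (𝓞 K). (3) For x in 𝓞 F: V(conj (eF x)) = V(eF x): x = p^k u with p not dividing u (x ≠ 0), V(eF u) = 1 and V(conj (eF u)) = 1 (val_eq_one_iff for the valuation ring V.comap conj = cV V of P7; conj p = p).
So vNc D = vN D. (4) V(discr K) = V(absNorm (relNorm D)) * V(discr F)^(m+1) (discr_tower with base field F, n = 1; absNorm (relNorm D) = absNorm D: Ideal.absNorm_relNorm; its type: K := F, K' := K) and V(discr F) = 1: p does not divide discr F because (p) is prime in 𝓞 F (unramified): UnrP p F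
(squarefree: (p) is prime) and the lemma used in H41D.val_discrF for the split case (copy it). Together V(discr K) = vN D * vNc D = V(δ)^4. -/

theorem he_conj (hin : Prime (p : 𝓞 F)) (V : ValuationSubring ℂ) (hV : V.valuation (p : ℂ) < 1) (x : 𝓞 F) :
    V.valuation ((starRingEnd ℂ) (eF F x)) = V.valuation (eF F x) := by
  by_cases hx : x = 0
  · rw [hx, map_zero, map_zero]
  have hVp : V.valuation (eF F (p : 𝓞 F)) < 1 := by rw [map_natCast]; exact hV
  have hcV : (H41D.cV V).valuation (eF F (p : 𝓞 F)) < 1 := by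
    rw [H41D.cV_lt_one, map_natCast, map_natCast]
    exact hV
  have hfin : FiniteMultiplicity (p : 𝓞 F) x := FiniteMultiplicity.of_not_isUnit hin.not_isUnit hx
  obtain ⟨u, h1, h2⟩ := hfin.exists_eq_pow_mul_and_not_dvd
  have h3 : V.valuation (eF F u) = 1 := (H41D.val_eq_one_iff V hin hVp u).2 h2
  have h4 : V.valuation ((starRingEnd ℂ) (eF F u)) = 1 :=
    (H41D.cV_eq_one V _).1 ((H41D.val_eq_one_iff (H41D.cV V) hin hcV u).2 h2)
  rw [h1, map_mul, map_mul, map_mul, map_mul, h3, h4, map_pow, map_natCast, map_pow, map_natCast]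

theorem he_det (hin : Prime (p : 𝓞 F)) {P : Ideal (𝓞 K)} {ω₀ : Fin (m + 1) → 𝓞 K} {I : Finset (Fin (m + 1))}
    (hA : Adp F p P ω₀ I) (ω : Fin (m + 1) → 𝓞 K) (A : Fin (m + 1) → Fin (m + 1) → 𝓞 F)
    (h : ∀ s, ω₀ s = ∑ t, algebraMap (𝓞 F) (𝓞 K) (A s t) * ω t) : ¬ (p : 𝓞 F) ∣ Matrix.det (Matrix.of fun s t => A s t) := by
  intro hdvd
  have hprime : (Ideal.span {(p : 𝓞 F)}).IsPrime := (Ideal.span_singleton_prime hin.ne_zero).2 hin
  have hdet : Matrix.det ((Ideal.Quotient.mk (Ideal.span {(p : 𝓞 F)})).mapMatrix (Matrix.of fun s t => A s t)) = 0 := by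
    rw [← RingHom.map_det, Ideal.Quotient.eq_zero_iff_mem, Ideal.mem_span_singleton]
    exact hdvd
  obtain ⟨v, hv0, hv⟩ := Matrix.exists_vecMul_eq_zero_iff.2 hdet
  choose a ha using fun s => Ideal.Quotient.mk_surjective (I := Ideal.span {(p : 𝓞 F)}) (v s)
  have h1 : ∀ t, (p : 𝓞 F) ∣ ∑ s, a s * A s t := by
    intro t
    rw [← Ideal.mem_span_singleton, ← Ideal.Quotient.eq_zero_iff_mem, map_sum]
    have h2 := congrFun hv t
    rw [Matrix.vecMul, dotProduct] at h2
    rw [Pi.zero_apply] at h2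
    rw [← h2]
    refine Finset.sum_congr rfl fun s _ => ?_
    rw [map_mul, ha s]
    rfl
  choose c hc using h1
  have h3 : (p : 𝓞 K) ∣ ∑ s, algebraMap (𝓞 F) (𝓞 K) (a s) * ω₀ s := by
    refine ⟨∑ t, algebraMap (𝓞 F) (𝓞 K) (c t) * ω t, ?_⟩
    have h4 : ∑ s, algebraMap (𝓞 F) (𝓞 K) (a s) * ω₀ s = ∑ t, algebraMap (𝓞 F) (𝓞 K) (∑ s, a s * A s t) * ω t := by
      simp only [map_sum, Finset.sum_mul]
      rw [Finset.sum_comm]
      refine Finset.sum_congr rfl fun s _ => ?_
      rw [h s, Finset.mul_sum]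
      refine Finset.sum_congr rfl fun t _ => ?_
      rw [map_mul]
      ring
    rw [h4, Finset.mul_sum]
    refine Finset.sum_congr rfl fun t _ => ?_
    rw [hc t, map_mul, map_natCast]
    ring
  apply hv0
  funext s
  rw [← ha s, Pi.zero_apply, Ideal.Quotient.eq_zero_iff_mem, Ideal.mem_span_singleton]
  exact hA.ind a h3 s

theorem he_disc (hp : p.Prime) (hin : Prime (p : 𝓞 F)) (hm : Module.finrank F K = m + 1) {P : Ideal (𝓞 K)}
    {ω₀ : Fin (m + 1) → 𝓞 K} {I : Finset (Fin (m + 1))} (hA : Adp F p P ω₀ I) (V : ValuationSubring ℂ) (hV : V.valuation (p : ℂ) < 1) (δ : ℂ)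
    (hδ : δ ^ 2 = embF F (Algebra.discr F fun s => (ω₀ s : K))) : V.valuation δ ^ 4 = V.valuation ((NumberField.discr K : ℤ) : ℂ) := by
  obtain ⟨σ, hσ⟩ := emb_exists (F := F) K m hm
  have hVp : V.valuation (eF F (p : 𝓞 F)) < 1 := by rw [map_natCast]; exact hV
  obtain ⟨ω, hω⟩ := H41D.ibas_exists (F := F) (K := K) hm
  choose A hA' using fun s => hω (ω₀ s)
  have e1 : V.valuation δ ^ 2 = V.valuation (H41D.dl σ fun s => (ω₀ s : K)) ^ 2 := by
    rw [← map_pow, ← map_pow, hδ, ← SSG.V.det_sq hσ ω₀]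
    rfl
  have e2 : H41D.dl σ (fun s => (ω₀ s : K)) = eF F (Matrix.det (Matrix.of fun s t => A s t)) * H41D.dl σ (fun s => (ω s : K)) := by
    refine H41D.dl_rep hσ _ _ A fun s => ?_
    conv_lhs => rw [hA' s]
    exact H41D.coe_rep ω (A s)
  have e4 : V.valuation (eF F (Matrix.det (Matrix.of fun s t => A s t))) = 1 :=
    (H41D.val_eq_one_iff V hin hVp _).2 (he_det hin hA ω A hA')
  have e5 : V.valuation δ ^ 2 = H41D.vN F V (differentIdeal (𝓞 F) (𝓞 K)) := by
    rw [e1, e2, map_mul, e4, one_mul, H41D.val_disc V hin.ne_zero hVp hσ hω]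
  have e6 : H41D.vNc F V (differentIdeal (𝓞 F) (𝓞 K)) = H41D.vN F V (differentIdeal (𝓞 F) (𝓞 K)) := he_conj hin V hV _
  have e7 : V.valuation ((discr F : ℤ) : ℂ) = 1 := by
    refine H41D.val_cop V hV ?_
    have hunr : UnrP p F := by
      unfold UnrP
      have h1 : Prime (Ideal.span {(p : 𝓞 F)}) := Ideal.prime_of_isPrime (by rw [Ne, Ideal.span_singleton_eq_bot]; exact hin.ne_zero)
        ((Ideal.span_singleton_prime hin.ne_zero).2 hin)
      exact h1.irreducible.squarefree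
    have h1 : ¬ (p : ℤ) ∣ discr F := pl1_discr p hp hunr
    exact (Nat.prime_iff_prime_int.1 hp).coprime_iff_not_dvd.2 h1
  have e8 : V.valuation ((discr K : ℤ) : ℂ) = H41D.vN F V (differentIdeal (𝓞 F) (𝓞 K)) * H41D.vNc F V (differentIdeal (𝓞 F) (𝓞 K)) := by
    have h1 := NumberField.natAbs_discr_eq_absNorm_differentIdeal_mul_natAbs_discr_pow F (𝓞 F) K (𝓞 K)
    rw [← H41D.val_absNorm, ← H41D.val_natAbs V (discr K), h1]
    push_cast
    rw [map_mul, map_pow, H41D.val_natAbs V (discr F), e7, one_pow, mul_one]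
  rw [e8, e6, ← e5, ← pow_add]

end SSR
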