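import Mathlib
import Pool.Agent.Lib.SSR.T4
import Pool.Agent.Lib.SSR.GX
import Pool.Agent.Lib.SSR.H1
import Pool.Agent.Lib.SSR.H5
import Pool.Agent.Lib.SSR.H6
import Pool.Agent.Lib.SSR.HE

open NumberField IsDedekindDomain

namespace SSR

open H55N H55P SSG SSG.E

variable {F : Type} [Field F] [NumberField F] [IQ F] {K : Type} [Field K] [NumberField K] [Algebra F K] {m p : ℕ} [Fact p.Prime]
  {M : Ideal (𝓞 F)} {ψ : Ideal (𝓞 F) →*₀ 𝓞 F} {f : Ideal (𝓞 K)} {R : Finset (HeightOneSpectrum (𝓞 K))} {χ : Ideal (𝓞 K) →*₀ ℂ}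
  {V : ValuationSubring ℂ} {ι : Type} [Fintype ι] {b : ι → Ideal (𝓞 K)} {c₀ : ι → 𝓞 K} {T : ι → Set (𝓞 K)} {κ : ι → ℂ}
  {c : Fin (m + 1) × Fin 2 → Ideal (𝓞 K)} {q : Fin (m + 1) × Fin 2 → ℕ} {val : ι → 𝓞 K → ℂ}

/-! Chunk T6 (M/L). The congruence at V. PROOF. Port of SSG.S.fin_V (SSG/S/A3.lean). hS.curve gives A B Ω j act, hd : Dta, hsup : Sup. exists_locL hd hS.inert hsup (V.comap j) (V(p) < 1: m2_comap_lt) gives i, Tp, L, hloc : LocM, hG : GH p L. h1_adp (finrank ℚ F = 2: IQ.deg; Prime (p : 𝓞 F) from hS.inert;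
P = prod over R of v, p ∈ P by t3_pR) gives ω₀, I, hA : Adp and absNorm P = p^(2 (m+1-card I)). co from adp_two (choose). δ: a square root of embF F (discr ω₀) (IsAlgClosed ℂ: exists_pow_nat_eq / IsSquare); he_disc: V(δ)^4 = V(discr K). hD.cls i (instances of Ω, V.comap j, i, L, ω₀, co, δ) gives hh x, H x with
j (hh x a) = δ * val x a / Om^(m+1), H x in Fn 2, i (hh x a) = H x (co a) for a in XS. h6_chi gives χ', χ''. κ' x with j (κ' x) = κ x (m2_lift, alg). In Ω: S' = Σ_x κ' x (χ' (b x))⁻¹ nb x Σ_(a ∈ S x) χ' (span {a}) hh x a, U' = Σ_x κ' x nb x Σ_(a ∈ S x) (if a ∈ P then 1 else 0) hh x a. j S' and j U' are the two numbers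
of the statement (with the factor δ / Om^(m+1)). i S' = Σ_x i (κ' x nb x) i (χ' (b x))⁻¹ s_x, i U' = Σ_x i (κ' x nb x) u_x, where by h5_class (PChG for χ'', I₀ = mK K M * f * b x ≤ f, coprime to p, prm, zer) ‖s_x - (-1)^card R u_x‖ < ‖p‖^r, ‖u_x‖ ≤ ‖p‖^r, r = card I + (m + 1); ‖i (κ' x nb x)‖ ≤ 1
(V(κ) = 1, naturals) and ‖i (χ' (b x))⁻¹ - 1‖ < 1 (p-th roots of unity: G4A g4_root or SSG.S.s4_root, zet). So ‖i S' - (-1)^card R i U'‖ < ‖p‖^r and ‖i U'‖ ≤ ‖p‖^r (finite ultrametric sums; s_x itself has norm ≤ ‖p‖^r). Translate to V by m2_val, m2_lt, m2_comap, m2_comap_lt (compare with i (p^r)). -/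

theorem t6_sum_lt {C : Type} [NormedField C] [IsUltrametricDist C] {ι : Type} (s : Finset ι) (g : ι → C) {B : ℝ} (hB : 0 < B)
    (h : ∀ x ∈ s, ‖g x‖ < B) : ‖∑ x ∈ s, g x‖ < B := by
  refine Finset.sum_induction g (fun z => ‖z‖ < B) ?_ ?_ h
  · intro a b ha hb
    exact lt_of_le_of_lt (IsUltrametricDist.norm_add_le_max a b) (max_lt ha hb)
  · rw [norm_zero]
    exact hB

theorem t6_sum_le {C : Type} [NormedField C] [IsUltrametricDist C] {ι : Type} (s : Finset ι) (g : ι → C) {B : ℝ} (hB : 0 ≤ B)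
    (h : ∀ x ∈ s, ‖g x‖ ≤ B) : ‖∑ x ∈ s, g x‖ ≤ B := by
  refine Finset.sum_induction g (fun z => ‖z‖ ≤ B) ?_ ?_ h
  · intro a b ha hb
    exact (IsUltrametricDist.norm_add_le_max a b).trans (max_le ha hb)
  · rw [norm_zero]
    exact hB

theorem t6_term {C : Type} [NormedField C] [IsUltrametricDist C] {X Y s u : C} {n : ℕ} {B : ℝ} (hB : 0 < B) (hX : ‖X‖ ≤ 1) (hY : ‖Y - 1‖ < 1)
    (h1 : ‖s - (-1) ^ n * u‖ < B) (h2 : ‖u‖ ≤ B) : ‖X * (Y * s - (-1) ^ n * u)‖ < B := by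
  have h3 : ‖(-1 : C) ^ n * u‖ ≤ B := by
    rw [norm_mul, norm_pow, norm_neg, NormOneClass.norm_one, one_pow, one_mul]
    exact h2
  have h4 : ‖s‖ ≤ B := by
    have e : s = (s - (-1) ^ n * u) + (-1) ^ n * u := by ring
    rw [e]
    exact (IsUltrametricDist.norm_add_le_max _ _).trans (max_le h1.le h3)
  have h5 : ‖(Y - 1) * s‖ < B := by
    rw [norm_mul]
    calc ‖Y - 1‖ * ‖s‖ ≤ ‖Y - 1‖ * B := mul_le_mul_of_nonneg_left h4 (norm_nonneg _)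
      _ < 1 * B := mul_lt_mul_of_pos_right hY hB
      _ = B := one_mul B
  have e2 : Y * s - (-1) ^ n * u = (Y - 1) * s + (s - (-1) ^ n * u) := by ring
  rw [norm_mul]
  calc ‖X‖ * ‖Y * s - (-1) ^ n * u‖ ≤ 1 * ‖Y * s - (-1) ^ n * u‖ := mul_le_mul_of_nonneg_right hX (norm_nonneg _)
    _ = ‖Y * s - (-1) ^ n * u‖ := one_mul _
    _ < B := by
      rw [e2]
      exact lt_of_le_of_lt (IsUltrametricDist.norm_add_le_max _ _) (max_lt h5 h1)

theorem t6_cong {Om : ℂ} (hS : SCtx p M ψ Om) (hV : V.valuation (p : ℂ) < 1) (hm : Module.finrank F K = m + 1)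
    (hχ : PCh p f R χ) (hD : TDat F M ψ p f χ V ι b c₀ T κ c q val) (S : ι → Finset (𝓞 K))
    (hR : ∀ i, RpU (mK K M * f * b i) (c₀ i) (p ^ 2) (S i)) :
    ∃ (δ : ℂ) (d : ℕ), d ≤ m + 1 ∧ δ ≠ 0 ∧ V.valuation δ ^ 4 = V.valuation ((NumberField.discr K : ℤ) : ℂ) ∧
      (∏ v ∈ R, Ideal.absNorm v.asIdeal) = p ^ (2 * d) ∧
      V.valuation (δ / Om ^ (m + 1) * (∑ i, κ i * (χ (b i))⁻¹ * (Ideal.absNorm (b i) : ℂ) * ∑ a ∈ S i, χ (Ideal.span {a}) * val i a) -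
        (-1) ^ R.card * (δ / Om ^ (m + 1) * ∑ i, κ i * (Ideal.absNorm (b i) : ℂ) * ∑ a ∈ S i, indI (∏ v ∈ R, v.asIdeal) a * val i a)) <
        V.valuation (p : ℂ) ^ (2 * (m + 1) - d) ∧
      V.valuation (δ / Om ^ (m + 1) * ∑ i, κ i * (Ideal.absNorm (b i) : ℂ) * ∑ a ∈ S i, indI (∏ v ∈ R, v.asIdeal) a * val i a) ≤
        V.valuation (p : ℂ) ^ (2 * (m + 1) - d) := by
  classical
  have hp : p.Prime := Fact.out
  obtain ⟨A, B, Ω, iΩ1, iΩ2, iΩ3, iΩ4, j, act, hd, hsup⟩ := hS.curve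
  have hpp0 : (p : 𝓞 F) ≠ 0 := Nat.cast_ne_zero.2 hp.ne_zero
  have hin : Prime (p : 𝓞 F) := (Ideal.span_singleton_prime hpp0).1 hS.inert
  have hc0 : CharZero Ω := charZero_of_injective_algebraMap (algebraMap F Ω).injective
  have hVΩ : (V.comap j).valuation (p : Ω) < 1 := (SSG.S.m2_comap_lt j V (p : Ω)).2 (by rwa [map_natCast])
  obtain ⟨i, Tp, L, hloc, hG⟩ := exists_locL hd hS.inert hsup (V.comap j) hVΩ
  have hpP : (p : 𝓞 K) ∈ ∏ v ∈ R, v.asIdeal := t3_pR hp hχ.abv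
  obtain ⟨ω₀, I, hA, hN⟩ := h1_adp hp IQ.deg hin hm (∏ v ∈ R, v.asIdeal) hpP
  have hco0 := fun x : 𝓞 K => adp_two hA x
  choose co hco using hco0
  obtain ⟨δ, hδ⟩ : ∃ δ : ℂ, δ ^ 2 = embF F (Algebra.discr F fun s => (ω₀ s : K)) :=
    IsAlgClosed.exists_pow_nat_eq _ (by norm_num)
  have hδV := he_disc hp hin hm hA V hV δ hδ
  have hδ0 : δ ≠ 0 := by
    rintro rfl
    rw [map_zero, zero_pow (by norm_num)] at hδV
    have h1 : ((NumberField.discr K : ℤ) : ℂ) ≠ 0 := Int.cast_ne_zero.2 (NumberField.discr_ne_zero K)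
    exact (Valuation.ne_zero_iff _).2 h1 hδV.symm
  have hcls := fun x => hD.cls x A B Om Ω j act M ψ hd (V.comap j) i Tp L hVΩ hloc ω₀ co hco δ hδ
  choose hh H hh1 hH hh2 using hcls
  obtain ⟨χ', χ'', hχ1, hχ2, hχG⟩ := h6_chi (F := F) hp j i hχ
  choose κ' hκ' using fun x => SSG.S.m2_lift (F := F) j (κ x) (hD.cl.alg x)
  have hOm : Om ≠ 0 := hd.cma.per.ne
  have hOmm : Om ^ (m + 1) ≠ 0 := pow_ne_zero _ hOm
  have hpΩ : (p : Ω) ≠ 0 := Nat.cast_ne_zero.2 hp.ne_zero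
  have hpi : (p : ℂ_[p]) ≠ 0 := Nat.cast_ne_zero.2 hp.ne_zero
  have hIc : I.card ≤ m + 1 := by
    have h1 := Finset.card_le_univ I
    rwa [Fintype.card_fin] at h1
  obtain ⟨nb, hnb⟩ : ∃ nb : ι → ℕ, nb = fun x => Ideal.absNorm (b x) := ⟨_, rfl⟩
  obtain ⟨S', hSd⟩ : ∃ S' : Ω, S' = ∑ x, κ' x * (χ' (b x))⁻¹ * (nb x : Ω) *
      ∑ a ∈ S x, χ' (Ideal.span {a}) * hh x a := ⟨_, rfl⟩
  obtain ⟨U', hUd⟩ : ∃ U' : Ω, U' = ∑ x, κ' x * (nb x : Ω) *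
      ∑ a ∈ S x, (if a ∈ ∏ v ∈ R, v.asIdeal then (1 : Ω) else 0) * hh x a := ⟨_, rfl⟩
  have hjS : j S' = δ / Om ^ (m + 1) * ∑ i, κ i * (χ (b i))⁻¹ * (Ideal.absNorm (b i) : ℂ) *
      ∑ a ∈ S i, χ (Ideal.span {a}) * val i a := by
    rw [hSd, map_sum, Finset.mul_sum]
    refine Finset.sum_congr rfl fun x _ => ?_
    have h1 : j (∑ a ∈ S x, χ' (Ideal.span {a}) * hh x a) =
        δ / Om ^ (m + 1) * ∑ a ∈ S x, χ (Ideal.span {a}) * val x a := by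
      rw [map_sum, Finset.mul_sum]
      refine Finset.sum_congr rfl fun a ha => ?_
      rw [map_mul, hχ1, hh1 x a ((hR x).sub a ha)]
      ring
    rw [map_mul j, h1, map_mul j, map_mul j, map_inv₀ j, hχ1, map_natCast j, hκ', hnb]
    ring
  have hjU : j U' = δ / Om ^ (m + 1) * ∑ i, κ i * (Ideal.absNorm (b i) : ℂ) *
      ∑ a ∈ S i, indI (∏ v ∈ R, v.asIdeal) a * val i a := by
    rw [hUd, map_sum, Finset.mul_sum]
    refine Finset.sum_congr rfl fun x _ => ?_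
    have h1 : j (∑ a ∈ S x, (if a ∈ ∏ v ∈ R, v.asIdeal then (1 : Ω) else 0) * hh x a) =
        δ / Om ^ (m + 1) * ∑ a ∈ S x, indI (∏ v ∈ R, v.asIdeal) a * val x a := by
      rw [map_sum, Finset.mul_sum]
      refine Finset.sum_congr rfl fun a ha => ?_
      rw [map_mul, hh1 x a ((hR x).sub a ha)]
      unfold indI
      by_cases h3 : a ∈ ∏ v ∈ R, v.asIdeal
      · rw [if_pos h3, if_pos h3, map_one]
        ring
      · rw [if_neg h3, if_neg h3, map_zero]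
        ring
    rw [map_mul j, h1, map_mul j, map_natCast j, hκ', hnb]
    ring
  have hiS : i S' = ∑ x, i (κ' x * (nb x : Ω)) * (i ((χ' (b x))⁻¹) *
      ∑ a ∈ S x, χ'' (Ideal.span {a}) * H x (co a)) := by
    rw [hSd, map_sum]
    refine Finset.sum_congr rfl fun x _ => ?_
    have h1 : i (∑ a ∈ S x, χ' (Ideal.span {a}) * hh x a) = ∑ a ∈ S x, χ'' (Ideal.span {a}) * H x (co a) := by
      rw [map_sum]
      refine Finset.sum_congr rfl fun a ha => ?_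
      rw [map_mul, hχ2, hh2 x a ((hR x).sub a ha)]
    rw [map_mul i, h1, map_mul i, map_mul i, map_mul i]
    ring
  have hiU : i U' = ∑ x, i (κ' x * (nb x : Ω)) *
      ∑ a ∈ S x, (if a ∈ ∏ v ∈ R, v.asIdeal then (1 : ℂ_[p]) else 0) * H x (co a) := by
    rw [hUd, map_sum]
    refine Finset.sum_congr rfl fun x _ => ?_
    have h1 : i (∑ a ∈ S x, (if a ∈ ∏ v ∈ R, v.asIdeal then (1 : Ω) else 0) * hh x a) =
        ∑ a ∈ S x, (if a ∈ ∏ v ∈ R, v.asIdeal then (1 : ℂ_[p]) else 0) * H x (co a) := by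
      rw [map_sum]
      refine Finset.sum_congr rfl fun a ha => ?_
      rw [map_mul, hh2 x a ((hR x).sub a ha)]
      by_cases h3 : a ∈ ∏ v ∈ R, v.asIdeal
      · rw [if_pos h3, if_pos h3, map_one]
      · rw [if_neg h3, if_neg h3, map_zero]
    rw [map_mul i, h1]
  have hX : ∀ x, ‖i (κ' x * (nb x : Ω))‖ ≤ 1 := by
    intro x
    rw [← hloc.val, ValuationSubring.mem_comap, ← ValuationSubring.valuation_le_one_iff, map_mul j, map_natCast j, hκ',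
      map_mul, hD.cl.unit x V hV, one_mul]
    exact pt9_nat V _
  have hY : ∀ x, ‖i ((χ' (b x))⁻¹) - 1‖ < 1 := by
    intro x
    have h1 : i ((χ' (b x))⁻¹) - 1 = i ((χ' (b x))⁻¹ - 1) := by
      rw [map_sub, map_one]
    rw [h1, ← SSG.S.m2_lt i hloc.val, SSG.S.m2_comap_lt, map_sub, map_one, map_inv₀, hχ1]
    refine SSG.S.s4_root p hp V hV 1 _ ?_
    rw [inv_pow, inv_eq_one, pow_one]
    exact hD.cl.zet x
  have h5 := fun x => h5_class hG hA hχG (hD.cl.cop x)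
    (show mK K M * f * b x ≤ f from Ideal.mul_le_left.trans Ideal.mul_le_right) (hD.cl.prm x) (hD.cl.zer x) co hco (hR x) (hH x)
  have hq : 0 < ‖(p : ℂ_[p])‖ ^ (I.card + (m + 1)) := pow_pos (norm_pos_iff.2 hpi) _
  have hlt : ‖i (S' - (-1) ^ R.card * U')‖ < ‖i ((p : Ω) ^ (I.card + (m + 1)))‖ := by
    have e1 : i (S' - (-1) ^ R.card * U') = ∑ x, i (κ' x * (nb x : Ω)) * (i ((χ' (b x))⁻¹) *
        (∑ a ∈ S x, χ'' (Ideal.span {a}) * H x (co a)) - (-1) ^ R.card *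
        ∑ a ∈ S x, (if a ∈ ∏ v ∈ R, v.asIdeal then (1 : ℂ_[p]) else 0) * H x (co a)) := by
      rw [map_sub, map_mul, map_pow, map_neg, map_one, hiS, hiU, Finset.mul_sum, ← Finset.sum_sub_distrib]
      refine Finset.sum_congr rfl fun x _ => ?_
      ring
    rw [e1, map_pow, map_natCast, norm_pow]
    refine t6_sum_lt _ _ hq fun x _ => ?_
    exact t6_term hq (hX x) (hY x) (h5 x).1 (h5 x).2
  have hle : ‖i U'‖ ≤ ‖i ((p : Ω) ^ (I.card + (m + 1)))‖ := by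
    rw [hiU, map_pow, map_natCast, norm_pow]
    refine t6_sum_le _ _ hq.le fun x _ => ?_
    rw [norm_mul]
    calc ‖i (κ' x * (nb x : Ω))‖ * ‖∑ a ∈ S x, (if a ∈ ∏ v ∈ R, v.asIdeal then (1 : ℂ_[p]) else 0) * H x (co a)‖ ≤
        1 * ‖∑ a ∈ S x, (if a ∈ ∏ v ∈ R, v.asIdeal then (1 : ℂ_[p]) else 0) * H x (co a)‖ :=
          mul_le_mul_of_nonneg_right (hX x) (norm_nonneg _)
      _ = ‖∑ a ∈ S x, (if a ∈ ∏ v ∈ R, v.asIdeal then (1 : ℂ_[p]) else 0) * H x (co a)‖ := one_mul _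
      _ ≤ ‖(p : ℂ_[p])‖ ^ (I.card + (m + 1)) := (h5 x).2
  have hexp : 2 * (m + 1) - (m + 1 - I.card) = I.card + (m + 1) := by omega
  have hval : V.valuation (j ((p : Ω) ^ (I.card + (m + 1)))) = V.valuation (p : ℂ) ^ (I.card + (m + 1)) := by
    rw [map_pow, map_natCast, map_pow]
  refine ⟨δ, m + 1 - I.card, Nat.sub_le _ _, hδ0, hδV, ?_, ?_, ?_⟩
  · rw [← hN, map_prod]
  · rw [hexp, ← hjS, ← hjU, ← hval]
    have h1 := (SSG.S.m2_comap_le j V ((p : Ω) ^ (I.card + (m + 1))) (S' - (-1) ^ R.card * U')).not.1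
      ((SSG.S.m2_le i hloc.val _ _).not.2 (not_le.2 hlt))
    rw [not_le, map_sub, map_mul, map_pow, map_neg, map_one] at h1
    exact h1
  · rw [hexp, ← hjU, ← hval]
    exact (SSG.S.m2_comap_le j V _ _).1 ((SSG.S.m2_le i hloc.val _ _).2 hle)

end SSR
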