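import Mathlib
import Pool.Agent.Lib.SSR.TE

open NumberField IsDedekindDomain

namespace SSR

open H55N H55P

variable {F : Type} [Field F] [NumberField F] [IQ F] {K : Type} [Field K] [NumberField K] [Algebra F K] {m p : ℕ}
  {M : Ideal (𝓞 F)} {ψ : Ideal (𝓞 F) →*₀ 𝓞 F} {R : Finset (HeightOneSpectrum (𝓞 K))} {V : ValuationSubring ℂ}

/-! Chunk T7 (S/M). PROOF. t7_psi: for v ∈ R: p ∈ v; relNorm (𝓞 F) v = (v₀)^f with v₀ the prime below, f ≥ 1 the inertia degree (H55K.DD.below or Ideal.relNorm_eq_pow_of_isMaximal..; v₀ contains the prime element p of 𝓞 F, so v₀ = span {p}). PsiP K ψ v = conj (eF (ψ (span {p})^f)) = (-p)^f, absNorm v = absNorm (relNorm v) = absNorm (span {p})^f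
= p^(2 f) (IQ.deg: absNorm (span {p}) = p^2: pt8_norm). So tm (PsiP K ψ) 1 v * p^f = (-1)^f. Product over R: tm is multiplicative (tmH), Σ f = d from prod absNorm v = p^(2d) (injectivity of powers of p). t7_arith: purely in the value group Γ (linearly ordered commutative group with zero), P = V(p), 0 < P: S, U, X, Y, D as follows:
S = P^(2g) X', X' = V(Bχ vχ δ/Om^g); see the statement: from V(S - eps U) < P^r, V(U) ≤ P^r: V(S) ≤ P^r and (V(S) = P^r iff V(U) = P^r) (Valuation.map_add_eq_of_lt..). -/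

theorem t7_tm (hp : p.Prime) (hin : Prime (p : 𝓞 F)) (hψ : ψ (Ideal.span {(p : 𝓞 F)}) = -(p : 𝓞 F)) (hR : ∀ v ∈ R, (p : 𝓞 K) ∈ v.asIdeal) (d : ℕ)
    (hd : (∏ v ∈ R, Ideal.absNorm v.asIdeal) = p ^ (2 * d)) :
    tm (PsiP K ψ) 1 (∏ v ∈ R, v.asIdeal) * (p : ℂ) ^ d = (-1) ^ d := by
  have h0 : Ideal.span {(p : 𝓞 F)} ≠ ⊥ := by
    rw [Ne, Ideal.span_singleton_eq_bot]
    exact hin.ne_zero
  have hprime : (Ideal.span {(p : 𝓞 F)}).IsPrime := (Ideal.span_singleton_prime hin.ne_zero).2 hin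
  have hmax : (Ideal.span {(p : 𝓞 F)}).IsMaximal := hprime.isMaximal h0
  have key1 : ∀ v ∈ R, ∃ e : ℕ, Ideal.relNorm (𝓞 F) v.asIdeal = (Ideal.span {(p : 𝓞 F)}) ^ e := by
    intro v hv
    have h1 : Ideal.span {(p : 𝓞 F)} ≤ v.asIdeal.under (𝓞 F) := by
      rw [Ideal.span_singleton_le_iff_mem]
      show algebraMap (𝓞 F) (𝓞 K) (p : 𝓞 F) ∈ v.asIdeal
      rw [map_natCast]
      exact hR v hv
    have h2 : v.asIdeal.under (𝓞 F) ≠ ⊤ := by
      intro h3
      apply v.isPrime.ne_top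
      rw [Ideal.eq_top_iff_one] at h3 ⊢
      have h4 : algebraMap (𝓞 F) (𝓞 K) 1 ∈ v.asIdeal := h3
      rwa [map_one] at h4
    have h3 := hmax.eq_of_le h2 h1
    have h4 : v.asIdeal.LiesOver (Ideal.span {(p : 𝓞 F)}) := ⟨h3⟩
    have h5 := v.isPrime
    exact Ideal.exists_relNorm_eq_pow_of_isPrime v.asIdeal (Ideal.span {(p : 𝓞 F)})
  classical
  have key2 : ∀ S : Finset (HeightOneSpectrum (𝓞 K)), S ⊆ R → ∃ e : ℕ,
      Ideal.relNorm (𝓞 F) (∏ v ∈ S, v.asIdeal) = (Ideal.span {(p : 𝓞 F)}) ^ e := by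
    intro S
    induction S using Finset.induction_on with
    | empty =>
      intro _
      refine ⟨0, ?_⟩
      rw [Finset.prod_empty, map_one, pow_zero]
    | insert v S hv ih =>
      intro hS
      obtain ⟨e, he⟩ := ih fun w hw => hS (Finset.mem_insert_of_mem hw)
      obtain ⟨e', he'⟩ := key1 v (hS (Finset.mem_insert_self _ _))
      refine ⟨e' + e, ?_⟩
      rw [Finset.prod_insert hv, map_mul, he, he', pow_add]
  obtain ⟨e, he⟩ := key2 R (Finset.Subset.refl R)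
  have h5 : Ideal.absNorm (∏ v ∈ R, v.asIdeal) = p ^ (2 * e) := by
    rw [← Ideal.absNorm_relNorm (𝓞 F), he, map_pow, pt8_norm, IQ.deg, ← pow_mul]
  have h6 : Ideal.absNorm (∏ v ∈ R, v.asIdeal) = p ^ (2 * d) := by
    rw [map_prod, hd]
  have h7 : e = d := by
    have h8 := Nat.pow_right_injective hp.two_le (h5.symm.trans h6)
    have h9 : 2 * e = 2 * d := h8
    omega
  have h8 : PsiP K ψ (∏ v ∈ R, v.asIdeal) = (-(p : ℂ)) ^ d := by
    rw [PsiP_apply, he, h7, map_pow, hψ, map_pow, map_neg, map_natCast, map_pow, map_neg, map_natCast]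
  have hp0 : (p : ℂ) ≠ 0 := by exact_mod_cast hp.ne_zero
  unfold tm
  rw [h8, h6, Complex.cpow_neg_one]
  push_cast
  rw [neg_pow, two_mul, pow_add]
  field_simp

theorem t7_cmp {s u e : ℂ} {γ : V.ValueGroup} (he : V.valuation e = 1) (h1 : V.valuation (s - e * u) < γ) (h2 : V.valuation u ≤ γ) :
    V.valuation s ≤ γ ∧ (V.valuation s = γ ↔ V.valuation u = γ) := by
  have h3 : V.valuation (e * u) = V.valuation u := by rw [map_mul, he, one_mul]
  have h4 : s = (s - e * u) + e * u := by ring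
  refine ⟨?_, ?_, ?_⟩
  · rw [h4]
    exact Valuation.map_add_le _ h1.le (by rw [h3]; exact h2)
  · intro h5
    by_contra h6
    have h7 : V.valuation u < γ := lt_of_le_of_ne h2 h6
    have h8 : V.valuation s < γ := by
      rw [h4]
      exact Valuation.map_add_lt _ h1 (by rw [h3]; exact h7)
    exact absurd h5 h8.ne
  · intro h5
    have h6 : V.valuation (s - e * u) < V.valuation (e * u) := by
      rw [h3, h5]
      exact h1
    rw [h4, Valuation.map_add_eq_of_lt_right _ h6, h3, h5]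

end SSR
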