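import Mathlib
import Pool.Agent.Lib.SSR.T5
import Pool.Agent.Lib.SSR.T5B
import Pool.Agent.Lib.SSR.T6
import Pool.Agent.Lib.SSR.T7

open NumberField IsDedekindDomain

namespace SSR

open H55N H55P SSG SSG.E
open H55Z (HasL)

variable {F : Type} [Field F] [NumberField F] [IQ F] {K : Type} [Field K] [NumberField K] [Algebra F K]

/-! Chunk T8 (M). Assembly: the twist theorem. PROOF. m with finrank F K = m + 1. t4_dat gives the data hD, S i: exists_RpU (SSG/E/W11: mK K M * f * b i ≠ ⊥: hD.cl.bot, cd.ne; p^2 ≠ 0). t5_tw: vχ, Bχ; t5_base: B₁, W; t6_cong: δ, d. Put g = m + 1, P = V(p) > 0, y_χ = δ vχ / Om^g, E = prod_(w ∈ W) (1 - tm (PsiP) 1 w).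
The first complex number of t6_cong is s = p^(2g) Bχ y_χ (t5_tw: Σ .. = (p^2)^g Bχ vχ), the second (for v₁ with HasL (PsiP) v₁) u = p^(2g) tm(P_R) B₁ E y₁, y₁ = δ v₁ / Om^g (t5_base), and V(tm(P_R)) P^d = 1 (t7_tm). t7_cmp with e = (-1)^card R, γ = P^(2g-d): V(s) ≤ γ: P^(2g) V(y_χ) ≤ P^(2g-d), i.e.
V(y_χ) P^d ≤ 1; fourth power: V(vχ/Om^g)^4 V(δ)^4 P^(4d) = V(vχ/Om^g)^4 V(discr K) V(absNorm prod)^2 = V(vχ/Om^g)^4 V(cR R) (cR, prod absNorm = p^(2d); pay attention to casts) ≤ 1: first conclusion (LVCI from HasL: unfold). Equality iff V(s) = γ iff V(u) = γ iff V(E y₁) = 1 (V(u) = P^(2g) P^(-d) V(E y₁); V(B₁) = 1;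
here V(u) ≤ γ gives V(E y₁) ≤ 1). t8_tw: needs HasL of the base: hypothesis. t8_base = t8_tw for f = ⊤, R = ∅, χ = oneI ⊤ (t1_triv, t1_one; cR ∅ = discr K): LVCI F V Om (discr K) (PsiP K ψ).
Then tw_main: base value Λ₁(1) = v₁ from t8_base. V(E) ≤ 1 and V(E) = 1 iff all factors have V = 1 (finite product of elements ≤ 1) iff V(1 - conj PsiP w) = 1 for all w ⊇ f (H55P.tm_one, w coprime to (p) since f is: I1.lean). With a = V(v₁/Om^g)^4 V(discr K) ≤ 1 (t8_base) and V(E) ≤ 1: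
V(E v₁/Om^g)^4 V(discr K) = V(E)^4 a = 1 iff a = 1 and V(E) = 1. Uniqueness of the value: LVC for the twisted series is existential: use H55N.ident (as hasL_uniq in SSG/S/A4) to compare Λ 1 of two continuations. -/

theorem t8_pow4 {Γ : Type} [LinearOrderedCommGroupWithZero Γ] (z : Γ) : (z ^ 4 ≤ 1 ↔ z ≤ 1) ∧ (z ^ 4 = 1 ↔ z = 1) := by
  have h1 : z ^ 4 = 1 ↔ z = 1 := by
    have h := pow_left_inj₀ (a := z) (b := 1) zero_le zero_le (n := 4) (by norm_num)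
    rwa [one_pow] at h
  have h2 : z ^ 4 ≤ 1 ↔ z ≤ 1 := by
    have h := pow_le_pow_iff_left₀ (a := z) (b := 1) zero_le zero_le (n := 4) (by norm_num)
    rwa [one_pow] at h
  exact ⟨h2, h1⟩

/-- The first number. -/
theorem t8_s {Γ : Type} [LinearOrderedCommGroupWithZero Γ] {P D x s : Γ} {g d : ℕ} (hP : P ≠ 0) (hd : d ≤ 2 * g)
    (hs : s = D * (P ^ (2 * g) * x)) : (s ≤ P ^ (2 * g - d) ↔ x ^ 4 * (D ^ 4 * (P ^ (2 * d)) ^ 2) ≤ 1) ∧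
      (s = P ^ (2 * g - d) ↔ x ^ 4 * (D ^ 4 * (P ^ (2 * d)) ^ 2) = 1) := by
  have hPd : P ^ d ≠ 0 := pow_ne_zero _ hP
  have hPg : P ^ (2 * g) ≠ 0 := pow_ne_zero _ hP
  have e1 : P ^ (2 * g - d) = P ^ (2 * g) / P ^ d := by
    rw [eq_div_iff hPd, ← pow_add, Nat.sub_add_cancel hd]
  have e2 : x ^ 4 * (D ^ 4 * (P ^ (2 * d)) ^ 2) = (x * D * P ^ d) ^ 4 := by
    have e0 : (P ^ (2 * d)) ^ 2 = (P ^ d) ^ 4 := by
      rw [← pow_mul, ← pow_mul]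
      congr 1
      ring
    rw [e0, mul_pow, mul_pow, mul_assoc]
  have e3 : s = P ^ (2 * g) / P ^ d * (x * D * P ^ d) := by
    rw [hs]
    field_simp
  have h0 : 0 < P ^ (2 * g) / P ^ d := zero_lt_iff.2 (div_ne_zero hPg hPd)
  obtain ⟨h1, h2⟩ := t8_pow4 (x * D * P ^ d)
  rw [e2, h1, h2, e1, e3]
  constructor
  · constructor
    · intro h
      rw [← mul_one (P ^ (2 * g) / P ^ d), mul_assoc, one_mul] at h
      exact le_of_mul_le_mul_left h h0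
    · intro h
      calc P ^ (2 * g) / P ^ d * (x * D * P ^ d) ≤ P ^ (2 * g) / P ^ d * 1 := mul_le_mul_right h _
        _ = P ^ (2 * g) / P ^ d := mul_one _
  · constructor
    · intro h
      exact mul_left_cancel₀ h0.ne' (h.trans (mul_one _).symm)
    · intro h
      rw [h, mul_one]

/-- The second number. -/
theorem t8_u {Γ : Type} [LinearOrderedCommGroupWithZero Γ] {P D y t u : Γ} {g d : ℕ} (hP : P ≠ 0) (hd : d ≤ 2 * g) (ht : t * P ^ d = 1)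
    (hu : u = D * (P ^ (2 * g) * (t * y))) : u = P ^ (2 * g - d) ↔ y ^ 4 * D ^ 4 = 1 := by
  have hPd : P ^ d ≠ 0 := pow_ne_zero _ hP
  have hPg : P ^ (2 * g) ≠ 0 := pow_ne_zero _ hP
  have e1 : P ^ (2 * g - d) = P ^ (2 * g) / P ^ d := by
    rw [eq_div_iff hPd, ← pow_add, Nat.sub_add_cancel hd]
  have e2 : t = 1 / P ^ d := by
    rw [eq_div_iff hPd]
    exact ht
  have e3 : u = P ^ (2 * g) / P ^ d * (y * D) := by
    rw [hu, e2]
    field_simp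
  have h0 : P ^ (2 * g) / P ^ d ≠ 0 := div_ne_zero hPg hPd
  rw [e1, e3, ← mul_pow, (t8_pow4 (y * D)).2]
  constructor
  · intro h
    exact mul_left_cancel₀ h0 (h.trans (mul_one _).symm)
  · intro h
    rw [h, mul_one]

theorem t8_tw {p : ℕ} [Fact p.Prime] {M : Ideal (𝓞 F)} {ψ : Ideal (𝓞 F) →*₀ 𝓞 F} {Om : ℂ} (hS : SCtx p M ψ Om)
    (V : ValuationSubring ℂ) (hV : V.valuation (p : ℂ) < 1) (hNT : NTP K p M ψ V)
    {f : Ideal (𝓞 K)} {R : Finset (HeightOneSpectrum (𝓞 K))} {χ : Ideal (𝓞 K) →*₀ ℂ} (hχ : PCh p f R χ) :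
    ∃ vχ : ℂ, HasL (PsiP K ψ * χ : Ideal (𝓞 K) →*₀ ℂ) vχ ∧
      V.valuation (vχ / Om ^ Module.finrank F K) ^ 4 * V.valuation (cR R) ≤ 1 ∧
      ∃ W : Finset (HeightOneSpectrum (𝓞 K)), (∀ w, w ∈ W ↔ f ≤ w.asIdeal) ∧ ∀ v₁ : ℂ, HasL (PsiP K ψ) v₁ →
        (V.valuation (vχ / Om ^ Module.finrank F K) ^ 4 * V.valuation (cR R) = 1 ↔
          V.valuation ((∏ w ∈ W, (1 - tm (PsiP K ψ) 1 w.asIdeal)) * v₁ / Om ^ Module.finrank F K) ^ 4 *
            V.valuation ((NumberField.discr K : ℤ) : ℂ) = 1) := by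
  classical
  have hp : p.Prime := Fact.out
  obtain ⟨m, hm⟩ : ∃ m, Module.finrank F K = m + 1 :=
    ⟨Module.finrank F K - 1, (Nat.sub_add_cancel Module.finrank_pos).symm⟩
  have hpp0 : (p : 𝓞 F) ≠ 0 := Nat.cast_ne_zero.2 hp.ne_zero
  have hin : Prime (p : 𝓞 F) := (Ideal.span_singleton_prime hpp0).1 hS.inert
  obtain ⟨ι, hι, b, c₀, T, κ, c, q, val, hD⟩ := t4_dat hS hV hNT hm hχ
  have hex : ∀ x, ∃ S : Finset (𝓞 K), RpU (mK K M * f * b x) (c₀ x) (p ^ 2) S := fun x =>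
    SSG.S.exists_RpU _ (mul_ne_zero hD.cl.bot (hD.cl.cd.ne x)) _ _ (pow_ne_zero _ hp.ne_zero)
  choose S hSr using hex
  obtain ⟨Bχ, vχ, hL, hB, e1⟩ := t5_tw hS.hecke hS.cop hm hV hχ hD S hSr
  obtain ⟨B₁, W, hB₁, hW, e2⟩ := t5_base hS.hecke hχ hD S hSr
  obtain ⟨δ, d, hd, hδ0, hδV, hN, h1, h2⟩ := t6_cong hS hV hm hχ hD S hSr
  have hpC : (p : ℂ) ≠ 0 := Nat.cast_ne_zero.2 hp.ne_zero
  have hP : V.valuation (p : ℂ) ≠ 0 := (Valuation.ne_zero_iff _).2 hpC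
  have hd2 : d ≤ 2 * (m + 1) := by omega
  obtain ⟨s, hs⟩ : ∃ s, s = δ / Om ^ (m + 1) * (∑ i, κ i * (χ (b i))⁻¹ * (Ideal.absNorm (b i) : ℂ) *
      ∑ a ∈ S i, χ (Ideal.span {a}) * val i a) := ⟨_, rfl⟩
  obtain ⟨u, hu⟩ : ∃ u, u = δ / Om ^ (m + 1) * (∑ i, κ i * (Ideal.absNorm (b i) : ℂ) *
      ∑ a ∈ S i, indI (∏ v ∈ R, v.asIdeal) a * val i a) := ⟨_, rfl⟩
  rw [← hs, ← hu] at h1
  rw [← hu] at h2
  have hsV : V.valuation s = V.valuation δ * (V.valuation (p : ℂ) ^ (2 * (m + 1)) * V.valuation (vχ / Om ^ (m + 1))) := by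
    have h3 : s = δ * ((p : ℂ) ^ (2 * (m + 1)) * (Bχ * (vχ / Om ^ (m + 1)))) := by
      have h4 : Bχ * vχ = (((p : ℂ) ^ 2)⁻¹) ^ (m + 1) * ∑ i, κ i * (χ (b i))⁻¹ * (Ideal.absNorm (b i) : ℂ) *
          ∑ a ∈ S i, χ (Ideal.span {a}) * val i a := by
        rw [e1, Finset.mul_sum]
        refine Finset.sum_congr rfl fun x _ => ?_
        ring
      have h5 : (∑ i, κ i * (χ (b i))⁻¹ * (Ideal.absNorm (b i) : ℂ) * ∑ a ∈ S i, χ (Ideal.span {a}) * val i a) =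
          (p : ℂ) ^ (2 * (m + 1)) * (Bχ * vχ) := by
        have h6 : (((p : ℂ) ^ 2)⁻¹) ^ (m + 1) = ((p : ℂ) ^ (2 * (m + 1)))⁻¹ := by
          rw [inv_pow, ← pow_mul]
        rw [h4, h6, mul_inv_cancel_left₀ (pow_ne_zero _ hpC)]
      rw [hs, h5]
      ring
    rw [h3, map_mul, map_mul, map_mul, hB, one_mul, map_pow]
  have hcR : V.valuation (cR R) = V.valuation δ ^ 4 * (V.valuation (p : ℂ) ^ (2 * d)) ^ 2 := by
    unfold cR
    rw [hN, map_mul, ← hδV, map_pow]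
    push_cast
    rw [map_pow]
  have hcmp := t7_cmp (V := V) (s := s) (u := u) (e := (-1) ^ R.card)
    (by rw [map_pow, Valuation.map_neg, map_one, one_pow]) h1 h2
  have hs2 := t8_s hP hd2 hsV
  rw [hm, hcR]
  refine ⟨vχ, hL, hs2.1.1 hcmp.1, W, hW, fun v₁ hv₁ => ?_⟩
  have e3 := e2 v₁ hv₁
  obtain ⟨E, hE⟩ : ∃ E, E = ∏ w ∈ W, (1 - tm (PsiP K ψ) 1 w.asIdeal) := ⟨_, rfl⟩
  rw [← hE] at e3 ⊢
  have htm : V.valuation (tm (PsiP K ψ) 1 (∏ v ∈ R, v.asIdeal)) * V.valuation (p : ℂ) ^ d = 1 := by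
    have h3 := congrArg V.valuation (t7_tm hp hin hS.val hχ.abv d hN)
    rw [map_mul, map_pow, map_pow, Valuation.map_neg, map_one, one_pow] at h3
    exact h3
  have huV : V.valuation u = V.valuation δ * (V.valuation (p : ℂ) ^ (2 * (m + 1)) *
      (V.valuation (tm (PsiP K ψ) 1 (∏ v ∈ R, v.asIdeal)) * V.valuation (E * v₁ / Om ^ (m + 1)))) := by
    have h3 : u = δ * ((p : ℂ) ^ (2 * (m + 1)) * (tm (PsiP K ψ) 1 (∏ v ∈ R, v.asIdeal) * (B₁ * (E * v₁ / Om ^ (m + 1))))) := by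
      have h4 : tm (PsiP K ψ) 1 (∏ v ∈ R, v.asIdeal) * (B₁ * (E * v₁)) =
          (((p : ℂ) ^ 2)⁻¹) ^ (m + 1) * ∑ i, κ i * (Ideal.absNorm (b i) : ℂ) *
          ∑ a ∈ S i, indI (∏ v ∈ R, v.asIdeal) a * val i a := by
        rw [e3, Finset.mul_sum]
        refine Finset.sum_congr rfl fun x _ => ?_
        ring
      have h5 : (∑ i, κ i * (Ideal.absNorm (b i) : ℂ) * ∑ a ∈ S i, indI (∏ v ∈ R, v.asIdeal) a * val i a) =
          (p : ℂ) ^ (2 * (m + 1)) * (tm (PsiP K ψ) 1 (∏ v ∈ R, v.asIdeal) * (B₁ * (E * v₁))) := by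
        have h6 : (((p : ℂ) ^ 2)⁻¹) ^ (m + 1) = ((p : ℂ) ^ (2 * (m + 1)))⁻¹ := by
          rw [inv_pow, ← pow_mul]
        rw [h4, h6, mul_inv_cancel_left₀ (pow_ne_zero _ hpC)]
      rw [hu, h5]
      ring
    rw [h3, map_mul, map_mul, map_mul, map_mul, hB₁, one_mul, map_pow]
  have hu2 := t8_u hP hd2 htm huV
  rw [← hδV]
  exact hs2.2.symm.trans (hcmp.2.trans hu2)

end SSR
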