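import Mathlib
import Pool.Agent.Lib.SSR.T8
import Pool.Agent.Lib.H55P.I1

open NumberField IsDedekindDomain

namespace SSR

open H55N H55P
open H55Z (HasL)

variable {F : Type} [Field F] [NumberField F] [IQ F] {K : Type} [Field K] [NumberField K] [Algebra F K]

/-! Chunk T9 (S/M). PROOF from t8_tw: see the second half of the docstring of T8 (t9_base: f = ⊤, R = ∅, χ = oneI ⊤ with t1_triv, t1_one, cR ∅ = discr K: simp [cR]; t9_main: E, H55P.tm_one of I1.lean, uniqueness of the value by H55N.ident). -/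

/-- The value is unique. -/
theorem t9_uniq {h : Ideal (𝓞 K) → ℂ} {v v' : ℂ} (h1 : HasL h v) (h2 : HasL h v') : v = v' := by
  obtain ⟨Λ, a1, a2, rfl⟩ := h1
  obtain ⟨Λ', b1, b2, rfl⟩ := h2
  exact ident Λ Λ' a1 b1 (fun s hs => (a2 s hs).unique (b2 s hs)) 1 (by norm_num)

theorem t9_lvc {V : ValuationSubring ℂ} {Om c : ℂ} {h : Ideal (𝓞 K) →*₀ ℂ} {v : ℂ} (hL : HasL h v) :
    LVC F V Om c h ↔ V.valuation (v / Om ^ Module.finrank F K) ^ 4 * V.valuation c = 1 := by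
  constructor
  · rintro ⟨Λ, a1, a2, a3⟩
    rw [t9_uniq hL ⟨Λ, a1, a2, rfl⟩]
    exact a3
  · intro h1
    obtain ⟨Λ, a1, a2, rfl⟩ := hL
    exact ⟨Λ, a1, a2, h1⟩

theorem t9_pow4 {Γ : Type} [LinearOrderedCommGroupWithZero Γ] {e a : Γ} (he : e ≤ 1) (ha : a ≤ 1) :
    e ^ 4 * a = 1 ↔ a = 1 ∧ e = 1 := by
  constructor
  · intro h
    have h1 : e ^ 4 ≤ 1 := pow_le_one₀ zero_le he
    have h2 : a = 1 := by
      refine le_antisymm ha ?_
      rw [← h]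
      exact mul_le_of_le_one_left' h1
    refine ⟨h2, ?_⟩
    rw [h2, mul_one] at h
    have h3 := pow_left_inj₀ (a := e) (b := 1) zero_le zero_le (n := 4) (by norm_num)
    rw [one_pow] at h3
    exact h3.1 h
  · rintro ⟨h1, h2⟩
    rw [h1, h2, one_pow, one_mul]

theorem t9_prod {Γ : Type} [LinearOrderedCommGroupWithZero Γ] {α : Type} [DecidableEq α] (W : Finset α) (g : α → Γ) (hg : ∀ w ∈ W, g w ≤ 1) :
    (∏ w ∈ W, g w) ≤ 1 ∧ ((∏ w ∈ W, g w) = 1 ↔ ∀ w ∈ W, g w = 1) := by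
  induction W using Finset.induction_on with
  | empty =>
    rw [Finset.prod_empty]
    exact ⟨le_rfl, fun _ w hw => absurd hw (Finset.notMem_empty w), fun _ => rfl⟩
  | insert x W hx ih =>
    obtain ⟨h1, h2⟩ := ih fun w hw => hg w (Finset.mem_insert_of_mem hw)
    have h3 := hg x (Finset.mem_insert_self x W)
    rw [Finset.prod_insert hx]
    refine ⟨mul_le_one' h3 h1, ?_, ?_⟩
    · intro h4
      have h5 : g x = 1 := by
        refine le_antisymm h3 ?_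
        rw [← h4]
        exact mul_le_of_le_one_right' h1
      rw [h5, one_mul] at h4
      intro w hw
      rcases Finset.mem_insert.1 hw with h6 | h6
      · rw [h6]
        exact h5
      · exact h2.1 h4 w h6
    · intro h4
      rw [h4 x (Finset.mem_insert_self x W), h2.2 fun w hw => h4 w (Finset.mem_insert_of_mem hw), mul_one]

theorem t9_base {p : ℕ} [Fact p.Prime] {M : Ideal (𝓞 F)} {ψ : Ideal (𝓞 F) →*₀ 𝓞 F} {Om : ℂ} (hS : SCtx p M ψ Om)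
    (V : ValuationSubring ℂ) (hV : V.valuation (p : ℂ) < 1) (hNT : NTP K p M ψ V) :
    LVCI F V Om ((NumberField.discr K : ℤ) : ℂ) (PsiP K ψ) := by
  have hp : p.Prime := Fact.out
  obtain ⟨vχ, hL, h1, -⟩ := t8_tw hS V hV hNT (t1_triv (K := K) hp)
  rw [t1_one] at hL
  obtain ⟨Λ, a1, a2, rfl⟩ := hL
  refine ⟨Λ, a1, a2, ?_⟩
  have h2 : cR (∅ : Finset (HeightOneSpectrum (𝓞 K))) = ((NumberField.discr K : ℤ) : ℂ) := by
    unfold cR
    rw [Finset.prod_empty, Nat.cast_one, one_pow, mul_one]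
  rw [h2] at h1
  exact h1

theorem t9_main {p : ℕ} [Fact p.Prime] {M : Ideal (𝓞 F)} {ψ : Ideal (𝓞 F) →*₀ 𝓞 F} {Om : ℂ} (hS : SCtx p M ψ Om)
    (V : ValuationSubring ℂ) (hV : V.valuation (p : ℂ) < 1) (hNT : NTP K p M ψ V)
    {f : Ideal (𝓞 K)} {R : Finset (HeightOneSpectrum (𝓞 K))} {χ : Ideal (𝓞 K) →*₀ ℂ} (hχ : PCh p f R χ) :
    LVCI F V Om (cR R) (PsiP K ψ * χ : Ideal (𝓞 K) →*₀ ℂ) ∧
    (LVC F V Om (cR R) (PsiP K ψ * χ : Ideal (𝓞 K) →*₀ ℂ) ↔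
      LVC F V Om ((NumberField.discr K : ℤ) : ℂ) (PsiP K ψ) ∧
        ∀ w : HeightOneSpectrum (𝓞 K), f ≤ w.asIdeal → V.valuation (1 - (starRingEnd ℂ) (PsiP K ψ w.asIdeal)) = 1) := by
  classical
  have hp : p.Prime := Fact.out
  obtain ⟨vχ, hL, h1, W, hW, h2⟩ := t8_tw hS V hV hNT hχ
  have hL0 := hL
  refine ⟨?_, ?_⟩
  · obtain ⟨Λ, a1, a2, rfl⟩ := hL0
    exact ⟨Λ, a1, a2, h1⟩
  obtain ⟨Λ₁, b1, b2, b3⟩ := t9_base hS V hV hNT
  have hL1 : HasL (PsiP K ψ) (Λ₁ 1) := ⟨Λ₁, b1, b2, rfl⟩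
  rw [t9_lvc hL, t9_lvc hL1, h2 _ hL1]
  have hcopw : ∀ w : HeightOneSpectrum (𝓞 K), f ≤ w.asIdeal → IsCoprime w.asIdeal (Ideal.span {(p : 𝓞 K)}) := by
    intro w hw
    rw [Ideal.isCoprime_iff_sup_eq]
    have h3 := Ideal.isCoprime_iff_sup_eq.1 hχ.cop
    exact top_le_iff.1 (h3.symm.le.trans (sup_le_sup_right hw _))
  have htm := fun w (hw : w ∈ W) => tm_one p hp V hV hS.hecke w (hcopw w ((hW w).1 hw))
  obtain ⟨E, hE⟩ : ∃ E, E = ∏ w ∈ W, (1 - tm (PsiP K ψ) 1 w.asIdeal) := ⟨_, rfl⟩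
  have hEV : V.valuation E = ∏ w ∈ W, V.valuation (1 - tm (PsiP K ψ) 1 w.asIdeal) := by
    rw [hE, map_prod]
  obtain ⟨h3, h4⟩ := t9_prod W (fun w => V.valuation (1 - tm (PsiP K ψ) 1 w.asIdeal)) fun w hw => (htm w hw).1
  rw [← hEV] at h3 h4
  rw [← hE]
  have e1 : V.valuation (E * Λ₁ 1 / Om ^ Module.finrank F K) ^ 4 * V.valuation ((NumberField.discr K : ℤ) : ℂ) =
      V.valuation E ^ 4 * (V.valuation (Λ₁ 1 / Om ^ Module.finrank F K) ^ 4 * V.valuation ((NumberField.discr K : ℤ) : ℂ)) := by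
    rw [mul_div_assoc, map_mul, mul_pow, mul_assoc]
  rw [e1, t9_pow4 h3 b3, h4]
  refine and_congr Iff.rfl ⟨fun h5 w hw => ?_, fun h5 w hw => ?_⟩
  · exact (htm w ((hW w).2 hw)).2.1 (h5 w ((hW w).2 hw))
  · exact (htm w hw).2.2 (h5 w ((hW w).1 hw))

end SSR
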