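import Mathlib
import Pool.Agent.Lib.SSR.TD
import Pool.Agent.Lib.SSR.T9

/-! # SSR, part T: the twist theorem (interface; proved by the modules G, H, T) -/

open NumberField IsDedekindDomain WeierstrassCurve

namespace SSR

open H55N H55P

variable {F : Type} [Field F] [NumberField F] [IQ F] {K : Type} [Field K] [NumberField K] [Algebra F K]

/-- Integrality over an arbitrary number field K. -/
theorem tw_base {p : ℕ} [Fact p.Prime] {M : Ideal (𝓞 F)} {ψ : Ideal (𝓞 F) →*₀ 𝓞 F} {Om : ℂ} (hS : SCtx p M ψ Om)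
    (V : ValuationSubring ℂ) (hV : V.valuation (p : ℂ) < 1) (hNT : NTP K p M ψ V) :
    LVCI F V Om ((NumberField.discr K : ℤ) : ℂ) (PsiP K ψ) := by
  exact t9_base hS V hV hNT

/-- Twists by characters with conductor exponent 2 at the primes of R (above p), K arbitrary. -/
theorem tw_main {p : ℕ} [Fact p.Prime] {M : Ideal (𝓞 F)} {ψ : Ideal (𝓞 F) →*₀ 𝓞 F} {Om : ℂ} (hS : SCtx p M ψ Om)
    (V : ValuationSubring ℂ) (hV : V.valuation (p : ℂ) < 1) (hNT : NTP K p M ψ V)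
    {f : Ideal (𝓞 K)} {R : Finset (HeightOneSpectrum (𝓞 K))} {χ : Ideal (𝓞 K) →*₀ ℂ} (hχ : PCh p f R χ) :
    LVCI F V Om (cR R) (PsiP K ψ * χ : Ideal (𝓞 K) →*₀ ℂ) ∧
    (LVC F V Om (cR R) (PsiP K ψ * χ : Ideal (𝓞 K) →*₀ ℂ) ↔
      LVC F V Om ((NumberField.discr K : ℤ) : ℂ) (PsiP K ψ) ∧
        ∀ w : HeightOneSpectrum (𝓞 K), f ≤ w.asIdeal → V.valuation (1 - (starRingEnd ℂ) (PsiP K ψ w.asIdeal)) = 1) := by
  exact t9_main hS V hV hNT hχ

end SSR
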