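import Mathlib
import Pool.Agent.Lib.SSR.RD

open NumberField IsDedekindDomain

namespace SSR

variable {N : Type} [Field N] [NumberField N] {L : Type} [Field L] [NumberField L] [Algebra N L]

/-! Chunk R9 (M). Cyclic extensions of degree p of a field unramified above p have trivial G_2. w prime of L above v, p in v, p not in v^2, s in Gal(L/N) of order p (s^p = 1, s ≠ 1), Gp w 3 s:
contradiction. PROOF. D := (s • ·) - id on 𝓞 L, an additive map. (1) w is totally ramified: Gp w 1 s, the group {t | Gp w 1 t} is not trivial... we only need: (p : 𝓞 L) is in w^p and not in w^(p+1)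
(hypothesis hpw: prove the theorem from it). (2) Let t + 1 be the number with Gp w (t+1) s, not Gp w (t+2) s (r4_ex in R4; here it is a hypothesis), t ≥ 2. For y in w^a: D y in w^(a+t):
let u be in w, not in w^2; D(u) in w^(t+1); D(y z) = D(y) z + (s • y) D(z); by induction D(u^a c) in w^(a+t) for all c; w^a = u^a 𝓞 L + w^(a+t) (u^a has exponent a), and D(w^(a+t)) is in
w^(a+t) (s w = w). (3) D(z) for z := u is not in w^(t+2): otherwise D(w) in w^(t+2) as above, and for y in 𝓞 L: with q = card of 𝓞 L / w, y^q - y in w so D(y) = D(y^q) mod w^(t+2), and D(y^q) is in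
w^(t+2) because D(y^q) = q y^(q-1) D(y) + (terms in D(y)^2 𝓞 L), q in w, D(y) in w^(t+1): so Gp w (t+2) s, contradiction. (4) 0 = s^p • u - u = sum over k = 1..p of binom(p,k) D^k(u) ((1 + D)^p);
D^k(u) in w^(1 + k t) for k ≥ 1 (2); the term k = 1: p D(u) is in w^(p + t + 1), not in w^(p + t + 2) (p exactly in w^p, D(u) exactly in w^(t+1)); the terms 2 ≤ k < p: p | binom, in w^(p + 1 + 2t);
the term k = p: in w^(1 + p t). t ≥ 2 and p ≥ 3: 1 + p t ≥ p + t + 2 iff (p - 1)(t - 1) ≥ 2 ok. 1 + p + 2 t ≥ p + t + 2. So p D(u) in w^(p+t+2), contradiction. -/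

/-- The additive endomorphism s - 1 of 𝓞 L. -/
noncomputable def r9_S (s : L ≃ₐ[N] L) : AddMonoid.End (𝓞 L) := DistribSMul.toAddMonoidHom (𝓞 L) s

noncomputable def r9_D (s : L ≃ₐ[N] L) : AddMonoid.End (𝓞 L) := r9_S s - 1

omit [NumberField N] [NumberField L] in
theorem r9_S_apply (s : L ≃ₐ[N] L) (x : 𝓞 L) : r9_S s x = s • x := rfl

omit [NumberField N] [NumberField L] in
theorem r9_D_apply (s : L ≃ₐ[N] L) (x : 𝓞 L) : r9_D s x = s • x - x := rfl

omit [NumberField L] in
theorem r9_mul (f g : AddMonoid.End (𝓞 L)) (x : 𝓞 L) : (f * g) x = f (g x) := rfl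

omit [NumberField N] [NumberField L] in
theorem r9_S_pow (s : L ≃ₐ[N] L) (k : ℕ) (x : 𝓞 L) : (r9_S s ^ k) x = (s ^ k) • x := by
  induction k generalizing x with
  | zero => simp
  | succ k ih => rw [pow_succ, pow_succ, mul_smul, r9_mul, ih, r9_S_apply]

/-- s - 1 raises the filtration by t. -/
theorem r9_step (w : Ideal (𝓞 L)) (s : L ≃ₐ[N] L) (t : ℕ) (h1 : Gp w (t + 1) s) (a : ℕ) :
    (∀ x ∈ w ^ a, s • x ∈ w ^ a) ∧ ∀ x ∈ w ^ a, r9_D s x ∈ w ^ (a + t) := by
  induction a with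
  | zero =>
    refine ⟨fun x _ => by simp, fun x _ => ?_⟩
    rw [r9_D_apply]
    exact Ideal.pow_le_pow_right (by omega) (h1 x)
  | succ a ih =>
    have hsw : ∀ x ∈ w, s • x ∈ w := fun x hx => by
      have h := h1 x
      have h2 : s • x = (s • x - x) + x := by ring
      rw [h2]
      exact w.add_mem (Ideal.pow_le_self (by omega) h) hx
    constructor
    · intro x hx
      rw [pow_succ'] at hx ⊢
      refine Submodule.mul_induction_on hx ?_ ?_
      · intro y hy z hz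
        rw [smul_mul']
        exact Ideal.mul_mem_mul (hsw y hy) (ih.1 z hz)
      · intro y z hy hz
        rw [smul_add]
        exact Ideal.add_mem _ hy hz
    · intro x hx
      rw [pow_succ'] at hx
      refine Submodule.mul_induction_on hx ?_ ?_
      · intro y hy z hz
        have h3 : r9_D s (y * z) = r9_D s y * z + (s • y) * r9_D s z := by
          rw [r9_D_apply, r9_D_apply, r9_D_apply, smul_mul']
          ring
        rw [h3]
        refine Ideal.add_mem _ ?_ ?_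
        · have h4 : w ^ (a + 1 + t) = w ^ (t + 1) * w ^ a := by rw [← pow_add]; congr 1; omega
          rw [h4]
          exact Ideal.mul_mem_mul (h1 y) hz
        · have h4 : w ^ (a + 1 + t) = w * w ^ (a + t) := by rw [← pow_succ']; congr 1; omega
          rw [h4]
          exact Ideal.mul_mem_mul (hsw y hy) (ih.2 z hz)
      · intro y z hy hz
        rw [map_add]
        exact Ideal.add_mem _ hy hz

theorem r9_iter (w : Ideal (𝓞 L)) (s : L ≃ₐ[N] L) (t : ℕ) (h1 : Gp w (t + 1) s) (x : 𝓞 L) (hx : x ∈ w) (k : ℕ) :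
    (r9_D s ^ k) x ∈ w ^ (1 + k * t) := by
  induction k with
  | zero => simpa using hx
  | succ k ih =>
    rw [pow_succ', r9_mul]
    have h := (r9_step w s t h1 (1 + k * t)).2 _ ih
    have h4 : 1 + (k + 1) * t = 1 + k * t + t := by ring
    rw [h4]
    exact h

/-- The value at an element of w determines everything. -/
theorem r9_all (w : HeightOneSpectrum (𝓞 L)) (s : L ≃ₐ[N] L) (t : ℕ) (h1 : Gp w.asIdeal (t + 1) s)
    (h2 : ∀ x ∈ w.asIdeal, r9_D s x ∈ w.asIdeal ^ (t + 2)) : Gp w.asIdeal (t + 2) s := by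
  intro y
  have hmax : w.asIdeal.IsMaximal := w.isMaximal
  letI : Field (𝓞 L ⧸ w.asIdeal) := Ideal.Quotient.field w.asIdeal
  haveI : Finite (𝓞 L ⧸ w.asIdeal) := Ideal.finiteQuotientOfFreeOfNeBot _ w.ne_bot
  letI : Fintype (𝓞 L ⧸ w.asIdeal) := Fintype.ofFinite _
  set q := Fintype.card (𝓞 L ⧸ w.asIdeal) with hq
  have hyq : y ^ q - y ∈ w.asIdeal := by
    rw [← Ideal.Quotient.eq, map_pow]
    exact FiniteField.pow_card _
  have hqw : (q : 𝓞 L) ∈ w.asIdeal := by
    rw [← Ideal.Quotient.eq_zero_iff_mem, map_natCast]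
    exact Nat.cast_card_eq_zero _
  have h3 := h2 _ hyq
  rw [map_sub] at h3
  have h4 : r9_D s (y ^ q) ∈ w.asIdeal ^ (t + 2) := by
    rw [r9_D_apply, smul_pow']
    have hd := h1 y
    set d := s • y - y with hd'
    have h5 : s • y = y + d := by rw [hd']; ring
    rw [h5]
    obtain ⟨c, hc⟩ := (Polynomial.binomExpansion (Polynomial.X ^ q : Polynomial (𝓞 L)) y d)
    simp only [Polynomial.eval_pow, Polynomial.eval_X, Polynomial.derivative_X_pow, Polynomial.eval_mul, Polynomial.eval_C,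
      Polynomial.eval_natCast] at hc
    have h6 : (y + d) ^ q - y ^ q = q * y ^ (q - 1) * d + c * d ^ 2 := by
      rw [hc]; ring
    rw [h6]
    refine Ideal.add_mem _ ?_ ?_
    · have h7 : (q : 𝓞 L) * y ^ (q - 1) * d = y ^ (q - 1) * (q * d) := by ring
      rw [h7]
      refine Ideal.mul_mem_left _ _ ?_
      have h8 : w.asIdeal ^ (t + 2) = w.asIdeal * w.asIdeal ^ (t + 1) := by rw [← pow_succ']
      rw [h8]
      exact Ideal.mul_mem_mul hqw hd
    · refine Ideal.mul_mem_left _ _ ?_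
      have h9 : d ^ 2 ∈ (w.asIdeal ^ (t + 1)) ^ 2 := Ideal.pow_mem_pow hd 2
      rw [← pow_mul] at h9
      exact Ideal.pow_le_pow_right (by omega) h9
  have h10 := Ideal.sub_mem _ h4 h3
  rw [sub_sub_cancel] at h10
  exact h10

theorem r9_cyc (p : ℕ) (hp : p.Prime) (h3 : 3 ≤ p) (w : HeightOneSpectrum (𝓞 L)) (hpw : (p : 𝓞 L) ∈ w.asIdeal ^ p)
    (hpw' : (p : 𝓞 L) ∉ w.asIdeal ^ (p + 1)) (s : L ≃ₐ[N] L) (hs : s ^ p = 1) (t : ℕ) (ht : 2 ≤ t) (h1 : Gp w.asIdeal (t + 1) s) :
    Gp w.asIdeal (t + 2) s := by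
  refine r9_all w s t h1 fun u hu => ?_
  have hS : r9_S s = r9_D s + 1 := by rw [r9_D]; abel
  have h4 : (r9_S s ^ p) u = u := by rw [r9_S_pow, hs, one_smul]
  rw [hS, (Commute.one_right (r9_D s)).add_pow'] at h4
  have h5 : ∑ k ∈ Finset.range (p + 1), p.choose k • ((r9_D s ^ k) u) = u := by
    have h6 := h4
    rw [Finset.Nat.sum_antidiagonal_eq_sum_range_succ_mk] at h6
    simp only [one_pow, mul_one] at h6
    have h7 : ∀ (t : Finset ℕ) (f : ℕ → AddMonoid.End (𝓞 L)), (∑ k ∈ t, f k) u = ∑ k ∈ t, f k u := fun t f => by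
      induction t using Finset.induction_on with
      | empty => simp
      | insert a t ha ih => rw [Finset.sum_insert ha, Finset.sum_insert ha, ← ih]; rfl
    rw [h7] at h6
    exact h6
  obtain ⟨r, rfl⟩ : ∃ r, p = r + 1 := ⟨p - 1, by omega⟩
  rw [Finset.sum_range_succ', Finset.sum_range_succ'] at h5
  have h6 : ∑ k ∈ Finset.range r, (r + 1).choose (k + 1 + 1) • (r9_D s ^ (k + 1 + 1)) u ∈ w.asIdeal ^ (r + 1 + t + 2) := by
    refine Ideal.sum_mem _ fun k hk => ?_
    have hk' := Finset.mem_range.1 hk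
    have hD := r9_iter w.asIdeal s t h1 u hu (k + 1 + 1)
    rcases Nat.lt_or_ge (k + 1 + 1) (r + 1) with hlt | hge
    · obtain ⟨c, hc⟩ := hp.dvd_choose_self (by omega : k + 1 + 1 ≠ 0) hlt
      rw [hc, nsmul_eq_mul, Nat.cast_mul]
      have h8 : ((r + 1 : ℕ) : 𝓞 L) * (c : 𝓞 L) * (r9_D s ^ (k + 1 + 1)) u = (c : 𝓞 L) * (((r + 1 : ℕ) : 𝓞 L) * (r9_D s ^ (k + 1 + 1)) u) := by ring
      rw [h8]
      refine Ideal.mul_mem_left _ _ ?_
      have h9 := Ideal.mul_mem_mul hpw hD
      rw [← pow_add] at h9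
      refine Ideal.pow_le_pow_right ?_ h9
      have : 2 * t ≤ (k + 1 + 1) * t := Nat.mul_le_mul_right t (by omega)
      omega
    · rw [nsmul_eq_mul]
      refine Ideal.mul_mem_left _ _ ?_
      refine Ideal.pow_le_pow_right ?_ hD
      have h10 : k + 1 + 1 = r + 1 := by omega
      rw [h10]
      obtain ⟨t', rfl⟩ : ∃ t', t = t' + 2 := ⟨t - 2, by omega⟩
      obtain ⟨r', rfl⟩ : ∃ r', r = r' + 2 := ⟨r - 2, by omega⟩
      nlinarith [Nat.zero_le (r' * t')]
  have h7 : ((r + 1 : ℕ) : 𝓞 L) * r9_D s u ∈ w.asIdeal ^ (r + 1 + t + 2) := by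
    have h8 : ((r + 1 : ℕ) : 𝓞 L) * r9_D s u = - ∑ k ∈ Finset.range r, (r + 1).choose (k + 1 + 1) • (r9_D s ^ (k + 1 + 1)) u := by
      have h9 : (r + 1).choose (0 + 1) • (r9_D s ^ (0 + 1)) u = ((r + 1 : ℕ) : 𝓞 L) * r9_D s u := by
        rw [zero_add, Nat.choose_one_right, pow_one, nsmul_eq_mul]
      have h10 : (r + 1).choose 0 • (r9_D s ^ 0) u = u := by simp
      rw [h9, h10] at h5
      linear_combination h5
    rw [h8]
    exact Ideal.neg_mem_iff _ |>.2 h6
  by_contra hcon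
  have ha : ((r + 1 : ℕ) : 𝓞 L) ≠ 0 := fun h => hpw' (by rw [h]; exact Ideal.zero_mem _)
  have hb : r9_D s u ≠ 0 := fun h => hcon (by rw [h]; exact Ideal.zero_mem _)
  have ha' : Ideal.span {((r + 1 : ℕ) : 𝓞 L)} ≠ ⊥ := by rwa [Ne, Ideal.span_singleton_eq_bot]
  have hb' : Ideal.span {r9_D s u} ≠ ⊥ := by rwa [Ne, Ideal.span_singleton_eq_bot]
  have h11 := (le_iff_ex w (mul_ne_zero ha' hb') (r + 1 + t + 2)).1 (by
    rw [Ideal.span_singleton_mul_span_singleton, Ideal.span_singleton_le_iff_mem]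
    exact h7)
  rw [ex_mul w ha' hb'] at h11
  have h12 : ¬ (r + 1 + 1) ≤ ex w (Ideal.span {((r + 1 : ℕ) : 𝓞 L)}) := fun h =>
    hpw' ((Ideal.span_singleton_le_iff_mem _).1 ((le_iff_ex w ha' _).2 h))
  have h13 : ¬ (t + 2) ≤ ex w (Ideal.span {r9_D s u}) := fun h =>
    hcon ((Ideal.span_singleton_le_iff_mem _).1 ((le_iff_ex w hb' _).2 h))
  omega

end SSR
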