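import Mathlib
import Pool.Agent.Lib.SSR.R8
import Pool.Agent.Lib.SSR.R9

open NumberField IsDedekindDomain

namespace SSR

variable {N : Type} [Field N] [NumberField N] {L : Type} [Field L] [NumberField L] [Algebra N L]

/-! Chunk R10 (M). Elementary abelian p-extensions of fields unramified above p have trivial G_2. PROOF of r10_cyc ([L : N] = p): suppose s ≠ 1, Gp w 3 s. Then Gp w 1 s, so {s | Gp w 1 s} is a
nontrivial subgroup-like set: by r6_card e(w/v) = its cardinality is ≥ 2 and divides p (Ideal.ramificationIdx divides the degree in the Galois case: e f r = p; or: the set is a subgroup of a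
group of order p), so e = p; p is in v and not in v^2: exponent of w in p 𝓞 L = e * 1 = p (r8_map with the ideal (p)). r9_cyc with induction on t: Gp w n s for all n, contradiction to r4_ex.
PROOF of r10_elem. Suppose s ≠ 1 and Gp Q 3 s. G = Gal(L/N) is an elementary abelian group: there is a subgroup H of index p with s not in H (F_p-vector space: a linear form with s ↦ 1; or by
maximality: a subgroup H maximal among those not containing s: G/H has ... simplest: G as a module over ZMod p (AddCommGroup.zmodModule on Additive G), a linear functional f with f s ≠ 0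
(exists_dual_forall_apply_ne_zero / Module.exists_dual_ne_zero..), H = ker). M := fixed field of H, M/N Galois of degree p, w := prime of M below Q. By r10_cyc G2 N w holds for M/N. Tower:
r8_tower for N, M, L. ex w (different N M) = 2 (e(w/N) - 1) (r7_ex with k = 1). Hilbert (r4_hilb) for L/N and L/M with i s (Gp Q (i s) s, not Gp Q (i s + 1) s; for s in H the same number for
the restriction): the sum over G minus 1 is the sum over H minus 1 plus the sum over G minus H, so the sum of i(g) over g in G, not in H = e(Q/M) * 2 (e(w/N) - 1) = 2 (e(Q/N) - e(Q/M))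
= 2 * #{g in G, not in H, Gp Q 1 g} (r6_card). But i(g) ≥ 2 if Gp Q 1 g (r5_wild with k = 1, hexp), i(g) = 0 otherwise, and i(s) ≥ 3: strict inequality, contradiction. -/

theorem r10_mono (Q : Ideal (𝓞 L)) {m n : ℕ} (h : m ≤ n) (s : L ≃ₐ[N] L) (hs : Gp Q n s) : Gp Q m s :=
  fun x => Ideal.pow_le_pow_right h (hs x)

/-- the prime below -/
theorem r10_below (Q : HeightOneSpectrum (𝓞 L)) : ∃ v : HeightOneSpectrum (𝓞 N), Q.asIdeal.under (𝓞 N) = v.asIdeal := by
  have h1 : (Q.asIdeal.under (𝓞 N)).IsPrime := inferInstance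
  have h2 : Q.asIdeal.under (𝓞 N) ≠ ⊥ := by
    intro h
    exact Q.ne_bot (Ideal.eq_bot_of_comap_eq_bot h)
  exact ⟨⟨Q.asIdeal.under (𝓞 N), h1, h2⟩, rfl⟩

theorem r10_cyc [IsGalois N L] (p : ℕ) (hp : p.Prime) (h3 : 3 ≤ p) (hn : Module.finrank N L = p) (w : HeightOneSpectrum (𝓞 L))
    (hpw : (p : 𝓞 L) ∈ w.asIdeal) (hur : (p : 𝓞 N) ∉ (w.asIdeal.under (𝓞 N)) ^ 2) : G2 N w.asIdeal := by
  intro s hs
  by_contra hs1
  have hcard : Nat.card (L ≃ₐ[N] L) = p := by rw [IsGalois.card_aut_eq_finrank, hn]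
  have hsp : s ^ p = 1 := by rw [← hcard]; exact pow_card_eq_one'
  -- the inertia group is everything
  have he : w.asIdeal.ramificationIdx (𝓞 N) = p := by
    have h1 : Nat.card (w.asIdeal.toAddSubgroup.inertia (L ≃ₐ[N] L)) = w.asIdeal.ramificationIdx (𝓞 N) := by
      rw [← r6_card (N := N) w]
      exact Nat.card_congr (Equiv.subtypeEquivRight fun g => by
        rw [AddSubgroup.mem_inertia]
        unfold Gp
        rw [pow_one]
        exact Iff.rfl)
    have h2 : Nat.card (w.asIdeal.toAddSubgroup.inertia (L ≃ₐ[N] L)) ∣ p := by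
      rw [← hcard]; exact Subgroup.card_subgroup_dvd_card _
    rcases (Nat.dvd_prime hp).1 h2 with h | h
    · exfalso
      have h4 := (Subgroup.card_eq_one (H := w.asIdeal.toAddSubgroup.inertia (L ≃ₐ[N] L))).1 h
      have h5 : s ∈ w.asIdeal.toAddSubgroup.inertia (L ≃ₐ[N] L) := by
        rw [AddSubgroup.mem_inertia]
        intro x
        have := r10_mono w.asIdeal (show 1 ≤ 3 by norm_num) s hs x
        rw [pow_one] at this
        exact this
      rw [h4, Subgroup.mem_bot] at h5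
      exact hs1 h5
    · rw [← h1, h]
  obtain ⟨v, hv⟩ := r10_below (N := N) w
  have hp0 : (p : 𝓞 N) ≠ 0 := by exact_mod_cast hp.ne_zero
  have hp0' : (p : 𝓞 L) ≠ 0 := by exact_mod_cast hp.ne_zero
  have hI : Ideal.span {(p : 𝓞 N)} ≠ ⊥ := by rw [Ne, Ideal.span_singleton_eq_bot]; exact hp0
  have hI' : Ideal.span {(p : 𝓞 L)} ≠ ⊥ := by rw [Ne, Ideal.span_singleton_eq_bot]; exact hp0'
  have hex : ex v (Ideal.span {(p : 𝓞 N)}) = 1 := by
    have h1 : 1 ≤ ex v (Ideal.span {(p : 𝓞 N)}) := by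
      rw [← le_iff_ex v hI, pow_one, Ideal.span_singleton_le_iff_mem, ← hv, Ideal.under_def, Ideal.mem_comap, map_natCast]
      exact hpw
    have h2 : ¬ 2 ≤ ex v (Ideal.span {(p : 𝓞 N)}) := by
      rw [← le_iff_ex v hI, Ideal.span_singleton_le_iff_mem, ← hv]
      exact hur
    omega
  have hexL : ex w (Ideal.span {(p : 𝓞 L)}) = p := by
    have h1 := r8_map w v hv (Ideal.span {(p : 𝓞 N)}) hI
    rw [Ideal.map_span, Set.image_singleton, map_natCast, he, hex, mul_one] at h1
    exact h1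
  have hpw1 : (p : 𝓞 L) ∈ w.asIdeal ^ p := by
    rw [← Ideal.span_singleton_le_iff_mem, le_iff_ex w hI', hexL]
  have hpw2 : (p : 𝓞 L) ∉ w.asIdeal ^ (p + 1) := by
    rw [← Ideal.span_singleton_le_iff_mem, le_iff_ex w hI', hexL]
    omega
  have hall : ∀ n : ℕ, Gp w.asIdeal (n + 3) s := by
    intro n
    induction n with
    | zero => exact hs
    | succ n ih =>
      have := r9_cyc p hp h3 w hpw1 hpw2 s hsp (n + 2) (by omega) ih
      exact this
  obtain ⟨n, -, hn2⟩ := r4_ex w s hs1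
  exact hn2 (r10_mono w.asIdeal (by omega) s (hall n))

/-- the additive form -/
theorem r10_suba {A : Type} [AddCommGroup A] (p : ℕ) [Fact p.Prime] (hexp : ∀ a : A, p • a = 0)
    (s : A) (hs : s ≠ 0) : ∃ f : A →+ ZMod p, f s ≠ 0 ∧ Function.Surjective f := by
  letI : Module (ZMod p) A := AddCommGroup.zmodModule (n := p) hexp
  have h1 : ∃ f : A →ₗ[ZMod p] ZMod p, f s ≠ 0 := by
    by_contra hno
    push Not at hno
    exact hs ((Module.forall_dual_apply_eq_zero_iff (ZMod p) s).1 hno)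
  obtain ⟨f, hf⟩ := h1
  refine ⟨f.toAddMonoidHom, hf, fun y => ⟨(y * (f s)⁻¹) • s, ?_⟩⟩
  show f ((y * (f s)⁻¹) • s) = y
  rw [map_smul, smul_eq_mul, mul_assoc, inv_mul_cancel₀ hf, mul_one]

/-- the commutative form -/
theorem r10_subc {G : Type} [CommGroup G] [Finite G] (p : ℕ) [Fact p.Prime] (hexp : ∀ a : G, a ^ p = 1)
    (s : G) (hs : s ≠ 1) : ∃ H : Subgroup G, s ∉ H ∧ H.index = p := by
  obtain ⟨f, hf, hsurf⟩ := r10_suba (A := Additive G) p (fun x => congrArg Additive.ofMul (hexp x.toMul))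
    (Additive.ofMul s) (by simpa using hs)
  let F : G →* Multiplicative (ZMod p) := AddMonoidHom.toMultiplicativeRight f
  have hF : ∀ g, F g = Multiplicative.ofAdd (f (Additive.ofMul g)) := fun g => rfl
  refine ⟨F.ker, ?_, ?_⟩
  · rw [MonoidHom.mem_ker, hF]
    intro h
    exact hf (by simpa using h)
  · rw [Subgroup.index_ker]
    have hsur : Function.Surjective F := by
      intro y
      obtain ⟨x, hx⟩ := hsurf y.toAdd
      exact ⟨x.toMul, by rw [hF]; exact congrArg Multiplicative.ofAdd hx⟩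
    rw [MonoidHom.range_eq_top.2 hsur]
    simp

/-- a subgroup of index p not containing a given element of an elementary abelian group -/
theorem r10_sub {G : Type} [Group G] [Finite G] (p : ℕ) (hp : p.Prime) (hab : ∀ a b : G, a * b = b * a) (hexp : ∀ a : G, a ^ p = 1)
    (s : G) (hs : s ≠ 1) : ∃ H : Subgroup G, s ∉ H ∧ H.index = p := by
  have : Fact p.Prime := ⟨hp⟩
  let _ : CommGroup G := { (inferInstance : Group G) with mul_comm := hab }
  exact r10_subc p hexp s hs

theorem r10_elem [IsGalois N L] (p : ℕ) (hp : p.Prime) (h3 : 3 ≤ p) (hab : ∀ a b : L ≃ₐ[N] L, a * b = b * a) (hexp : ∀ a : L ≃ₐ[N] L, a ^ p = 1)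
    (Q : HeightOneSpectrum (𝓞 L)) (hpQ : (p : 𝓞 L) ∈ Q.asIdeal) (hur : (p : 𝓞 N) ∉ (Q.asIdeal.under (𝓞 N)) ^ 2) : G2 N Q.asIdeal := by
  classical
  intro s hs
  by_contra hs1
  obtain ⟨H, hsH, hind⟩ := r10_sub p hp hab hexp s hs1
  haveI : H.Normal := ⟨fun n hn g => by rw [hab g n, mul_assoc, mul_inv_cancel, mul_one]; exact hn⟩
  let M := IntermediateField.fixedField H
  haveI : IsGalois N M := IsGalois.of_fixedField_normal_subgroup H
  have hfix : M.fixingSubgroup = H := IntermediateField.fixingSubgroup_fixedField H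
  have hdeg : Module.finrank N M = p := by
    rw [IntermediateField.finrank_eq_fixingSubgroup_index, hfix, hind]
  haveI : IsGalois M L := IsGalois.tower_top_of_isGalois N M L
  obtain ⟨w, hw⟩ := r10_below (N := M) Q
  have hwN : w.asIdeal.under (𝓞 N) = Q.asIdeal.under (𝓞 N) := by
    rw [← hw, Ideal.under_under]
  have hpw : (p : 𝓞 M) ∈ w.asIdeal := by
    rw [← hw, Ideal.under_def, Ideal.mem_comap, map_natCast]
    exact hpQ
  have hG2 : G2 N w.asIdeal := r10_cyc p hp h3 hdeg w hpw (by rw [hwN]; exact hur)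
  have hexw : ex w (differentIdeal (𝓞 N) (𝓞 M)) = 2 * (w.asIdeal.ramificationIdx (𝓞 N) - 1) :=
    r7_ex p hp 1 (by rw [hdeg, pow_one]) w hpw hG2
  have htow := r8_tower (N := N) Q w hw
  -- Hilbert
  have hch : ∀ g : L ≃ₐ[N] L, ∃ n : ℕ, g ≠ 1 → Gp Q.asIdeal n g ∧ ¬ Gp Q.asIdeal (n + 1) g := by
    intro g
    by_cases hg : g = 1
    · exact ⟨0, fun h => absurd hg h⟩
    · obtain ⟨n, hn⟩ := r4_ex Q g hg
      exact ⟨n, fun _ => hn⟩
  choose i hi using hch
  have hact : ∀ (g : L ≃ₐ[M] L) (x : 𝓞 L), (g.restrictScalars N) • x = g • x := by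
    intro g x
    exact RingOfIntegers.ext rfl
  have hGp : ∀ (g : L ≃ₐ[M] L) (n : ℕ), Gp Q.asIdeal n (g.restrictScalars N) ↔ Gp Q.asIdeal n g := by
    intro g n
    unfold Gp
    simp only [hact]
  have hres1 : ∀ g : L ≃ₐ[M] L, g.restrictScalars N = 1 → g = 1 := by
    intro g hg
    ext x
    have := DFunLike.congr_fun hg x
    exact this
  have hinj : Function.Injective (fun g : L ≃ₐ[M] L => g.restrictScalars N) := by
    intro g g' h
    ext x
    have := DFunLike.congr_fun h x
    exact this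
  have hN := r4_hilb (N := N) Q i hi
  have hM := r4_hilb (N := M) Q (fun g => i (g.restrictScalars N)) (fun g hg => by
    have h1 := hi (g.restrictScalars N) (fun h => hg (hres1 g h))
    rw [hGp, hGp] at h1
    exact h1)
  -- the index of ramification as a sum
  have hcN : Q.asIdeal.ramificationIdx (𝓞 N) = ∑ g : L ≃ₐ[N] L, (if Gp Q.asIdeal 1 g then 1 else 0) := by
    rw [← r6_card (N := N) Q, Nat.card_eq_fintype_card, Fintype.card_subtype, Finset.card_filter]
  have hcM : Q.asIdeal.ramificationIdx (𝓞 M) =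
      ∑ g : L ≃ₐ[M] L, (if Gp Q.asIdeal 1 (g.restrictScalars N) then 1 else 0) := by
    rw [← r6_card (N := M) Q, Nat.card_eq_fintype_card, Fintype.card_subtype, Finset.card_filter]
    exact Finset.sum_congr rfl fun g _ => by simp only [hGp]
  let φ : (L ≃ₐ[M] L) ↪ (L ≃ₐ[N] L) := ⟨fun g => g.restrictScalars N, hinj⟩
  let R : Finset (L ≃ₐ[N] L) := Finset.univ \ (Finset.univ.map φ)
  have hsplit : ∀ c : (L ≃ₐ[N] L) → ℕ,
      ∑ g : L ≃ₐ[N] L, c g = ∑ g : L ≃ₐ[M] L, c (g.restrictScalars N) + ∑ g ∈ R, c g := by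
    intro c
    have h1 := Finset.sum_sdiff (f := c) (Finset.subset_univ (Finset.univ.map φ))
    rw [Finset.sum_map] at h1
    rw [← h1, add_comm]
    rfl
  have hsplit1 : ∑ g ∈ Finset.univ.erase (1 : L ≃ₐ[N] L), i g =
      ∑ g ∈ Finset.univ.erase (1 : L ≃ₐ[M] L), i (g.restrictScalars N) + ∑ g ∈ R, i g := by
    have h1 := Finset.add_sum_erase Finset.univ i (Finset.mem_univ (1 : L ≃ₐ[N] L))
    have h2 := Finset.add_sum_erase Finset.univ (fun g : L ≃ₐ[M] L => i (g.restrictScalars N)) (Finset.mem_univ (1 : L ≃ₐ[M] L))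
    have h3 := hsplit i
    have h4 : (1 : L ≃ₐ[M] L).restrictScalars N = 1 := rfl
    simp only [h4] at h2
    omega
  have hsR : s ∈ R := by
    rw [Finset.mem_sdiff]
    refine ⟨Finset.mem_univ _, ?_⟩
    rw [Finset.mem_map]
    rintro ⟨g, -, hg⟩
    apply hsH
    rw [← hfix, ← hg, IntermediateField.mem_fixingSubgroup_iff]
    intro x hx
    exact g.commutes ⟨x, hx⟩
  have hR1 : ∀ g ∈ R, g ≠ 1 := by
    intro g hg h
    rw [Finset.mem_sdiff, Finset.mem_map] at hg
    exact hg.2 ⟨1, Finset.mem_univ _, h.symm⟩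
  have hlow : ∀ g ∈ R, (if Gp Q.asIdeal 1 g then 1 else 0) * 2 ≤ i g := by
    intro g hg
    by_cases h : Gp Q.asIdeal 1 g
    · rw [if_pos h]
      have h2 := r5_wild p hp Q hpQ g 1 (by rw [pow_one]; exact hexp g) h
      have h5 := (hi g (hR1 g hg)).2
      by_contra hlt
      exact h5 (r10_mono Q.asIdeal (by omega) g h2)
    · rw [if_neg h]; omega
  have hlows : (if Gp Q.asIdeal 1 s then 1 else 0) * 2 < i s := by
    have h5 := (hi s hs1).2
    have h6 : 3 ≤ i s := by
      by_contra hlt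
      exact h5 (r10_mono Q.asIdeal (by omega) s hs)
    split_ifs <;> omega
  have hlt : ∑ g ∈ R, (if Gp Q.asIdeal 1 g then 1 else 0) * 2 < ∑ g ∈ R, i g :=
    Finset.sum_lt_sum hlow ⟨s, hsR, hlows⟩
  rw [← Finset.sum_mul] at hlt
  have hs3 := hsplit (fun g => if Gp Q.asIdeal 1 g then 1 else 0)
  rw [← hcN, ← hcM] at hs3
  -- the tower of ramification indices
  haveI : Q.asIdeal.LiesOver w.asIdeal := ⟨hw.symm⟩
  have hmul : Q.asIdeal.ramificationIdx (𝓞 N) = w.asIdeal.ramificationIdx (𝓞 N) * Q.asIdeal.ramificationIdx (𝓞 M) :=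
    Ideal.ramificationIdx_tower (R := 𝓞 N) w.asIdeal Q.asIdeal
  have hew : 1 ≤ w.asIdeal.ramificationIdx (𝓞 N) := by
    by_contra h
    have h0 : w.asIdeal.ramificationIdx (𝓞 N) = 0 := by omega
    rw [h0, zero_mul] at hmul
    have h7 := r6_card (N := N) Q
    rw [hmul, Nat.card_eq_zero] at h7
    rcases h7 with h7 | h7
    · exact h7.elim ⟨1, fun x => by rw [one_smul, sub_self]; exact Ideal.zero_mem _⟩
    · exact h7.not_finite inferInstance
  rw [hN, hM, hexw] at htow
  generalize Q.asIdeal.ramificationIdx (𝓞 N) = eN at *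
  generalize Q.asIdeal.ramificationIdx (𝓞 M) = eM at *
  generalize w.asIdeal.ramificationIdx (𝓞 N) = ew at *
  obtain ⟨k, rfl⟩ : ∃ k, ew = k + 1 := ⟨ew - 1, by omega⟩
  have h9 : eM * (2 * (k + 1 - 1)) = 2 * (eM * k) := by rw [Nat.add_sub_cancel]; ring
  have h10 : (k + 1) * eM = eM * k + eM := by ring
  rw [h9] at htow
  rw [h10] at hmul
  omega

end SSR
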